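import Mathlib

/-!
# MP_270856_an: a counterexample (uniform Roe algebras and asymptotic dimension)

`XX` is a carpet in `ℕ × ℕ`: at every level `j` the plane is divided into blocks of side `n j`,
and the central third of every block is removed; antipodal points of the boundary of every
hole are joined by an edge of length one (a crosscap).  `asdim XX ≥ 2` by a parity argument
modulo two.  `YY = XX × Finset ℕ` is the covering, in which the edge across a hole of level `j`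
changes the sheets `0, …, j`.  `asdim YY ≤ 1`.
-/

set_option autoImplicit false

open scoped Classical symmDiff

namespace Pool.Agent.H626R3.CT

/-- a third of the side of a block of level `j` (an odd number) -/
def t (j : ℕ) : ℕ := 3 ^ (2 * (j + 1) ^ 2 - 1)

/-- the side of a block of level `j` -/
def n (j : ℕ) : ℕ := 3 * t j

/-- the residue of `a` lies in the middle third -/
def mid (j a : ℕ) : Prop := t j ≤ a % n j ∧ a % n j < 2 * t j

/-- the carpet -/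
structure XX where
  a : ℕ
  b : ℕ
  out : ∀ j, ¬ (mid j a ∧ mid j b)

/-- middle third enlarged by one -/
def nearmid (j a : ℕ) : Prop := t j - 1 ≤ a % n j ∧ a % n j ≤ 2 * t j

/-- reflection in the block of level `j` -/
def refl (j a : ℕ) : ℕ := n j * (a / n j) + (n j - 1 - a % n j)

/-- antipodal points of the boundary of a hole of level `j` -/
def Anti (j : ℕ) (x y : XX) : Prop :=
  nearmid j x.a ∧ nearmid j x.b ∧ y.a = refl j x.a ∧ y.b = refl j x.b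

/-- the `l^1` distance in the plane -/
def d1 (x y : XX) : ℕ := Nat.dist x.a y.a + Nat.dist x.b y.b

/-- `Path S k x y`: a chain of steps from `x` to `y` of total weight `k`; a step `S w` has
weight `w + 1`. -/
inductive Path {V : Type} (S : ℕ → V → V → Prop) : ℕ → V → V → Prop
  | nil (x : V) : Path S 0 x x
  | cons {k w : ℕ} {x y z : V} : Path S k x y → S w y z → Path S (k + w + 1) x z

/-- the distance of the weighted graph -/
noncomputable def pd {V : Type} (S : ℕ → V → V → Prop) (x y : V) : ℕ := sInf {k | Path S k x y}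

/-- steps in the carpet -/
def SX (w : ℕ) (x y : XX) : Prop := d1 x y ≤ w + 1 ∨ ∃ j, Anti j x y

/-- the covering space -/
structure YY where
  x : XX
  F : Finset ℕ

/-- steps in the covering -/
def SY (w : ℕ) (x y : YY) : Prop :=
  (y.F = x.F ∧ d1 x.x y.x ≤ w + 1) ∨
  (∃ j, Anti j x.x y.x ∧ y.F = x.F ∆ Finset.range (j + 1)) ∨
  (y.x = x.x ∧ ∃ l, l ≤ w ∧ y.F = x.F ∆ {l})

/-- asymptotic dimension at most `k` -/
def AsdimLE (Z : Type) [MetricSpace Z] (k : ℕ) : Prop :=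
  ∀ R : ℝ, 0 < R → ∃ U : Fin (k + 1) → Set (Set Z),
    (∃ D : ℝ, ∀ i, ∀ A ∈ U i, ∀ a ∈ A, ∀ b ∈ A, dist a b ≤ D) ∧
    (∀ z : Z, ∃ i, ∃ A ∈ U i, z ∈ A) ∧
    (∀ i, ∀ A ∈ U i, ∀ B ∈ U i, A ≠ B → ∀ a ∈ A, ∀ b ∈ B, R < dist a b)

/-- uniformly locally finite -/
def ULF (Z : Type) [MetricSpace Z] : Prop :=
  ∀ r : ℝ, ∃ N : ℕ, ∀ x : Z, (Metric.closedBall x r).Finite ∧ (Metric.closedBall x r).ncard ≤ N

/-! ### Metric tasks -/

def TMetric : Prop :=
  ∀ (V : Type) (S : ℕ → V → V → Prop), (∀ w x y, S w x y → S w y x) →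
    (∀ x y, ∃ k, Path S k x y) →
    ∃ m : MetricSpace V, ∀ x y : V, @dist V m.toDist x y = (pd S x y : ℝ)

def TUlf : Prop :=
  ∀ (V : Type) (S : ℕ → V → V → Prop) [MetricSpace V],
    (∀ x y : V, dist x y = (pd S x y : ℝ)) → (∀ x y, ∃ k, Path S k x y) →
    (∀ w, ∃ N : ℕ, ∀ x, {y | S w x y}.Finite ∧ {y | S w x y}.ncard ≤ N) → ULF V

/-- rings of different levels are disjoint, symmetry -/
def TAnti : Prop :=
  (∀ j x y, Anti j x y → Anti j y x) ∧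
  (∀ j l x y z, Anti j x y → Anti l x z → j = l ∧ y = z)

def TGraph : Prop :=
  TAnti → (∀ w x y, SX w x y → SX w y x) ∧ (∀ w x y, SY w x y → SY w y x) ∧
  (∀ x y, ∃ k, Path SX k x y) ∧ (∀ x y, ∃ k, Path SY k x y) ∧
  (∀ w, ∃ N : ℕ, ∀ x, {y | SX w x y}.Finite ∧ {y | SX w x y}.ncard ≤ N) ∧
  (∀ w, ∃ N : ℕ, ∀ x, {y | SY w x y}.Finite ∧ {y | SY w x y}.ncard ≤ N)

/-! ### Lower bound for `XX` -/

/-- potential -/
def psi (k a : ℕ) : ℕ := min (a / n k) (t (k + 1) / n k - 1)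

def TPot : Prop :=
  ∀ k m x y, Path SX m x y →
    Nat.dist (psi k x.a) (psi k y.a) ≤ m ∧ Nat.dist (psi k x.b) (psi k y.b) ≤ m

/-- points of a common small cell -/
def Near (x y : XX) : Prop := d1 x y ≤ 2 ∨ ∃ j x', Anti j x x' ∧ d1 x' y ≤ 1

/-- Sperner's lemma modulo two for the carpet with crosscaps. -/
def TParity : Prop :=
  ∀ (k : ℕ) (lab : XX → ℕ), (∀ x, lab x = 1 ∨ lab x = 2 ∨ lab x = 3) →
    (∀ x, x.a = 0 → x.b < t k → lab x = 1) →
    (∀ x, x.a = t k - 1 → x.b < t k → lab x ≠ 1) →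
    (∀ x, x.b = 0 → x.a < t k → lab x ≠ 3) →
    (∀ x, x.b = t k - 1 → x.a < t k → lab x ≠ 2) →
    (∀ x y z, Near x y → Near y z → Near x z → ¬ (lab x = 1 ∧ lab y = 2 ∧ lab z = 3)) → False

def TLower : Prop :=
  TPot → TParity → TAnti →
    ∀ [MetricSpace XX], (∀ x y : XX, dist x y = (pd SX x y : ℝ)) → ¬ AsdimLE XX 1

/-! ### Subtasks of `TParity` -/

/-- `1` in `ZMod 2` if the labels are `1` and `2` -/
def chi (u v : ℕ) : ZMod 2 := if (u = 1 ∧ v = 2) ∨ (u = 2 ∧ v = 1) then 1 else 0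

/-- parity of a unit square with lower left corner `(a, b)` -/
def sq (L : ℕ → ℕ → ℕ) (a b : ℕ) : ZMod 2 :=
  chi (L a b) (L (a + 1) b) + chi (L (a + 1) b) (L (a + 1) (b + 1)) +
    chi (L a (b + 1)) (L (a + 1) (b + 1)) + chi (L a b) (L a (b + 1))

/-- parity of the boundary of the rectangle `[a, a + p] × [b, b + q]` -/
def bd (L : ℕ → ℕ → ℕ) (a b p q : ℕ) : ZMod 2 :=
  (∑ i ∈ Finset.range p, (chi (L (a + i) b) (L (a + i + 1) b) +
    chi (L (a + i) (b + q)) (L (a + i + 1) (b + q)))) +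
  ∑ i ∈ Finset.range q, (chi (L a (b + i)) (L a (b + i + 1)) +
    chi (L (a + p) (b + i)) (L (a + p) (b + i + 1)))

def TRect : Prop :=
  ∀ (L : ℕ → ℕ → ℕ) (a b p q : ℕ),
    ∑ i ∈ Finset.range p, ∑ j ∈ Finset.range q, sq L (a + i) (b + j) = bd L a b p q

/-- the labelling extended by `3` to the holes -/
noncomputable def ext (lab : XX → ℕ) (a b : ℕ) : ℕ :=
  if h : ∀ j, ¬ (mid j a ∧ mid j b) then lab ⟨a, b, h⟩ else 3

/-- the unit square belongs to the hole region of level `j` -/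
def inreg (j a b : ℕ) : Prop :=
  (t j - 1 ≤ a % n j ∧ a % n j ≤ 2 * t j - 1) ∧ (t j - 1 ≤ b % n j ∧ b % n j ≤ 2 * t j - 1)

/-- A unit square in `[0, t k)^2` that is in no hole region of level `< k` has its corners
in the carpet. -/
def TFull : Prop :=
  ∀ k a b, a + 1 < t k → b + 1 < t k → (∀ j < k, ¬ inreg j a b) →
    ∀ a' b', (a' = a ∨ a' = a + 1) → (b' = b ∨ b' = b + 1) → ∀ j, ¬ (mid j a' ∧ mid j b')

/-- For `j < l`, the region of level `j` of a block is inside or outside the region of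
level `l`. -/
def TNest : Prop :=
  ∀ j l A B, j < l → ∀ a b a' b', inreg j a b → inreg j a' b' → a / n j = A → a' / n j = A →
    b / n j = B → b' / n j = B → (inreg l a b ↔ inreg l a' b')

/-- The boundary of a hole region of level `j` whose block is outside the regions of levels
`> j` has parity zero. -/
def TRing : Prop :=
  ∀ (lab : XX → ℕ), (∀ x, lab x = 1 ∨ lab x = 2 ∨ lab x = 3) →
    (∀ x y z, Near x y → Near y z → Near x z → ¬ (lab x = 1 ∧ lab y = 2 ∧ lab z = 3)) →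
    ∀ j A B, (∀ l, j < l → ¬ inreg l (n j * A + (t j - 1)) (n j * B + (t j - 1))) →
      bd (ext lab) (n j * A + (t j - 1)) (n j * B + (t j - 1)) (t j + 1) (t j + 1) = 0

/-- assembly of the parity argument -/
def TSum : Prop :=
  TRect → TFull → TNest → TRing →
    ∀ (k : ℕ) (lab : XX → ℕ), (∀ x, lab x = 1 ∨ lab x = 2 ∨ lab x = 3) →
      (∀ x y z, Near x y → Near y z → Near x z → ¬ (lab x = 1 ∧ lab y = 2 ∧ lab z = 3)) →
      bd (ext lab) 0 0 (t k - 1) (t k - 1) = 0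

def TBoundary : Prop := TSum → TRect → TFull → TNest → TRing → TParity

/-! ### The embedding -/

abbrev L2 (X : Type) : Type := lp (fun _ : X => ℂ) 2
abbrev Op (X : Type) : Type := L2 X →L[ℂ] L2 X

/-- basis vector -/
noncomputable def dl {X : Type} (x : X) : L2 X := lp.single (E := fun _ : X => ℂ) 2 x (1 : ℂ)

/-- matrix entry -/
noncomputable def ent {X : Type} (T : Op X) (x y : X) : ℂ := inner ℂ (dl x) (T (dl y))

def FinProp {X : Type} [MetricSpace X] (T : Op X) : Prop :=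
  ∃ R : ℝ, ∀ x y : X, R < dist x y → ent T x y = 0

/-- the number `ω_l` for the pair `x', x` -/
noncomputable def om {X : Type} (u : ℕ → X → ℂ) (x' x : X) (l : ℕ) : ℂ :=
  (starRingEnd ℂ) (u l x') * u l x

/-- coefficients -/
noncomputable def cf (w : ℕ → ℂ) (L : ℕ) (S : Finset ℕ) : ℂ :=
  ∏ l ∈ Finset.range L, if l ∈ S then (1 - w l) / 2 else (1 + w l) / 2

/-- The untwisted amplification. -/
def TAmp0 : Prop :=
  ∀ (X G : Type), ∃ A : Op X →⋆ₙₐ[ℂ] Op (X × G), Continuous A ∧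
    (Nonempty G → Function.Injective A) ∧
    ∀ (T : Op X) (x' x : X) (F' F : G),
      ent (A T) (x', F') (x, F) = if F' = F then ent T x' x else 0

/-- convolution of the coefficients -/
def TConv : Prop :=
  ∀ (u v : ℕ → ℂ) (L : ℕ) (D : Finset ℕ), D ⊆ Finset.range L →
    ∑ S ∈ (Finset.range L).powerset, (starRingEnd ℂ) (cf u L S) * cf v L (S ∆ D) =
      cf (fun l => (starRingEnd ℂ) (u l) * v l) L D

/-- The gauge unitary. -/
def TUni : Prop :=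
  TConv → ∀ (X : Type) (u : ℕ → X → ℂ), (∀ l x, ‖u l x‖ = 1) →
    (∀ x, ∃ L, ∀ l, L ≤ l → u l x = 1) →
    ∃ Z : Op (X × Finset ℕ), star Z * Z = 1 ∧ Z * star Z = 1 ∧
      ∀ (x' x : X) (F' F : Finset ℕ) (L : ℕ), (∀ l, L ≤ l → u l x = 1) →
        F' ∆ F ⊆ Finset.range L →
        ent Z (x', F') (x, F) = if x' = x then cf (fun l => u l x) L (F' ∆ F) else 0

/-- The twisted amplification. -/
def TAmp : Prop :=
  TAmp0 → TConv → TUni →
  ∀ (X Y : Type) (e : Y ≃ X × Finset ℕ) (u : ℕ → X → ℂ), (∀ l x, ‖u l x‖ = 1) →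
    (∀ x, ∃ L, ∀ l, L ≤ l → u l x = 1) →
    ∃ Φ : Op X →⋆ₙₐ[ℂ] Op Y, Continuous Φ ∧ Function.Injective Φ ∧
      ∀ (T : Op X) (x' x : X) (F' F : Finset ℕ) (L : ℕ),
        (∀ l, L ≤ l → u l x' = 1 ∧ u l x = 1) → F' ∆ F ⊆ Finset.range L →
        ent (Φ T) (e.symm (x', F')) (e.symm (x, F)) = ent T x' x * cf (om u x' x) L (F' ∆ F)

/-- Schur's test -/
def TSchur : Prop :=
  ∀ (Y : Type) (T : Op Y) (C : ℝ), 0 ≤ C →
    (∀ (y : Y) (s : Finset Y), ∑ y' ∈ s, ‖ent T y' y‖ ≤ C) →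
    (∀ (y' : Y) (s : Finset Y), ∑ y ∈ s, ‖ent T y' y‖ ≤ C) → ‖T‖ ≤ C

/-- Existence of operators with bounded kernels of finite degree. -/
def TKer : Prop :=
  ∀ (Y : Type) (k : Y → Y → ℂ) (C : ℝ) (N : ℕ), (∀ y' y, ‖k y' y‖ ≤ C) →
    (∀ y, {y' | k y' y ≠ 0}.Finite ∧ {y' | k y' y ≠ 0}.ncard ≤ N) →
    (∀ y', {y | k y' y ≠ 0}.Finite ∧ {y | k y' y ≠ 0}.ncard ≤ N) →
    ∃ T : Op Y, ∀ y' y, ent T y' y = k y' y

/-- The `l^1` estimate of the coefficients. -/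
def TL1 : Prop :=
  ∀ (w : ℕ → ℂ) (g : Finset ℕ) (K : ℝ), (∀ l, ‖w l‖ = 1) → 0 ≤ K →
    (∀ l, ‖w l * (if l ∈ g then -1 else 1) - 1‖ ≤ K / 3 ^ l) →
    ∀ L0 L : ℕ, L0 ≤ L → g ⊆ Finset.range L →
      ∑ S ∈ (Finset.range L).powerset,
        ‖cf w L S - (if S.filter (L0 ≤ ·) = g.filter (L0 ≤ ·) then cf w L0 S else 0)‖ ≤
      2 ^ L0 * (Real.exp (2 * K / 3 ^ L0) - 1)

/-- The lifting property of the pair of metric spaces. -/
def Lifts (X Y : Type) [MetricSpace X] [MetricSpace Y] (e : Y ≃ X × Finset ℕ)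
    (u : ℕ → X → ℂ) : Prop :=
  ∀ r : ℝ, ∃ K : ℝ, 0 ≤ K ∧ ∀ x x' : X, dist x x' ≤ r → ∃ g : Finset ℕ,
    (∀ F, dist (e.symm (x, F)) (e.symm (x', F ∆ g)) ≤ K) ∧
    ∀ l, ‖u l x' * (if l ∈ g then -1 else 1) - u l x‖ ≤ K / 3 ^ l

/-- Approximation of the image of a finite propagation operator. -/
def TApprox : Prop :=
  TSchur → TKer → TL1 →
  ∀ (X Y : Type) [MetricSpace X] [MetricSpace Y] (e : Y ≃ X × Finset ℕ) (u : ℕ → X → ℂ),
    ULF X → ULF Y → (∀ l x, ‖u l x‖ = 1) → (∀ x, ∃ L, ∀ l, L ≤ l → u l x = 1) →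
    (∀ l, ∃ W : ℝ, ∀ x F, dist (e.symm (x, F)) (e.symm (x, F ∆ {l})) ≤ W) →
    Lifts X Y e u →
    ∀ Φ : Op X → Op Y,
      (∀ (T : Op X) (x' x : X) (F' F : Finset ℕ) (L : ℕ),
        (∀ l, L ≤ l → u l x' = 1 ∧ u l x = 1) → F' ∆ F ⊆ Finset.range L →
        ent (Φ T) (e.symm (x', F')) (e.symm (x, F)) = ent T x' x * cf (om u x' x) L (F' ∆ F)) →
      ∀ T : Op X, FinProp T → Φ T ∈ closure {S : Op Y | FinProp S}

/-- The embedding of the uniform Roe algebras, in the form of the frozen statement. -/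
def TEmb : Prop :=
  TAmp → TAmp0 → TConv → TUni → TApprox → TSchur → TKer → TL1 →
  ∀ (X Y : Type) [MetricSpace X] [MetricSpace Y] (e : Y ≃ X × Finset ℕ) (u : ℕ → X → ℂ),
    ULF X → ULF Y → (∀ l x, ‖u l x‖ = 1) → (∀ x, ∃ L, ∀ l, L ≤ l → u l x = 1) →
    (∀ l, ∃ W : ℝ, ∀ x F, dist (e.symm (x, F)) (e.symm (x, F ∆ {l})) ≤ W) →
    Lifts X Y e u →
    ∃ Φ : (StarAlgebra.adjoin ℂ
              {T : lp (fun _ : X => ℂ) 2 →L[ℂ] lp (fun _ : X => ℂ) 2 |
                ∃ R : ℝ, ∀ a b : X, R < dist a b →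
                  inner ℂ (lp.single (E := fun _ : X => ℂ) 2 a (1 : ℂ))
                    (T (lp.single (E := fun _ : X => ℂ) 2 b (1 : ℂ))) = 0}).topologicalClosure
            →⋆ₙₐ[ℂ]
           (StarAlgebra.adjoin ℂ
              {T : lp (fun _ : Y => ℂ) 2 →L[ℂ] lp (fun _ : Y => ℂ) 2 |
                ∃ R : ℝ, ∀ a b : Y, R < dist a b →
                  inner ℂ (lp.single (E := fun _ : Y => ℂ) 2 a (1 : ℂ))
                    (T (lp.single (E := fun _ : Y => ℂ) 2 b (1 : ℂ))) = 0}).topologicalClosure,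
        Function.Injective Φ

/-! ### The gauge functions of the carpet -/

/-- trapezoidal wave -/
noncomputable def th (l r : ℕ) : ℝ :=
  max (-1) (min 1 (((3 : ℝ) * (t l : ℝ) - 1 - 2 * (r : ℝ)) / (t l : ℝ)))

noncomputable def pw (l a : ℕ) : ℝ := (-1) ^ (a / n l) * th l (a % n l)

/-- the gauge function of level `l` -/
noncomputable def gu (l : ℕ) (x : XX) : ℂ :=
  (⟨pw l x.a, pw l x.b⟩ : ℂ) / ((‖(⟨pw l x.a, pw l x.b⟩ : ℂ)‖ : ℝ) : ℂ) *
    ((1 - Complex.I) / ((Real.sqrt 2 : ℝ) : ℂ))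

/-- wave: Lipschitz, antisymmetric, equal to one near the origin, of absolute value one
outside the middle third -/
def TWave : Prop :=
  (∀ l a b, |pw l a - pw l b| ≤ 2 * (Nat.dist a b : ℝ) / t l) ∧
  (∀ l j a, l ≤ j → pw l (refl j a) = - pw l a) ∧
  (∀ l a, a < t l → pw l a = 1) ∧ (∀ l a, ¬ mid l a → |pw l a| = 1)

def TGauge : Prop :=
  TWave → (∀ l x, ‖gu l x‖ = 1) ∧ (∀ x, ∃ L, ∀ l, L ≤ l → gu l x = 1) ∧
  (∀ w x y l, d1 x y ≤ w + 1 → ‖gu l y - gu l x‖ ≤ 8 * (w + 1) / 3 ^ l) ∧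
  (∀ j x y l, Anti j x y →
    ‖gu l y * (if l ∈ Finset.range (j + 1) then -1 else 1) - gu l x‖ ≤ 8 / 3 ^ l)

def TLift : Prop :=
  TWave → TGauge → ∀ [MetricSpace XX] [MetricSpace YY],
    (∀ x y : XX, dist x y = (pd SX x y : ℝ)) → (∀ x y : YY, dist x y = (pd SY x y : ℝ)) →
    (∀ x y, ∃ k, Path SX k x y) →
    ∀ e : YY ≃ XX × Finset ℕ, (∀ x F, e.symm (x, F) = ⟨x, F⟩) →
      Lifts XX YY e gu ∧ ∀ l, ∃ W : ℝ, ∀ x F, dist (e.symm (x, F)) (e.symm (x, F ∆ {l})) ≤ W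

/-! ### Upper bound for `YY` -/

/-- the sign of the sheet of level `i` -/
noncomputable def eta (i : ℕ) (F : Finset ℕ) : ℝ := if (i ∈ F ↔ i + 1 ∈ F) then 1 else -1

/-- coordinate with respect to the centre of the block, doubled -/
noncomputable def sc (i a : ℕ) : ℝ := 2 * ((a % n i : ℕ) : ℝ) - ((n i : ℝ) - 1)

/-- coordinate of the centre of the block, doubled -/
noncomputable def ce (i a : ℕ) : ℝ := 2 * ((n i * (a / n i) : ℕ) : ℝ) + ((n i : ℝ) - 1)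

noncomputable def mm (s1 s2 : ℝ) : ℝ := max |s1| |s2|

/-- twisted direction -/
noncomputable def v1 (i : ℕ) (e s1 s2 : ℝ) : ℝ :=
  (mm s1 s2 - t i) * s1 - e * (3 * t i - mm s1 s2) * s2

noncomputable def v2 (i : ℕ) (e s1 s2 : ℝ) : ℝ :=
  (mm s1 s2 - t i) * s2 + e * (3 * t i - mm s1 s2) * s1

/-- the projection to the boundary of the block, first coordinate (doubled coordinates) -/
noncomputable def P1 (i : ℕ) (y : YY) : ℝ :=
  ce i y.x.a + n i * v1 i (eta i y.F) (sc i y.x.a) (sc i y.x.b) /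
    mm (v1 i (eta i y.F) (sc i y.x.a) (sc i y.x.b)) (v2 i (eta i y.F) (sc i y.x.a) (sc i y.x.b))

/-- second coordinate -/
noncomputable def P2 (i : ℕ) (y : YY) : ℝ :=
  ce i y.x.b + n i * v2 i (eta i y.F) (sc i y.x.a) (sc i y.x.b) /
    mm (v1 i (eta i y.F) (sc i y.x.a) (sc i y.x.b)) (v2 i (eta i y.F) (sc i y.x.a) (sc i y.x.b))

/-- the same sheets above level `i` -/
def Same (i : ℕ) (F G : Finset ℕ) : Prop := ∀ l, i < l → (l ∈ F ↔ l ∈ G)

/-- `y` and `y'` are close at level `i` -/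
def Cl (i : ℕ) (ε : ℝ) (y y' : YY) : Prop :=
  |P1 i y - P1 i y'| ≤ ε * n i ∧ |P2 i y - P2 i y'| ≤ ε * n i ∧ Same i y.F y'.F ∧
    d1 y.x y'.x ≤ 5 * n i

/-- The projection is on the boundary of the block (all the levels, all the points). -/
def TOnGrid : Prop :=
  ∀ i y, (|P1 i y - ce i y.x.a| = n i ∨ |P2 i y - ce i y.x.b| = n i) ∧
    |P1 i y - ce i y.x.a| ≤ n i ∧ |P2 i y - ce i y.x.b| ≤ n i

/-- small moves inside a block -/
def TMoveIn : Prop :=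
  ∀ ε : ℝ, 0 < ε → ∃ δ : ℝ, 0 < δ ∧ ∀ i (y y' : YY), y.x.a / n i = y'.x.a / n i →
    y.x.b / n i = y'.x.b / n i → eta i y.F = eta i y'.F → (d1 y.x y'.x : ℝ) ≤ δ * n i →
    |P1 i y - P1 i y'| ≤ ε * n i ∧ |P2 i y - P2 i y'| ≤ ε * n i

/-- near the boundary of the block the projection is close to the point -/
def TMoveBd : Prop :=
  ∀ ε : ℝ, 0 < ε → ∃ δ : ℝ, 0 < δ ∧ ∃ i0, ∀ i, i0 ≤ i → ∀ y : YY,
    (1 - δ) * n i ≤ mm (sc i y.x.a) (sc i y.x.b) →
    |P1 i y - 2 * y.x.a| ≤ ε * n i ∧ |P2 i y - 2 * y.x.b| ≤ ε * n i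

/-- crossing a hole of level `i` -/
def TMoveAnti : Prop :=
  ∀ ε : ℝ, 0 < ε → ∃ i0, ∀ i, i0 ≤ i → ∀ y y' : YY, Anti i y.x y'.x →
    y'.F = y.F ∆ Finset.range (i + 1) →
    |P1 i y - P1 i y'| ≤ ε * n i ∧ |P2 i y - P2 i y'| ≤ ε * n i

/-- crossing a hole of a level `j > i` is the reflection -/
def TMoveRefl : Prop :=
  ∀ i j (y y' : YY), i < j → Anti j y.x y'.x → y'.F = y.F ∆ Finset.range (j + 1) →
    P1 i y' = 2 * (2 * (n j * (y.x.a / n j) : ℕ) + ((n j : ℝ) - 1)) - P1 i y ∧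
    P2 i y' = 2 * (2 * (n j * (y.x.b / n j) : ℕ) + ((n j : ℝ) - 1)) - P2 i y

/-- one step -/
def TStep : Prop :=
  TMoveIn → TMoveBd → TMoveAnti →
  ∀ (R : ℕ) (ε : ℝ), 0 < ε → ∃ i0, ∀ i, i0 ≤ i → ∀ w, w < R → ∀ y y' : YY, SY w y y' →
    Cl i ε y y' ∨ ∃ j, i < j ∧ Anti j y.x y'.x ∧ y'.F = y.F ∆ Finset.range (j + 1)

/-- different large holes are far apart -/
def THole : Prop :=
  ∀ i j j' (z z' w w' : XX), i < j → i < j' → Anti j z z' → Anti j' w w' → d1 z w ≤ 20 * n i →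
    j = j' ∧ z.a / n j = w.a / n j ∧ z.b / n j = w.b / n j

/-- Paths of bounded length: at most one crossing of a large hole.  `z`, `z'` are the points
before and after the crossing. -/
def TPathY : Prop :=
  TOnGrid → TStep → TMoveIn → TMoveBd → TMoveAnti → TMoveRefl → TAnti → THole →
  ∀ (R : ℕ) (ε : ℝ), 0 < ε → ∃ i0, ∀ i, i0 ≤ i → ∀ y y' : YY, pd SY y y' ≤ R →
    (∃ k, Path SY k y y') →
    Cl i ε y y' ∨ ∃ j z z', i < j ∧ Cl i ε y z ∧ Anti j z.x z'.x ∧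
      z'.F = z.F ∆ Finset.range (j + 1) ∧ Cl i ε z' y'

/-- points with the same sheets above level `i` -/
def TBdd : Prop :=
  ∀ i (y y' : YY), Same i y.F y'.F →
    ∃ k, k ≤ d1 y.x y'.x + 1 + (i + 1) * (i + 1) ∧ Path SY k y y'

/-- features of the grid of level `i`: kind `0` is a vertex, kind `1` a horizontal edge, kind
`2` a vertical edge -/
def Feat (i : ℕ) (p1 p2 : ℝ) (kind : Fin 3) (A B : ℤ) : Prop :=
  (kind = 0 ∧ |p1 - (2 * n i * A - 1)| ≤ n i / 2 ∧ |p2 - (2 * n i * B - 1)| ≤ n i / 2) ∨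
  (kind = 1 ∧ p2 = 2 * n i * B - 1 ∧ 2 * n i * A - 1 + n i / 2 < p1 ∧
    p1 < 2 * n i * (A + 1) - 1 - n i / 2) ∨
  (kind = 2 ∧ p1 = 2 * n i * A - 1 ∧ 2 * n i * B - 1 + n i / 2 < p2 ∧
    p2 < 2 * n i * (B + 1) - 1 - n i / 2)

def TFeat : Prop :=
  TOnGrid → ∀ i, (∀ y, ∃ kind A B, Feat i (P1 i y) (P2 i y) kind A B) ∧
    (∀ p1 p2 q1 q2 kind kind' A B A' B', Feat i p1 p2 kind A B → Feat i q1 q2 kind' A' B' →
      |p1 - q1| ≤ n i / 8 → |p2 - q2| ≤ n i / 8 → (kind = 0 ↔ kind' = 0) →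
      kind = kind' ∧ A = A' ∧ B = B') ∧
    (∀ p1 p2 q1 q2 kind A B, Feat i p1 p2 kind A B → Feat i q1 q2 kind A B →
      |p1 - q1| ≤ 2 * n i ∧ |p2 - q2| ≤ 2 * n i) ∧
    (∀ (j : ℕ) (C D : ℕ), i < j → ∀ p1 p2 kind A B, Feat i p1 p2 kind A B →
      ∃ A' B' : ℤ, (∀ q1 q2, Feat i q1 q2 kind A B →
        Feat i (2 * (2 * (n j * C : ℕ) + ((n j : ℝ) - 1)) - q1)
          (2 * (2 * (n j * D : ℕ) + ((n j : ℝ) - 1)) - q2) kind A' B'))

def TUpper : Prop :=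
  TOnGrid → TPathY → TStep → TMoveIn → TMoveBd → TMoveAnti → TMoveRefl → TAnti → TGraph →
    THole → TBdd → TFeat →
    ∀ [MetricSpace YY], (∀ x y : YY, dist x y = (pd SY x y : ℝ)) → AsdimLE YY 1

end Pool.Agent.H626R3.CT
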