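import Mathlib
import Pool.Agent.H626R3.CT.Stmts

set_option autoImplicit false

open scoped Classical symmDiff

namespace Pool.Agent.H626R3.CT.Asm

open Pool.Agent.H626R3.CT

/-- the obvious equivalence -/
def eq0 : YY ≃ XX × Finset ℕ where
  toFun y := (y.x, y.F)
  invFun p := ⟨p.1, p.2⟩
  left_inv _ := rfl
  right_inv _ := rfl

theorem final (hMetric : TMetric) (hUlf : TUlf) (hAnti : TAnti) (hGraph : TGraph)
    (hPot : TPot) (hLower : TLower) (hRect : TRect) (hFull : TFull) (hNest : TNest)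
    (hRing : TRing) (hSum : TSum) (hBoundary : TBoundary)
    (hAmp0 : TAmp0) (hConv : TConv) (hUni : TUni) (hAmp : TAmp) (hSchur : TSchur) (hKer : TKer)
    (hL1 : TL1) (hApprox : TApprox) (hEmb : TEmb)
    (hWave : TWave) (hGauge : TGauge) (hLift : TLift)
    (hOnGrid : TOnGrid) (hMoveIn : TMoveIn) (hMoveBd : TMoveBd) (hMoveAnti : TMoveAnti)
    (hMoveRefl : TMoveRefl) (hStep : TStep) (hHole : THole) (hPathY : TPathY) (hBdd : TBdd)
    (hFeat : TFeat) (hUpper : TUpper) :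
    ∃ (X Y : Type) (_ : MetricSpace X) (_ : MetricSpace Y), ULF X ∧ ULF Y ∧
      (∃ Φ : (StarAlgebra.adjoin ℂ
              {T : lp (fun _ : X => ℂ) 2 →L[ℂ] lp (fun _ : X => ℂ) 2 |
                ∃ R : ℝ, ∀ a b : X, R < dist a b →
                  inner ℂ (lp.single (E := fun _ : X => ℂ) 2 a (1 : ℂ))
                    (T (lp.single (E := fun _ : X => ℂ) 2 b (1 : ℂ))) = 0}).topologicalClosure
            →⋆ₙₐ[ℂ]
           (StarAlgebra.adjoin ℂ
              {T : lp (fun _ : Y => ℂ) 2 →L[ℂ] lp (fun _ : Y => ℂ) 2 |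
                ∃ R : ℝ, ∀ a b : Y, R < dist a b →
                  inner ℂ (lp.single (E := fun _ : Y => ℂ) 2 a (1 : ℂ))
                    (T (lp.single (E := fun _ : Y => ℂ) 2 b (1 : ℂ))) = 0}).topologicalClosure,
        Function.Injective Φ) ∧ AsdimLE Y 1 ∧ ¬ AsdimLE X 1 := by
  obtain ⟨g1, g2, g3, g4, g5, g6⟩ := hGraph hAnti
  obtain ⟨mX, hX⟩ := hMetric XX SX g1 g3
  obtain ⟨mY, hY⟩ := hMetric YY SY g2 g4
  letI := mX
  letI := mY
  have uX : ULF XX := hUlf XX SX hX g3 g5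
  have uY : ULF YY := hUlf YY SY hY g4 g6
  obtain ⟨l1, l2⟩ := hLift hWave hGauge hX hY g3 eq0 (fun _ _ => rfl)
  have hg := hGauge hWave
  refine ⟨XX, YY, mX, mY, uX, uY, ?_, ?_, ?_⟩
  · exact hEmb hAmp hAmp0 hConv hUni hApprox hSchur hKer hL1 XX YY eq0 gu uX uY hg.1 hg.2.1 l2 l1
  · exact hUpper hOnGrid hPathY hStep hMoveIn hMoveBd hMoveAnti hMoveRefl hAnti hGraph hHole hBdd
      hFeat hY
  · exact hLower hPot (hBoundary hSum hRect hFull hNest hRing) hAnti hX

end Pool.Agent.H626R3.CT.Asm
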