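import Pool.Agent.H626R3.CT.Stmts

set_option autoImplicit false

open scoped Classical symmDiff

/-! Twisted amplification. -/

namespace Pool.Agent.H626R3.CT.T_TAmp

open Pool.Agent.H626R3.CT

lemma ent_eq {X : Type} (T : Op X) (x y : X) : ent T x y = (T (dl y)) x := by
  unfold ent dl
  rw [lp.inner_single_left]
  simp

lemma dl_apply {X : Type} (x y : X) : (dl x : L2 X) y = if y = x then 1 else 0 := by
  unfold dl
  rw [lp.single_apply, Pi.single_apply]

noncomputable def bas (Z : Type) : HilbertBasis Z ℂ (L2 Z) :=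
  HilbertBasis.ofRepr (LinearIsometryEquiv.refl ℂ _)

lemma bas_apply {Z : Type} (z : Z) : bas Z z = dl z :=
  ((bas Z).repr_symm_single z).symm

lemma exists_W {X Y : Type} (e : Y ≃ X) :
    ∃ W : L2 X ≃ₗᵢ[ℂ] L2 Y, ∀ x, W (dl x) = dl (e.symm x) := by
  have hfun : (fun y : Y => (dl (e y) : L2 X)) = (bas X) ∘ e := by
    funext y; exact (bas_apply (e y)).symm
  have ho : Orthonormal ℂ (fun y : Y => (dl (e y) : L2 X)) := by
    rw [hfun]
    exact (bas X).orthonormal.comp e e.injective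
  have hsp : ⊤ ≤ (Submodule.span ℂ
      (Set.range (fun y : Y => (dl (e y) : L2 X)))).topologicalClosure := by
    rw [hfun, e.surjective.range_comp, (bas X).dense_span]
  refine ⟨(HilbertBasis.mk ho hsp).repr, fun x => ?_⟩
  have h1 := (HilbertBasis.mk ho hsp).repr_self (e.symm x)
  rw [HilbertBasis.coe_mk] at h1
  simp only [Equiv.apply_symm_apply] at h1
  exact h1

lemma expand {X : Type} (Z : Op (X × Finset ℕ)) (u : ℕ → X → ℂ)
    (hZ : ∀ (x' x : X) (F' F : Finset ℕ) (L : ℕ), (∀ l, L ≤ l → u l x = 1) →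
        F' ∆ F ⊆ Finset.range L →
        ent Z (x', F') (x, F) = if x' = x then cf (fun l => u l x) L (F' ∆ F) else 0)
    (x : X) (F : Finset ℕ) (L : ℕ) (hL : ∀ l, L ≤ l → u l x = 1) :
    Z (dl (x, F)) = ∑ S ∈ (Finset.range L).powerset,
      cf (fun l => u l x) L S • (dl (x, F ∆ S) : L2 (X × Finset ℕ)) := by
  apply lp.ext
  funext p
  obtain ⟨x', F'⟩ := p
  rw [← ent_eq]
  have hcoe : (↑(∑ S ∈ (Finset.range L).powerset,
      cf (fun l => u l x) L S • (dl (x, F ∆ S) : L2 (X × Finset ℕ))) :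
      X × Finset ℕ → ℂ) (x', F') = ∑ S ∈ (Finset.range L).powerset,
      cf (fun l => u l x) L S * (if (x', F') = (x, F ∆ S) then 1 else 0) := by
    rw [lp.coeFn_sum, Finset.sum_apply]
    apply Finset.sum_congr rfl
    intro S _
    rw [lp.coeFn_smul, Pi.smul_apply, dl_apply, smul_eq_mul]
    congr
  rw [hcoe]
  obtain ⟨L', hL'1, hL'2⟩ : ∃ L', L ≤ L' ∧ F' ∆ F ⊆ Finset.range L' := by
    refine ⟨L + ((F' ∆ F).sup id + 1), by omega, fun l hl => ?_⟩
    have : l ≤ (F' ∆ F).sup id := Finset.le_sup (f := id) hl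
    rw [Finset.mem_range]; omega
  rw [hZ x' x F' F L' (fun l hl => hL l (hL'1.trans hl)) hL'2]
  by_cases hx : x' = x
  · subst hx
    rw [if_pos rfl]
    by_cases hs : F' ∆ F ⊆ Finset.range L
    · rw [Finset.sum_eq_single (F' ∆ F)]
      · have e1 : F ∆ (F' ∆ F) = F' := by
          rw [symmDiff_comm F' F, symmDiff_symmDiff_cancel_left]
        rw [e1, if_pos rfl, mul_one]
        have h1 := hZ x' x' F' F L' (fun l hl => hL l (hL'1.trans hl)) hL'2
        have h2 := hZ x' x' F' F L hL hs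
        rw [if_pos rfl] at h1 h2
        rw [← h1, h2]
      · intro S _ hS
        rw [if_neg, mul_zero]
        intro h
        apply hS
        have h3 : F' = F ∆ S := (Prod.ext_iff.1 h).2
        rw [h3, symmDiff_comm, symmDiff_symmDiff_cancel_left]
      · intro h
        exact absurd (Finset.mem_powerset.2 hs) h
    · obtain ⟨l, hl1, hl2⟩ := Finset.not_subset.1 hs
      have hl3 : L ≤ l := by simpa using hl2
      rw [Finset.sum_eq_zero]
      · unfold cf
        apply Finset.prod_eq_zero (hL'2 hl1)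
        rw [if_pos hl1]
        simp only
        rw [hL l hl3]
        simp
      · intro S hS
        rw [if_neg, mul_zero]
        intro h
        apply hs
        have h3 : F' = F ∆ S := (Prod.ext_iff.1 h).2
        have h4 : F' ∆ F = S := by
          rw [h3, symmDiff_comm, symmDiff_symmDiff_cancel_left]
        rw [h4]
        exact Finset.mem_powerset.1 hS
  · rw [if_neg hx, Finset.sum_eq_zero]
    intro S _
    rw [if_neg, mul_zero]
    intro h
    exact hx (Prod.ext_iff.1 h).1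

lemma entB {X : Type} (A : Op (X × Finset ℕ)) (T : Op X) (Z : Op (X × Finset ℕ))
    (u : ℕ → X → ℂ) (hC : TConv)
    (hZ : ∀ (x' x : X) (F' F : Finset ℕ) (L : ℕ), (∀ l, L ≤ l → u l x = 1) →
        F' ∆ F ⊆ Finset.range L →
        ent Z (x', F') (x, F) = if x' = x then cf (fun l => u l x) L (F' ∆ F) else 0)
    (hA : ∀ (x' x : X) (F' F : Finset ℕ),
      ent A (x', F') (x, F) = if F' = F then ent T x' x else 0)
    (x' x : X) (F' F : Finset ℕ) (L : ℕ) (hL : ∀ l, L ≤ l → u l x' = 1 ∧ u l x = 1)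
    (hF : F' ∆ F ⊆ Finset.range L) :
    ent (star Z * A * Z) (x', F') (x, F) = ent T x' x * cf (om u x' x) L (F' ∆ F) := by
  have h1 : ent (star Z * A * Z) (x', F') (x, F) =
      inner ℂ (Z (dl (x', F'))) (A (Z (dl (x, F)))) := by
    unfold ent
    rw [ContinuousLinearMap.star_eq_adjoint, mul_assoc]
    change inner ℂ (dl (x', F')) ((ContinuousLinearMap.adjoint Z) (A (Z (dl (x, F))))) = _
    rw [ContinuousLinearMap.adjoint_inner_right]
  rw [h1, expand Z u hZ x' F' L (fun l hl => (hL l hl).1),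
    expand Z u hZ x F L (fun l hl => (hL l hl).2), map_sum, sum_inner]
  have h2 : ∀ S' ∈ (Finset.range L).powerset,
      inner ℂ (cf (fun l => u l x') L S' • (dl (x', F' ∆ S') : L2 (X × Finset ℕ)))
        (∑ S ∈ (Finset.range L).powerset,
          A (cf (fun l => u l x) L S • (dl (x, F ∆ S) : L2 (X × Finset ℕ)))) =
      ent T x' x * ((starRingEnd ℂ) (cf (fun l => u l x') L S') *
        cf (fun l => u l x) L (S' ∆ (F' ∆ F))) := by
    intro S' hS'
    rw [inner_sum]
    have h3 : ∀ S ∈ (Finset.range L).powerset,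
        inner ℂ (cf (fun l => u l x') L S' • (dl (x', F' ∆ S') : L2 (X × Finset ℕ)))
          (A (cf (fun l => u l x) L S • (dl (x, F ∆ S) : L2 (X × Finset ℕ)))) =
        (starRingEnd ℂ) (cf (fun l => u l x') L S') * (cf (fun l => u l x) L S *
          (if F' ∆ S' = F ∆ S then ent T x' x else 0)) := by
      intro S _
      rw [map_smul, inner_smul_left, inner_smul_right, ← hA]
      rfl
    rw [Finset.sum_congr rfl h3, Finset.sum_eq_single (S' ∆ (F' ∆ F))]
    · rw [if_pos]
      · ring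
      · rw [← symmDiff_assoc, ← symmDiff_assoc, symmDiff_comm F S', symmDiff_assoc S' F F',
          symmDiff_comm F F', ← symmDiff_assoc, symmDiff_symmDiff_cancel_right, symmDiff_comm]
    · intro S _ hS
      rw [if_neg, mul_zero, mul_zero]
      intro h
      apply hS
      have h4 : S = F ∆ (F' ∆ S') := by rw [h, symmDiff_symmDiff_cancel_left]
      rw [h4, ← symmDiff_assoc, symmDiff_comm, symmDiff_comm F F']
    · intro h
      exfalso
      apply h
      rw [Finset.mem_powerset] at hS' ⊢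
      intro l hl
      rw [Finset.mem_symmDiff] at hl
      rcases hl with hl | hl
      · exact hS' hl.1
      · exact hF hl.1
  rw [Finset.sum_congr rfl h2, ← Finset.mul_sum,
    hC (fun l => u l x') (fun l => u l x) L (F' ∆ F) hF]
  rfl

theorem ok : Pool.Agent.H626R3.CT.TAmp := by
  intro hA0 hC hU X Y e u hu1 hu2
  obtain ⟨A, hAc, hAi, hAe⟩ := hA0 X (Finset ℕ)
  obtain ⟨Z, hZ1, hZ2, hZe⟩ := hU hC X u hu1 hu2
  obtain ⟨W, hW⟩ := exists_W e
  let Zu : unitary (Op (X × Finset ℕ)) := ⟨Z, Unitary.mem_iff.2 ⟨hZ1, hZ2⟩⟩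
  let c1 : Op (X × Finset ℕ) ≃⋆ₐ[ℂ] Op (X × Finset ℕ) :=
    (Unitary.conjStarAlgAut ℂ (Op (X × Finset ℕ)) Zu).symm
  let c2 : Op (X × Finset ℕ) ≃⋆ₐ[ℂ] Op Y := W.conjStarAlgEquiv
  let c3 : Op (X × Finset ℕ) ≃⋆ₐ[ℂ] Op Y := c1.trans c2
  let Φ : Op X →⋆ₙₐ[ℂ] Op Y :=
    (NonUnitalStarAlgHomClass.toNonUnitalStarAlgHom c3 :
      Op (X × Finset ℕ) →⋆ₙₐ[ℂ] Op Y).comp A
  have hΦ : ∀ T : Op X, Φ T = W.conjStarAlgEquiv (star Z * A T * Z) := fun T => rfl
  have hAe' : ∀ (T : Op X) (x' x : X) (F' F : Finset ℕ),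
      ent (A T) (x', F') (x, F) = if F' = F then ent T x' x else 0 := by
    intro T x' x F' F
    rw [hAe T x' x F' F]
    congr
  refine ⟨Φ, ?_, ?_, ?_⟩
  · exact map_continuous Φ
  · intro T T' h
    rw [hΦ, hΦ] at h
    have h1 := W.conjStarAlgEquiv.injective h
    apply hAi ⟨∅⟩
    have h2 : c1 (A T) = c1 (A T') := h1
    exact c1.injective h2
  · intro T x' x F' F L hL hF
    rw [hΦ, ← entB (A T) T Z u hC hZe (hAe' T) x' x F' F L hL hF]
    unfold ent
    rw [LinearIsometryEquiv.conjStarAlgEquiv_apply_apply, ← hW (x', F'), ← hW (x, F),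
      LinearIsometryEquiv.symm_apply_apply, LinearIsometryEquiv.inner_map_map]

end Pool.Agent.H626R3.CT.T_TAmp
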