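import Pool.Agent.H626R3.CT.Stmts
import Pool.Agent.H400R3.Roe.Lp

/-!
# MP_270856_an: the untwisted amplification
-/

set_option autoImplicit false

open scoped Classical InnerProduct
open ContinuousLinearMap

namespace Pool.Agent.H626R3.CT.T_TAmp0

open Pool.Agent.H626R3.CT

variable {X G : Type}

theorem dl_app {Z : Type} (x y : Z) :
    (Pool.Agent.H626R3.CT.dl x : L2 Z) y = if y = x then 1 else 0 :=
  Pool.Agent.H400R3.Roe.dl_apply x y

theorem inner_dl' {Z : Type} (y : Z) (f : L2 Z) :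
    inner ℂ (Pool.Agent.H626R3.CT.dl y) f = f y :=
  Pool.Agent.H400R3.Roe.inner_dl y f

/-- the slice -/
noncomputable def sl (F : G) (g : L2 (X × G)) : L2 X :=
  ⟨fun x => g (x, F), Pool.Agent.H400R3.Roe.mem2 (‖g‖ ^ 2) (by
    intro s
    have h := Pool.Agent.H400R3.Roe.sumsq g (s.image fun x => (x, F))
    rw [Finset.sum_image (by intro a _ b _ hab; exact (Prod.mk.inj hab).1)] at h
    exact h)⟩

theorem sl_apply (F : G) (g : L2 (X × G)) (x : X) : (sl F g) x = g (x, F) := rfl

theorem sl_add (F : G) (f g : L2 (X × G)) : sl F (f + g) = sl F f + sl F g := by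
  apply lp.ext; funext x; rfl

theorem sl_smul (F : G) (c : ℂ) (g : L2 (X × G)) : sl F (c • g) = c • sl F g := by
  apply lp.ext; funext x; rfl

theorem hasSum_inner_sl (f g : L2 (X × G)) :
    HasSum (fun F : G => inner ℂ (sl F f) (sl F g)) (inner ℂ f g) := by
  have h1 : HasSum (fun p : X × G => inner ℂ (f p) (g p)) (inner ℂ f g) := lp.hasSum_inner f g
  have h2 : HasSum (fun p : G × X => inner ℂ (f (p.2, p.1)) (g (p.2, p.1))) (inner ℂ f g) := by
    have h3 := (Equiv.prodComm G X).hasSum_iff (f := fun p : X × G => inner ℂ (f p) (g p))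
      (a := inner ℂ f g)
    exact h3.2 h1
  exact h2.prod_fiberwise fun F => lp.hasSum_inner (sl F f) (sl F g)

theorem hasSum_norm_sl (g : L2 (X × G)) :
    HasSum (fun F : G => ‖sl F g‖ ^ 2) (‖g‖ ^ 2) := by
  have h := hasSum_inner_sl g g
  simp only [inner_self_eq_norm_sq_to_K] at h
  have h2 : HasSum (fun F : G => ((‖sl F g‖ ^ 2 : ℝ) : ℂ)) ((‖g‖ ^ 2 : ℝ) : ℂ) := by
    simpa using h
  exact_mod_cast Complex.hasSum_ofReal.1 h2

theorem bound (T : Op X) (g : L2 (X × G)) (s : Finset (X × G)) :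
    ∑ p ∈ s, ‖(T (sl p.2 g)) p.1‖ ^ 2 ≤ (‖T‖ * ‖g‖) ^ 2 := by
  have h1 : ∑ p ∈ s, ‖(T (sl p.2 g)) p.1‖ ^ 2 ≤
      ∑ p ∈ (s.image Prod.fst) ×ˢ (s.image Prod.snd), ‖(T (sl p.2 g)) p.1‖ ^ 2 :=
    Finset.sum_le_sum_of_subset_of_nonneg Finset.subset_product
      (fun p _ _ => by positivity)
  refine le_trans h1 ?_
  rw [Finset.sum_product_right]
  have h2 : ∀ F ∈ s.image Prod.snd,
      ∑ x ∈ s.image Prod.fst, ‖(T (sl F g)) x‖ ^ 2 ≤ ‖T‖ ^ 2 * ‖sl F g‖ ^ 2 := by
    intro F _
    refine le_trans (Pool.Agent.H400R3.Roe.sumsq (T (sl F g)) _) ?_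
    rw [← mul_pow]
    exact pow_le_pow_left₀ (norm_nonneg _) (T.le_opNorm _) 2
  refine le_trans (Finset.sum_le_sum h2) ?_
  rw [← Finset.mul_sum, mul_pow]
  apply mul_le_mul_of_nonneg_left _ (by positivity)
  exact sum_le_hasSum _ (fun F _ => by positivity) (hasSum_norm_sl g)

theorem exA (T : Op X) : ∃ A : Op (X × G), ‖A‖ ≤ ‖T‖ ∧
    ∀ g p, (A g) p = (T (sl p.2 g)) p.1 := by
  refine Pool.Agent.H400R3.Roe.mk_op (fun (g : L2 (X × G)) (p : X × G) => (T (sl p.2 g)) p.1)
    ?_ ?_ ‖T‖ (norm_nonneg _) (bound T)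
  · intro f g p
    simp only [sl_add, map_add]
    rfl
  · intro c g p
    simp only [sl_smul, map_smul]
    rfl

/-- the amplification -/
noncomputable def A (G : Type) (T : Op X) : Op (X × G) := (exA (G := G) T).choose

theorem A_norm (T : Op X) : ‖A G T‖ ≤ ‖T‖ := (exA (G := G) T).choose_spec.1

theorem A_apply (T : Op X) (g : L2 (X × G)) (p : X × G) :
    (A G T g) p = (T (sl p.2 g)) p.1 := (exA (G := G) T).choose_spec.2 g p

theorem sl_A (T : Op X) (g : L2 (X × G)) (F : G) : sl F (A G T g) = T (sl F g) := by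
  apply lp.ext; funext x
  rw [sl_apply, A_apply]

theorem op_ext {S T : Op (X × G)} (h : ∀ g p, (S g) p = (T g) p) : S = T := by
  apply ContinuousLinearMap.ext
  intro g
  apply lp.ext
  funext p
  exact h g p

/-- the star homomorphism -/
noncomputable def AH (X G : Type) : Op X →⋆ₙₐ[ℂ] Op (X × G) where
  toFun := A G
  map_smul' := by
    intro c T
    apply op_ext
    intro g p
    rw [A_apply]
    have : ((c • A G T) g) p = c * (A G T g) p := rfl
    simp only [MonoidHom.id_apply]
    rw [this, A_apply]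
    rfl
  map_zero' := by
    apply op_ext
    intro g p
    rw [A_apply]
    rfl
  map_add' := by
    intro S T
    apply op_ext
    intro g p
    rw [A_apply]
    have : ((A G S + A G T) g) p = (A G S g) p + (A G T g) p := rfl
    rw [this, A_apply, A_apply]
    rfl
  map_mul' := by
    intro S T
    apply op_ext
    intro g p
    rw [A_apply]
    have : ((A G S * A G T) g) p = (A G S (A G T g)) p := rfl
    rw [this, A_apply, sl_A]
    rfl
  map_star' := by
    intro T
    rw [ContinuousLinearMap.star_eq_adjoint, ContinuousLinearMap.star_eq_adjoint,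
      ContinuousLinearMap.eq_adjoint_iff]
    intro f g
    have h1 := hasSum_inner_sl (A G (T†) f) g
    have h2 := hasSum_inner_sl f (A G T g)
    simp only [sl_A] at h1 h2
    simp only [ContinuousLinearMap.adjoint_inner_left] at h1
    exact h1.unique h2

theorem sl_dl (F' F : G) (x : X) :
    sl F' (Pool.Agent.H626R3.CT.dl (x, F)) = if F' = F then Pool.Agent.H626R3.CT.dl x else 0 := by
  apply lp.ext
  funext x'
  rw [sl_apply, dl_app]
  by_cases h : F' = F
  · subst h
    rw [if_pos rfl, dl_app]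
    by_cases hx : x' = x
    · rw [if_pos (by rw [hx]), if_pos hx]
    · rw [if_neg (by intro h'; exact hx (Prod.mk.inj h').1), if_neg hx]
  · rw [if_neg h, if_neg (by intro h'; exact h (Prod.mk.inj h').2)]
    rfl

theorem ok : Pool.Agent.H626R3.CT.TAmp0 := by
  intro X G
  refine ⟨AH X G, ?_, ?_, ?_⟩
  · exact AddMonoidHomClass.continuous_of_bound (AH X G) 1 (fun T => by
      rw [one_mul]; exact A_norm T)
  · rintro ⟨F0⟩ S T hST
    have hST' : A G S = A G T := hST
    obtain ⟨W, _, hW⟩ := Pool.Agent.H400R3.Roe.exists_comp (fun x : X => (x, F0))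
      (by intro a b hab; exact (Prod.mk.inj hab).1)
    apply ContinuousLinearMap.ext
    intro f
    have h1 : sl F0 ((W†) f) = f := by
      apply lp.ext
      funext x
      rw [sl_apply]
      exact Pool.Agent.H400R3.Roe.adjW_apply hW
        (by intro a b hab; exact (Prod.mk.inj hab).1) f x
    have h2 : sl F0 (A G S ((W†) f)) = sl F0 (A G T ((W†) f)) := by rw [hST']
    rw [sl_A, sl_A, h1] at h2
    exact h2
  · intro T x' x F' F
    unfold ent
    rw [inner_dl', inner_dl']
    have h : (AH X G T) (Pool.Agent.H626R3.CT.dl (x, F)) = A G T (Pool.Agent.H626R3.CT.dl (x, F)) :=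
      rfl
    rw [h, A_apply]
    simp only
    rw [sl_dl]
    by_cases hF : F' = F
    · rw [if_pos hF, if_pos hF]
    · rw [if_neg hF, if_neg hF, map_zero]
      rfl

end Pool.Agent.H626R3.CT.T_TAmp0
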