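import Pool.Agent.H626R3.CT.T_TUni38

set_option autoImplicit false

open scoped Classical symmDiff

namespace Pool.Agent.H626R3.CT.T_TAmp38

open Pool.Agent.H626R3.CT Pool.Agent.H626R3.CT.T_TUni38

theorem xi_orth (hconv : TConv) {X : Type} (u : ℕ → X → ℂ) (hu : ∀ l x, ‖u l x‖ = 1) (L₀ : X → ℕ) :
    Orthonormal ℂ (xi u L₀) := by
  rw [orthonormal_iff_ite]
  intro y y'
  have h1 : inner ℂ (xi u L₀ y) (xi u L₀ y') =
      ∑ S ∈ (Finset.range (L₀ y.1)).powerset,
        (starRingEnd ℂ) (cf (fun l => u l y.1) (L₀ y.1) S) *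
          (xi u L₀ y' : L2 (X × Finset ℕ)) (y.1, y.2 ∆ S) := by
    conv_lhs => rw [xi]
    rw [sum_inner]
    apply Finset.sum_congr rfl
    intro S _
    rw [inner_smul_left, inner_dl]
  rw [h1]
  by_cases hx : y.1 = y'.1
  · have h2 := keyK hconv (fun l => u l y.1) (fun l => hu l y.1) (L₀ y.1) (y.2 ∆ y'.2)
    have h3 : (y.2 ∆ y'.2 = ∅) ↔ y = y' := by
      rw [← Finset.bot_eq_empty, symmDiff_eq_bot]
      constructor
      · intro h; exact Prod.ext hx h
      · intro h; rw [h]
    simp only [h3] at h2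
    rw [← h2]
    apply Finset.sum_congr rfl
    intro S _
    rw [xi_apply]
    congr 1
    have h4 : (y.2 ∆ S) ∆ y'.2 = S ∆ (y.2 ∆ y'.2) := by
      rw [symmDiff_comm y.2 S, symmDiff_assoc]
    simp only [h4, ← hx, true_and]
  · have hne : y ≠ y' := fun h => hx (by rw [h])
    rw [if_neg hne]
    apply Finset.sum_eq_zero
    intro S _
    rw [xi_apply, if_neg (fun h => hx h.1), mul_zero]

theorem xi_span (hconv : TConv) {X : Type} (u : ℕ → X → ℂ) (hu : ∀ l x, ‖u l x‖ = 1) (L₀ : X → ℕ)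
    (y : X × Finset ℕ) : dl y ∈ Submodule.span ℂ (Set.range (xi u L₀)) := by
  have h1 : dl y = ∑ T ∈ (Finset.range (L₀ y.1)).powerset,
      (starRingEnd ℂ) (cf (fun l => u l y.1) (L₀ y.1) T) • xi u L₀ (y.1, y.2 ∆ T) := by
    apply lp.ext
    funext y'
    rw [dl_apply, lp.coeFn_sum, Finset.sum_apply]
    have h2 : ∀ T, (((starRingEnd ℂ) (cf (fun l => u l y.1) (L₀ y.1) T) •
        xi u L₀ (y.1, y.2 ∆ T) : L2 (X × Finset ℕ)) y') =
        (starRingEnd ℂ) (cf (fun l => u l y.1) (L₀ y.1) T) *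
          (if y'.1 = y.1 ∧ y'.2 ∆ (y.2 ∆ T) ⊆ Finset.range (L₀ y.1) then
            cf (fun l => u l y.1) (L₀ y.1) (y'.2 ∆ (y.2 ∆ T)) else 0) := by
      intro T
      rw [lp.coeFn_smul, Pi.smul_apply, smul_eq_mul, xi_apply]
    simp only [h2]
    by_cases hx : y'.1 = y.1
    · have h3 := keyK hconv (fun l => u l y.1) (fun l => hu l y.1) (L₀ y.1) (y'.2 ∆ y.2)
      have h4 : (y'.2 ∆ y.2 = ∅) ↔ y' = y := by
        rw [← Finset.bot_eq_empty, symmDiff_eq_bot]
        constructor
        · intro h; exact Prod.ext hx h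
        · intro h; rw [h]
      simp only [h4] at h3
      refine Eq.trans ?_ (h3.symm.trans (Finset.sum_congr rfl ?_))
      · split_ifs <;> rfl
      intro T _
      congr 1
      have h5 : y'.2 ∆ (y.2 ∆ T) = T ∆ (y'.2 ∆ y.2) := by
        rw [← symmDiff_assoc, symmDiff_comm T]
      simp only [h5, hx, true_and]
    · have hne : y' ≠ y := fun h => hx (by rw [h])
      rw [if_neg hne]
      symm
      apply Finset.sum_eq_zero
      intro T _
      rw [if_neg (fun h => hx h.1), mul_zero]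
  rw [h1]
  apply Submodule.sum_mem
  intro T _
  apply Submodule.smul_mem
  exact Submodule.subset_span ⟨_, rfl⟩

/-- `xi` computed with a larger bound -/
theorem xi_eq {X : Type} (u : ℕ → X → ℂ) (L₀ : X → ℕ) (hL₀ : ∀ x l, L₀ x ≤ l → u l x = 1)
    (y : X × Finset ℕ) (L : ℕ) (hL : ∀ l, L ≤ l → u l y.1 = 1) :
    xi u L₀ y = ∑ S ∈ (Finset.range L).powerset, cf (fun l => u l y.1) L S • dl (y.1, y.2 ∆ S) := by
  have h0 : ∑ S ∈ (Finset.range L).powerset, cf (fun l => u l y.1) L S • dl (y.1, y.2 ∆ S) =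
      xi u (fun _ => L) y := rfl
  rw [h0]
  apply lp.ext
  funext y'
  rw [xi_apply, xi_apply]
  by_cases hx : y'.1 = y.1
  · simp only [hx, true_and]
    have key : ∀ M N : ℕ, (∀ l, M ≤ l → u l y.1 = 1) → (∀ l, N ≤ l → u l y.1 = 1) →
        y'.2 ∆ y.2 ⊆ Finset.range M → cf (fun l => u l y.1) M (y'.2 ∆ y.2) =
        (if y'.2 ∆ y.2 ⊆ Finset.range N then cf (fun l => u l y.1) N (y'.2 ∆ y.2) else 0) :=
      fun M N h1 h2 h3 => cf_change _ M N h1 h2 _ h3
    by_cases h1 : y'.2 ∆ y.2 ⊆ Finset.range (L₀ y.1)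
    · rw [if_pos h1, key _ L (hL₀ y.1) hL h1]
    · rw [if_neg h1]
      by_cases h2 : y'.2 ∆ y.2 ⊆ Finset.range L
      · rw [if_pos h2, key L (L₀ y.1) hL (hL₀ y.1) h2, if_neg h1]
      · rw [if_neg h2]
  · rw [if_neg (fun h => hx h.1), if_neg (fun h => hx h.1)]

theorem ok : TAmp := by
  intro hA hconv _ X Y e u hu hL
  choose L₀ hL₀ using hL
  obtain ⟨A, hAc, hAi, hAe⟩ := hA X (Finset ℕ)
  have horth : Orthonormal ℂ (fun y => xi u L₀ (e y)) := (xi_orth hconv u hu L₀).comp _ e.injective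
  have hrange : Set.range (fun y => xi u L₀ (e y)) = Set.range (xi u L₀) :=
    e.surjective.range_comp (xi u L₀)
  have hbot : (Submodule.span ℂ (Set.range (fun y => xi u L₀ (e y))))ᗮ = ⊥ := by
    rw [hrange, Submodule.eq_bot_iff]
    intro f hf
    apply lp.ext
    funext y
    have h1 := (Submodule.mem_orthogonal _ _).mp hf (dl y) (xi_span hconv u hu L₀ y)
    rw [inner_dl] at h1
    rw [h1]
    rfl
  obtain ⟨H, hH⟩ : ∃ H : HilbertBasis Y ℂ (L2 (X × Finset ℕ)), ⇑H = fun y => xi u L₀ (e y) :=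
    ⟨HilbertBasis.mkOfOrthogonalEqBot horth hbot, HilbertBasis.coe_mkOfOrthogonalEqBot _ _⟩
  have hsymm : ∀ y, H.repr.symm (dl y) = xi u L₀ (e y) := by
    intro y
    rw [← congrFun hH y]
    exact @HilbertBasis.repr_symm_single _ _ _ _ _ _ (fun a b => Classical.propDecidable _) H y
  refine ⟨((LinearIsometryEquiv.conjStarAlgEquiv H.repr : Op (X × Finset ℕ) →⋆ₙₐ[ℂ] Op Y)).comp A,
    ?_, ?_, ?_⟩
  · have h1 : Continuous (fun x : Op (X × Finset ℕ) => (H.repr.conjStarAlgEquiv x : Op Y)) := by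
      simp only [LinearIsometryEquiv.conjStarAlgEquiv_apply]
      exact continuous_const.clm_comp (continuous_id.clm_comp continuous_const)
    exact h1.comp hAc
  · exact (H.repr.conjStarAlgEquiv (𝕜 := ℂ)).injective.comp (hAi ⟨∅⟩)
  · intro T x' x F' F L hLx hF
    have h1 : ∀ y' y : Y, ent ((((LinearIsometryEquiv.conjStarAlgEquiv H.repr :
        Op (X × Finset ℕ) →⋆ₙₐ[ℂ] Op Y)).comp A) T) y' y =
        inner ℂ (xi u L₀ (e y')) (A T (xi u L₀ (e y))) := by
      intro y' y
      rw [← hsymm y', ← hsymm y]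
      unfold ent
      have h2 : (((((LinearIsometryEquiv.conjStarAlgEquiv H.repr :
        Op (X × Finset ℕ) →⋆ₙₐ[ℂ] Op Y)).comp A) T) (dl y) : L2 Y) =
          H.repr (A T (H.repr.symm (dl y))) := rfl
      rw [h2, ← H.repr.inner_map_map (H.repr.symm (dl y')), LinearIsometryEquiv.apply_symm_apply]
    rw [h1, Equiv.apply_symm_apply, Equiv.apply_symm_apply,
      xi_eq u L₀ hL₀ (x', F') L (fun l hl => (hLx l hl).1),
      xi_eq u L₀ hL₀ (x, F) L (fun l hl => (hLx l hl).2)]
    simp only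
    rw [sum_inner]
    have h3 : ∀ S' ∈ (Finset.range L).powerset,
        inner ℂ (cf (fun l => u l x') L S' • (dl (x', F' ∆ S') : L2 (X × Finset ℕ)))
          (A T (∑ S ∈ (Finset.range L).powerset, cf (fun l => u l x) L S • dl (x, F ∆ S))) =
        ent T x' x * ((starRingEnd ℂ) (cf (fun l => u l x') L S') *
          cf (fun l => u l x) L (S' ∆ (F' ∆ F))) := by
      intro S' hS'
      rw [Finset.mem_powerset] at hS'
      rw [inner_smul_left, map_sum, inner_sum]
      have h4 : ∀ S ∈ (Finset.range L).powerset,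
          inner ℂ (dl (x', F' ∆ S') : L2 (X × Finset ℕ))
            (A T (cf (fun l => u l x) L S • dl (x, F ∆ S))) =
          if S = S' ∆ (F' ∆ F) then cf (fun l => u l x) L S * ent T x' x else 0 := by
        intro S _
        rw [map_smul, inner_smul_right]
        have h5 := hAe T x' x (F' ∆ S') (F ∆ S)
        unfold ent at h5
        rw [h5]
        by_cases h6 : S = S' ∆ (F' ∆ F)
        · have h7 : F' ∆ S' = F ∆ S := by
            rw [h6]
            ext l
            simp only [Finset.mem_symmDiff]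
            tauto
          rw [if_pos h7, if_pos h6]
          rfl
        · have h7 : ¬ F' ∆ S' = F ∆ S := by
            intro h8
            apply h6
            have h9 : S = F ∆ (F' ∆ S') := by rw [h8, symmDiff_symmDiff_cancel_left]
            rw [h9]
            ext l
            simp only [Finset.mem_symmDiff]
            tauto
          rw [if_neg h7, if_neg h6, mul_zero]
      rw [Finset.sum_congr rfl h4, Finset.sum_ite_eq', if_pos
        (Finset.mem_powerset.mpr ((symm_sub hS').mpr hF))]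
      ring
    rw [Finset.sum_congr rfl h3, ← Finset.mul_sum]
    congr 1
    exact hconv (fun l => u l x') (fun l => u l x) L (F' ∆ F) hF

end Pool.Agent.H626R3.CT.T_TAmp38
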