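import Pool.Agent.H626R3.CT.Stmts

set_option autoImplicit false

namespace Pool.Agent.H626R3.CT.T_TAnti

open Pool.Agent.H626R3.CT

theorem t_ge (j : ℕ) : 3 ≤ t j := by
  have h : 1 ≤ 2 * (j + 1) ^ 2 - 1 := by
    have : 1 ≤ (j + 1) ^ 2 := Nat.one_le_pow _ _ (by omega)
    omega
  calc 3 = 3 ^ 1 := by norm_num
    _ ≤ t j := Nat.pow_le_pow_right (by norm_num) h

theorem n_eq (j : ℕ) : n j = 3 ^ (2 * (j + 1) ^ 2) := by
  have h : 1 ≤ (j + 1) ^ 2 := Nat.one_le_pow _ _ (by omega)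
  obtain ⟨e, he⟩ : ∃ e, 2 * (j + 1) ^ 2 = e + 1 := ⟨2 * (j + 1) ^ 2 - 1, by omega⟩
  unfold n t
  rw [he, Nat.add_sub_cancel, pow_succ]
  ring

theorem n_dvd_t {j l : ℕ} (h : j < l) : n j ∣ t l := by
  rw [n_eq]
  unfold t
  apply pow_dvd_pow
  have h1 : (j + 2) ^ 2 ≤ (l + 1) ^ 2 := Nat.pow_le_pow_left (by omega) 2
  have h2 : (j + 2) ^ 2 = (j + 1) ^ 2 + 2 * j + 3 := by ring
  omega

theorem refl_mod (j a : ℕ) : refl j a % n j = n j - 1 - a % n j := by
  have hn : 0 < n j := by have := t_ge j; unfold n; omega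
  unfold refl
  rw [Nat.mul_add_mod, Nat.mod_eq_of_lt (by omega)]

theorem refl_div (j a : ℕ) : refl j a / n j = a / n j := by
  have hn : 0 < n j := by have := t_ge j; unfold n; omega
  have h1 : (n j - 1 - a % n j) / n j = 0 := Nat.div_eq_of_lt (by omega)
  have e : refl j a = n j * (a / n j) + (n j - 1 - a % n j) := rfl
  rw [e, Nat.mul_add_div hn, h1, add_zero]

theorem refl_refl (j a : ℕ) : refl j (refl j a) = a := by
  have hn : 0 < n j := by have := t_ge j; unfold n; omega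
  have h1 : a % n j < n j := Nat.mod_lt _ hn
  have h2 := Nat.div_add_mod a (n j)
  have e : refl j (refl j a) = n j * (refl j a / n j) + (n j - 1 - refl j a % n j) := rfl
  rw [e, refl_mod, refl_div]
  omega

theorem nearmid_refl {j a : ℕ} (h : nearmid j a) : nearmid j (refl j a) := by
  have ht := t_ge j
  obtain ⟨h1, h2⟩ := h
  unfold nearmid
  rw [refl_mod]
  unfold n at *
  omega

theorem not_lt_level {j l a : ℕ} (hjl : j < l) (hj : nearmid j a) (hl : nearmid l a)
    (hm : ¬ mid l a) : False := by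
  have htj := t_ge j
  have htl := t_ge l
  obtain ⟨q, hq⟩ := n_dvd_t hjl
  have hdvd : n j ∣ n l := ⟨3 * q, by
    have : n l = 3 * t l := rfl
    rw [this, hq]; ring⟩
  have hmod := Nat.mod_mod_of_dvd a hdvd
  have hn : n j = 3 * t j := rfl
  obtain ⟨h1, h2⟩ := hj
  obtain ⟨h3, h4⟩ := hl
  have hcase : a % n l = t l - 1 ∨ a % n l = 2 * t l := by
    by_contra hcon
    push Not at hcon
    exact hm ⟨by omega, by omega⟩
  have hq0 : 0 < q := by
    rcases Nat.eq_zero_or_pos q with h | h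
    · rw [h, mul_zero] at hq; omega
    · exact h
  rcases hcase with h | h
  · rw [h] at hmod
    have h5 : t l - 1 = n j * (q - 1) + (n j - 1) := by
      obtain ⟨e, rfl⟩ : ∃ e, q = e + 1 := ⟨q - 1, by omega⟩
      rw [hq, Nat.add_sub_cancel, mul_add, mul_one]
      omega
    rw [h5, Nat.mul_add_mod, Nat.mod_eq_of_lt (by omega)] at hmod
    omega
  · rw [h, hq] at hmod
    have h5 : 2 * (n j * q) % n j = 0 := by
      rw [show 2 * (n j * q) = n j * (2 * q) by ring]
      exact Nat.mul_mod_right _ _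
    rw [h5] at hmod
    omega

theorem level_le {j l : ℕ} {x y z : XX} (h1 : Anti j x y) (h2 : Anti l x z) : ¬ j < l := by
  intro h
  obtain ⟨a1, b1, -, -⟩ := h1
  obtain ⟨a2, b2, -, -⟩ := h2
  have hx := x.out l
  by_cases hm : mid l x.a
  · exact not_lt_level h b1 b2 (fun hb => hx ⟨hm, hb⟩)
  · exact not_lt_level h a1 a2 hm

theorem ok : TAnti := by
  constructor
  · rintro j x y ⟨h1, h2, h3, h4⟩
    refine ⟨?_, ?_, ?_, ?_⟩
    · rw [h3]; exact nearmid_refl h1
    · rw [h4]; exact nearmid_refl h2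
    · rw [h3, refl_refl]
    · rw [h4, refl_refl]
  · intro j l x y z h1 h2
    have hjl : j = l := le_antisymm (not_lt.mp (level_le h2 h1)) (not_lt.mp (level_le h1 h2))
    subst hjl
    refine ⟨rfl, ?_⟩
    obtain ⟨-, -, h3, h4⟩ := h1
    obtain ⟨-, -, h5, h6⟩ := h2
    obtain ⟨ya, yb, hy⟩ := y
    obtain ⟨za, zb, hz⟩ := z
    simp only at h3 h4 h5 h6
    subst h3 h4 h5 h6
    rfl

end Pool.Agent.H626R3.CT.T_TAnti
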