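import Pool.Agent.H626R3.CT.Stmts

/-!
# H626-CT: `TApprox`

Approximation of the twisted amplification of a finite propagation operator by finite propagation
operators.
-/

set_option autoImplicit false

open scoped Classical symmDiff

namespace Pool.Agent.H626R3.CT.T_TApprox

open Pool.Agent.H626R3.CT

theorem norm_dl {X : Type} (x : X) : ‖dl x‖ = 1 := by
  unfold dl
  rw [lp.norm_single (by norm_num)]
  simp

theorem norm_ent_le {X : Type} (T : Op X) (x y : X) : ‖ent T x y‖ ≤ ‖T‖ := by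
  unfold ent
  calc ‖inner ℂ (dl x) (T (dl y))‖ ≤ ‖dl x‖ * ‖T (dl y)‖ := norm_inner_le_norm _ _
    _ ≤ 1 * (‖T‖ * ‖dl y‖) := by
        rw [norm_dl]
        gcongr
        exact T.le_opNorm _
    _ = ‖T‖ := by rw [norm_dl]; ring

theorem ent_sub {Y : Type} (A B : Op Y) (y' y : Y) :
    ent (A - B) y' y = ent A y' y - ent B y' y := by
  unfold ent
  rw [sub_apply, inner_sub_right]

theorem norm_cf_le (w : ℕ → ℂ) (hw : ∀ l, ‖w l‖ ≤ 1) (L : ℕ) (S : Finset ℕ) : ‖cf w L S‖ ≤ 1 := by
  unfold cf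
  rw [norm_prod]
  refine Finset.prod_le_one (fun _ _ => norm_nonneg _) ?_
  intro l _
  have h1 := norm_sub_le (1 : ℂ) (w l)
  have h2 := norm_add_le (1 : ℂ) (w l)
  have h3 := hw l
  rw [norm_one] at h1 h2
  split_ifs
  · rw [norm_div, Complex.norm_ofNat]
    linarith
  · rw [norm_div, Complex.norm_ofNat]
    linarith

theorem norm_om {X : Type} (u : ℕ → X → ℂ) (hu : ∀ l x, ‖u l x‖ = 1) (x' x : X) (l : ℕ) :
    ‖om u x' x l‖ = 1 := by
  unfold om
  rw [norm_mul, RCLike.norm_conj, hu, hu, one_mul]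

theorem om_est {X : Type} (u : ℕ → X → ℂ) (hu : ∀ l x, ‖u l x‖ = 1) (x' x : X) (l : ℕ) (s : ℂ)
    (hs : s * s = 1) (hsn : ‖s‖ = 1) : ‖om u x' x l * s - 1‖ = ‖u l x' * s - u l x‖ := by
  have h1 : u l x' * (starRingEnd ℂ) (u l x') = 1 := by
    rw [Complex.mul_conj, Complex.normSq_eq_norm_sq, hu]
    simp
  have h2 : u l x' * (om u x' x l * s - 1) = - s * (u l x' * s - u l x) := by
    unfold om
    linear_combination (u l x * s) * h1 + u l x' * hs
  have h3 := congrArg norm h2
  rw [norm_mul, norm_mul, hu, one_mul, norm_neg, hsn, one_mul] at h3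
  exact h3

theorem dist_shift {X Y : Type} [MetricSpace Y] (e : Y ≃ X × Finset ℕ) (W : ℕ → ℝ)
    (hW : ∀ l x F, dist (e.symm (x, F)) (e.symm (x, F ∆ {l})) ≤ W l) (x : X) (F D : Finset ℕ) :
    dist (e.symm (x, F)) (e.symm (x, F ∆ D)) ≤ ∑ l ∈ D, W l := by
  induction D using Finset.induction_on with
  | empty =>
    have : F ∆ ∅ = F := symmDiff_bot F
    rw [this]
    simp
  | insert l D' hl ih =>
    have e1 : F ∆ (insert l D') = (F ∆ D') ∆ {l} := by
      ext a
      simp only [Finset.mem_symmDiff, Finset.mem_insert, Finset.mem_singleton]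
      by_cases h1 : a ∈ F <;> by_cases h2 : a ∈ D' <;> by_cases h3 : a = l <;> simp_all
    rw [e1, Finset.sum_insert hl]
    calc dist (e.symm (x, F)) (e.symm (x, (F ∆ D') ∆ {l}))
        ≤ dist (e.symm (x, F)) (e.symm (x, F ∆ D')) +
          dist (e.symm (x, F ∆ D')) (e.symm (x, (F ∆ D') ∆ {l})) := dist_triangle _ _ _
      _ ≤ ∑ l ∈ D', W l + W l := add_le_add ih (hW _ _ _)
      _ = W l + ∑ l ∈ D', W l := add_comm _ _

theorem sub_range (F F' G : Finset ℕ) (L0 : ℕ)
    (h : (F' ∆ F).filter (L0 ≤ ·) = G.filter (L0 ≤ ·)) : F' ∆ (F ∆ G) ⊆ Finset.range L0 := by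
  intro a ha
  rw [Finset.mem_range]
  by_contra hcon
  rw [not_lt] at hcon
  have h1 : a ∈ (F' ∆ F).filter (L0 ≤ ·) ↔ a ∈ G.filter (L0 ≤ ·) := by rw [h]
  simp only [Finset.mem_filter, Finset.mem_symmDiff, hcon, and_true] at h1
  simp only [Finset.mem_symmDiff] at ha
  tauto

theorem exp_est (K : ℝ) (hK : 0 ≤ K) (L0 : ℕ) :
    2 ^ L0 * (Real.exp (2 * K / 3 ^ L0) - 1) ≤ (2 / 3 : ℝ) ^ L0 * (2 * K * Real.exp (2 * K)) := by
  set z := 2 * K / 3 ^ L0 with hz
  have hz0 : 0 ≤ z := by positivity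
  have h3 : (1 : ℝ) ≤ 3 ^ L0 := one_le_pow₀ (by norm_num)
  have hz1 : z ≤ 2 * K := div_le_self (by positivity) h3
  have h1 : Real.exp z - 1 ≤ z * Real.exp z := by
    have h := Real.add_one_le_exp (-z)
    have h' : Real.exp (-z) * Real.exp z = 1 := by rw [← Real.exp_add]; simp
    have h'' := mul_le_mul_of_nonneg_right h (Real.exp_pos z).le
    rw [h'] at h''
    linarith
  have h2 : z * Real.exp z ≤ z * Real.exp (2 * K) := by
    gcongr
  calc (2 : ℝ) ^ L0 * (Real.exp z - 1) ≤ 2 ^ L0 * (z * Real.exp (2 * K)) := by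
        gcongr
        exact h1.trans h2
    _ = (2 / 3 : ℝ) ^ L0 * (2 * K * Real.exp (2 * K)) := by
        rw [hz, div_pow]
        field_simp

/-- sums over finite subsets of `X × Finset ℕ` -/
theorem sum_est {X : Type} (h : X → Finset ℕ → ℝ) (hnn : ∀ x S, 0 ≤ h x S) (B : ℝ) (hB : 0 ≤ B)
    (ball : Set X) (hfin : ball.Finite) (N : ℕ) (hN : ball.ncard ≤ N)
    (h0 : ∀ x, x ∉ ball → ∀ S, h x S = 0)
    (hsum : ∀ x (FF : Finset (Finset ℕ)), ∑ S ∈ FF, h x S ≤ B)
    (s : Finset (X × Finset ℕ)) : ∑ p ∈ s, h p.1 p.2 ≤ N * B := by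
  have h1 : ∑ p ∈ s, h p.1 p.2 ≤ ∑ p ∈ (s.image Prod.fst) ×ˢ (s.image Prod.snd), h p.1 p.2 := by
    apply Finset.sum_le_sum_of_subset_of_nonneg
    · intro p hp
      rw [Finset.mem_product]
      exact ⟨Finset.mem_image_of_mem _ hp, Finset.mem_image_of_mem _ hp⟩
    · intro p _ _
      exact hnn _ _
  refine h1.trans ?_
  rw [Finset.sum_product]
  have h2 : ∑ x ∈ s.image Prod.fst, ∑ S ∈ s.image Prod.snd, h x S ≤
      ∑ x ∈ hfin.toFinset, B := by
    have h3 : ∑ x ∈ s.image Prod.fst, ∑ S ∈ s.image Prod.snd, h x S =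
        ∑ x ∈ (s.image Prod.fst).filter (· ∈ ball), ∑ S ∈ s.image Prod.snd, h x S := by
      rw [Finset.sum_filter_of_ne]
      intro x _ hx
      by_contra hx'
      exact hx (Finset.sum_eq_zero fun S _ => h0 x hx' S)
    rw [h3]
    calc ∑ x ∈ (s.image Prod.fst).filter (· ∈ ball), ∑ S ∈ s.image Prod.snd, h x S
        ≤ ∑ x ∈ (s.image Prod.fst).filter (· ∈ ball), B :=
          Finset.sum_le_sum fun x _ => hsum x _
      _ ≤ ∑ x ∈ hfin.toFinset, B := by
          apply Finset.sum_le_sum_of_subset_of_nonneg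
          · intro x hx
            rw [Finset.mem_filter] at hx
            exact hfin.mem_toFinset.2 hx.2
          · intro _ _ _
            exact hB
  refine h2.trans ?_
  rw [Finset.sum_const, nsmul_eq_mul, ← Set.ncard_eq_toFinset_card _ hfin]
  gcongr

theorem ok : Pool.Agent.H626R3.CT.TApprox := by
  intro hSchur hKer hL1 X Y _ _ e u hUX hUY hu hu1 hW hLift Φ hΦ T hT
  obtain ⟨r, hr⟩ := hT
  obtain ⟨K, hK, hg⟩ := hLift r
  choose W hW' using hW
  choose Lx hLx using hu1
  obtain ⟨N, hN⟩ := hUX r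
  -- the group elements
  have hg' : ∀ x x' : X, ∃ g : Finset ℕ, dist x x' ≤ r →
      (∀ F, dist (e.symm (x, F)) (e.symm (x', F ∆ g)) ≤ K) ∧
        ∀ l, ‖u l x' * (if l ∈ g then -1 else 1) - u l x‖ ≤ K / 3 ^ l := by
    intro x x'
    by_cases h : dist x x' ≤ r
    · obtain ⟨g, h1, h2⟩ := hg x x' h
      exact ⟨g, fun _ => ⟨h1, h2⟩⟩
    · exact ⟨∅, fun h' => absurd h' h⟩
  choose g hg using hg'
  -- entries of the image
  set E : X → X → Finset ℕ → ℂ := fun x' x S => ent (Φ T) (e.symm (x', S)) (e.symm (x, ∅)) with hE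
  have hEL : ∀ x' x S L, Lx x' ≤ L → Lx x ≤ L → S ⊆ Finset.range L →
      E x' x S = ent T x' x * cf (om u x' x) L S := by
    intro x' x S L h1 h2 h3
    have e0 : S ∆ ∅ = S := symmDiff_bot S
    have := hΦ T x' x S ∅ L (fun l hl => ⟨hLx x' l (h1.trans hl), hLx x l (h2.trans hl)⟩)
      (by rw [e0]; exact h3)
    rw [e0] at this
    exact this
  have hEF : ∀ x' x F' F, ent (Φ T) (e.symm (x', F')) (e.symm (x, F)) = E x' x (F' ∆ F) := by
    intro x' x F' F
    obtain ⟨M, hM⟩ : ∃ M, F' ∆ F ⊆ Finset.range M := by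
      obtain ⟨M, hM⟩ := (F' ∆ F).bddAbove
      refine ⟨M + 1, fun a ha => Finset.mem_range.2 ?_⟩
      have := hM ha
      omega
    set L := max M (max (Lx x') (Lx x)) with hL
    have l1 : Lx x' ≤ L := le_trans (le_max_left _ _) (le_max_right _ _)
    have l2 : Lx x ≤ L := le_trans (le_max_right _ _) (le_max_right _ _)
    have l3 : F' ∆ F ⊆ Finset.range L := hM.trans (Finset.range_subset_range.2 (le_max_left _ _))
    rw [hEL x' x _ L l1 l2 l3]
    exact hΦ T x' x F' F L (fun l hl => ⟨hLx x' l (l1.trans hl), hLx x l (l2.trans hl)⟩) l3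
  have hE0 : ∀ x' x S, ¬ dist x x' ≤ r → E x' x S = 0 := by
    intro x' x S h
    obtain ⟨M, hM⟩ : ∃ M, S ⊆ Finset.range M := by
      obtain ⟨M, hM⟩ := S.bddAbove
      refine ⟨M + 1, fun a ha => Finset.mem_range.2 ?_⟩
      have := hM ha
      omega
    rw [hEL x' x S (max M (max (Lx x') (Lx x)))
      (le_trans (le_max_left _ _) (le_max_right _ _))
      (le_trans (le_max_right _ _) (le_max_right _ _))
      (hM.trans (Finset.range_subset_range.2 (le_max_left _ _)))]
    rw [hr x' x (by rw [dist_comm]; exact not_le.1 h), zero_mul]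
  rw [Metric.mem_closure_iff]
  intro ε hε
  -- choice of the level
  have htend : Filter.Tendsto (fun L0 : ℕ => (N : ℝ) * (‖T‖ * ((2 / 3 : ℝ) ^ L0 *
      (2 * K * Real.exp (2 * K))))) Filter.atTop (nhds 0) := by
    have h1 := tendsto_pow_atTop_nhds_zero_of_lt_one (r := (2 / 3 : ℝ)) (by norm_num) (by norm_num)
    have h2 := ((h1.mul_const (2 * K * Real.exp (2 * K))).const_mul ‖T‖).const_mul (N : ℝ)
    simpa using h2
  obtain ⟨L0, hL0⟩ := (htend.eventually (gt_mem_nhds hε)).exists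
  set B0 : ℝ := ‖T‖ * (2 ^ L0 * (Real.exp (2 * K / 3 ^ L0) - 1)) with hB0
  have hB0nn : 0 ≤ B0 := by
    have : 1 ≤ Real.exp (2 * K / 3 ^ L0) := Real.one_le_exp (by positivity)
    rw [hB0]
    have h1 : 0 ≤ Real.exp (2 * K / 3 ^ L0) - 1 := by linarith
    positivity
  have hNB : (N : ℝ) * B0 < ε := by
    refine lt_of_le_of_lt ?_ hL0
    rw [hB0]
    have := exp_est K hK L0
    gcongr
  -- the kernel
  set k0 : X → X → Finset ℕ → ℂ := fun x' x S =>
    if dist x x' ≤ r ∧ S.filter (L0 ≤ ·) = (g x x').filter (L0 ≤ ·) then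
      ent T x' x * cf (om u x' x) L0 S else 0 with hk0
  have hk0bd : ∀ x' x S, ‖k0 x' x S‖ ≤ ‖T‖ := by
    intro x' x S
    rw [hk0]
    dsimp only
    split_ifs
    · rw [norm_mul]
      calc ‖ent T x' x‖ * ‖cf (om u x' x) L0 S‖ ≤ ‖T‖ * 1 := by
            gcongr
            · exact norm_ent_le _ _ _
            · exact norm_cf_le _ (fun l => (norm_om u hu x' x l).le) _ _
        _ = ‖T‖ := mul_one _
    · simp
  set k : Y → Y → ℂ := fun y' y => k0 (e y').1 (e y).1 ((e y').2 ∆ (e y).2) with hk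
  set R1 : ℝ := K + ∑ l ∈ Finset.range L0, |W l| with hR1
  have hprop : ∀ y' y, k y' y ≠ 0 → dist y y' ≤ R1 := by
    intro y' y hne
    have hcond : dist (e y).1 (e y').1 ≤ r ∧ ((e y').2 ∆ (e y).2).filter (L0 ≤ ·) =
        (g (e y).1 (e y').1).filter (L0 ≤ ·) := by
      by_contra hcon
      apply hne
      rw [hk, hk0]
      dsimp only
      rw [if_neg hcon]
    set x := (e y).1 with hx
    set x' := (e y').1 with hx'
    set F := (e y).2 with hF
    set F' := (e y').2 with hF'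
    have hy : y = e.symm (x, F) := by rw [hx, hF]; simp
    have hy' : y' = e.symm (x', F') := by rw [hx', hF']; simp
    set D := F' ∆ (F ∆ g x x') with hD
    have hDsub : D ⊆ Finset.range L0 := sub_range F F' (g x x') L0 hcond.2
    have e1 : (F ∆ g x x') ∆ D = F' := by
      rw [hD, symmDiff_comm F' (F ∆ g x x'), symmDiff_symmDiff_cancel_left]
    have h2 := dist_shift e (fun l => |W l|) (fun l x F => (hW' l x F).trans (le_abs_self _)) x'
      (F ∆ g x x') D
    rw [e1] at h2
    have h3 := (hg x x' hcond.1).1 F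
    have h4 : ∑ l ∈ D, |W l| ≤ ∑ l ∈ Finset.range L0, |W l| :=
      Finset.sum_le_sum_of_subset_of_nonneg hDsub (fun _ _ _ => abs_nonneg _)
    rw [hy, hy', hR1]
    calc dist (e.symm (x, F)) (e.symm (x', F'))
        ≤ dist (e.symm (x, F)) (e.symm (x', F ∆ g x x')) +
          dist (e.symm (x', F ∆ g x x')) (e.symm (x', F')) := dist_triangle _ _ _
      _ ≤ K + ∑ l ∈ Finset.range L0, |W l| := add_le_add h3 (h2.trans h4)
  obtain ⟨N1, hN1⟩ := hUY R1
  obtain ⟨S0, hS0⟩ := hKer Y k ‖T‖ N1 (fun y' y => hk0bd _ _ _)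
    (by
      intro y
      have hsub : {y' | k y' y ≠ 0} ⊆ Metric.closedBall y R1 := by
        intro y' hy'
        rw [Metric.mem_closedBall, dist_comm]
        exact hprop y' y hy'
      exact ⟨(hN1 y).1.subset hsub, (Set.ncard_le_ncard hsub (hN1 y).1).trans (hN1 y).2⟩)
    (by
      intro y'
      have hsub : {y | k y' y ≠ 0} ⊆ Metric.closedBall y' R1 := by
        intro y hy
        rw [Metric.mem_closedBall]
        exact hprop y' y hy
      exact ⟨(hN1 y').1.subset hsub, (Set.ncard_le_ncard hsub (hN1 y').1).trans (hN1 y').2⟩)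
  refine ⟨S0, ⟨R1, ?_⟩, ?_⟩
  · intro y' y h
    rw [hS0]
    by_contra hne
    have := hprop y' y hne
    rw [dist_comm] at this
    linarith
  rw [dist_eq_norm]
  refine lt_of_le_of_lt ?_ hNB
  -- the key estimate
  have key : ∀ x' x (FF : Finset (Finset ℕ)), ∑ S ∈ FF, ‖E x' x S - k0 x' x S‖ ≤ B0 := by
    intro x' x FF
    by_cases hd : dist x x' ≤ r
    · obtain ⟨M, hM⟩ : ∃ M, ∀ S ∈ FF, S ⊆ Finset.range M := by
        obtain ⟨M, hM⟩ := (FF.sup id).bddAbove
        refine ⟨M + 1, fun S hS a ha => Finset.mem_range.2 ?_⟩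
        have h1 : a ∈ FF.sup id := Finset.mem_sup.2 ⟨S, hS, ha⟩
        have := hM h1
        omega
      obtain ⟨M', hM'⟩ : ∃ M, g x x' ⊆ Finset.range M := by
        obtain ⟨M, hM⟩ := (g x x').bddAbove
        refine ⟨M + 1, fun a ha => Finset.mem_range.2 ?_⟩
        have := hM ha
        omega
      set L := M + M' + L0 + Lx x' + Lx x with hL
      have hsub : FF ⊆ (Finset.range L).powerset := by
        intro S hS
        rw [Finset.mem_powerset]
        exact (hM S hS).trans (Finset.range_subset_range.2 (by omega))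
      have h1 := hL1 (om u x' x) (g x x') K (norm_om u hu x' x) hK (by
        intro l
        have h2 := (hg x x' hd).2 l
        have h3 := om_est u hu x' x l (if l ∈ g x x' then -1 else 1)
          (by split_ifs <;> norm_num) (by split_ifs <;> simp)
        rw [h3]
        exact h2) L0 L (by omega) (hM'.trans (Finset.range_subset_range.2 (by omega)))
      calc ∑ S ∈ FF, ‖E x' x S - k0 x' x S‖
          ≤ ∑ S ∈ (Finset.range L).powerset, ‖E x' x S - k0 x' x S‖ :=
            Finset.sum_le_sum_of_subset_of_nonneg hsub (fun _ _ _ => norm_nonneg _)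
        _ = ∑ S ∈ (Finset.range L).powerset, ‖ent T x' x‖ * ‖cf (om u x' x) L S -
              (if S.filter (L0 ≤ ·) = (g x x').filter (L0 ≤ ·) then
                cf (om u x' x) L0 S else 0)‖ := by
            refine Finset.sum_congr rfl fun S hS => ?_
            rw [Finset.mem_powerset] at hS
            rw [hEL x' x S L (by omega) (by omega) hS, ← norm_mul, mul_sub, hk0]
            dsimp only
            congr 2
            by_cases hc : S.filter (L0 ≤ ·) = (g x x').filter (L0 ≤ ·)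
            · rw [if_pos ⟨hd, hc⟩, if_pos hc]
            · rw [if_neg (fun h => hc h.2), if_neg hc, mul_zero]
        _ ≤ B0 := by
            rw [← Finset.mul_sum, hB0]
            exact mul_le_mul (norm_ent_le _ _ _) h1
              (Finset.sum_nonneg fun _ _ => norm_nonneg _) (norm_nonneg _)
    · have : ∀ S ∈ FF, ‖E x' x S - k0 x' x S‖ = 0 := by
        intro S _
        rw [hE0 x' x S hd, hk0]
        dsimp only
        rw [if_neg (fun h => hd h.1)]
        simp
      rw [Finset.sum_congr rfl this]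
      simpa using hB0nn
  have hent : ∀ y' y, ‖ent (Φ T - S0) y' y‖ =
      ‖E (e y').1 (e y).1 ((e y').2 ∆ (e y).2) - k0 (e y').1 (e y).1 ((e y').2 ∆ (e y).2)‖ := by
    intro y' y
    rw [ent_sub, hS0]
    have := hEF (e y').1 (e y).1 (e y').2 (e y).2
    simp only [Prod.mk.eta, Equiv.symm_apply_apply] at this
    rw [this]
  refine hSchur Y (Φ T - S0) (N * B0) (by positivity) ?_ ?_
  · intro y s
    have hinj : Set.InjOn (fun y' : Y => ((e y').1, (e y').2 ∆ (e y).2)) s := by
      intro a _ b _ hab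
      simp only [Prod.mk.injEq] at hab
      apply e.injective
      refine Prod.ext hab.1 ?_
      exact symmDiff_left_injective _ hab.2
    have h1 : ∑ y' ∈ s, ‖ent (Φ T - S0) y' y‖ =
        ∑ p ∈ s.image (fun y' : Y => ((e y').1, (e y').2 ∆ (e y).2)),
          ‖E p.1 (e y).1 p.2 - k0 p.1 (e y).1 p.2‖ := by
      rw [Finset.sum_image hinj]
      exact Finset.sum_congr rfl fun y' _ => hent y' y
    rw [h1]
    refine sum_est (fun x' S => ‖E x' (e y).1 S - k0 x' (e y).1 S‖) (fun _ _ => norm_nonneg _) B0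
      hB0nn (Metric.closedBall (e y).1 r) (hN _).1 N (hN _).2 ?_ (fun x' FF => key x' _ FF) _
    intro x' hx' S
    rw [Metric.mem_closedBall, dist_comm] at hx'
    rw [hE0 x' _ S hx', hk0]
    dsimp only
    rw [if_neg (fun h => hx' h.1)]
    simp
  · intro y' s
    have hinj : Set.InjOn (fun y : Y => ((e y).1, (e y').2 ∆ (e y).2)) s := by
      intro a _ b _ hab
      simp only [Prod.mk.injEq] at hab
      apply e.injective
      refine Prod.ext hab.1 ?_
      exact symmDiff_right_injective _ hab.2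
    have h1 : ∑ y ∈ s, ‖ent (Φ T - S0) y' y‖ =
        ∑ p ∈ s.image (fun y : Y => ((e y).1, (e y').2 ∆ (e y).2)),
          ‖E (e y').1 p.1 p.2 - k0 (e y').1 p.1 p.2‖ := by
      rw [Finset.sum_image hinj]
      exact Finset.sum_congr rfl fun y _ => hent y' y
    rw [h1]
    refine sum_est (fun x S => ‖E (e y').1 x S - k0 (e y').1 x S‖) (fun _ _ => norm_nonneg _) B0
      hB0nn (Metric.closedBall (e y').1 r) (hN _).1 N (hN _).2 ?_ (fun x FF => key _ x FF) _
    intro x hx S
    rw [Metric.mem_closedBall] at hx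
    rw [hE0 _ x S hx, hk0]
    dsimp only
    rw [if_neg (fun h => hx h.1)]
    simp

end Pool.Agent.H626R3.CT.T_TApprox
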