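import Pool.Agent.H626R3.CT.T_TUni38

set_option autoImplicit false

open scoped Classical symmDiff

namespace Pool.Agent.H626R3.CT.T_TApprox38

open Pool.Agent.H626R3.CT Pool.Agent.H626R3.CT.T_TUni38

theorem norm_dl {Y : Type} (y : Y) : ‖(dl y : L2 Y)‖ = 1 := by
  unfold dl
  rw [lp.norm_single (by norm_num)]
  simp

theorem ent_le {Y : Type} (T : Op Y) (y' y : Y) : ‖ent T y' y‖ ≤ ‖T‖ := by
  unfold ent
  calc ‖inner ℂ (dl y') (T (dl y))‖ ≤ ‖(dl y' : L2 Y)‖ * ‖T (dl y)‖ := norm_inner_le_norm _ _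
    _ ≤ 1 * (‖T‖ * ‖(dl y : L2 Y)‖) := by
      rw [norm_dl]
      exact mul_le_mul_of_nonneg_left (T.le_opNorm _) zero_le_one
    _ = ‖T‖ := by rw [norm_dl]; ring

theorem cf_le (w : ℕ → ℂ) (hw : ∀ l, ‖w l‖ = 1) (L : ℕ) (S : Finset ℕ) : ‖cf w L S‖ ≤ 1 := by
  unfold cf
  rw [norm_prod]
  apply Finset.prod_le_one
  · intro l _; exact norm_nonneg _
  · intro l _
    have h1 : ‖(1 : ℂ) - w l‖ ≤ 2 := by
      refine (norm_sub_le _ _).trans ?_
      rw [hw l]; norm_num
    have h2 : ‖(1 : ℂ) + w l‖ ≤ 2 := by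
      refine (norm_add_le _ _).trans ?_
      rw [hw l]; norm_num
    split_ifs
    · rw [norm_div]
      simp only [Complex.norm_ofNat]
      linarith
    · rw [norm_div]
      simp only [Complex.norm_ofNat]
      linarith

theorem om_norm {X : Type} (u : ℕ → X → ℂ) (hu : ∀ l x, ‖u l x‖ = 1) (x' x : X) (l : ℕ) :
    ‖om u x' x l‖ = 1 := by
  unfold om
  rw [norm_mul, RCLike.norm_conj, hu, hu, one_mul]

/-- sum over a finite set of points -/
theorem rows {X Y : Type} (e : Y ≃ X × Finset ℕ) (f : X → Finset ℕ → ℝ) (hf : ∀ x S, 0 ≤ f x S)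
    (Bl : Set X) (hfin : Bl.Finite) (N : ℕ) (hN : Bl.ncard ≤ N) (hBl : ∀ x S, x ∉ Bl → f x S = 0)
    (B : ℝ) (hB0 : 0 ≤ B) (hB : ∀ x (P : Finset (Finset ℕ)), ∑ S ∈ P, f x S ≤ B)
    (F : Finset ℕ) (s : Finset Y) : ∑ y ∈ s, f (e y).1 ((e y).2 ∆ F) ≤ N * B := by
  obtain ⟨P, hP⟩ : ∃ P, P = s.image (fun y => ((e y).1, (e y).2 ∆ F)) := ⟨_, rfl⟩
  have h1 : ∑ y ∈ s, f (e y).1 ((e y).2 ∆ F) = ∑ p ∈ P, f p.1 p.2 := by
    rw [hP, Finset.sum_image]
    intro y _ y' _ h
    simp only [Prod.mk.injEq] at h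
    apply e.injective
    exact Prod.ext h.1 (symmDiff_left_injective F h.2)
  rw [h1]
  calc ∑ p ∈ P, f p.1 p.2 ≤ ∑ p ∈ (P.image Prod.fst) ×ˢ (P.image Prod.snd), f p.1 p.2 := by
        apply Finset.sum_le_sum_of_subset_of_nonneg
        · intro p hp
          rw [Finset.mem_product]
          exact ⟨Finset.mem_image_of_mem _ hp, Finset.mem_image_of_mem _ hp⟩
        · intro p _ _; exact hf _ _
    _ = ∑ x ∈ P.image Prod.fst, ∑ S ∈ P.image Prod.snd, f x S := by
        rw [Finset.sum_product]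
    _ = ∑ x ∈ (P.image Prod.fst).filter (· ∈ Bl), ∑ S ∈ P.image Prod.snd, f x S := by
        rw [Finset.sum_filter]
        apply Finset.sum_congr rfl
        intro x _
        by_cases hx : x ∈ Bl
        · rw [if_pos hx]
        · rw [if_neg hx]
          exact Finset.sum_eq_zero (fun S _ => hBl x S hx)
    _ ≤ ∑ x ∈ (P.image Prod.fst).filter (· ∈ Bl), B := Finset.sum_le_sum (fun x _ => hB x _)
    _ = ((P.image Prod.fst).filter (· ∈ Bl)).card * B := by
        rw [Finset.sum_const, nsmul_eq_mul]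
    _ ≤ N * B := by
        apply mul_le_mul_of_nonneg_right _ hB0
        have h2 : ((P.image Prod.fst).filter (· ∈ Bl)).card ≤ Bl.ncard := by
          rw [← Set.ncard_coe_finset]
          apply Set.ncard_le_ncard _ hfin
          intro x hx
          rw [Finset.mem_coe, Finset.mem_filter] at hx
          exact hx.2
        exact_mod_cast h2.trans hN

theorem flips {X Y : Type} [MetricSpace Y] (e : Y ≃ X × Finset ℕ) (W : ℕ → ℝ)
    (hW : ∀ l x F, dist (e.symm (x, F)) (e.symm (x, F ∆ {l})) ≤ W l) (x : X) (D : Finset ℕ) :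
    ∀ F, dist (e.symm (x, F)) (e.symm (x, F ∆ D)) ≤ ∑ l ∈ D, W l := by
  induction D using Finset.induction_on with
  | empty =>
    intro F
    rw [← Finset.bot_eq_empty, symmDiff_bot]
    simp
  | insert a D ha ih =>
    intro F
    have h1 : F ∆ (insert a D) = (F ∆ D) ∆ {a} := by
      rw [symmDiff_assoc]
      congr 1
      ext l
      rw [Finset.mem_symmDiff, Finset.mem_insert, Finset.mem_singleton]
      constructor
      · rintro (rfl | h)
        · exact Or.inr ⟨rfl, ha⟩
        · exact Or.inl ⟨h, fun h' => ha (h' ▸ h)⟩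
      · rintro (⟨h, _⟩ | ⟨h, _⟩)
        · exact Or.inr h
        · exact Or.inl h
    rw [h1, Finset.sum_insert ha]
    have h2 := ih F
    have h3 := hW a x (F ∆ D)
    have h4 := dist_triangle (e.symm (x, F)) (e.symm (x, F ∆ D)) (e.symm (x, (F ∆ D) ∆ {a}))
    linarith

theorem small (C K ε : ℝ) (hC : 0 ≤ C) (hK : 0 ≤ K) (hε : 0 < ε) :
    ∃ L0 : ℕ, C * (2 ^ L0 * (Real.exp (2 * K / 3 ^ L0) - 1)) < ε := by
  have t1 : Filter.Tendsto (fun L : ℕ => C * (4 * K) * (2 / 3 : ℝ) ^ L) Filter.atTop (nhds 0) := by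
    have := (tendsto_pow_atTop_nhds_zero_of_lt_one (r := (2 / 3 : ℝ)) (by norm_num)
      (by norm_num)).const_mul (C * (4 * K))
    simpa using this
  have t2 : Filter.Tendsto (fun L : ℕ => (2 * K) * (1 / 3 : ℝ) ^ L) Filter.atTop (nhds 0) := by
    have := (tendsto_pow_atTop_nhds_zero_of_lt_one (r := (1 / 3 : ℝ)) (by norm_num)
      (by norm_num)).const_mul (2 * K)
    simpa using this
  obtain ⟨L, h1, h2⟩ := ((t1.eventually (gt_mem_nhds hε)).and
    (t2.eventually (gt_mem_nhds (show (0 : ℝ) < 1 by norm_num)))).exists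
  refine ⟨L, lt_of_le_of_lt ?_ h1⟩
  have h3 : 2 * K / 3 ^ L = (2 * K) * (1 / 3 : ℝ) ^ L := by
    rw [div_pow, one_pow, div_eq_mul_one_div]
  have h4 : 0 ≤ 2 * K / 3 ^ L := by positivity
  have h5 : Real.exp (2 * K / 3 ^ L) - 1 ≤ 2 * (2 * K / 3 ^ L) := by
    have := Real.abs_exp_sub_one_le (x := 2 * K / 3 ^ L) (by
      rw [abs_of_nonneg h4, h3]; exact h2.le)
    rw [abs_of_nonneg h4] at this
    exact (le_abs_self _).trans this
  calc C * (2 ^ L * (Real.exp (2 * K / 3 ^ L) - 1)) ≤ C * (2 ^ L * (2 * (2 * K / 3 ^ L))) := by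
        gcongr
    _ = C * (4 * K) * (2 / 3 : ℝ) ^ L := by
        rw [div_pow]; ring

theorem ok : TApprox := by
  intro hSchur hKer hL1 X Y _ _ e u hX hY hu1 hu2 hW hLift Φ hΦ T hT
  obtain ⟨r, hr⟩ := hT
  obtain ⟨K, hK0, hK⟩ := hLift r
  choose W hW using hW
  choose Lm hLm using hu2
  obtain ⟨NX, hNX⟩ := hX r
  have hg : ∀ x x' : X, ∃ g : Finset ℕ, dist x x' ≤ r →
      (∀ F, dist (e.symm (x, F)) (e.symm (x', F ∆ g)) ≤ K) ∧
      ∀ l, ‖u l x' * (if l ∈ g then -1 else 1) - u l x‖ ≤ K / 3 ^ l := by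
    intro x x'
    by_cases h : dist x x' ≤ r
    · obtain ⟨g, hg⟩ := hK x x' h
      exact ⟨g, fun _ => hg⟩
    · exact ⟨∅, fun h' => absurd h' h⟩
  choose g hg using hg
  rw [Metric.mem_closure_iff]
  intro ε hε
  obtain ⟨L0, hL0⟩ := small (NX * ‖T‖) K ε (by positivity) hK0 hε
  obtain ⟨B, hB⟩ : ∃ B : ℝ, B = 2 ^ L0 * (Real.exp (2 * K / 3 ^ L0) - 1) := ⟨_, rfl⟩
  have hB0 : 0 ≤ B := by
    rw [hB]
    have h4 : 0 ≤ 2 * K / 3 ^ L0 := by positivity
    have := Real.add_one_le_exp (2 * K / 3 ^ L0)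
    have h5 : 0 ≤ Real.exp (2 * K / 3 ^ L0) - 1 := by linarith
    positivity
  obtain ⟨c0, hc0⟩ : ∃ c0 : X → X → Finset ℕ → ℂ, c0 = fun x' x S =>
      if S.filter (L0 ≤ ·) = (g x x').filter (L0 ≤ ·) then cf (om u x' x) L0 S else 0 := ⟨_, rfl⟩
  obtain ⟨k, hk⟩ : ∃ k : Y → Y → ℂ, k = fun y' y =>
      ent T (e y').1 (e y).1 * c0 (e y').1 (e y).1 ((e y').2 ∆ (e y).2) := ⟨_, rfl⟩
  obtain ⟨R0, hR0⟩ : ∃ R0 : ℝ, R0 = K + ∑ l ∈ Finset.range L0, |W l| := ⟨_, rfl⟩
  have hsupp : ∀ y' y, k y' y ≠ 0 → dist y' y ≤ R0 := by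
    intro y' y hne
    rw [hk] at hne
    simp only at hne
    have h1 : dist (e y).1 (e y').1 ≤ r := by
      by_contra h
      rw [not_le, dist_comm] at h
      rw [hr _ _ h, zero_mul] at hne
      exact hne rfl
    have h2 : ((e y').2 ∆ (e y).2).filter (L0 ≤ ·) = (g (e y).1 (e y').1).filter (L0 ≤ ·) := by
      by_contra h
      rw [hc0] at hne
      simp only at hne
      rw [if_neg h, mul_zero] at hne
      exact hne rfl
    obtain ⟨h3, _⟩ := hg _ _ h1
    obtain ⟨D, hD⟩ : ∃ D, D = ((e y').2 ∆ (e y).2) ∆ (g (e y).1 (e y').1) := ⟨_, rfl⟩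
    have hDsub : D ⊆ Finset.range L0 := by
      intro l hl
      by_contra hlt
      rw [Finset.mem_range, not_lt] at hlt
      have h5 : l ∈ (e y').2 ∆ (e y).2 ↔ l ∈ g (e y).1 (e y').1 := by
        have := Finset.ext_iff.mp h2 l
        simp only [Finset.mem_filter, hlt, and_true] at this
        exact this
      rw [hD, Finset.mem_symmDiff, h5] at hl
      tauto
    have h6 : e.symm ((e y').1, ((e y).2 ∆ (g (e y).1 (e y').1)) ∆ D) = y' := by
      have : ((e y).2 ∆ (g (e y).1 (e y').1)) ∆ D = (e y').2 := by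
        rw [hD]
        ext l
        simp only [Finset.mem_symmDiff]
        tauto
      rw [this]
      exact e.symm_apply_apply y'
    have h7 := flips e W hW (e y').1 D ((e y).2 ∆ (g (e y).1 (e y').1))
    rw [h6] at h7
    have h8 := h3 (e y).2
    have h9 : e.symm ((e y).1, (e y).2) = y := e.symm_apply_apply y
    rw [h9] at h8
    have h10 : ∑ l ∈ D, W l ≤ ∑ l ∈ Finset.range L0, |W l| := by
      calc ∑ l ∈ D, W l ≤ ∑ l ∈ D, |W l| := Finset.sum_le_sum (fun l _ => le_abs_self _)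
        _ ≤ _ := Finset.sum_le_sum_of_subset_of_nonneg hDsub (fun l _ _ => abs_nonneg _)
    have h11 := dist_triangle y (e.symm ((e y').1, (e y).2 ∆ (g (e y).1 (e y').1))) y'
    rw [dist_comm y' y, hR0]
    linarith
  obtain ⟨NY, hNY⟩ := hY R0
  obtain ⟨S, hS⟩ := hKer Y k ‖T‖ NY (by
      intro y' y
      rw [hk]
      simp only
      rw [norm_mul]
      have h1 : ‖c0 (e y').1 (e y).1 ((e y').2 ∆ (e y).2)‖ ≤ 1 := by
        rw [hc0]
        simp only
        split_ifs
        · exact cf_le _ (om_norm u hu1 _ _) _ _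
        · simp
      calc ‖ent T (e y').1 (e y).1‖ * ‖c0 (e y').1 (e y).1 ((e y').2 ∆ (e y).2)‖ ≤ ‖T‖ * 1 := by
            gcongr
            exact ent_le _ _ _
        _ = ‖T‖ := mul_one _)
    (by
      intro y
      have hsub : {y' | k y' y ≠ 0} ⊆ Metric.closedBall y R0 := fun y' hy' => hsupp y' y hy'
      exact ⟨(hNY y).1.subset hsub, (Set.ncard_le_ncard hsub (hNY y).1).trans (hNY y).2⟩)
    (by
      intro y'
      have hsub : {y | k y' y ≠ 0} ⊆ Metric.closedBall y' R0 := fun y hy => by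
        rw [Metric.mem_closedBall, dist_comm]
        exact hsupp y' y hy
      exact ⟨(hNY y').1.subset hsub, (Set.ncard_le_ncard hsub (hNY y').1).trans (hNY y').2⟩)
  refine ⟨S, ⟨R0, ?_⟩, ?_⟩
  · intro y' y h
    rw [hS]
    by_contra hne
    exact absurd (hsupp y' y hne) (not_le.mpr h)
  -- the entries of the difference
  obtain ⟨Lb, hLb⟩ : ∃ Lb : X → X → Finset ℕ → ℕ, ∀ x' x P,
      (∀ l, Lb x' x P ≤ l → u l x' = 1 ∧ u l x = 1) ∧ P ⊆ Finset.range (Lb x' x P) := by
    refine ⟨fun x' x P => max (max (Lm x') (Lm x)) (P.sup id + 1), fun x' x P => ⟨fun l hl => ⟨?_, ?_⟩, ?_⟩⟩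
    · exact hLm x' l (le_trans (le_trans (le_max_left _ _) (le_max_left _ _)) hl)
    · exact hLm x l (le_trans (le_trans (le_max_right _ _) (le_max_left _ _)) hl)
    · intro l hl
      rw [Finset.mem_range]
      have h1 : l ≤ P.sup id := Finset.le_sup (f := id) hl
      have h2 := le_max_right (max (Lm x') (Lm x)) (P.sup id + 1)
      exact lt_of_lt_of_le (Nat.lt_succ_of_le h1) h2
  obtain ⟨val, hval⟩ : ∃ val : X → X → Finset ℕ → ℂ, val = fun x' x P =>
      ent T x' x * (cf (om u x' x) (Lb x' x P) P - c0 x' x P) := ⟨_, rfl⟩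
  have hent : ∀ y' y, ent (Φ T - S) y' y = val (e y').1 (e y).1 ((e y').2 ∆ (e y).2) := by
    intro y' y
    have h1 : ent (Φ T - S) y' y = ent (Φ T) y' y - ent S y' y := by
      unfold ent
      rw [sub_apply, inner_sub_right]
    have h2 := hΦ T (e y').1 (e y).1 (e y').2 (e y).2
      (Lb (e y').1 (e y).1 ((e y').2 ∆ (e y).2)) (hLb _ _ _).1 (hLb _ _ _).2
    have h3 : e.symm ((e y').1, (e y').2) = y' := e.symm_apply_apply y'
    have h4 : e.symm ((e y).1, (e y).2) = y := e.symm_apply_apply y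
    rw [h3, h4] at h2
    rw [h1, h2, hS, hk, hval]
    simp only
    ring
  have hval0 : ∀ x' x P, ¬ dist x x' ≤ r → val x' x P = 0 := by
    intro x' x P h
    rw [not_le, dist_comm] at h
    rw [hval]
    simp only
    rw [hr _ _ h, zero_mul]
  have hfib : ∀ x' x (Ps : Finset (Finset ℕ)), ∑ P ∈ Ps, ‖val x' x P‖ ≤ ‖T‖ * B := by
    intro x' x Ps
    by_cases hd : dist x x' ≤ r
    · obtain ⟨_, hgl⟩ := hg x x' hd
      obtain ⟨L, hLdef⟩ : ∃ L, L = max (max L0 (max (Lm x') (Lm x)))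
          (max (((g x x').sup id) + 1) ((Ps.sup (fun P => P.sup id)) + 1)) := ⟨_, rfl⟩
      have a1 : L0 ≤ L := by rw [hLdef]; exact le_trans (le_max_left _ _) (le_max_left _ _)
      have a2 : Lm x' ≤ L := by
        rw [hLdef]
        exact le_trans (le_trans (le_max_left _ _) (le_max_right _ _)) (le_max_left _ _)
      have a3 : Lm x ≤ L := by
        rw [hLdef]
        exact le_trans (le_trans (le_max_right _ _) (le_max_right _ _)) (le_max_left _ _)
      have a4 : g x x' ⊆ Finset.range L := by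
        intro l hl
        rw [Finset.mem_range]
        have h1 : l ≤ (g x x').sup id := Finset.le_sup (f := id) hl
        have h2 : (g x x').sup id + 1 ≤ L := by
          rw [hLdef]; exact le_trans (le_max_left _ _) (le_max_right _ _)
        omega
      have a5 : ∀ P ∈ Ps, P ⊆ Finset.range L := by
        intro P hP l hl
        rw [Finset.mem_range]
        have h1 : l ≤ P.sup id := Finset.le_sup (f := id) hl
        have h3 : P.sup id ≤ Ps.sup (fun P => P.sup id) :=
          Finset.le_sup (f := fun P : Finset ℕ => P.sup id) hP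
        have h2 : Ps.sup (fun P => P.sup id) + 1 ≤ L := by
          rw [hLdef]; exact le_trans (le_max_right _ _) (le_max_right _ _)
        omega
      have hw1 : ∀ M, Lm x' ≤ M → Lm x ≤ M → ∀ l, M ≤ l → om u x' x l = 1 := by
        intro M h1 h2 l hl
        unfold om
        rw [hLm x' l (h1.trans hl), hLm x l (h2.trans hl)]
        simp
      have hw2 : ∀ P, ∀ l, Lb x' x P ≤ l → om u x' x l = 1 := by
        intro P l hl
        unfold om
        rw [((hLb x' x P).1 l hl).1, ((hLb x' x P).1 l hl).2]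
        simp
      have h1 := hL1 (om u x' x) (g x x') K (om_norm u hu1 x' x) hK0 (by
          intro l
          have e1 : om u x' x l * (if l ∈ g x x' then -1 else 1) - 1 =
              (starRingEnd ℂ) (u l x') * (u l x * (if l ∈ g x x' then -1 else 1) - u l x') := by
            have : (starRingEnd ℂ) (u l x') * u l x' = 1 := by
              rw [RCLike.conj_mul, hu1]; simp
            rw [mul_sub, this]
            unfold om
            ring
          rw [e1, norm_mul, RCLike.norm_conj, hu1, one_mul]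
          have h3 := hgl l
          have e2 : u l x * (if l ∈ g x x' then -1 else 1) - u l x' =
              -((if l ∈ g x x' then -1 else 1) * (u l x' * (if l ∈ g x x' then -1 else 1) - u l x)) := by
            split_ifs <;> ring
          rw [e2, norm_neg, norm_mul]
          have e3 : ‖(if l ∈ g x x' then (-1 : ℂ) else 1)‖ = 1 := by split_ifs <;> simp
          rw [e3, one_mul]
          exact h3) L0 L a1 a4
      rw [← hB] at h1
      have h2 : ∀ P ∈ Ps, ‖val x' x P‖ ≤ ‖T‖ * ‖cf (om u x' x) L P -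
          (if P.filter (L0 ≤ ·) = (g x x').filter (L0 ≤ ·) then cf (om u x' x) L0 P else 0)‖ := by
        intro P hP
        have h3 : cf (om u x' x) (Lb x' x P) P = cf (om u x' x) L P := by
          rw [cf_change (om u x' x) (Lb x' x P) L (hw2 P) (hw1 L a2 a3) P (hLb x' x P).2,
            if_pos (a5 P hP)]
        rw [hval]
        simp only
        rw [norm_mul, h3, hc0]
        exact mul_le_mul_of_nonneg_right (ent_le _ _ _) (norm_nonneg _)
      calc ∑ P ∈ Ps, ‖val x' x P‖ ≤ ∑ P ∈ Ps, ‖T‖ * ‖cf (om u x' x) L P -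
          (if P.filter (L0 ≤ ·) = (g x x').filter (L0 ≤ ·) then cf (om u x' x) L0 P else 0)‖ :=
            Finset.sum_le_sum h2
        _ ≤ ∑ P ∈ (Finset.range L).powerset, ‖T‖ * ‖cf (om u x' x) L P -
          (if P.filter (L0 ≤ ·) = (g x x').filter (L0 ≤ ·) then cf (om u x' x) L0 P else 0)‖ := by
            apply Finset.sum_le_sum_of_subset_of_nonneg
            · intro P hP
              exact Finset.mem_powerset.mpr (a5 P hP)
            · intro P _ _; positivity
        _ ≤ ‖T‖ * B := by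
            rw [← Finset.mul_sum]
            exact mul_le_mul_of_nonneg_left h1 (norm_nonneg _)
    · have : ∀ P ∈ Ps, ‖val x' x P‖ = 0 := by
        intro P _
        rw [hval0 x' x P hd, norm_zero]
      rw [Finset.sum_eq_zero this]
      positivity
  have hnorm : ‖Φ T - S‖ ≤ NX * (‖T‖ * B) := by
    apply hSchur Y (Φ T - S) _ (by positivity)
    · intro y s
      have h1 := rows e (fun x' P => ‖val x' (e y).1 P‖) (fun _ _ => norm_nonneg _)
        (Metric.closedBall (e y).1 r) (hNX _).1 NX (hNX _).2 (by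
          intro x' P hx'
          rw [hval0 x' _ P (fun h => hx' (by rw [Metric.mem_closedBall, dist_comm]; exact h)), norm_zero])
        (‖T‖ * B) (by positivity) (fun x' Ps => hfib x' _ Ps) (e y).2 s
      simpa only [hent] using h1
    · intro y' s
      have h1 := rows e (fun x P => ‖val (e y').1 x P‖) (fun _ _ => norm_nonneg _)
        (Metric.closedBall (e y').1 r) (hNX _).1 NX (hNX _).2 (by
          intro x P hx
          rw [hval0 _ x P (fun h => hx (by rw [Metric.mem_closedBall]; exact h)), norm_zero])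
        (‖T‖ * B) (by positivity) (fun x Ps => hfib _ x Ps) (e y').2 s
      have h2 : ∀ y, (e y').2 ∆ (e y).2 = (e y).2 ∆ (e y').2 := fun y => symmDiff_comm _ _
      simpa only [hent, h2] using h1
  rw [dist_eq_norm]
  calc ‖Φ T - S‖ ≤ NX * (‖T‖ * B) := hnorm
    _ = NX * ‖T‖ * B := by ring
    _ < ε := by rw [hB]; exact hL0

end Pool.Agent.H626R3.CT.T_TApprox38
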