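import Pool.Agent.H626R3.CT.Stmts

/-!
# H626-CT, task TBdd: points of the covering with the same sheets above `i` are close

helper82.
-/

set_option autoImplicit false

open scoped Classical symmDiff

namespace Pool.Agent.H626R3.CT.T_TBdd

open Pool.Agent.H626R3.CT

/-- flipping the sheets of a finite set one at a time -/
theorem flips (i : ℕ) (y : YY) (x : XX) (F : Finset ℕ) (m : ℕ) (h0 : Path SY m y ⟨x, F⟩)
    (D : Finset ℕ) (hD : ∀ l ∈ D, l ≤ i) :
    Path SY (m + D.card * (i + 1)) y ⟨x, F ∆ D⟩ := by
  induction D using Finset.induction_on with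
  | empty =>
    have e : F ∆ (∅ : Finset ℕ) = F := symmDiff_bot F
    rw [e]
    simpa using h0
  | insert l D hl ih =>
    have h1 : Path SY (m + D.card * (i + 1)) y ⟨x, F ∆ D⟩ :=
      ih (fun a ha => hD a (Finset.mem_insert_of_mem ha))
    have hli : l ≤ i := hD l (Finset.mem_insert_self l D)
    have e : F ∆ (insert l D) = (F ∆ D) ∆ {l} := by
      rw [symmDiff_assoc]
      congr 1
      ext a
      simp only [Finset.mem_insert, Finset.mem_symmDiff, Finset.mem_singleton]
      constructor
      · rintro (h | h)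
        · right
          subst h
          exact ⟨rfl, hl⟩
        · left
          refine ⟨h, ?_⟩
          rintro rfl
          exact hl h
      · rintro (⟨h, _⟩ | ⟨h, _⟩)
        · exact Or.inr h
        · exact Or.inl h
    have hs : SY i ⟨x, F ∆ D⟩ ⟨x, F ∆ (insert l D)⟩ := by
      right
      right
      exact ⟨rfl, l, hli, e⟩
    have h2 := Path.cons h1 hs
    have e2 : m + (insert l D).card * (i + 1) = m + D.card * (i + 1) + i + 1 := by
      rw [Finset.card_insert_of_notMem hl]
      ring
    rw [e2]
    exact h2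

theorem ok : Pool.Agent.H626R3.CT.TBdd := by
  intro i y y' h
  have h1 : Path SY (0 + d1 y.x y'.x + 1) y ⟨y'.x, y.F⟩ := by
    refine Path.cons (Path.nil y) ?_
    left
    exact ⟨rfl, Nat.le_succ _⟩
  have hD : ∀ l ∈ y.F ∆ y'.F, l ≤ i := by
    intro l hl
    by_contra hc
    have hc' : i < l := not_le.mp hc
    have := h l hc'
    rw [Finset.mem_symmDiff] at hl
    tauto
  have h2 := flips i y y'.x y.F _ h1 (y.F ∆ y'.F) hD
  have e : y.F ∆ (y.F ∆ y'.F) = y'.F := symmDiff_symmDiff_cancel_left y.F y'.F
  rw [e] at h2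
  refine ⟨_, ?_, h2⟩
  have hc : (y.F ∆ y'.F).card ≤ i + 1 := by
    have hsub : y.F ∆ y'.F ⊆ Finset.range (i + 1) := by
      intro l hl
      exact Finset.mem_range.mpr (Nat.lt_succ_of_le (hD l hl))
    have := Finset.card_le_card hsub
    simpa using this
  have := Nat.mul_le_mul_right (i + 1) hc
  omega

end Pool.Agent.H626R3.CT.T_TBdd
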