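import Pool.Agent.H626R3.CT.Stmts

set_option autoImplicit false

open scoped Classical symmDiff

namespace Pool.Agent.H626R3.CT.T_TBoundary

open Pool.Agent.H626R3.CT

lemma t_pos (j : ℕ) : 0 < t j := by unfold t; positivity

lemma not_mid_zero (j : ℕ) : ¬ mid j 0 := by
  intro h
  have h1 := h.1
  have h2 := t_pos j
  rw [Nat.zero_mod] at h1
  omega

lemma n_dvd_t {j k : ℕ} (h : j < k) : n j ∣ t k := by
  unfold n t
  rw [← pow_succ']
  apply pow_dvd_pow
  have h1 : (j + 1) + 1 ≤ k + 1 := by omega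
  have h2 : ((j + 1) + 1) ^ 2 ≤ (k + 1) ^ 2 := Nat.pow_le_pow_left h1 2
  have h3 : ((j + 1) + 1) ^ 2 = (j + 1) ^ 2 + 2 * (j + 1) + 1 := by ring
  have h4 : 0 < (j + 1) ^ 2 := by positivity
  omega

lemma t_mono {j k : ℕ} (h : j ≤ k) : t j ≤ t k := by
  unfold t
  apply Nat.pow_le_pow_right (by norm_num)
  have : (j + 1) ^ 2 ≤ (k + 1) ^ 2 := Nat.pow_le_pow_left (by omega) 2
  omega

lemma not_mid_top (k j : ℕ) : ¬ mid j (t k - 1) := by
  intro h
  have hj := t_pos j
  have hk := t_pos k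
  have hnj : n j = 3 * t j := rfl
  rcases lt_or_ge j k with hjk | hjk
  · obtain ⟨m, hm⟩ := n_dvd_t hjk
    have hm0 : 0 < m := by
      rcases Nat.eq_zero_or_pos m with h0 | h0
      · rw [h0] at hm; omega
      · exact h0
    have e : (t k - 1) % n j = n j - 1 := by
      obtain ⟨m', rfl⟩ : ∃ m', m = m' + 1 := ⟨m - 1, by omega⟩
      have : t k - 1 = (n j - 1) + n j * m' := by
        rw [hm, Nat.mul_add, Nat.mul_one]; omega
      rw [this, Nat.add_mul_mod_self_left, Nat.mod_eq_of_lt (by omega)]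
    have h2 := h.2
    rw [e] at h2
    omega
  · have h1 := h.1
    have h3 := t_mono hjk
    have : (t k - 1) % n j = t k - 1 := Nat.mod_eq_of_lt (by omega)
    rw [this] at h1
    omega

lemma ext_eq (lab : XX → ℕ) {a b : ℕ} (h : ∀ j, ¬ (mid j a ∧ mid j b)) :
    ext lab a b = lab ⟨a, b, h⟩ := by
  unfold ext; rw [dif_pos h]

/-- the sign of a label -/
def sg (u : ℕ) : ZMod 2 := if u = 1 then 0 else 1

lemma chi_eq {u v : ℕ} (hu : u = 1 ∨ u = 2) (hv : v = 1 ∨ v = 2) : chi u v = sg u + sg v := by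
  rcases hu with rfl | rfl <;> rcases hv with rfl | rfl <;> simp [chi, sg]
  decide

lemma chi_ne_one {u v : ℕ} (hu : u ≠ 1) (hv : v ≠ 1) : chi u v = 0 := by
  unfold chi
  rw [if_neg]
  rintro (⟨h, _⟩ | ⟨_, h⟩)
  · exact hu h
  · exact hv h

lemma chi_ne_two {u v : ℕ} (hu : u ≠ 2) (hv : v ≠ 2) : chi u v = 0 := by
  unfold chi
  rw [if_neg]
  rintro (⟨_, h⟩ | ⟨h, _⟩)
  · exact hv h
  · exact hu h

lemma tele (f : ℕ → ZMod 2) (p : ℕ) : ∑ i ∈ Finset.range p, (f i + f (i + 1)) = f 0 + f p := by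
  have key : ∀ x : ZMod 2, x + x = 0 := by decide
  induction p with
  | zero => simp [key]
  | succ p ih =>
    rw [Finset.sum_range_succ, ih]
    have := key (f p)
    calc f 0 + f p + (f p + f (p + 1)) = f 0 + (f p + f p) + f (p + 1) := by ring
      _ = f 0 + f (p + 1) := by rw [this, add_zero]

theorem ok : Pool.Agent.H626R3.CT.TBoundary := by
  intro hS hR hF hN hG k lab hlab hL hRt hB hT hsp
  have h0 := hS hR hF hN hG k lab hlab hsp
  have hk := t_pos k
  have c1 : ∀ b, ∀ j, ¬ (mid j 0 ∧ mid j b) := fun b j h => not_mid_zero j h.1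
  have c2 : ∀ a, ∀ j, ¬ (mid j a ∧ mid j 0) := fun a j h => not_mid_zero j h.2
  have c3 : ∀ b, ∀ j, ¬ (mid j (t k - 1) ∧ mid j b) := fun b j h => not_mid_top k j h.1
  have c4 : ∀ a, ∀ j, ¬ (mid j a ∧ mid j (t k - 1)) := fun a j h => not_mid_top k j h.2
  have eL : ∀ b, b < t k → ext lab 0 b = 1 := by
    intro b hb
    rw [ext_eq lab (c1 b)]
    exact hL _ rfl hb
  have eR : ∀ b, b < t k → ext lab (t k - 1) b ≠ 1 := by
    intro b hb
    rw [ext_eq lab (c3 b)]
    exact hRt _ rfl hb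
  have eB : ∀ a, a < t k → ext lab a 0 = 1 ∨ ext lab a 0 = 2 := by
    intro a ha
    rw [ext_eq lab (c2 a)]
    have h1 := hB ⟨a, 0, c2 a⟩ rfl ha
    rcases hlab ⟨a, 0, c2 a⟩ with h | h | h
    · exact Or.inl h
    · exact Or.inr h
    · exact absurd h h1
  have eT : ∀ a, a < t k → ext lab a (t k - 1) ≠ 2 := by
    intro a ha
    rw [ext_eq lab (c4 a)]
    exact hT _ rfl ha
  have e1 : ∑ i ∈ Finset.range (t k - 1), (chi (ext lab (0 + i) 0) (ext lab (0 + i + 1) 0) +
      chi (ext lab (0 + i) (0 + (t k - 1))) (ext lab (0 + i + 1) (0 + (t k - 1)))) = 1 := by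
    have : ∀ i ∈ Finset.range (t k - 1), (chi (ext lab (0 + i) 0) (ext lab (0 + i + 1) 0) +
      chi (ext lab (0 + i) (0 + (t k - 1))) (ext lab (0 + i + 1) (0 + (t k - 1)))) =
        (fun a => sg (ext lab a 0)) i + (fun a => sg (ext lab a 0)) (i + 1) := by
      intro i hi
      have hi' := Finset.mem_range.1 hi
      rw [zero_add, zero_add, chi_eq (eB i (by omega)) (eB (i + 1) (by omega)),
        chi_ne_two (eT i (by omega)) (eT (i + 1) (by omega)), add_zero]
    rw [Finset.sum_congr rfl this, tele]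
    have h1 : sg (ext lab 0 0) = 0 := by rw [eL 0 hk]; simp [sg]
    have h2 : sg (ext lab (t k - 1) 0) = 1 := by
      unfold sg; rw [if_neg (eR 0 hk)]
    simp only [h1, h2, zero_add]
  have e2 : ∑ i ∈ Finset.range (t k - 1), (chi (ext lab 0 (0 + i)) (ext lab 0 (0 + i + 1)) +
      chi (ext lab (0 + (t k - 1)) (0 + i)) (ext lab (0 + (t k - 1)) (0 + i + 1))) = 0 := by
    apply Finset.sum_eq_zero
    intro i hi
    have hi' := Finset.mem_range.1 hi
    rw [zero_add, zero_add, eL i (by omega), eL (i + 1) (by omega),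
      chi_ne_one (eR i (by omega)) (eR (i + 1) (by omega)), add_zero,
      chi_ne_two (by norm_num) (by norm_num)]
  unfold bd at h0
  rw [e1, e2, add_zero] at h0
  exact absurd h0 (by decide)

end Pool.Agent.H626R3.CT.T_TBoundary
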