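import Pool.Agent.H626R3.CT.Stmts

set_option autoImplicit false

/-!
# H626-CT, TConv (helper715)
-/

open scoped Classical symmDiff

namespace Pool.Agent.H626R3.CT.T_TConv

open Pool.Agent.H626R3.CT

lemma sum_prod (s : Finset ℕ) (A B : ℕ → ℂ) :
    ∑ S ∈ s.powerset, ∏ l ∈ s, (if l ∈ S then A l else B l) = ∏ l ∈ s, (A l + B l) := by
  rw [Finset.prod_add]
  refine Finset.sum_congr rfl fun S hS => ?_
  rw [Finset.mem_powerset] at hS
  rw [Finset.prod_ite]
  congr 1
  · refine Finset.prod_congr ?_ fun _ _ => rfl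
    ext l
    simp only [Finset.mem_filter]
    exact ⟨fun h => h.2, fun h => ⟨hS h, h⟩⟩
  · refine Finset.prod_congr ?_ fun _ _ => rfl
    ext l
    simp only [Finset.mem_filter, Finset.mem_sdiff]

theorem ok : TConv := by
  intro u v L D _
  have h1 : ∀ S ∈ (Finset.range L).powerset,
      (starRingEnd ℂ) (cf u L S) * cf v L (S ∆ D) =
      ∏ l ∈ Finset.range L, (if l ∈ S then
        (starRingEnd ℂ) ((1 - u l) / 2) * (if l ∈ D then (1 + v l) / 2 else (1 - v l) / 2) else
        (starRingEnd ℂ) ((1 + u l) / 2) * (if l ∈ D then (1 - v l) / 2 else (1 + v l) / 2)) := by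
    intro S _
    unfold cf
    rw [map_prod, ← Finset.prod_mul_distrib]
    refine Finset.prod_congr rfl fun l _ => ?_
    by_cases hS : l ∈ S <;> by_cases hD : l ∈ D <;>
      simp [Finset.mem_symmDiff, hS, hD]
  rw [Finset.sum_congr rfl h1, sum_prod]
  unfold cf
  refine Finset.prod_congr rfl fun l _ => ?_
  by_cases hD : l ∈ D
  · simp only [hD, if_true, map_div₀, map_sub, map_add, map_one, map_ofNat]
    ring
  · simp only [hD, if_false, map_div₀, map_sub, map_add, map_one, map_ofNat]
    ring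

end Pool.Agent.H626R3.CT.T_TConv
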