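import Pool.Agent.H626R3.CT.Stmts

/-!
# TEmb (project H626-CT): the embedding of the uniform Roe algebras
-/

set_option autoImplicit false

open scoped Classical symmDiff

namespace Pool.Agent.H626R3.CT.T_TEmb

open Pool.Agent.H626R3.CT

/-- the unit has propagation zero -/
theorem finProp_one (X : Type) [MetricSpace X] : FinProp (1 : Op X) := by
  refine ⟨0, fun x y h => ?_⟩
  have hne : x ≠ y := by
    rintro rfl
    rw [dist_self] at h
    exact lt_irrefl _ h
  change inner ℂ (lp.single (E := fun _ : X => ℂ) 2 x (1 : ℂ))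
    (lp.single (E := fun _ : X => ℂ) 2 y (1 : ℂ)) = 0
  rw [lp.inner_single_left, lp.single_apply_ne _ _ _ hne, inner_zero_right]

/-- a star homomorphism that maps the generators into a closed star subalgebra (which contains
the image of the unit) maps the closed star subalgebra generated by them there -/
theorem map_closure {A B : Type} [Ring A] [Algebra ℂ A] [StarRing A] [StarModule ℂ A]
    [TopologicalSpace A] [IsSemitopologicalSemiring A] [ContinuousStar A]
    [Ring B] [Algebra ℂ B] [StarRing B] [StarModule ℂ B]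
    [TopologicalSpace B] [IsSemitopologicalSemiring B] [ContinuousStar B]
    (Φ : A →⋆ₙₐ[ℂ] B) (hΦ : Continuous Φ) (s : Set A) (t : StarSubalgebra ℂ B)
    (ht : IsClosed (t : Set B)) (h1 : (1 : A) ∈ s) (hs : ∀ x ∈ s, Φ x ∈ t) :
    ∀ x ∈ (StarAlgebra.adjoin ℂ s).topologicalClosure, Φ x ∈ t := by
  have hadj : ∀ x ∈ StarAlgebra.adjoin ℂ s, Φ x ∈ t := by
    intro x hx
    induction hx using StarAlgebra.adjoin_induction with
    | mem x hx => exact hs x hx
    | algebraMap r =>
      rw [Algebra.algebraMap_eq_smul_one, map_smul]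
      exact t.smul_mem (hs 1 h1) r
    | add x y _ _ hx hy =>
      rw [map_add]
      exact add_mem hx hy
    | mul x y _ _ hx hy =>
      rw [map_mul]
      exact mul_mem hx hy
    | star x _ hx =>
      rw [map_star]
      exact star_mem hx
  intro x hx
  have hx' : x ∈ closure ((StarAlgebra.adjoin ℂ s : StarSubalgebra ℂ A) : Set A) := by
    rw [← StarSubalgebra.topologicalClosure_coe]
    exact hx
  have h2 : Set.MapsTo Φ ((StarAlgebra.adjoin ℂ s : StarSubalgebra ℂ A) : Set A) (t : Set B) :=
    fun y hy => hadj y hy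
  have h3 := h2.closure hΦ hx'
  rw [ht.closure_eq] at h3
  exact h3

theorem ok : Pool.Agent.H626R3.CT.TEmb := by
  intro hAmp hAmp0 hConv hUni hApprox hSchur hKer hL1 X Y _ _ e u hX hY hu hu1 hW hL
  obtain ⟨Φ, hΦc, hΦi, hΦ⟩ := hAmp hAmp0 hConv hUni X Y e u hu hu1
  have hA := hApprox hSchur hKer hL1 X Y e u hX hY hu hu1 hW hL (fun T => Φ T) hΦ
  have hmaps : ∀ T ∈ (StarAlgebra.adjoin ℂ {T : Op X | FinProp T}).topologicalClosure,
      Φ T ∈ (StarAlgebra.adjoin ℂ {T : Op Y | FinProp T}).topologicalClosure := by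
    refine map_closure Φ hΦc _ _ (StarSubalgebra.isClosed_topologicalClosure _) (finProp_one X) ?_
    intro T hT
    have h1 := hA T hT
    have h2 : closure {S : Op Y | FinProp S} ⊆
        ((StarAlgebra.adjoin ℂ {T : Op Y | FinProp T}).topologicalClosure : Set (Op Y)) := by
      rw [StarSubalgebra.topologicalClosure_coe]
      exact closure_mono (StarAlgebra.subset_adjoin ℂ _)
    exact h2 h1
  exact ⟨{ toFun := fun T => ⟨Φ T.1, hmaps T.1 T.2⟩
           map_smul' := fun r T => Subtype.ext (map_smul Φ r T.1)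
           map_zero' := Subtype.ext (map_zero Φ)
           map_add' := fun S T => Subtype.ext (map_add Φ S.1 T.1)
           map_mul' := fun S T => Subtype.ext (map_mul Φ S.1 T.1)
           map_star' := fun T => Subtype.ext (map_star Φ T.1) },
    fun S T h => Subtype.ext (hΦi (congrArg Subtype.val h))⟩

end Pool.Agent.H626R3.CT.T_TEmb
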