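import Pool.Agent.H626R3.CT.Stmts

set_option autoImplicit false

open scoped Classical symmDiff

namespace Pool.Agent.H626R3.CT.T_TEmb285

open Pool.Agent.H626R3.CT

lemma inner_dl {X : Type} (x : X) (f : L2 X) : inner ℂ (dl x) f = f x := by
  unfold dl
  rw [lp.inner_single_left]
  simp

lemma apply_dl {X : Type} (T : Op X) (z y : X) : (T (dl y)) z = ent T z y := (inner_dl z _).symm

lemma ent_star {X : Type} (S : Op X) (z x : X) :
    ent (star S) z x = (starRingEnd ℂ) (ent S x z) := by
  unfold ent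
  rw [ContinuousLinearMap.star_eq_adjoint, ContinuousLinearMap.adjoint_inner_right]
  exact (inner_conj_symm _ _).symm

lemma ent_mul_zero {X : Type} (S T : Op X) (x y : X)
    (h : ∀ z, ent S x z = 0 ∨ ent T z y = 0) : ent (S * T) x y = 0 := by
  have e : ent (S * T) x y = inner ℂ ((star S) (dl x)) (T (dl y)) := by
    rw [ContinuousLinearMap.star_eq_adjoint, ContinuousLinearMap.adjoint_inner_left]
    rfl
  rw [e, lp.inner_eq_tsum]
  have : ∀ z, inner ℂ (((star S) (dl x) : L2 X) z) ((T (dl y) : L2 X) z) = 0 := by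
    intro z
    rw [apply_dl, apply_dl, ent_star]
    rcases h z with h | h
    · rw [h]; simp
    · rw [h]; simp
  simp only [this, tsum_zero]

lemma fp_mul {X : Type} [MetricSpace X] {S T : Op X} (hS : FinProp S) (hT : FinProp T) :
    FinProp (S * T) := by
  obtain ⟨R1, h1⟩ := hS
  obtain ⟨R2, h2⟩ := hT
  refine ⟨R1 + R2, fun x y hxy => ent_mul_zero S T x y fun z => ?_⟩
  by_cases hz : R1 < dist x z
  · exact Or.inl (h1 x z hz)
  · right
    apply h2
    have := dist_triangle x z y
    linarith [not_lt.1 hz]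

lemma fp_add {X : Type} [MetricSpace X] {S T : Op X} (hS : FinProp S) (hT : FinProp T) :
    FinProp (S + T) := by
  obtain ⟨R1, h1⟩ := hS
  obtain ⟨R2, h2⟩ := hT
  refine ⟨max R1 R2, fun x y hxy => ?_⟩
  have e : ent (S + T) x y = ent S x y + ent T x y := by
    unfold ent
    rw [ContinuousLinearMap.add_apply, inner_add_right]
  rw [e, h1 x y ((le_max_left _ _).trans_lt hxy), h2 x y ((le_max_right _ _).trans_lt hxy),
    add_zero]

lemma fp_star {X : Type} [MetricSpace X] {S : Op X} (hS : FinProp S) : FinProp (star S) := by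
  obtain ⟨R1, h1⟩ := hS
  refine ⟨R1, fun x y hxy => ?_⟩
  rw [ent_star, h1 y x (by rwa [dist_comm]), map_zero]

lemma fp_scalar {X : Type} [MetricSpace X] (c : ℂ) : FinProp (algebraMap ℂ (Op X) c) := by
  refine ⟨0, fun x y hxy => ?_⟩
  have hne : x ≠ y := dist_pos.1 hxy
  have e : ent (algebraMap ℂ (Op X) c) x y = c * (dl y : L2 X) x := by
    rw [← apply_dl, Algebra.algebraMap_eq_smul_one]
    rfl
  rw [e]
  have : (dl y : L2 X) x = 0 := by
    unfold dl
    rw [lp.single_apply_ne]
    exact hne
  rw [this, mul_zero]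

lemma adj_fp {X : Type} [MetricSpace X] {T : Op X}
    (hT : T ∈ StarAlgebra.adjoin ℂ {S : Op X | FinProp S}) : FinProp T := by
  induction hT using StarAlgebra.adjoin_induction with
  | mem x h => exact h
  | algebraMap r => exact fp_scalar r
  | add x y _ _ h1 h2 => exact fp_add h1 h2
  | mul x y _ _ h1 h2 => exact fp_mul h1 h2
  | star x _ h => exact fp_star h

theorem ok : Pool.Agent.H626R3.CT.TEmb := by
  intro hAmp hAmp0 hConv hUni hApp hSch hKer hL1 X Y _ _ e u hX hY hu hu1 hW hL
  obtain ⟨Φ, hc, hi, hent⟩ := hAmp hAmp0 hConv hUni X Y e u hu hu1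
  have happ := hApp hSch hKer hL1 X Y e u hX hY hu hu1 hW hL Φ hent
  have main : ∀ T ∈ (StarAlgebra.adjoin ℂ {S : Op X | FinProp S}).topologicalClosure,
      Φ T ∈ (StarAlgebra.adjoin ℂ {S : Op Y | FinProp S}).topologicalClosure := by
    intro T hT
    have h1 : T ∈ closure ((StarAlgebra.adjoin ℂ {S : Op X | FinProp S} : Set (Op X))) := hT
    have h2 : Φ T ∈ closure (Φ '' (StarAlgebra.adjoin ℂ {S : Op X | FinProp S} : Set (Op X))) :=
      image_closure_subset_closure_image hc ⟨T, h1, rfl⟩
    have h3 : Φ '' (StarAlgebra.adjoin ℂ {S : Op X | FinProp S} : Set (Op X)) ⊆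
        closure {S : Op Y | FinProp S} := by
      rintro _ ⟨S, hS, rfl⟩
      exact happ S (adj_fp hS)
    have h4 : Φ T ∈ closure {S : Op Y | FinProp S} := by
      have := closure_mono h3 h2
      rwa [closure_closure] at this
    exact closure_mono (StarAlgebra.subset_adjoin ℂ _) h4
  refine ⟨{ toFun := fun T => ⟨Φ T.1, main T.1 T.2⟩
            map_smul' := fun c T => Subtype.ext (map_smul Φ c T.1)
            map_zero' := Subtype.ext (map_zero Φ)
            map_add' := fun S T => Subtype.ext (map_add Φ S.1 T.1)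
            map_mul' := fun S T => Subtype.ext (map_mul Φ S.1 T.1)
            map_star' := fun T => Subtype.ext (map_star Φ T.1) }, ?_⟩
  intro S T hST
  have h : Φ S.1 = Φ T.1 := congrArg Subtype.val hST
  exact Subtype.ext (hi h)

end Pool.Agent.H626R3.CT.T_TEmb285
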