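import Pool.Agent.H626R3.CT.Stmts

/-! Project H626-CT, task TFeat (helper719): the features of the grid. -/

set_option autoImplicit false

namespace Pool.Agent.H626R3.CT.T_TFeat

open Pool.Agent.H626R3.CT

theorem n_pos (i : ℕ) : 0 < n i := by
  unfold n t
  positivity

theorem n_dvd {i j : ℕ} (h : i ≤ j) : n i ∣ n j := by
  unfold n t
  refine Nat.mul_dvd_mul_left _ (pow_dvd_pow _ ?_)
  have := Nat.pow_le_pow_left (Nat.succ_le_succ h) 2
  simp only [Nat.succ_eq_add_one] at this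
  omega

theorem int_eq {N : ℝ} (hN : 0 < N) {A A' : ℤ} (h1 : N * (A : ℝ) < N * (A' : ℝ) + N)
    (h2 : N * (A' : ℝ) < N * (A : ℝ) + N) : A = A' := by
  have h3 : N * (A : ℝ) < N * ((A' : ℝ) + 1) := by linarith
  have h4 : N * (A' : ℝ) < N * ((A : ℝ) + 1) := by linarith
  have h5 : (A : ℝ) < A' + 1 := lt_of_mul_lt_mul_left h3 hN.le
  have h6 : (A' : ℝ) < A + 1 := lt_of_mul_lt_mul_left h4 hN.le
  have h7 : A < A' + 1 := by exact_mod_cast h5
  have h8 : A' < A + 1 := by exact_mod_cast h6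
  omega

theorem no_mid {N : ℝ} (hN : 0 < N) {A A' : ℤ} (h1 : N * (A : ℝ) < N * (A' : ℝ))
    (h2 : N * (A' : ℝ) < N * (A : ℝ) + N) : False := by
  have h4 : N * (A' : ℝ) < N * ((A : ℝ) + 1) := by linarith
  have h5 : (A : ℝ) < A' := lt_of_mul_lt_mul_left h1 hN.le
  have h6 : (A' : ℝ) < A + 1 := lt_of_mul_lt_mul_left h4 hN.le
  have h7 : A < A' := by exact_mod_cast h5
  have h8 : A' < A + 1 := by exact_mod_cast h6
  omega

theorem grid (i : ℕ) (p1 p2 : ℝ) (a b : ℤ)
    (h : |p1 - (2 * (n i : ℝ) * a + (n i : ℝ) - 1)| = n i ∨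
      |p2 - (2 * (n i : ℝ) * b + (n i : ℝ) - 1)| = n i)
    (h1 : |p1 - (2 * (n i : ℝ) * a + (n i : ℝ) - 1)| ≤ n i)
    (h2 : |p2 - (2 * (n i : ℝ) * b + (n i : ℝ) - 1)| ≤ n i) :
    ∃ kind A B, Feat i p1 p2 kind A B := by
  have hN : (0 : ℝ) < n i := by exact_mod_cast n_pos i
  obtain ⟨h1a, h1b⟩ := abs_le.1 h1
  obtain ⟨h2a, h2b⟩ := abs_le.1 h2
  rcases h with h | h
  · have key : ∀ A0 : ℤ, p1 = 2 * (n i : ℝ) * A0 - 1 → ∃ kind A B, Feat i p1 p2 kind A B := by
      intro A0 hp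
      by_cases c1 : p2 ≤ 2 * (n i : ℝ) * b - 1 + n i / 2
      · refine ⟨0, A0, b, Or.inl ⟨rfl, ?_, abs_le.2 ⟨by linarith, by linarith⟩⟩⟩
        rw [hp, sub_self, abs_zero]
        positivity
      by_cases c2 : 2 * (n i : ℝ) * (b + 1) - 1 - n i / 2 ≤ p2
      · refine ⟨0, A0, b + 1, Or.inl ⟨rfl, ?_, abs_le.2 ⟨?_, ?_⟩⟩⟩
        · rw [hp, sub_self, abs_zero]
          positivity
        · push_cast
          linarith
        · push_cast
          linarith
      · push Not at c1 c2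
        exact ⟨2, A0, b, Or.inr (Or.inr ⟨rfl, hp, by linarith, by linarith⟩)⟩
    rcases (abs_eq hN.le).1 h with h3 | h3
    · refine key (a + 1) ?_
      push_cast
      linarith
    · refine key a ?_
      linarith
  · have key : ∀ B0 : ℤ, p2 = 2 * (n i : ℝ) * B0 - 1 → ∃ kind A B, Feat i p1 p2 kind A B := by
      intro B0 hp
      by_cases c1 : p1 ≤ 2 * (n i : ℝ) * a - 1 + n i / 2
      · refine ⟨0, a, B0, Or.inl ⟨rfl, abs_le.2 ⟨by linarith, by linarith⟩, ?_⟩⟩
        rw [hp, sub_self, abs_zero]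
        positivity
      by_cases c2 : 2 * (n i : ℝ) * (a + 1) - 1 - n i / 2 ≤ p1
      · refine ⟨0, a + 1, B0, Or.inl ⟨rfl, abs_le.2 ⟨?_, ?_⟩, ?_⟩⟩
        · push_cast
          linarith
        · push_cast
          linarith
        · rw [hp, sub_self, abs_zero]
          positivity
      · push Not at c1 c2
        exact ⟨1, a, B0, Or.inr (Or.inl ⟨rfl, hp, by linarith, by linarith⟩)⟩
    rcases (abs_eq hN.le).1 h with h3 | h3
    · refine key (b + 1) ?_
      push_cast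
      linarith
    · refine key b ?_
      linarith

theorem ok : Pool.Agent.H626R3.CT.TFeat := by
  intro hG i
  have hN : (0 : ℝ) < n i := by exact_mod_cast n_pos i
  refine ⟨?_, ?_, ?_, ?_⟩
  · intro y
    obtain ⟨h1, h2, h3⟩ := hG i y
    have e1 : ce i y.x.a = 2 * (n i : ℝ) * ((y.x.a / n i : ℕ) : ℤ) + (n i : ℝ) - 1 := by
      unfold ce
      rw [Int.cast_natCast, Nat.cast_mul]
      ring
    have e2 : ce i y.x.b = 2 * (n i : ℝ) * ((y.x.b / n i : ℕ) : ℤ) + (n i : ℝ) - 1 := by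
      unfold ce
      rw [Int.cast_natCast, Nat.cast_mul]
      ring
    rw [e1, e2] at h1
    rw [e1] at h2
    rw [e2] at h3
    exact grid i _ _ _ _ h1 h2 h3
  · intro p1 p2 q1 q2 kind kind' A B A' B' hp hq h1 h2 hk
    obtain ⟨h1a, h1b⟩ := abs_le.1 h1
    obtain ⟨h2a, h2b⟩ := abs_le.1 h2
    rcases hp with ⟨rfl, a1, a2⟩ | ⟨rfl, a1, a2, a3⟩ | ⟨rfl, a1, a2, a3⟩
    · rcases hq with ⟨rfl, b1, b2⟩ | ⟨rfl, b1, b2, b3⟩ | ⟨rfl, b1, b2, b3⟩
      · obtain ⟨a11, a12⟩ := abs_le.1 a1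
        obtain ⟨a21, a22⟩ := abs_le.1 a2
        obtain ⟨b11, b12⟩ := abs_le.1 b1
        obtain ⟨b21, b22⟩ := abs_le.1 b2
        exact ⟨rfl, int_eq hN (by linarith) (by linarith), int_eq hN (by linarith) (by linarith)⟩
      · exact absurd (hk.1 rfl) (by decide)
      · exact absurd (hk.1 rfl) (by decide)
    · rcases hq with ⟨rfl, b1, b2⟩ | ⟨rfl, b1, b2, b3⟩ | ⟨rfl, b1, b2, b3⟩
      · exact absurd (hk.2 rfl) (by decide)
      · exact ⟨rfl, int_eq hN (by linarith) (by linarith), int_eq hN (by linarith) (by linarith)⟩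
      · exact (no_mid hN (A := A) (A' := A') (by linarith) (by linarith)).elim
    · rcases hq with ⟨rfl, b1, b2⟩ | ⟨rfl, b1, b2, b3⟩ | ⟨rfl, b1, b2, b3⟩
      · exact absurd (hk.2 rfl) (by decide)
      · exact (no_mid hN (A := A') (A' := A) (by linarith) (by linarith)).elim
      · exact ⟨rfl, int_eq hN (by linarith) (by linarith), int_eq hN (by linarith) (by linarith)⟩
  · intro p1 p2 q1 q2 kind A B hp hq
    rcases hp with ⟨rfl, a1, a2⟩ | ⟨rfl, a1, a2, a3⟩ | ⟨rfl, a1, a2, a3⟩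
    · rcases hq with ⟨_, b1, b2⟩ | ⟨h, b1, b2, b3⟩ | ⟨h, b1, b2, b3⟩
      · obtain ⟨a11, a12⟩ := abs_le.1 a1
        obtain ⟨a21, a22⟩ := abs_le.1 a2
        obtain ⟨b11, b12⟩ := abs_le.1 b1
        obtain ⟨b21, b22⟩ := abs_le.1 b2
        exact ⟨abs_le.2 ⟨by linarith, by linarith⟩, abs_le.2 ⟨by linarith, by linarith⟩⟩
      · exact absurd h (by decide)
      · exact absurd h (by decide)
    · rcases hq with ⟨h, b1, b2⟩ | ⟨_, b1, b2, b3⟩ | ⟨h, b1, b2, b3⟩
      · exact absurd h (by decide)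
      · exact ⟨abs_le.2 ⟨by linarith, by linarith⟩, abs_le.2 ⟨by linarith, by linarith⟩⟩
      · exact absurd h (by decide)
    · rcases hq with ⟨h, b1, b2⟩ | ⟨h, b1, b2, b3⟩ | ⟨_, b1, b2, b3⟩
      · exact absurd h (by decide)
      · exact absurd h (by decide)
      · exact ⟨abs_le.2 ⟨by linarith, by linarith⟩, abs_le.2 ⟨by linarith, by linarith⟩⟩
  · intro j C D hij p1 p2 kind A B hp
    obtain ⟨m, hm⟩ := n_dvd (le_of_lt hij)
    have hmr : (n j : ℝ) = (n i : ℝ) * (m : ℝ) := by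
      rw [hm]
      push_cast
      ring
    have e1 : ∀ E : ℕ, (2 * (2 * ((n j * E : ℕ) : ℝ) + ((n j : ℝ) - 1))) =
        4 * ((n i : ℝ) * m * E) + 2 * ((n i : ℝ) * m) - 2 := by
      intro E
      push_cast
      rw [hmr]
      ring
    rcases hp with ⟨rfl, -⟩ | ⟨rfl, -⟩ | ⟨rfl, -⟩
    · refine ⟨2 * m * C + m - A, 2 * m * D + m - B, ?_⟩
      intro q1 q2 hq
      rcases hq with ⟨_, b1, b2⟩ | ⟨h, b1, b2, b3⟩ | ⟨h, b1, b2, b3⟩
      · obtain ⟨b11, b12⟩ := abs_le.1 b1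
        obtain ⟨b21, b22⟩ := abs_le.1 b2
        refine Or.inl ⟨rfl, ?_, ?_⟩
        · rw [e1 C, abs_le]
          push_cast
          constructor <;> linarith
        · rw [e1 D, abs_le]
          push_cast
          constructor <;> linarith
      · exact absurd h (by decide)
      · exact absurd h (by decide)
    · refine ⟨2 * m * C + m - A - 1, 2 * m * D + m - B, ?_⟩
      intro q1 q2 hq
      rcases hq with ⟨h, b1, b2⟩ | ⟨_, b1, b2, b3⟩ | ⟨h, b1, b2, b3⟩
      · exact absurd h (by decide)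
      · refine Or.inr (Or.inl ⟨rfl, ?_, ?_, ?_⟩)
        · rw [e1 D]
          push_cast
          linarith
        · rw [e1 C]
          push_cast
          linarith
        · rw [e1 C]
          push_cast
          linarith
      · exact absurd h (by decide)
    · refine ⟨2 * m * C + m - A, 2 * m * D + m - B - 1, ?_⟩
      intro q1 q2 hq
      rcases hq with ⟨h, b1, b2⟩ | ⟨h, b1, b2, b3⟩ | ⟨_, b1, b2, b3⟩
      · exact absurd h (by decide)
      · exact absurd h (by decide)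
      · refine Or.inr (Or.inr ⟨rfl, ?_, ?_, ?_⟩)
        · rw [e1 C]
          push_cast
          linarith
        · rw [e1 D]
          push_cast
          linarith
        · rw [e1 D]
          push_cast
          linarith

end Pool.Agent.H626R3.CT.T_TFeat
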