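import Pool.Agent.H626R3.CT.Stmts

set_option autoImplicit false

namespace Pool.Agent.H626R3.CT.T_TFull

open Pool.Agent.H626R3.CT

theorem t_pos (j : ℕ) : 0 < t j := by
  unfold t; positivity

theorem t_mono {k j : ℕ} (h : k ≤ j) : t k ≤ t j := by
  unfold t
  apply Nat.pow_le_pow_right (by norm_num)
  have : (k + 1) ^ 2 ≤ (j + 1) ^ 2 := Nat.pow_le_pow_left (by omega) 2
  omega

/-- small numbers are not in the middle third -/
theorem not_mid_of_lt {j a : ℕ} (h : a < t j) : ¬ mid j a := by
  rintro ⟨h1, -⟩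
  have : a % n j ≤ a := Nat.mod_le _ _
  omega

/-- the coordinate of the corner of a square -/
theorem reg_of_mid {j a a' : ℕ} (ha : a' = a ∨ a' = a + 1) (h : mid j a') :
    t j - 1 ≤ a % n j ∧ a % n j ≤ 2 * t j - 1 := by
  obtain ⟨h1, h2⟩ := h
  have hp := t_pos j
  have hn : 0 < n j := by unfold n; omega
  rcases ha with rfl | rfl
  · omega
  · have hlt : a % n j < n j := Nat.mod_lt _ hn
    have hmod : (a + 1) % n j = (a % n j + 1) % n j := by
      rw [Nat.mod_add_mod]
    by_cases hc : a % n j + 1 = n j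
    · rw [hmod, hc, Nat.mod_self] at h1
      omega
    · have hlt2 : a % n j + 1 < n j := by omega
      rw [hmod, Nat.mod_eq_of_lt hlt2] at h1 h2
      omega

theorem ok : Pool.Agent.H626R3.CT.TFull := by
  intro k a b ha hb hreg a' b' ha' hb' j hmid
  obtain ⟨hm1, hm2⟩ := hmid
  by_cases hjk : j < k
  · exact hreg j hjk ⟨reg_of_mid ha' hm1, reg_of_mid hb' hm2⟩
  · have hle : t k ≤ t j := t_mono (by omega)
    have : a' < t j := by
      rcases ha' with rfl | rfl <;> omega
    exact not_mid_of_lt this hm1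

end Pool.Agent.H626R3.CT.T_TFull
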