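import Pool.Agent.H626R3.CT.Stmts

/-! The gauge functions of the carpet (task TGauge of the project H626-CT). -/

set_option autoImplicit false

namespace Pool.Agent.H626R3.CT.T_TGauge

open Pool.Agent.H626R3.CT

theorem unit_sub (z w : ℂ) (hz : 1 ≤ ‖z‖) (hw : 1 ≤ ‖w‖) :
    ‖z / ((‖z‖ : ℝ) : ℂ) - w / ((‖w‖ : ℝ) : ℂ)‖ ≤ 2 * ‖z - w‖ := by
  have hz0 : (0 : ℝ) < ‖z‖ := by linarith
  have hw0 : (0 : ℝ) < ‖w‖ := by linarith
  have hzc : ((‖z‖ : ℝ) : ℂ) ≠ 0 := by exact_mod_cast hz0.ne'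
  have hwc : ((‖w‖ : ℝ) : ℂ) ≠ 0 := by exact_mod_cast hw0.ne'
  have e : z / ((‖z‖ : ℝ) : ℂ) - w / ((‖w‖ : ℝ) : ℂ) =
      (z - w) / ((‖z‖ : ℝ) : ℂ) +
        (w / ((‖w‖ : ℝ) : ℂ)) * ((((‖w‖ - ‖z‖ : ℝ)) : ℂ) / ((‖z‖ : ℝ) : ℂ)) := by
    push_cast
    field_simp
    ring
  rw [e]
  have n1 : ‖((‖z‖ : ℝ) : ℂ)‖ = ‖z‖ := by
    rw [Complex.norm_real, Real.norm_of_nonneg (norm_nonneg _)]
  have n2 : ‖((‖w‖ : ℝ) : ℂ)‖ = ‖w‖ := by
    rw [Complex.norm_real, Real.norm_of_nonneg (norm_nonneg _)]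
  have n3 : ‖((((‖w‖ - ‖z‖ : ℝ)) : ℂ))‖ ≤ ‖z - w‖ := by
    rw [Complex.norm_real, Real.norm_eq_abs, abs_sub_comm]
    exact abs_norm_sub_norm_le z w
  refine le_trans (norm_add_le _ _) ?_
  have h1 : ‖(z - w) / ((‖z‖ : ℝ) : ℂ)‖ ≤ ‖z - w‖ := by
    rw [norm_div, n1]
    exact div_le_self (norm_nonneg _) hz
  have h2 : ‖(w / ((‖w‖ : ℝ) : ℂ)) * ((((‖w‖ - ‖z‖ : ℝ)) : ℂ) / ((‖z‖ : ℝ) : ℂ))‖ ≤
      ‖z - w‖ := by
    rw [norm_mul, norm_div, norm_div, n1, n2, div_self hw0.ne', one_mul]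
    exact le_trans (div_le_self (norm_nonneg _) hz) n3
  linarith

/-- the vector of the gauge function -/
noncomputable def vz (l : ℕ) (x : XX) : ℂ := ⟨pw l x.a, pw l x.b⟩

/-- the constant factor -/
noncomputable def cc : ℂ := (1 - Complex.I) / ((Real.sqrt 2 : ℝ) : ℂ)

theorem gu_eq (l : ℕ) (x : XX) : gu l x = vz l x / ((‖vz l x‖ : ℝ) : ℂ) * cc := rfl

theorem norm_one_sub_I : ‖(1 - Complex.I : ℂ)‖ = Real.sqrt 2 := by
  rw [Complex.norm_eq_sqrt_sq_add_sq]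
  simp
  norm_num

theorem norm_cc : ‖cc‖ = 1 := by
  unfold cc
  have h : (0 : ℝ) < Real.sqrt 2 := Real.sqrt_pos.mpr (by norm_num)
  rw [norm_div, norm_one_sub_I, Complex.norm_real, Real.norm_of_nonneg h.le, div_self h.ne']

theorem three_pow_le_t (l : ℕ) : 3 ^ l ≤ t l := by
  unfold t
  refine Nat.pow_le_pow_right (by norm_num) ?_
  have : l + 1 ≤ 2 * (l + 1) ^ 2 := by nlinarith
  omega

theorem n_mul_le_t (j l : ℕ) (h : j < l) : n j * 3 ^ l ≤ t l := by
  unfold n t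
  have e : 3 * 3 ^ (2 * (j + 1) ^ 2 - 1) * 3 ^ l = 3 ^ (2 * (j + 1) ^ 2 - 1 + 1 + l) := by
    rw [pow_add, pow_add]
    ring
  rw [e]
  refine Nat.pow_le_pow_right (by norm_num) ?_
  have h1 : 1 ≤ 2 * (j + 1) ^ 2 := by nlinarith
  have h2 : (j + 1) ^ 2 ≤ l ^ 2 := Nat.pow_le_pow_left h 2
  have h3 : (l + 1) ^ 2 = l ^ 2 + 2 * l + 1 := by ring
  rw [h3]
  omega

theorem one_le_vz (hW : TWave) (l : ℕ) (x : XX) : 1 ≤ ‖vz l x‖ := by
  obtain ⟨_, _, _, h4⟩ := hW
  by_cases ha : mid l x.a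
  · have hb : ¬ mid l x.b := fun h => x.out l ⟨ha, h⟩
    have h5 := h4 l x.b hb
    calc (1 : ℝ) = |(vz l x).im| := h5.symm
      _ ≤ ‖vz l x‖ := Complex.abs_im_le_norm _
  · have h5 := h4 l x.a ha
    calc (1 : ℝ) = |(vz l x).re| := h5.symm
      _ ≤ ‖vz l x‖ := Complex.abs_re_le_norm _

theorem gu_diff (hW : TWave) (l : ℕ) (x y : XX) :
    ‖gu l y - gu l x‖ ≤ 4 * (d1 x y : ℝ) / t l := by
  have hz := one_le_vz hW l y
  have hw := one_le_vz hW l x
  obtain ⟨h1, _, _, _⟩ := hW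
  have ht : (0 : ℝ) < t l := by
    have : 0 < t l := by unfold t; positivity
    exact_mod_cast this
  rw [gu_eq, gu_eq, ← sub_mul, norm_mul, norm_cc, mul_one]
  refine le_trans (unit_sub _ _ hz hw) ?_
  have h5 : ‖vz l y - vz l x‖ ≤ |pw l y.a - pw l x.a| + |pw l y.b - pw l x.b| := by
    refine le_trans (Complex.norm_le_abs_re_add_abs_im _) (le_of_eq ?_)
    rw [Complex.sub_re, Complex.sub_im]
    rfl
  have h6 : |pw l y.a - pw l x.a| ≤ 2 * (Nat.dist x.a y.a : ℝ) / t l := by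
    rw [abs_sub_comm]
    exact h1 l x.a y.a
  have h7 : |pw l y.b - pw l x.b| ≤ 2 * (Nat.dist x.b y.b : ℝ) / t l := by
    rw [abs_sub_comm]
    exact h1 l x.b y.b
  have h8 : 4 * (d1 x y : ℝ) / t l = 2 * (2 * (Nat.dist x.a y.a : ℝ) / t l +
      2 * (Nat.dist x.b y.b : ℝ) / t l) := by
    unfold d1
    push_cast
    ring
  rw [h8]
  linarith

theorem dist_refl_le (j a : ℕ) : Nat.dist a (refl j a) ≤ n j := by
  have hn : 0 < n j := by unfold n t; positivity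
  have h1 : a % n j < n j := Nat.mod_lt _ hn
  have h2 : n j * (a / n j) + a % n j = a := Nat.div_add_mod a (n j)
  have h3 : refl j a = n j * (a / n j) + (n j - 1 - a % n j) := rfl
  generalize n j * (a / n j) = q at h2 h3
  rw [h3]
  unfold Nat.dist
  omega

theorem ok : Pool.Agent.H626R3.CT.TGauge := by
  intro hW
  have h3l : ∀ l : ℕ, (0 : ℝ) < (3 : ℝ) ^ l := fun l => by positivity
  have htl : ∀ l : ℕ, (3 : ℝ) ^ l ≤ (t l : ℝ) := fun l => by exact_mod_cast three_pow_le_t l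
  refine ⟨?_, ?_, ?_, ?_⟩
  · intro l x
    have h1 := one_le_vz hW l x
    have h0 : (0 : ℝ) < ‖vz l x‖ := by linarith
    rw [gu_eq, norm_mul, norm_cc, mul_one, norm_div, Complex.norm_real,
      Real.norm_of_nonneg h0.le, div_self h0.ne']
  · intro x
    refine ⟨x.a + x.b + 1, fun l hl => ?_⟩
    have h1 : l < t l := lt_of_lt_of_le (Nat.lt_pow_self (by norm_num)) (three_pow_le_t l)
    obtain ⟨_, _, h3, _⟩ := hW
    have ha : pw l x.a = 1 := h3 l x.a (by omega)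
    have hb : pw l x.b = 1 := h3 l x.b (by omega)
    have hv : vz l x = 1 + Complex.I := by
      unfold vz
      rw [ha, hb]
      apply Complex.ext <;> simp
    have hn : ‖(1 + Complex.I : ℂ)‖ = Real.sqrt 2 := by
      rw [Complex.norm_eq_sqrt_sq_add_sq]
      simp
      norm_num
    rw [gu_eq, hv, hn]
    unfold cc
    have h2 : (((Real.sqrt 2 : ℝ)) : ℂ) * ((Real.sqrt 2 : ℝ) : ℂ) = 2 := by
      rw [← Complex.ofReal_mul, Real.mul_self_sqrt (by norm_num)]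
      norm_num
    rw [div_mul_div_comm, h2]
    have h5 : (1 + Complex.I) * (1 - Complex.I) = 2 := by
      have : (1 + Complex.I) * (1 - Complex.I) = 1 - Complex.I * Complex.I := by ring
      rw [this, Complex.I_mul_I]
      norm_num
    rw [h5]
    norm_num
  · intro w x y l hd
    refine le_trans (gu_diff hW l x y) ?_
    have hd' : (d1 x y : ℝ) ≤ (w : ℝ) + 1 := by exact_mod_cast hd
    have h0 : (0 : ℝ) ≤ (w : ℝ) + 1 := by positivity
    calc 4 * (d1 x y : ℝ) / t l ≤ 8 * ((w : ℝ) + 1) / t l := by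
          refine div_le_div_of_nonneg_right ?_ (Nat.cast_nonneg _)
          linarith
      _ ≤ 8 * ((w : ℝ) + 1) / 3 ^ l :=
          div_le_div_of_nonneg_left (by positivity) (h3l l) (htl l)
  · intro j x y l hA
    obtain ⟨_, _, hya, hyb⟩ := hA
    by_cases hl : l ∈ Finset.range (j + 1)
    · rw [if_pos hl]
      have hlj : l ≤ j := by
        have := Finset.mem_range.mp hl
        omega
      obtain ⟨_, h2, _, _⟩ := hW
      have hv : vz l y = - vz l x := by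
        unfold vz
        rw [hya, hyb, h2 l j x.a hlj, h2 l j x.b hlj]
        apply Complex.ext <;> simp
      have hg : gu l y * (-1) - gu l x = 0 := by
        rw [gu_eq, gu_eq, hv, norm_neg]
        ring
      rw [hg, norm_zero]
      positivity
    · rw [if_neg hl, mul_one]
      have hlj : j < l := by
        by_contra h
        exact hl (Finset.mem_range.mpr (by omega))
      refine le_trans (gu_diff hW l x y) ?_
      have hd : d1 x y ≤ 2 * n j := by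
        unfold d1
        rw [hya, hyb]
        have h1 := dist_refl_le j x.a
        have h2 := dist_refl_le j x.b
        omega
      have hd' : (d1 x y : ℝ) ≤ 2 * (n j : ℝ) := by exact_mod_cast hd
      have hnt : (n j : ℝ) * 3 ^ l ≤ (t l : ℝ) := by exact_mod_cast n_mul_le_t j l hlj
      have ht0 : (0 : ℝ) < t l := lt_of_lt_of_le (h3l l) (htl l)
      rw [div_le_div_iff₀ ht0 (h3l l)]
      have h5 : 4 * (d1 x y : ℝ) * 3 ^ l ≤ 8 * ((n j : ℝ) * 3 ^ l) := by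
        have := mul_le_mul_of_nonneg_right hd' (h3l l).le
        linarith
      linarith

end Pool.Agent.H626R3.CT.T_TGauge
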