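import Pool.Agent.H626R3.CT.Stmts

set_option autoImplicit false

open scoped Classical symmDiff

namespace Pool.Agent.H626R3.CT.T_TGraph

open Pool.Agent.H626R3.CT

theorem xx_ext {x y : XX} (h1 : x.a = y.a) (h2 : x.b = y.b) : x = y := by
  cases x; cases y; simp only at h1 h2; subst h1 h2; rfl

theorem yy_ext {x y : YY} (h1 : x.x = y.x) (h2 : x.F = y.F) : x = y := by
  cases x; cases y; simp only at h1 h2; subst h1 h2; rfl

theorem d1_comm (x y : XX) : d1 x y = d1 y x := by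
  unfold d1; rw [Nat.dist_comm x.a, Nat.dist_comm x.b]

theorem ball_fin (w : ℕ) (x : XX) :
    {y | d1 x y ≤ w + 1}.Finite ∧ {y | d1 x y ≤ w + 1}.ncard ≤ (2 * w + 3) ^ 2 := by
  set T : Finset (ℕ × ℕ) := Finset.Icc (x.a - (w + 1)) (x.a + (w + 1)) ×ˢ
    Finset.Icc (x.b - (w + 1)) (x.b + (w + 1)) with hT
  have hm : ∀ y ∈ {y | d1 x y ≤ w + 1}, ((y.a, y.b) : ℕ × ℕ) ∈ (T : Set (ℕ × ℕ)) := by
    intro y hy
    have h : d1 x y ≤ w + 1 := hy
    unfold d1 Nat.dist at h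
    simp only [hT, Finset.coe_product, Finset.coe_Icc, Set.mem_prod, Set.mem_Icc]
    omega
  have hi : Set.InjOn (fun y : XX => ((y.a, y.b) : ℕ × ℕ)) {y | d1 x y ≤ w + 1} := by
    intro y _ z _ h
    have h' : ((y.a, y.b) : ℕ × ℕ) = (z.a, z.b) := h
    rw [Prod.mk.injEq] at h'
    exact xx_ext h'.1 h'.2
  refine ⟨Set.Finite.of_injOn hm hi T.finite_toSet, ?_⟩
  refine (Set.ncard_le_ncard_of_injOn _ hm hi T.finite_toSet).trans ?_
  rw [Set.ncard_coe_finset, hT, Finset.card_product, Nat.card_Icc, Nat.card_Icc, pow_two]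
  exact Nat.mul_le_mul (by omega) (by omega)

theorem path_flip (x : YY) (z : XX) (S : Finset ℕ) : ∃ k, Path SY k x ⟨z, x.F ∆ S⟩ := by
  induction S using Finset.induction_on with
  | empty =>
    refine ⟨0 + d1 x.x z + 1, Path.cons (Path.nil x) (Or.inl ⟨?_, Nat.le_succ _⟩)⟩
    change x.F ∆ ∅ = x.F
    simp
  | insert a S ha ih =>
    obtain ⟨k, hk⟩ := ih
    refine ⟨k + a + 1, Path.cons hk (Or.inr (Or.inr ⟨rfl, a, le_rfl, ?_⟩))⟩
    change x.F ∆ insert a S = (x.F ∆ S) ∆ {a}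
    rw [symmDiff_assoc]
    congr 1
    ext i
    simp only [Finset.mem_insert, Finset.mem_symmDiff, Finset.mem_singleton]
    constructor
    · rintro (rfl | h)
      · exact Or.inr ⟨rfl, ha⟩
      · exact Or.inl ⟨h, fun h' => ha (h' ▸ h)⟩
    · rintro (⟨h, _⟩ | ⟨h, _⟩)
      · exact Or.inr h
      · exact Or.inl h

theorem ok : Pool.Agent.H626R3.CT.TGraph := by
  rintro ⟨hs, hu⟩
  refine ⟨?_, ?_, ?_, ?_, ?_, ?_⟩
  · rintro w x y (h | ⟨j, h⟩)
    · exact Or.inl (by rwa [d1_comm])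
    · exact Or.inr ⟨j, hs _ _ _ h⟩
  · rintro w x y (⟨h1, h2⟩ | ⟨j, h1, h2⟩ | ⟨h1, l, h2, h3⟩)
    · exact Or.inl ⟨h1.symm, by rwa [d1_comm]⟩
    · refine Or.inr (Or.inl ⟨j, hs _ _ _ h1, ?_⟩)
      rw [h2, symmDiff_symmDiff_cancel_right]
    · refine Or.inr (Or.inr ⟨h1.symm, l, h2, ?_⟩)
      rw [h3, symmDiff_symmDiff_cancel_right]
  · intro x y
    exact ⟨0 + d1 x y + 1, Path.cons (Path.nil x) (Or.inl (Nat.le_succ _))⟩
  · intro x y
    obtain ⟨k, hk⟩ := path_flip x y.x (x.F ∆ y.F)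
    refine ⟨k, ?_⟩
    rw [symmDiff_symmDiff_cancel_left] at hk
    exact hk
  · intro w
    refine ⟨(2 * w + 3) ^ 2 + 1, fun x => ?_⟩
    have e : {y | SX w x y} = {y | d1 x y ≤ w + 1} ∪ {y | ∃ j, Anti j x y} := rfl
    have h2 : {y | ∃ j, Anti j x y}.Subsingleton := by
      rintro y ⟨j, hj⟩ z ⟨l, hl⟩
      exact (hu _ _ _ _ _ hj hl).2
    obtain ⟨h3, h4⟩ := ball_fin w x
    rw [e]
    exact ⟨h3.union h2.finite, (Set.ncard_union_le _ _).trans
      (add_le_add h4 ((Set.ncard_le_one h2.finite).2 fun a ha b hb => h2 ha hb))⟩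
  · intro w
    refine ⟨(2 * w + 3) ^ 2 + (1 + (w + 1)), fun x => ?_⟩
    obtain ⟨h3, h4⟩ := ball_fin w x.x
    set A : Set YY := (fun p : XX => (⟨p, x.F⟩ : YY)) '' {y | d1 x.x y ≤ w + 1} with hA
    set B : Set YY := {y | ∃ j, Anti j x.x y.x ∧ y.F = x.F ∆ Finset.range (j + 1)} with hB
    set C : Set YY := (fun l : ℕ => (⟨x.x, x.F ∆ {l}⟩ : YY)) '' (Finset.range (w + 1) : Set ℕ) with hC
    have e : {y | SY w x y} ⊆ A ∪ (B ∪ C) := by
      rintro y (⟨h1, h2⟩ | h1 | ⟨h1, l, h2, h5⟩)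
      · exact Or.inl ⟨y.x, h2, yy_ext rfl h1.symm⟩
      · exact Or.inr (Or.inl h1)
      · refine Or.inr (Or.inr ⟨l, by simp; omega, yy_ext h1.symm h5.symm⟩)
    have h2 : B.Subsingleton := by
      rintro y ⟨j, hj, hj'⟩ z ⟨l, hl, hl'⟩
      obtain ⟨e1, e2⟩ := hu _ _ _ _ _ hj hl
      exact yy_ext e2 (by rw [hj', hl', e1])
    have fA : A.Finite := h3.image _
    have fC : C.Finite := (Finset.finite_toSet _).image _
    have f : (A ∪ (B ∪ C)).Finite := fA.union (h2.finite.union fC)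
    refine ⟨f.subset e, (Set.ncard_le_ncard e f).trans ?_⟩
    refine (Set.ncard_union_le _ _).trans (add_le_add ((Set.ncard_image_le h3).trans h4) ?_)
    refine (Set.ncard_union_le _ _).trans (add_le_add
      ((Set.ncard_le_one h2.finite).2 fun a ha b hb => h2 ha hb) ?_)
    refine (Set.ncard_image_le (Finset.finite_toSet _)).trans ?_
    rw [Set.ncard_coe_finset, Finset.card_range]

end Pool.Agent.H626R3.CT.T_TGraph

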