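import Pool.Agent.H626R3.CT.Stmts

/-!
# Different large holes are far apart
-/

set_option autoImplicit false

namespace Pool.Agent.H626R3.CT.T_THole

open Pool.Agent.H626R3.CT

theorem n_eq (j : ℕ) : n j = 3 ^ (2 * (j + 1) ^ 2) := by
  obtain ⟨e, he⟩ : ∃ e, 2 * (j + 1) ^ 2 = e + 1 :=
    ⟨2 * (j + 1) ^ 2 - 1, by have : 0 < (j + 1) ^ 2 := by positivity
                             omega⟩
  unfold n t
  rw [he, Nat.add_sub_cancel, pow_succ, mul_comm]

theorem sq_lt {i j : ℕ} (h : i < j) : 2 * (i + 1) ^ 2 + 5 ≤ 2 * (j + 1) ^ 2 - 1 := by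
  have h1 : (i + 2) ^ 2 ≤ (j + 1) ^ 2 := Nat.pow_le_pow_left (by omega) 2
  have h2 : (i + 2) ^ 2 = (i + 1) ^ 2 + 2 * i + 3 := by ring
  omega

theorem dvd_t {i j : ℕ} (h : i < j) : n i ∣ t j := by
  rw [n_eq]
  unfold t
  exact pow_dvd_pow 3 (by have := sq_lt h; omega)

theorem t_big {i j : ℕ} (h : i < j) : 243 * n i ≤ t j := by
  rw [n_eq]
  unfold t
  calc 243 * 3 ^ (2 * (i + 1) ^ 2) = 3 ^ (2 * (i + 1) ^ 2 + 5) := by rw [pow_add]; ring
    _ ≤ 3 ^ (2 * (j + 1) ^ 2 - 1) := Nat.pow_le_pow_right (by norm_num) (sq_lt h)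

theorem n_pos (i : ℕ) : 1 ≤ n i := by
  rw [n_eq]
  exact Nat.one_le_pow _ _ (by norm_num)

theorem far (T z w m : ℕ) (hT : 1 ≤ T) (h1 : T - 1 ≤ z % (3 * T)) (h2 : z % (3 * T) ≤ 2 * T)
    (hw : w = (3 * T) * m ∨ w + 1 = (3 * T) * m) : T - 1 ≤ Nat.dist z w := by
  have hz := Nat.div_add_mod z (3 * T)
  generalize z / (3 * T) = q at hz
  generalize z % (3 * T) = r at hz h1 h2
  unfold Nat.dist
  rcases le_or_gt m q with h | h
  · have h3 := Nat.mul_le_mul_left (3 * T) h
    generalize 3 * T * m = A at h3 hw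
    generalize 3 * T * q = B at h3 hz
    omega
  · have h3 := Nat.mul_le_mul_left (3 * T) (Nat.succ_le_of_lt h)
    rw [Nat.succ_eq_add_one, Nat.mul_add, Nat.mul_one] at h3
    generalize 3 * T * m = A at h3 hw
    generalize 3 * T * q = B at h3 hz
    omega

theorem same (T z w : ℕ) (hT : 2 ≤ T) (h1 : T - 1 ≤ z % (3 * T)) (h2 : z % (3 * T) ≤ 2 * T)
    (h3 : T - 1 ≤ w % (3 * T)) (h4 : w % (3 * T) ≤ 2 * T) (hd : Nat.dist z w < T) :
    z / (3 * T) = w / (3 * T) := by
  have hz := Nat.div_add_mod z (3 * T)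
  have hw := Nat.div_add_mod w (3 * T)
  unfold Nat.dist at hd
  generalize z / (3 * T) = q at *
  generalize w / (3 * T) = q' at *
  generalize z % (3 * T) = r at *
  generalize w % (3 * T) = r' at *
  rcases lt_trichotomy q q' with h | h | h
  · have h5 := Nat.mul_le_mul_left (3 * T) (Nat.succ_le_of_lt h)
    rw [Nat.succ_eq_add_one, Nat.mul_add, Nat.mul_one] at h5
    generalize 3 * T * q = A at *
    generalize 3 * T * q' = B at *
    omega
  · exact h
  · have h5 := Nat.mul_le_mul_left (3 * T) (Nat.succ_le_of_lt h)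
    rw [Nat.succ_eq_add_one, Nat.mul_add, Nat.mul_one] at h5
    generalize 3 * T * q = A at *
    generalize 3 * T * q' = B at *
    omega

theorem ring_coord (j : ℕ) (x : XX) (h1 : nearmid j x.a) (h2 : nearmid j x.b) :
    (x.a % n j = t j - 1 ∨ x.a % n j = 2 * t j) ∨
      (x.b % n j = t j - 1 ∨ x.b % n j = 2 * t j) := by
  have h := x.out j
  unfold mid at h
  unfold nearmid at h1 h2
  generalize x.a % n j = r at *
  generalize x.b % n j = s at *
  generalize t j = T at *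
  omega

theorem grid {i j : ℕ} (h : i < j) (a : ℕ) (ha : a % n j = t j - 1 ∨ a % n j = 2 * t j) :
    ∃ m, a = 3 * t i * m ∨ a + 1 = 3 * t i * m := by
  obtain ⟨c, hc⟩ := dvd_t h
  have hn : n i = 3 * t i := rfl
  have hz := Nat.div_add_mod a (n j)
  have hnj : n j = 3 * t j := rfl
  have ht : 1 ≤ t j := by
    have := t_big h
    have := n_pos i
    omega
  rcases ha with ha | ha
  · refine ⟨3 * c * (a / n j) + c, Or.inr ?_⟩
    rw [← hn]
    have e : n i * (3 * c * (a / n j) + c) = n j * (a / n j) + t j := by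
      rw [hnj, hc]; ring
    rw [e]
    omega
  · refine ⟨3 * c * (a / n j) + 2 * c, Or.inl ?_⟩
    rw [← hn]
    have e : n i * (3 * c * (a / n j) + 2 * c) = n j * (a / n j) + 2 * t j := by
      rw [hnj, hc]; ring
    rw [e]
    omega

/-- rings of different levels `i < j` are far apart -/
theorem two {i j : ℕ} (h : i < j) (z w : XX) (hz1 : nearmid i z.a) (hz2 : nearmid i z.b)
    (hw1 : nearmid j w.a) (hw2 : nearmid j w.b) : t i - 1 ≤ d1 z w := by
  have ht : 1 ≤ t i := by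
    have := n_pos i
    have hn : n i = 3 * t i := rfl
    omega
  unfold d1
  rcases ring_coord j w hw1 hw2 with h1 | h1
  · obtain ⟨m, hm⟩ := grid h w.a h1
    have := far (t i) z.a w.a m ht hz1.1 hz1.2 hm
    omega
  · obtain ⟨m, hm⟩ := grid h w.b h1
    have := far (t i) z.b w.b m ht hz2.1 hz2.2 hm
    omega

theorem d1_comm (z w : XX) : d1 z w = d1 w z := by
  unfold d1
  rw [Nat.dist_comm z.a w.a, Nat.dist_comm z.b w.b]

theorem ok : Pool.Agent.H626R3.CT.THole := by
  intro i j j' z z' w w' hij hij' hz hw hd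
  have hn := n_pos i
  have hb := t_big hij
  have hb' := t_big hij'
  rcases lt_trichotomy j j' with h | h | h
  · exfalso
    have := two h z w hz.1 hz.2.1 hw.1 hw.2.1
    omega
  · subst h
    have h5 : Nat.dist z.a w.a < t j := by
      have : d1 z w = Nat.dist z.a w.a + Nat.dist z.b w.b := rfl
      omega
    have h6 : Nat.dist z.b w.b < t j := by
      have : d1 z w = Nat.dist z.a w.a + Nat.dist z.b w.b := rfl
      omega
    exact ⟨rfl, same (t j) z.a w.a (by omega) hz.1.1 hz.1.2 hw.1.1 hw.1.2 h5,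
      same (t j) z.b w.b (by omega) hz.2.1.1 hz.2.1.2 hw.2.1.1 hw.2.1.2 h6⟩
  · exfalso
    have := two h w z hw.1 hw.2.1 hz.1 hz.2.1
    rw [d1_comm] at this
    omega

end Pool.Agent.H626R3.CT.T_THole
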