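import Pool.Agent.H626R3.CT.Stmts
import Pool.Agent.H400R3.Roe.Lp

/-!
Task TKer of project H626-CT: operators with bounded kernels of finite degree.
-/

set_option autoImplicit false

open scoped Classical

namespace Pool.Agent.H626R3.CT.T_TKer

theorem ok : Pool.Agent.H626R3.CT.TKer := by
  intro Y k C N hC h1 h2
  obtain ⟨B, hBdef, hB⟩ : ∃ B : Y → Finset Y, (∀ x, B x = (h1 x).1.toFinset ∪ (h2 x).1.toFinset) ∧
      ∀ x y, x ∈ B y ↔ (k x y ≠ 0 ∨ k y x ≠ 0) := by
    refine ⟨fun y => (h1 y).1.toFinset ∪ (h2 y).1.toFinset, fun x => rfl, ?_⟩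
    intro x y
    rw [Finset.mem_union, Set.Finite.mem_toFinset, Set.Finite.mem_toFinset]
    rfl
  have hcard : ∀ x, (B x).card ≤ 2 * N := by
    intro x
    rw [hBdef]
    refine (Finset.card_union_le _ _).trans ?_
    have a1 := (h1 x).2
    have a2 := (h2 x).2
    rw [Set.ncard_eq_toFinset_card _ (h1 x).1] at a1
    rw [Set.ncard_eq_toFinset_card _ (h2 x).1] at a2
    omega
  obtain ⟨T, -, hT⟩ := Pool.Agent.H400R3.Roe.exists_kernel B
    (fun x y h => (hB y x).2 ((hB x y).1 h).symm) (2 * N) hcard k |C| (abs_nonneg C)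
    (fun x y => (hC x y).trans (le_abs_self C))
  refine ⟨T, fun y' y => ?_⟩
  have h3 : ent T y' y = (T (Pool.Agent.H400R3.Roe.dl y)) y' :=
    Pool.Agent.H400R3.Roe.inner_dl y' (T (Pool.Agent.H400R3.Roe.dl y))
  rw [h3, hT]
  have h4 : ∀ z : Y, (Pool.Agent.H400R3.Roe.dl y : Pool.Agent.H400R3.Roe.l2 Y) z =
      if z = y then 1 else 0 := fun z => Pool.Agent.H400R3.Roe.dl_apply y z
  simp only [h4, mul_ite, mul_one, mul_zero, Finset.sum_ite_eq']
  split_ifs with h5
  · rfl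
  · by_contra h6
    exact h5 ((hB y y').2 (Or.inr (fun h7 => h6 h7.symm)))

end Pool.Agent.H626R3.CT.T_TKer
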