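import Pool.Agent.H626R3.CT.Stmts

set_option autoImplicit false

open scoped Classical symmDiff

namespace Pool.Agent.H626R3.CT.T_TL1

open Pool.Agent.H626R3.CT

lemma cf_succ_not (w : ℕ → ℂ) (L : ℕ) (S : Finset ℕ) (h : L ∉ S) :
    cf w (L + 1) S = cf w L S * ((1 + w L) / 2) := by
  unfold cf
  rw [Finset.prod_range_succ, if_neg h]

lemma cf_insert (w : ℕ → ℂ) (L L0 : ℕ) (S : Finset ℕ) (h : L0 ≤ L) :
    cf w L0 (insert L S) = cf w L0 S := by
  unfold cf
  refine Finset.prod_congr rfl fun l hl => ?_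
  have hne : l ≠ L := by
    have := Finset.mem_range.mp hl
    omega
  by_cases hS : l ∈ S
  · rw [if_pos (Finset.mem_insert_of_mem hS), if_pos hS]
  · rw [if_neg (by simp [hne, hS]), if_neg hS]

lemma cf_succ_insert (w : ℕ → ℂ) (L : ℕ) (S : Finset ℕ) :
    cf w (L + 1) (insert L S) = cf w L S * ((1 - w L) / 2) := by
  have h1 : cf w (L + 1) (insert L S) = cf w L (insert L S) * ((1 - w L) / 2) := by
    unfold cf
    rw [Finset.prod_range_succ, if_pos (Finset.mem_insert_self _ _)]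
  rw [h1, cf_insert w L L S le_rfl]

/-- agreement with `g` on `[L0, L)` -/
def Cn (g : Finset ℕ) (L0 L : ℕ) (S : Finset ℕ) : Prop :=
  ∀ l, L0 ≤ l → l < L → (l ∈ S ↔ l ∈ g)

noncomputable def de (w : ℕ → ℂ) (g : Finset ℕ) (L0 L : ℕ) (S : Finset ℕ) : ℂ :=
  if Cn g L0 L S then cf w L0 S else 0

lemma Cn_not {g : Finset ℕ} {L0 L : ℕ} {S : Finset ℕ} (hL : L0 ≤ L) (hS : L ∉ S) :
    Cn g L0 (L + 1) S ↔ (Cn g L0 L S ∧ L ∉ g) := by
  constructor
  · intro h
    refine ⟨fun l h1 h2 => h l h1 (by omega), fun hg => hS ((h L hL (by omega)).mpr hg)⟩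
  · rintro ⟨h, hg⟩ l h1 h2
    rcases Nat.lt_succ_iff_lt_or_eq.mp h2 with h3 | rfl
    · exact h l h1 h3
    · exact ⟨fun h => absurd h hS, fun h => absurd h hg⟩

lemma Cn_ins {g : Finset ℕ} {L0 L : ℕ} {S : Finset ℕ} (hL : L0 ≤ L) :
    Cn g L0 (L + 1) (insert L S) ↔ (Cn g L0 L S ∧ L ∈ g) := by
  constructor
  · intro h
    refine ⟨fun l h1 h2 => ?_, (h L hL (by omega)).mp (Finset.mem_insert_self _ _)⟩
    rw [← h l h1 (by omega), Finset.mem_insert]
    have : l ≠ L := by omega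
    simp [this]
  · rintro ⟨h, hg⟩ l h1 h2
    rcases Nat.lt_succ_iff_lt_or_eq.mp h2 with h3 | rfl
    · rw [← h l h1 h3, Finset.mem_insert]
      have : l ≠ L := by omega
      simp [this]
    · exact ⟨fun _ => hg, fun _ => Finset.mem_insert_self _ _⟩

noncomputable def B (K : ℝ) (L0 L : ℕ) : ℝ := Real.exp (3 * K / 2 * (1 / 3 ^ L0 - 1 / 3 ^ L))

lemma B_step (K : ℝ) (L0 L : ℕ) : B K L0 L * (1 + K / 3 ^ L) ≤ B K L0 (L + 1) := by
  have h : B K L0 (L + 1) = B K L0 L * Real.exp (K / 3 ^ L) := by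
    unfold B
    rw [← Real.exp_add]
    congr 1
    rw [pow_succ]
    field_simp
    ring
  rw [h]
  refine mul_le_mul_of_nonneg_left ?_ (Real.exp_pos _).le
  have := Real.add_one_le_exp (K / 3 ^ L)
  linarith

/-- the two coefficients -/
lemma coef (w : ℂ) (b : Prop) [Decidable b] (ρ : ℝ) (h : ‖w * (if b then -1 else 1) - 1‖ ≤ ρ) :
    (b → ‖(1 - w) / 2 - 1‖ ≤ ρ / 2 ∧ ‖(1 + w) / 2‖ ≤ ρ / 2) ∧
    (¬ b → ‖(1 + w) / 2 - 1‖ ≤ ρ / 2 ∧ ‖(1 - w) / 2‖ ≤ ρ / 2) := by
  constructor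
  · intro hb
    rw [if_pos hb] at h
    constructor
    · rw [show (1 - w) / 2 - 1 = (w * -1 - 1) / 2 by ring, norm_div]
      simp only [Complex.norm_ofNat]
      linarith
    · rw [show (1 + w) / 2 = -((w * -1 - 1) / 2) by ring, norm_neg, norm_div]
      simp only [Complex.norm_ofNat]
      linarith
  · intro hb
    rw [if_neg hb] at h
    constructor
    · rw [show (1 + w) / 2 - 1 = (w * 1 - 1) / 2 by ring, norm_div]
      simp only [Complex.norm_ofNat]
      linarith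
    · rw [show (1 - w) / 2 = -((w * 1 - 1) / 2) by ring, norm_neg, norm_div]
      simp only [Complex.norm_ofNat]
      linarith

/-- correct choice -/
lemma good_bound (c d p : ℂ) (ρ : ℝ) (hp : ‖p - 1‖ ≤ ρ / 2) :
    ‖c * p - d‖ ≤ ‖c - d‖ + ρ / 2 * ‖c‖ ∧ ‖c * p‖ ≤ (1 + ρ / 2) * ‖c‖ := by
  have h0 : ‖c * (p - 1)‖ ≤ ρ / 2 * ‖c‖ := by
    rw [norm_mul, mul_comm]
    exact mul_le_mul_of_nonneg_right hp (norm_nonneg _)
  constructor
  · rw [show c * p - d = (c - d) + c * (p - 1) by ring]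
    exact (norm_add_le _ _).trans (by linarith)
  · rw [show c * p = c + c * (p - 1) by ring]
    exact (norm_add_le _ _).trans (by linarith)

lemma bad_bound (c p : ℂ) (ρ : ℝ) (hp : ‖p‖ ≤ ρ / 2) : ‖c * p‖ ≤ ρ / 2 * ‖c‖ := by
  rw [norm_mul, mul_comm]
  exact mul_le_mul_of_nonneg_right hp (norm_nonneg _)

lemma step_one (w : ℕ → ℂ) (g : Finset ℕ) (K : ℝ)
    (h : ∀ l, ‖w l * (if l ∈ g then -1 else 1) - 1‖ ≤ K / 3 ^ l) (L0 L : ℕ) (hL : L0 ≤ L)
    (S : Finset ℕ) (hS : L ∉ S) :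
    ‖cf w (L + 1) S‖ + ‖cf w (L + 1) (insert L S)‖ ≤ (1 + K / 3 ^ L) * ‖cf w L S‖ ∧
    ‖cf w (L + 1) S - de w g L0 (L + 1) S‖ +
      ‖cf w (L + 1) (insert L S) - de w g L0 (L + 1) (insert L S)‖ ≤
      ‖cf w L S - de w g L0 L S‖ + K / 3 ^ L * ‖cf w L S‖ := by
  have hc := coef (w L) (L ∈ g) _ (h L)
  by_cases hg : L ∈ g
  · obtain ⟨h1, h2⟩ := hc.1 hg
    have e1 : de w g L0 (L + 1) S = 0 := by
      unfold de
      rw [if_neg (fun hh => ((Cn_not hL hS).mp hh).2 hg)]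
    have e2 : de w g L0 (L + 1) (insert L S) = de w g L0 L S := by
      unfold de
      by_cases hC : Cn g L0 L S
      · rw [if_pos ((Cn_ins hL).mpr ⟨hC, hg⟩), if_pos hC, cf_insert w L L0 S hL]
      · rw [if_neg (fun hh => hC ((Cn_ins hL).mp hh).1), if_neg hC]
    rw [e1, e2, sub_zero, cf_succ_not w L S hS, cf_succ_insert]
    have b1 := bad_bound (cf w L S) _ _ h2
    have b2 := good_bound (cf w L S) (de w g L0 L S) _ _ h1
    constructor
    · linarith [b2.2]
    · linarith [b2.1]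
  · obtain ⟨h1, h2⟩ := hc.2 hg
    have e1 : de w g L0 (L + 1) S = de w g L0 L S := by
      unfold de
      by_cases hC : Cn g L0 L S
      · rw [if_pos ((Cn_not hL hS).mpr ⟨hC, hg⟩), if_pos hC]
      · rw [if_neg (fun hh => hC ((Cn_not hL hS).mp hh).1), if_neg hC]
    have e2 : de w g L0 (L + 1) (insert L S) = 0 := by
      unfold de
      rw [if_neg (fun hh => hg ((Cn_ins hL).mp hh).2)]
    rw [e1, e2, sub_zero, cf_succ_not w L S hS, cf_succ_insert]
    have b1 := bad_bound (cf w L S) _ _ h2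
    have b2 := good_bound (cf w L S) (de w g L0 L S) _ _ h1
    constructor
    · linarith [b2.2]
    · linarith [b2.1]

lemma cf_norm_le (w : ℕ → ℂ) (hw : ∀ l, ‖w l‖ = 1) (L : ℕ) (S : Finset ℕ) : ‖cf w L S‖ ≤ 1 := by
  unfold cf
  rw [norm_prod]
  refine Finset.prod_le_one (fun l _ => norm_nonneg _) fun l _ => ?_
  have h2 : ‖(2 : ℂ)‖ = 2 := by simp
  split_ifs
  · rw [norm_div, h2]
    have := norm_sub_le (1 : ℂ) (w l)
    rw [hw, norm_one] at this
    linarith
  · rw [norm_div, h2]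
    have := norm_add_le (1 : ℂ) (w l)
    rw [hw, norm_one] at this
    linarith

lemma main (w : ℕ → ℂ) (g : Finset ℕ) (K : ℝ) (hw : ∀ l, ‖w l‖ = 1) (hK : 0 ≤ K)
    (h : ∀ l, ‖w l * (if l ∈ g then -1 else 1) - 1‖ ≤ K / 3 ^ l) (L0 L : ℕ) (hL : L0 ≤ L) :
    ∑ S ∈ (Finset.range L).powerset, ‖cf w L S‖ ≤ 2 ^ L0 * B K L0 L ∧
    ∑ S ∈ (Finset.range L).powerset, ‖cf w L S - de w g L0 L S‖ ≤ 2 ^ L0 * (B K L0 L - 1) := by
  induction L, hL using Nat.le_induction with
  | base =>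
    have hB : B K L0 L0 = 1 := by
      unfold B
      rw [sub_self, mul_zero, Real.exp_zero]
    rw [hB]
    constructor
    · calc ∑ S ∈ (Finset.range L0).powerset, ‖cf w L0 S‖
          ≤ ∑ _S ∈ (Finset.range L0).powerset, (1 : ℝ) :=
            Finset.sum_le_sum fun S _ => cf_norm_le w hw L0 S
        _ = 2 ^ L0 * 1 := by
            rw [Finset.sum_const, Finset.card_powerset, Finset.card_range, nsmul_eq_mul]
            push_cast
            ring
    · rw [sub_self, mul_zero]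
      refine le_of_eq (Finset.sum_eq_zero fun S _ => ?_)
      have : de w g L0 L0 S = cf w L0 S := by
        unfold de
        rw [if_pos (show Cn g L0 L0 S from fun l h1 h2 => absurd h2 (not_lt.mpr h1))]
      rw [this, sub_self, norm_zero]
  | succ L hL ih =>
    obtain ⟨ih1, ih2⟩ := ih
    have hρ : 0 ≤ K / 3 ^ L := by positivity
    have hS : ∀ S ∈ (Finset.range L).powerset, L ∉ S := by
      intro S hS hL'
      have := Finset.mem_powerset.mp hS hL'
      simp at this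
    have h2 : (0 : ℝ) < 2 ^ L0 := by positivity
    have hstep := B_step K L0 L
    rw [Finset.range_add_one, Finset.sum_powerset_insert (by simp),
      Finset.sum_powerset_insert (by simp), ← Finset.sum_add_distrib, ← Finset.sum_add_distrib]
    constructor
    · calc ∑ S ∈ (Finset.range L).powerset, (‖cf w (L + 1) S‖ + ‖cf w (L + 1) (insert L S)‖)
          ≤ ∑ S ∈ (Finset.range L).powerset, (1 + K / 3 ^ L) * ‖cf w L S‖ :=
            Finset.sum_le_sum fun S hS' => (step_one w g K h L0 L hL S (hS S hS')).1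
        _ = (1 + K / 3 ^ L) * ∑ S ∈ (Finset.range L).powerset, ‖cf w L S‖ := by
            rw [Finset.mul_sum]
        _ ≤ (1 + K / 3 ^ L) * (2 ^ L0 * B K L0 L) :=
            mul_le_mul_of_nonneg_left ih1 (by positivity)
        _ = 2 ^ L0 * (B K L0 L * (1 + K / 3 ^ L)) := by ring
        _ ≤ 2 ^ L0 * B K L0 (L + 1) := mul_le_mul_of_nonneg_left hstep h2.le
    · calc ∑ S ∈ (Finset.range L).powerset, (‖cf w (L + 1) S - de w g L0 (L + 1) S‖ +
              ‖cf w (L + 1) (insert L S) - de w g L0 (L + 1) (insert L S)‖)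
          ≤ ∑ S ∈ (Finset.range L).powerset,
              (‖cf w L S - de w g L0 L S‖ + K / 3 ^ L * ‖cf w L S‖) :=
            Finset.sum_le_sum fun S hS' => (step_one w g K h L0 L hL S (hS S hS')).2
        _ = ∑ S ∈ (Finset.range L).powerset, ‖cf w L S - de w g L0 L S‖ +
              K / 3 ^ L * ∑ S ∈ (Finset.range L).powerset, ‖cf w L S‖ := by
            rw [Finset.sum_add_distrib, Finset.mul_sum]
        _ ≤ 2 ^ L0 * (B K L0 L - 1) + K / 3 ^ L * (2 ^ L0 * B K L0 L) :=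
            add_le_add ih2 (mul_le_mul_of_nonneg_left ih1 hρ)
        _ = 2 ^ L0 * (B K L0 L * (1 + K / 3 ^ L) - 1) := by ring
        _ ≤ 2 ^ L0 * (B K L0 (L + 1) - 1) :=
            mul_le_mul_of_nonneg_left (by linarith) h2.le

theorem ok : Pool.Agent.H626R3.CT.TL1 := by
  intro w g K hw hK h L0 L hL hg
  have hm := (main w g K hw hK h L0 L hL).2
  have hconv : ∀ S ∈ (Finset.range L).powerset,
      ‖cf w L S - (if S.filter (L0 ≤ ·) = g.filter (L0 ≤ ·) then cf w L0 S else 0)‖ =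
      ‖cf w L S - de w g L0 L S‖ := by
    intro S hS
    have hiff : S.filter (L0 ≤ ·) = g.filter (L0 ≤ ·) ↔ Cn g L0 L S := by
      constructor
      · intro he l h1 h2
        have := Finset.ext_iff.mp he l
        simpa [h1] using this
      · intro hC
        ext l
        simp only [Finset.mem_filter]
        constructor
        · rintro ⟨h1, h2⟩
          exact ⟨(hC l h2 (Finset.mem_range.mp (Finset.mem_powerset.mp hS h1))).mp h1, h2⟩
        · rintro ⟨h1, h2⟩
          exact ⟨(hC l h2 (Finset.mem_range.mp (hg h1))).mpr h1, h2⟩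
    unfold de
    by_cases hC : Cn g L0 L S
    · rw [if_pos (hiff.mpr hC), if_pos hC]
    · rw [if_neg (fun hh => hC (hiff.mp hh)), if_neg hC]
  rw [Finset.sum_congr rfl hconv]
  refine hm.trans (mul_le_mul_of_nonneg_left ?_ (by positivity))
  have : B K L0 L ≤ Real.exp (2 * K / 3 ^ L0) := by
    unfold B
    apply Real.exp_le_exp.mpr
    have h1 : (0 : ℝ) ≤ 1 / 3 ^ L := by positivity
    have h2 : (0 : ℝ) ≤ 1 / 3 ^ L0 := by positivity
    have h3 : 2 * K / 3 ^ L0 = 2 * K * (1 / 3 ^ L0) := by ring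
    rw [h3]
    nlinarith [mul_nonneg hK h1, mul_nonneg hK h2]
  linarith

end Pool.Agent.H626R3.CT.T_TL1
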