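import Pool.Agent.H626R3.CT.Stmts

/-! The lifting property of the carpet and its covering. -/

set_option autoImplicit false

open scoped Classical symmDiff

namespace Pool.Agent.H626R3.CT.T_TLift

open Pool.Agent.H626R3.CT

/-- the sign -/
noncomputable def sn (g : Finset ℕ) (l : ℕ) : ℂ := if l ∈ g then -1 else 1

theorem sn_norm (g : Finset ℕ) (l : ℕ) : ‖sn g l‖ = 1 := by
  unfold sn
  split_ifs <;> simp

theorem sn_symmDiff (g h : Finset ℕ) (l : ℕ) : sn (g ∆ h) l = sn g l * sn h l := by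
  unfold sn
  by_cases h1 : l ∈ g <;> by_cases h2 : l ∈ h <;> simp [Finset.mem_symmDiff, h1, h2]

theorem lift_path (hG1 : ∀ w x y l, d1 x y ≤ w + 1 → ‖gu l y - gu l x‖ ≤ 8 * (w + 1) / 3 ^ l)
    (hG2 : ∀ j x y l, Anti j x y →
      ‖gu l y * (if l ∈ Finset.range (j + 1) then -1 else 1) - gu l x‖ ≤ 8 / 3 ^ l)
    {k : ℕ} {x y : XX} (hp : Path SX k x y) :
    ∃ g : Finset ℕ, (∀ F, Path SY k ⟨x, F⟩ ⟨y, F ∆ g⟩) ∧
      ∀ l, ‖gu l y * sn g l - gu l x‖ ≤ 8 * k / 3 ^ l := by
  induction hp with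
  | nil x =>
    refine ⟨∅, fun F => ?_, fun l => ?_⟩
    · have : F ∆ (∅ : Finset ℕ) = F := by
        have := symmDiff_bot F
        simpa using this
      rw [this]
      exact Path.nil _
    · simp [sn]
  | @cons k w x y z hp hs ih =>
    obtain ⟨g, h1, h2⟩ := ih
    have hnn : (0 : ℝ) < 3 ^ w := by positivity
    rcases hs with hs | ⟨j, hs⟩
    · refine ⟨g, fun F => ?_, fun l => ?_⟩
      · exact Path.cons (h1 F) (Or.inl ⟨rfl, hs⟩)
      · have e : gu l z * sn g l - gu l x =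
            (gu l z - gu l y) * sn g l + (gu l y * sn g l - gu l x) := by ring
        have a1 : ‖(gu l z - gu l y) * sn g l‖ ≤ 8 * (w + 1) / 3 ^ l := by
          rw [norm_mul, sn_norm, mul_one]
          exact hG1 w y z l hs
        have a2 := h2 l
        rw [e]
        refine (norm_add_le _ _).trans ((add_le_add a1 a2).trans (le_of_eq ?_))
        push_cast
        ring
    · refine ⟨g ∆ Finset.range (j + 1), fun F => ?_, fun l => ?_⟩
      · refine Path.cons (h1 F) (Or.inr (Or.inl ⟨j, hs, ?_⟩))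
        show F ∆ (g ∆ Finset.range (j + 1)) = (F ∆ g) ∆ Finset.range (j + 1)
        rw [symmDiff_assoc]
      · have e : gu l z * sn (g ∆ Finset.range (j + 1)) l - gu l x =
            (gu l z * sn (Finset.range (j + 1)) l - gu l y) * sn g l +
              (gu l y * sn g l - gu l x) := by
          rw [sn_symmDiff]
          ring
        have a1 : ‖(gu l z * sn (Finset.range (j + 1)) l - gu l y) * sn g l‖ ≤ 8 / 3 ^ l := by
          rw [norm_mul, sn_norm, mul_one]
          exact hG2 j y z l hs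
        have a2 := h2 l
        rw [e]
        refine (norm_add_le _ _).trans ((add_le_add a1 a2).trans ?_)
        have h3 : (0 : ℝ) < 3 ^ l := by positivity
        rw [← add_div]
        refine div_le_div_of_nonneg_right ?_ h3.le
        push_cast
        have : (0 : ℝ) ≤ w := Nat.cast_nonneg w
        linarith

theorem ok : Pool.Agent.H626R3.CT.TLift := by
  intro hW hG mX mY hX hY hcon e he
  obtain ⟨-, -, hG1, hG2⟩ := hG hW
  refine ⟨?_, ?_⟩
  · intro r
    refine ⟨8 * max r 0, by positivity, fun x x' hxx => ?_⟩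
    have hp : Path SX (pd SX x x') x x' := Nat.sInf_mem (hcon x x')
    obtain ⟨g, h1, h2⟩ := lift_path hG1 hG2 hp
    have hk : ((pd SX x x' : ℕ) : ℝ) ≤ max r 0 := by
      rw [← hX x x']
      exact hxx.trans (le_max_left _ _)
    refine ⟨g, fun F => ?_, fun l => ?_⟩
    · rw [he, he, hY]
      have h3 : pd SY ⟨x, F⟩ ⟨x', F ∆ g⟩ ≤ pd SX x x' := Nat.sInf_le (h1 F)
      have h4 : ((pd SY ⟨x, F⟩ ⟨x', F ∆ g⟩ : ℕ) : ℝ) ≤ (pd SX x x' : ℕ) := by exact_mod_cast h3
      have h5 : (0 : ℝ) ≤ max r 0 := le_max_right _ _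
      linarith
    · refine (h2 l).trans ?_
      have h3 : (0 : ℝ) < 3 ^ l := by positivity
      refine div_le_div_of_nonneg_right ?_ h3.le
      linarith
  · intro l
    refine ⟨l + 1, fun x F => ?_⟩
    rw [he, he, hY]
    have hp : Path SY (0 + l + 1) (⟨x, F⟩ : YY) ⟨x, F ∆ {l}⟩ :=
      Path.cons (Path.nil _) (Or.inr (Or.inr ⟨rfl, l, le_rfl, rfl⟩))
    have h3 : pd SY ⟨x, F⟩ ⟨x, F ∆ {l}⟩ ≤ 0 + l + 1 := Nat.sInf_le hp
    have h4 : ((pd SY ⟨x, F⟩ ⟨x, F ∆ {l}⟩ : ℕ) : ℝ) ≤ ((0 + l + 1 : ℕ) : ℝ) := by exact_mod_cast h3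
    refine h4.trans (le_of_eq ?_)
    push_cast
    ring

end Pool.Agent.H626R3.CT.T_TLift
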