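import Pool.Agent.H626R3.CT.Stmts

/-!
# Task TLower
-/

set_option autoImplicit false

open scoped Classical symmDiff

namespace Pool.Agent.H626R3.CT.T_TLower

open Pool.Agent.H626R3.CT

theorem t_succ (k : ℕ) : t (k + 1) = n k * 3 ^ (4 * k + 5) := by
  have h1 : 2 * (k + 1 + 1) ^ 2 - 1 = (2 * (k + 1) ^ 2 - 1) + 1 + (4 * k + 5) := by
    have h3 : 2 * (k + 1 + 1) ^ 2 = 2 * (k + 1) ^ 2 + (4 * k + 6) := by ring
    have h4 : 1 ≤ 2 * (k + 1) ^ 2 := by nlinarith
    omega
  unfold n t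
  rw [h1, pow_add, pow_add, pow_one]
  ring

theorem n_pos (k : ℕ) : 0 < n k := by
  unfold n t; positivity

theorem psi_zero (k : ℕ) : psi k 0 = 0 := by
  unfold psi; simp

theorem psi_last (k : ℕ) : psi k (t (k + 1) - 1) = 3 ^ (4 * k + 5) - 1 := by
  have hn := n_pos k
  have h1 : t (k + 1) / n k = 3 ^ (4 * k + 5) := by
    rw [t_succ, Nat.mul_div_cancel_left _ hn]
  have hq : 0 < 3 ^ (4 * k + 5) := by positivity
  have h2 : (t (k + 1) - 1) / n k = 3 ^ (4 * k + 5) - 1 := by
    rw [t_succ]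
    apply Nat.div_eq_of_lt_le
    · have : (3 ^ (4 * k + 5) - 1) * n k + n k = n k * 3 ^ (4 * k + 5) := by
        obtain ⟨q, hq'⟩ : ∃ q, 3 ^ (4 * k + 5) = q + 1 := ⟨_, (Nat.sub_add_cancel hq).symm⟩
        rw [hq']
        simp
        ring
      omega
    · have : (3 ^ (4 * k + 5) - 1 + 1) * n k = n k * 3 ^ (4 * k + 5) := by
        rw [Nat.sub_add_cancel hq, mul_comm]
      have h3 : 0 < n k * 3 ^ (4 * k + 5) := by positivity
      omega
  unfold psi
  rw [h1, h2, min_self]

theorem q_large (M : ℕ) : M + 2 ≤ 3 ^ (4 * M + 5) := by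
  have h1 : 4 * M + 5 < 3 ^ (4 * M + 5) := Nat.lt_pow_self (by norm_num)
  omega

theorem path_two {x y : XX} (h : Near x y) : Path SX 2 x y := by
  rcases h with h | ⟨j, x', h1, h2⟩
  · exact Path.cons (k := 0) (w := 1) (Path.nil x) (Or.inl h)
  · have p1 : Path SX 1 x x' := Path.cons (k := 0) (w := 0) (Path.nil x) (Or.inr ⟨j, h1⟩)
    exact Path.cons (k := 1) (w := 0) p1 (Or.inl h2)

theorem ok : Pool.Agent.H626R3.CT.TLower := by
  intro hPot hPar _ _ hd has
  obtain ⟨U, ⟨D, hD⟩, hcov, hsep⟩ := has 2 (by norm_num)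
  set M : ℕ := ⌈D⌉₊ with hM
  have hDM : D ≤ (M : ℝ) := Nat.le_ceil D
  set N : ℕ := t (M + 1) with hN
  choose i A hA hzA using hcov
  -- distance of near points
  have hnear : ∀ x y : XX, Near x y → dist x y ≤ 2 := by
    intro x y h
    rw [hd]
    have h1 : pd SX x y ≤ 2 := Nat.sInf_le (path_two h)
    exact_mod_cast h1
  -- potential differences inside a member
  have hpot : ∀ x : XX, ∀ p ∈ A x, Nat.dist (psi M p.a) (psi M x.a) ≤ M ∧
      Nat.dist (psi M p.b) (psi M x.b) ≤ M := by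
    intro x p hp
    have h1 : dist p x ≤ (M : ℝ) := (hD (i x) (A x) (hA x) p hp x (hzA x)).trans hDM
    rw [hd] at h1
    have h2 : pd SX p x ≤ M := by exact_mod_cast h1
    by_cases hne : {m | Path SX m p x}.Nonempty
    · have h3 : Path SX (pd SX p x) p x := Nat.sInf_mem hne
      have h4 := hPot M _ p x h3
      exact ⟨h4.1.trans h2, h4.2.trans h2⟩
    · have h3 : pd SX p x = 0 := by
        unfold pd
        rw [Set.not_nonempty_iff_eq_empty.1 hne]
        exact Nat.sInf_empty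
      have h4 : dist p x = 0 := by rw [hd, h3]; simp
      have h5 : p = x := dist_eq_zero.1 h4
      rw [h5, Nat.dist_self, Nat.dist_self]
      exact ⟨Nat.zero_le _, Nat.zero_le _⟩
  have hq := q_large M
  have hfar : ¬ Nat.dist (psi M 0) (psi M (N - 1)) ≤ M := by
    rw [hN, psi_last, psi_zero, Nat.dist_eq_sub_of_le (Nat.zero_le _)]
    omega
  let P1 : Set XX → Prop := fun B => ∃ p ∈ B, p.a = 0 ∧ p.b < N
  let P2 : Set XX → Prop := fun B => ∃ p ∈ B, p.b = 0 ∧ p.a < N
  let lb : Set XX → ℕ := fun B => if P1 B then 1 else if P2 B then 2 else 3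
  have l1 : ∀ B, lb B = 1 ↔ P1 B := by
    intro B
    by_cases h1 : P1 B
    · simp [lb, h1]
    · by_cases h2 : P2 B <;> simp [lb, h1, h2]
  have l2 : ∀ B, lb B = 2 → P2 B := by
    intro B hB
    by_cases h1 : P1 B
    · simp [lb, h1] at hB
    · by_cases h2 : P2 B
      · exact h2
      · simp [lb, h1, h2] at hB
  have l3 : ∀ B, lb B = 3 → ¬ P2 B := by
    intro B hB h2
    by_cases h1 : P1 B
    · simp [lb, h1] at hB
    · simp [lb, h1, h2] at hB
  have l0 : ∀ B, lb B = 1 ∨ lb B = 2 ∨ lb B = 3 := by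
    intro B
    by_cases h1 : P1 B
    · simp [lb, h1]
    · by_cases h2 : P2 B <;> simp [lb, h1, h2]
  have hsame : ∀ x y : XX, Near x y → i x = i y → lb (A x) = lb (A y) := by
    intro x y h hi
    by_contra hne
    have hAne : A x ≠ A y := fun h' => hne (by rw [h'])
    have h1 := hsep (i x) (A x) (hA x) (A y) (hi ▸ hA y) hAne x (hzA x) y (hzA y)
    have h2 := hnear x y h
    linarith
  refine hPar (M + 1) (fun x => lb (A x)) (fun x => l0 _) ?_ ?_ ?_ ?_ ?_
  · intro x hx hx'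
    exact (l1 _).2 ⟨x, hzA x, hx, hx'⟩
  · intro x hx hx' hl
    obtain ⟨p, hp, hp1, -⟩ := (l1 _).1 hl
    have h1 := (hpot x p hp).1
    rw [hp1, hx] at h1
    exact hfar h1
  · intro x hx hx' hl
    exact l3 _ hl ⟨x, hzA x, hx, hx'⟩
  · intro x hx hx' hl
    obtain ⟨p, hp, hp1, -⟩ := l2 _ hl
    have h1 := (hpot x p hp).2
    rw [hp1, hx] at h1
    exact hfar h1
  · rintro x y z hxy hyz hxz ⟨e1, e2, e3⟩
    have h1 : i x ≠ i y := fun h => by
      have := hsame x y hxy h
      change lb (A x) = 1 at e1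
      change lb (A y) = 2 at e2
      omega
    have h2 : i y ≠ i z := fun h => by
      have := hsame y z hyz h
      change lb (A y) = 2 at e2
      change lb (A z) = 3 at e3
      omega
    have h3 : i x ≠ i z := fun h => by
      have := hsame x z hxz h
      change lb (A x) = 1 at e1
      change lb (A z) = 3 at e3
      omega
    have := (i x).2
    have := (i y).2
    have := (i z).2
    have h1' : (i x).1 ≠ (i y).1 := fun h => h1 (Fin.ext h)
    have h2' : (i y).1 ≠ (i z).1 := fun h => h2 (Fin.ext h)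
    have h3' : (i x).1 ≠ (i z).1 := fun h => h3 (Fin.ext h)
    omega

end Pool.Agent.H626R3.CT.T_TLower
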