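import Mathlib
import Pool.Agent.H626R3.CT.Stmts

/-! Project H626-CT: the path distance is a metric. -/

set_option autoImplicit false

namespace Pool.Agent.H626R3.CT.T_TMetric

open Pool.Agent.H626R3.CT

variable {V : Type} {S : ℕ → V → V → Prop}

theorem path_append {k l : ℕ} {x y z : V} (h : Path S k x y) (h' : Path S l y z) :
    Path S (k + l) x z := by
  induction h' with
  | nil => exact h
  | @cons l w _ u v _ hs ih =>
    have h1 := Path.cons (ih h) hs
    have e : k + l + w + 1 = k + (l + w + 1) := by ring
    rw [e] at h1
    exact h1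

theorem path_reverse (hS : ∀ w x y, S w x y → S w y x) {k : ℕ} {x y : V} (h : Path S k x y) :
    Path S k y x := by
  induction h with
  | nil => exact Path.nil _
  | @cons k w _ u v _ hs ih =>
    have h1 : Path S (0 + w + 1) v u := Path.cons (Path.nil v) (hS _ _ _ hs)
    have h2 := path_append h1 ih
    have e : 0 + w + 1 + k = k + w + 1 := by ring
    rw [e] at h2
    exact h2

theorem path_zero {k : ℕ} {x y : V} (h : Path S k x y) (hk : k = 0) : x = y := by
  cases h with
  | nil => rfl
  | cons _ _ => omega

theorem pd_mem (hc : ∀ x y : V, ∃ k, Path S k x y) (x y : V) : Path S (pd S x y) x y :=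
  Nat.sInf_mem (hc x y)

theorem pd_le {k : ℕ} {x y : V} (h : Path S k x y) : pd S x y ≤ k := Nat.sInf_le h

theorem ok : Pool.Agent.H626R3.CT.TMetric := by
  intro V S hS hc
  have hself : ∀ x, pd S x x = 0 := fun x => Nat.le_zero.1 (pd_le (Path.nil x))
  have hcomm : ∀ x y, pd S x y = pd S y x := by
    have h1 : ∀ x y, pd S x y ≤ pd S y x := fun x y => pd_le (path_reverse hS (pd_mem hc y x))
    exact fun x y => le_antisymm (h1 x y) (h1 y x)
  have htri : ∀ x y z, pd S x z ≤ pd S x y + pd S y z := fun x y z =>
    pd_le (path_append (pd_mem hc x y) (pd_mem hc y z))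
  refine ⟨{ dist := fun x y => (pd S x y : ℝ)
            dist_self := fun x => by rw [hself]; norm_num
            dist_comm := fun x y => by rw [hcomm]
            dist_triangle := fun x y z => by exact_mod_cast htri x y z
            eq_of_dist_eq_zero := fun {x y} h => ?_ }, fun x y => rfl⟩
  have h0 : pd S x y = 0 := by exact_mod_cast h
  exact path_zero (pd_mem hc x y) h0

end Pool.Agent.H626R3.CT.T_TMetric
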