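import Pool.Agent.H626R3.CT.Stmts

/-!
# Project H626-CT, task TMoveAnti: crossing a hole of level `i`
-/

set_option autoImplicit false

open scoped Classical symmDiff

namespace Pool.Agent.H626R3.CT.T_TMoveAnti

open Pool.Agent.H626R3.CT

theorem t_ge (i : ℕ) : i + 2 ≤ t i := by
  unfold t
  have h1 : i + 1 ≤ 2 * (i + 1) ^ 2 - 1 := by
    have h2 : (i + 1) * 1 ≤ (i + 1) ^ 2 := by
      rw [pow_two]
      exact Nat.mul_le_mul_left _ (by omega)
    omega
  calc i + 2 ≤ 3 ^ (i + 1) := by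
        have := Nat.lt_pow_self (show 1 < 3 by norm_num) (n := i + 1)
        omega
    _ ≤ 3 ^ (2 * (i + 1) ^ 2 - 1) := Nat.pow_le_pow_right (by norm_num) h1

theorem key (v1 v2 w1 w2 D c : ℝ) (h1 : |v1 - w1| ≤ D) (h2 : |v2 - w2| ≤ D) (hc : 0 < c)
    (hM : c ≤ mm v1 v2) (hM' : c ≤ mm w1 w2) :
    |v1 / mm v1 v2 - w1 / mm w1 w2| ≤ 2 * D / c ∧ |v2 / mm v1 v2 - w2 / mm w1 w2| ≤ 2 * D / c := by
  have hMpos : 0 < mm v1 v2 := hc.trans_le hM
  have hMpos' : 0 < mm w1 w2 := hc.trans_le hM'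
  have hD : 0 ≤ D := (abs_nonneg _).trans h1
  have hdiff : |mm w1 w2 - mm v1 v2| ≤ D := by
    unfold mm
    refine (abs_max_sub_max_le_max _ _ _ _).trans (max_le ?_ ?_)
    · refine (abs_abs_sub_abs_le _ _).trans ?_
      rw [abs_sub_comm]
      exact h1
    · refine (abs_abs_sub_abs_le _ _).trans ?_
      rw [abs_sub_comm]
      exact h2
  have gen : ∀ v w : ℝ, |v| ≤ mm v1 v2 → |v - w| ≤ D →
      |v / mm v1 v2 - w / mm w1 w2| ≤ 2 * D / c := by
    intro v w hv hvw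
    have e : v / mm v1 v2 - w / mm w1 w2 =
        (v * (mm w1 w2 - mm v1 v2) + (v - w) * mm v1 v2) / (mm v1 v2 * mm w1 w2) := by
      field_simp
      ring
    rw [e, abs_div, abs_of_pos (mul_pos hMpos hMpos'), div_le_div_iff₀ (mul_pos hMpos hMpos') hc]
    have h3 : |v * (mm w1 w2 - mm v1 v2) + (v - w) * mm v1 v2| ≤ 2 * D * mm v1 v2 := by
      refine (abs_add_le _ _).trans ?_
      rw [abs_mul, abs_mul, abs_of_pos hMpos]
      have h4 := mul_le_mul hv hdiff (abs_nonneg _) hMpos.le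
      have h5 := mul_le_mul_of_nonneg_right hvw hMpos.le
      linarith
    calc |v * (mm w1 w2 - mm v1 v2) + (v - w) * mm v1 v2| * c ≤ (2 * D * mm v1 v2) * mm w1 w2 :=
          mul_le_mul h3 hM' hc.le (by positivity)
      _ = 2 * D * (mm v1 v2 * mm w1 w2) := by ring
  exact ⟨gen v1 w1 (le_max_left _ _) h1, gen v2 w2 (le_max_right _ _) h2⟩

theorem lower (T e s1 s2 : ℝ) (hT : 1 < T) (he : |e| = 1) (h1 : |s1| ≤ T + 1) (h2 : |s2| ≤ T + 1)
    (h : |s1| = T + 1 ∨ |s2| = T + 1) :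
    (2 * T - 2) * (T + 1) ≤ mm (s1 - e * (2 * T - 1) * s2) (s2 + e * (2 * T - 1) * s1) := by
  have habs : |2 * T - 1| = 2 * T - 1 := abs_of_pos (by linarith)
  rcases h with h | h
  · refine le_trans ?_ (le_max_right _ _)
    have h3 : |e * (2 * T - 1) * s1| = (2 * T - 1) * (T + 1) := by
      rw [abs_mul, abs_mul, he, habs, h, one_mul]
    have h4 : |e * (2 * T - 1) * s1| ≤ |s2 + e * (2 * T - 1) * s1| + |s2| := by
      have := abs_sub (s2 + e * (2 * T - 1) * s1) s2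
      rwa [add_sub_cancel_left] at this
    linarith
  · refine le_trans ?_ (le_max_left _ _)
    have h3 : |e * (2 * T - 1) * s2| = (2 * T - 1) * (T + 1) := by
      rw [abs_mul, abs_mul, he, habs, h, one_mul]
    have h4 : |e * (2 * T - 1) * s2| ≤ |s1| + |s1 - e * (2 * T - 1) * s2| := by
      have := abs_sub s1 (s1 - e * (2 * T - 1) * s2)
      rwa [sub_sub_cancel] at this
    linarith

theorem ok : Pool.Agent.H626R3.CT.TMoveAnti := by
  intro ε hε
  obtain ⟨i0, hi0⟩ := exists_nat_ge (2 / ε)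
  refine ⟨i0, fun i hi y y' hA hF => ?_⟩
  obtain ⟨hn1, hn2, ha, hb⟩ := hA
  have hT := t_ge i
  set T : ℕ := t i with hTdef
  have hn : n i = 3 * T := rfl
  have hTr : ((i : ℝ) + 2) ≤ (T : ℝ) := by exact_mod_cast hT
  have hir : (i0 : ℝ) ≤ (i : ℝ) := by exact_mod_cast hi
  have hi0r : (0 : ℝ) ≤ (i : ℝ) := Nat.cast_nonneg i
  have hT1 : (1 : ℝ) < T := by linarith
  -- the reflected coordinates
  have hmod : ∀ a : ℕ, (refl i a) % n i = n i - 1 - a % n i ∧ (refl i a) / n i = a / n i := by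
    intro a
    have hpos : 0 < n i := by omega
    have hlt : n i - 1 - a % n i < n i := by omega
    unfold refl
    constructor
    · rw [Nat.mul_add_mod, Nat.mod_eq_of_lt hlt]
    · rw [Nat.mul_add_div hpos, Nat.div_eq_of_lt hlt, add_zero]
  have hsc : ∀ a : ℕ, sc i (refl i a) = - sc i a := by
    intro a
    have hpos : 0 < n i := by omega
    have hlt : a % n i < n i := Nat.mod_lt _ hpos
    unfold sc
    rw [(hmod a).1]
    have hc : ((n i - 1 - a % n i : ℕ) : ℝ) = (n i : ℝ) - 1 - ((a % n i : ℕ) : ℝ) := by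
      rw [Nat.cast_sub (by omega), Nat.cast_sub (by omega), Nat.cast_one]
    rw [hc]
    ring
  have hce : ∀ a : ℕ, ce i (refl i a) = ce i a := by
    intro a
    unfold ce
    rw [(hmod a).2]
  have hnr : (n i : ℝ) = 3 * (T : ℝ) := by
    rw [hn]
    push_cast
    ring
  have hbound : ∀ a : ℕ, nearmid i a → |sc i a| ≤ (T : ℝ) + 1 := by
    intro a h
    obtain ⟨h1, h2⟩ := h
    have h1' : (T : ℝ) - 1 ≤ ((a % n i : ℕ) : ℝ) := by
      have : T ≤ a % n i + 1 := by omega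
      have : (T : ℝ) ≤ ((a % n i + 1 : ℕ) : ℝ) := by exact_mod_cast this
      push_cast at this
      linarith
    have h2' : ((a % n i : ℕ) : ℝ) ≤ 2 * (T : ℝ) := by exact_mod_cast h2
    unfold sc
    rw [abs_le, hnr]
    constructor <;> linarith
  have hedge : ∀ a : ℕ, nearmid i a → ¬ mid i a → |sc i a| = (T : ℝ) + 1 := by
    intro a h hm
    obtain ⟨h1, h2⟩ := h
    unfold mid at hm
    have hcase : a % n i + 1 = T ∨ a % n i = 2 * T := by omega
    unfold sc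
    rw [hnr]
    rcases hcase with hcase | hcase
    · have : ((a % n i : ℕ) : ℝ) = (T : ℝ) - 1 := by
        have : ((a % n i + 1 : ℕ) : ℝ) = (T : ℝ) := by exact_mod_cast hcase
        push_cast at this
        linarith
      rw [this]
      have e : 2 * ((T : ℝ) - 1) - (3 * (T : ℝ) - 1) = -((T : ℝ) + 1) := by ring
      rw [e, abs_neg, abs_of_pos (by linarith)]
    · have : ((a % n i : ℕ) : ℝ) = 2 * (T : ℝ) := by exact_mod_cast hcase
      rw [this]
      have e : 2 * (2 * (T : ℝ)) - (3 * (T : ℝ) - 1) = (T : ℝ) + 1 := by ring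
      rw [e, abs_of_pos (by linarith)]
  have hout : |sc i y.x.a| = (T : ℝ) + 1 ∨ |sc i y.x.b| = (T : ℝ) + 1 := by
    by_cases hm : mid i y.x.a
    · right
      exact hedge _ hn2 (fun hm2 => y.x.out i ⟨hm, hm2⟩)
    · left
      exact hedge _ hn1 hm
  have hb1 := hbound _ hn1
  have hb2 := hbound _ hn2
  -- the sign
  have heta : eta i y'.F = - eta i y.F := by
    unfold eta
    rw [hF]
    have e1 : (i ∈ y.F ∆ Finset.range (i + 1)) ↔ i ∉ y.F := by
      rw [Finset.mem_symmDiff]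
      simp
    have e2 : (i + 1 ∈ y.F ∆ Finset.range (i + 1)) ↔ i + 1 ∈ y.F := by
      rw [Finset.mem_symmDiff]
      simp
    by_cases h1 : i ∈ y.F <;> by_cases h2 : i + 1 ∈ y.F <;> simp [e1, e2, h1, h2]
  have hee : |eta i y.F| = 1 := by
    unfold eta
    split_ifs <;> simp
  set e := eta i y.F with hedef
  set s1 := sc i y.x.a with hs1
  set s2 := sc i y.x.b with hs2
  have hmm : mm s1 s2 = (T : ℝ) + 1 := by
    unfold mm
    rcases hout with h | h
    · rw [h, max_eq_left hb2]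
    · rw [h, max_eq_right hb1]
  have hmm' : mm (-s1) (-s2) = (T : ℝ) + 1 := by
    rw [← hmm]
    unfold mm
    rw [abs_neg, abs_neg]
  have hv1 : v1 i e s1 s2 = s1 - e * (2 * (T : ℝ) - 1) * s2 := by
    unfold v1
    rw [hmm]
    ring
  have hv2 : v2 i e s1 s2 = s2 + e * (2 * (T : ℝ) - 1) * s1 := by
    unfold v2
    rw [hmm]
    ring
  have hw1 : v1 i (-e) (-s1) (-s2) = (-s1) - (-e) * (2 * (T : ℝ) - 1) * (-s2) := by
    unfold v1
    rw [hmm']
    ring
  have hw2 : v2 i (-e) (-s1) (-s2) = (-s2) + (-e) * (2 * (T : ℝ) - 1) * (-s1) := by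
    unfold v2
    rw [hmm']
    ring
  have hM : (2 * (T : ℝ) - 2) * (T + 1) ≤ mm (v1 i e s1 s2) (v2 i e s1 s2) := by
    rw [hv1, hv2]
    exact lower T e s1 s2 hT1 hee hb1 hb2 hout
  have hM' : (2 * (T : ℝ) - 2) * (T + 1) ≤
      mm (v1 i (-e) (-s1) (-s2)) (v2 i (-e) (-s1) (-s2)) := by
    rw [hw1, hw2]
    refine lower T (-e) (-s1) (-s2) hT1 (by rw [abs_neg]; exact hee) (by rw [abs_neg]; exact hb1)
      (by rw [abs_neg]; exact hb2) ?_
    rw [abs_neg, abs_neg]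
    exact hout
  have hd1 : |v1 i e s1 s2 - v1 i (-e) (-s1) (-s2)| ≤ 2 * ((T : ℝ) + 1) := by
    rw [hv1, hw1]
    have e1 : s1 - e * (2 * (T : ℝ) - 1) * s2 - (-s1 - -e * (2 * (T : ℝ) - 1) * -s2) =
        2 * s1 := by ring
    rw [e1, abs_mul, abs_of_pos (show (0:ℝ) < 2 by norm_num)]
    linarith
  have hd2 : |v2 i e s1 s2 - v2 i (-e) (-s1) (-s2)| ≤ 2 * ((T : ℝ) + 1) := by
    rw [hv2, hw2]
    have e1 : s2 + e * (2 * (T : ℝ) - 1) * s1 - (-s2 + -e * (2 * (T : ℝ) - 1) * -s1) =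
        2 * s2 := by ring
    rw [e1, abs_mul, abs_of_pos (show (0:ℝ) < 2 by norm_num)]
    linarith
  have hcpos : (0 : ℝ) < (2 * (T : ℝ) - 2) * (T + 1) := by
    apply mul_pos <;> linarith
  obtain ⟨k1, k2⟩ := key _ _ _ _ _ _ hd1 hd2 hcpos hM hM'
  have hfin : 2 * (2 * ((T : ℝ) + 1)) / ((2 * (T : ℝ) - 2) * (T + 1)) ≤ ε := by
    rw [div_le_iff₀ hcpos]
    have h1 : 2 / ε ≤ (T : ℝ) - 1 := by linarith
    rw [div_le_iff₀ hε] at h1
    have h2 : (0:ℝ) < (T : ℝ) + 1 := by linarith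
    nlinarith
  have hnpos : (0 : ℝ) ≤ (n i : ℝ) := Nat.cast_nonneg _
  constructor
  · unfold P1
    rw [ha, hb, hsc, hsc, hce, heta]
    rw [← hedef, ← hs1, ← hs2]
    have e1 : ce i y.x.a + (n i : ℝ) * v1 i e s1 s2 / mm (v1 i e s1 s2) (v2 i e s1 s2) -
        (ce i y.x.a + (n i : ℝ) * v1 i (-e) (-s1) (-s2) /
          mm (v1 i (-e) (-s1) (-s2)) (v2 i (-e) (-s1) (-s2))) =
        (n i : ℝ) * (v1 i e s1 s2 / mm (v1 i e s1 s2) (v2 i e s1 s2) -
          v1 i (-e) (-s1) (-s2) / mm (v1 i (-e) (-s1) (-s2)) (v2 i (-e) (-s1) (-s2))) := by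
      ring
    rw [e1, abs_mul, abs_of_nonneg hnpos, mul_comm]
    exact mul_le_mul_of_nonneg_right (k1.trans hfin) hnpos
  · unfold P2
    rw [ha, hb, hsc, hsc, hce, heta]
    rw [← hedef, ← hs1, ← hs2]
    have e1 : ce i y.x.b + (n i : ℝ) * v2 i e s1 s2 / mm (v1 i e s1 s2) (v2 i e s1 s2) -
        (ce i y.x.b + (n i : ℝ) * v2 i (-e) (-s1) (-s2) /
          mm (v1 i (-e) (-s1) (-s2)) (v2 i (-e) (-s1) (-s2))) =
        (n i : ℝ) * (v2 i e s1 s2 / mm (v1 i e s1 s2) (v2 i e s1 s2) -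
          v2 i (-e) (-s1) (-s2) / mm (v1 i (-e) (-s1) (-s2)) (v2 i (-e) (-s1) (-s2))) := by
      ring
    rw [e1, abs_mul, abs_of_nonneg hnpos, mul_comm]
    exact mul_le_mul_of_nonneg_right (k2.trans hfin) hnpos

end Pool.Agent.H626R3.CT.T_TMoveAnti
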