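import Pool.Agent.H626R3.CT.Stmts

set_option autoImplicit false

/-! Near the boundary of the block the projection is close to the point. -/

namespace Pool.Agent.H626R3.CT.T_TMoveBd

open Pool.Agent.H626R3.CT

theorem num_bound {n t m s E1 E2 v w δ : ℝ} (hn : 0 < n) (ht : 0 < t) (htn : n = 3 * t)
    (hδ : δ ≤ 1 / 6) (hm1 : (1 - δ) * n ≤ m) (hm2 : m ≤ n) (hs : |s| ≤ m)
    (hE1 : |E1| ≤ δ * n * m) (hE2 : |E2| ≤ δ * n * m) (hv : v = (m - t) * s + E1)
    (hw : w = (m - t) * m + E2) : |n * v / w - s| ≤ 9 * δ * n := by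
  have hm0 : 0 < m := by nlinarith
  have hnm : n - m ≤ δ * n := by nlinarith
  have hnm0 : 0 ≤ n - m := by linarith
  have hδ0 : 0 ≤ δ := by
    by_contra h
    push Not at h
    nlinarith
  have hmt : 0 ≤ m - t := by nlinarith
  have hmt2 : m - t ≤ n := by linarith
  have hE2' := abs_le.mp hE2
  have hwl : m * n / 3 ≤ w := by
    rw [hw]
    have h1 : n / 3 ≤ m - t - δ * n := by nlinarith
    have h2 : m * (n / 3) ≤ m * (m - t - δ * n) := mul_le_mul_of_nonneg_left h1 hm0.le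
    nlinarith [hE2'.1]
  have hw0 : 0 < w := lt_of_lt_of_le (by positivity) hwl
  have hdn : 0 ≤ δ * n := by positivity
  have e1 : n * v / w - s = ((m - t) * s * (n - m) + n * E1 - s * E2) / w := by
    rw [eq_div_iff hw0.ne', sub_mul, div_mul_cancel₀ _ hw0.ne', hv, hw]
    ring
  rw [e1, abs_div, abs_of_pos hw0, div_le_iff₀ hw0]
  have b1 : |(m - t) * s * (n - m)| ≤ n * (δ * n * m) := by
    rw [abs_mul, abs_mul, abs_of_nonneg hmt, abs_of_nonneg hnm0]
    calc (m - t) * |s| * (n - m) ≤ n * m * (δ * n) := by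
          apply mul_le_mul (mul_le_mul hmt2 hs (abs_nonneg _) hn.le) hnm hnm0 (by positivity)
      _ = n * (δ * n * m) := by ring
  have b2 : |n * E1| ≤ n * (δ * n * m) := by
    rw [abs_mul, abs_of_pos hn]
    exact mul_le_mul_of_nonneg_left hE1 hn.le
  have b3 : |s * E2| ≤ n * (δ * n * m) := by
    rw [abs_mul]
    exact mul_le_mul (hs.trans hm2) hE2 (abs_nonneg _) hn.le
  have b4 : |(m - t) * s * (n - m) + n * E1 - s * E2| ≤ 3 * (n * (δ * n * m)) := by
    calc |(m - t) * s * (n - m) + n * E1 - s * E2|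
        ≤ |(m - t) * s * (n - m) + n * E1| + |s * E2| := abs_sub _ _
      _ ≤ |(m - t) * s * (n - m)| + |n * E1| + |s * E2| := by
          have := abs_add_le ((m - t) * s * (n - m)) (n * E1)
          linarith
      _ ≤ 3 * (n * (δ * n * m)) := by linarith
  refine b4.trans ?_
  calc 3 * (n * (δ * n * m)) = 9 * δ * n * (m * n / 3) := by ring
    _ ≤ 9 * δ * n * w := mul_le_mul_of_nonneg_left hwl (by positivity)

theorem key {n t s1 s2 e δ : ℝ} (ht : 0 < t) (htn : n = 3 * t) (he : e = 1 ∨ e = -1)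
    (hδ : δ ≤ 1 / 6) (hm1 : (1 - δ) * n ≤ mm s1 s2) (hm2 : mm s1 s2 ≤ n) :
    |n * ((mm s1 s2 - t) * s1 - e * (3 * t - mm s1 s2) * s2) /
        mm ((mm s1 s2 - t) * s1 - e * (3 * t - mm s1 s2) * s2)
          ((mm s1 s2 - t) * s2 + e * (3 * t - mm s1 s2) * s1) - s1| ≤ 9 * δ * n ∧
    |n * ((mm s1 s2 - t) * s2 + e * (3 * t - mm s1 s2) * s1) /
        mm ((mm s1 s2 - t) * s1 - e * (3 * t - mm s1 s2) * s2)
          ((mm s1 s2 - t) * s2 + e * (3 * t - mm s1 s2) * s1) - s2| ≤ 9 * δ * n := by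
  have hn : 0 < n := by linarith
  have hs1 : |s1| ≤ mm s1 s2 := le_max_left _ _
  have hs2 : |s2| ≤ mm s1 s2 := le_max_right _ _
  have hm12 : mm s1 s2 = |s1| ∨ mm s1 s2 = |s2| := max_choice _ _
  set m := mm s1 s2 with hm
  have hm0 : 0 < m := by nlinarith
  have hmt : 0 ≤ m - t := by nlinarith
  have habs : ∀ s : ℝ, |s| ≤ m → |e * (3 * t - m) * s| ≤ δ * n * m := by
    intro s hs
    have h1 : |e| = 1 := by rcases he with h | h <;> rw [h] <;> simp
    have h2 : 0 ≤ 3 * t - m := by linarith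
    rw [abs_mul, abs_mul, h1, one_mul, abs_of_nonneg h2]
    refine mul_le_mul ?_ hs (abs_nonneg _) ?_
    · nlinarith
    · nlinarith
  have hA := habs s2 hs2
  have hB := habs s1 hs1
  set v1 := (m - t) * s1 - e * (3 * t - m) * s2 with hv1
  set v2 := (m - t) * s2 + e * (3 * t - m) * s1 with hv2
  have hA' := abs_le.mp hA
  have hB' := abs_le.mp hB
  have u1 : |v1| ≤ (m - t) * m + δ * n * m := by
    rw [hv1]
    calc |(m - t) * s1 - e * (3 * t - m) * s2| ≤ |(m - t) * s1| + |e * (3 * t - m) * s2| :=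
          abs_sub _ _
      _ ≤ (m - t) * m + δ * n * m := by
          rw [abs_mul (m - t), abs_of_nonneg hmt]
          have := mul_le_mul_of_nonneg_left hs1 hmt
          linarith
  have u2 : |v2| ≤ (m - t) * m + δ * n * m := by
    rw [hv2]
    calc |(m - t) * s2 + e * (3 * t - m) * s1| ≤ |(m - t) * s2| + |e * (3 * t - m) * s1| :=
          abs_add_le _ _
      _ ≤ (m - t) * m + δ * n * m := by
          rw [abs_mul (m - t), abs_of_nonneg hmt]
          have := mul_le_mul_of_nonneg_left hs2 hmt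
          linarith
  have uw : mm v1 v2 ≤ (m - t) * m + δ * n * m := max_le u1 u2
  have lw : (m - t) * m - δ * n * m ≤ mm v1 v2 := by
    rcases hm12 with h | h
    · have h3 : (m - t) * |s1| = |v1 + e * (3 * t - m) * s2| := by
        rw [hv1, sub_add_cancel, abs_mul, abs_of_nonneg hmt]
      have h4 := abs_add_le v1 (e * (3 * t - m) * s2)
      have h5 : |v1| ≤ mm v1 v2 := le_max_left _ _
      have h6 : (m - t) * m = (m - t) * |s1| := by rw [← h]
      linarith
    · have h3 : (m - t) * |s2| = |v2 - e * (3 * t - m) * s1| := by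
        rw [hv2, add_sub_cancel_right, abs_mul, abs_of_nonneg hmt]
      have h4 := abs_sub v2 (e * (3 * t - m) * s1)
      have h5 : |v2| ≤ mm v1 v2 := le_max_right _ _
      have h6 : (m - t) * m = (m - t) * |s2| := by rw [← h]
      linarith
  have hE2 : |mm v1 v2 - (m - t) * m| ≤ δ * n * m := by
    rw [abs_le]; constructor <;> linarith
  constructor
  · refine num_bound hn ht htn hδ hm1 hm2 hs1 (E1 := -(e * (3 * t - m) * s2))
      (E2 := mm v1 v2 - (m - t) * m) ?_ hE2 ?_ ?_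
    · rw [abs_neg]; exact hA
    · rw [hv1]; ring
    · ring
  · refine num_bound hn ht htn hδ hm1 hm2 hs2 (E1 := e * (3 * t - m) * s1)
      (E2 := mm v1 v2 - (m - t) * m) hB hE2 ?_ ?_
    · rw [hv2]
    · ring

theorem t_pos (i : ℕ) : 0 < t i := by
  unfold t; positivity

theorem sc_le (i a : ℕ) : |sc i a| ≤ n i := by
  have hn : 0 < n i := by unfold n; have := t_pos i; omega
  have h1 : a % n i < n i := Nat.mod_lt _ hn
  have h2 : ((a % n i : ℕ) : ℝ) + 1 ≤ (n i : ℝ) := by exact_mod_cast h1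
  have h3 : (0 : ℝ) ≤ ((a % n i : ℕ) : ℝ) := Nat.cast_nonneg _
  unfold sc
  rw [abs_le]
  constructor <;> linarith

theorem ce_sc (i a : ℕ) : ce i a + sc i a = 2 * (a : ℝ) := by
  unfold ce sc
  have h : n i * (a / n i) + a % n i = a := Nat.div_add_mod a (n i)
  have h2 : ((n i * (a / n i) : ℕ) : ℝ) + ((a % n i : ℕ) : ℝ) = (a : ℝ) := by exact_mod_cast h
  linarith

theorem ok : Pool.Agent.H626R3.CT.TMoveBd := by
  intro ε hε
  refine ⟨min (1 / 6) (ε / 9), by positivity, 0, fun i _ y hy => ?_⟩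
  set δ := min (1 / 6) (ε / 9) with hδ
  have hδ6 : δ ≤ 1 / 6 := min_le_left _ _
  have hδ9 : 9 * δ ≤ ε := by
    have : δ ≤ ε / 9 := min_le_right _ _
    linarith
  have ht : (0 : ℝ) < (t i : ℝ) := by exact_mod_cast t_pos i
  have htn : (n i : ℝ) = 3 * (t i : ℝ) := by unfold n; push_cast; ring
  have he : eta i y.F = 1 ∨ eta i y.F = -1 := by
    unfold eta
    split_ifs
    · exact Or.inl rfl
    · exact Or.inr rfl
  have hm2 : mm (sc i y.x.a) (sc i y.x.b) ≤ n i := max_le (sc_le i _) (sc_le i _)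
  obtain ⟨h1, h2⟩ := key ht htn he hδ6 hy hm2
  have hn0 : (0 : ℝ) ≤ n i := Nat.cast_nonneg _
  have hb : 9 * δ * (n i : ℝ) ≤ ε * n i := mul_le_mul_of_nonneg_right hδ9 hn0
  constructor
  · have e1 : P1 i y - 2 * (y.x.a : ℝ) =
        (n i : ℝ) * v1 i (eta i y.F) (sc i y.x.a) (sc i y.x.b) /
          mm (v1 i (eta i y.F) (sc i y.x.a) (sc i y.x.b))
            (v2 i (eta i y.F) (sc i y.x.a) (sc i y.x.b)) - sc i y.x.a := by
      unfold P1
      rw [← ce_sc i y.x.a]
      ring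
    rw [e1]
    exact h1.trans hb
  · have e1 : P2 i y - 2 * (y.x.b : ℝ) =
        (n i : ℝ) * v2 i (eta i y.F) (sc i y.x.a) (sc i y.x.b) /
          mm (v1 i (eta i y.F) (sc i y.x.a) (sc i y.x.b))
            (v2 i (eta i y.F) (sc i y.x.a) (sc i y.x.b)) - sc i y.x.b := by
      unfold P2
      rw [← ce_sc i y.x.b]
      ring
    rw [e1]
    exact h2.trans hb

end Pool.Agent.H626R3.CT.T_TMoveBd
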