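import Pool.Agent.H626R3.CT.Stmts

set_option autoImplicit false

/-! Small moves inside a block. -/

namespace Pool.Agent.H626R3.CT.T_TMoveIn

open Pool.Agent.H626R3.CT

theorem t_pos (i : ℕ) : 0 < t i := by
  unfold t; positivity

theorem n_eq (i : ℕ) : (n i : ℝ) = 3 * (t i : ℝ) := by
  unfold n; push_cast; ring

theorem n_pos (i : ℕ) : 0 < n i := by
  unfold n; have := t_pos i; omega

theorem sc_le (i a : ℕ) : |sc i a| ≤ 3 * (t i : ℝ) := by
  have h : a % n i < n i := Nat.mod_lt _ (n_pos i)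
  have h' : ((a % n i : ℕ) : ℝ) + 1 ≤ (n i : ℝ) := by exact_mod_cast h
  have h0 : (0 : ℝ) ≤ ((a % n i : ℕ) : ℝ) := Nat.cast_nonneg _
  rw [← n_eq]
  unfold sc
  rw [abs_le]
  constructor <;> linarith

theorem sc_ge (i a : ℕ) (h : ¬ mid i a) : (t i : ℝ) ≤ |sc i a| := by
  unfold mid at h
  rw [not_and_or, not_le, not_lt] at h
  have h3 := n_eq i
  rcases h with h | h
  · have h' : ((a % n i : ℕ) : ℝ) + 1 ≤ (t i : ℝ) := by exact_mod_cast h
    have : sc i a ≤ -(t i : ℝ) := by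
      unfold sc; linarith
    rw [le_abs]; right; linarith
  · have h' : 2 * (t i : ℝ) ≤ ((a % n i : ℕ) : ℝ) := by exact_mod_cast h
    rw [le_abs]; left
    unfold sc; linarith

theorem mm_ge (i : ℕ) (x : XX) : (t i : ℝ) ≤ mm (sc i x.a) (sc i x.b) := by
  have h := x.out i
  rw [not_and_or] at h
  unfold mm
  rcases h with h | h
  · exact le_max_of_le_left (sc_ge i _ h)
  · exact le_max_of_le_right (sc_ge i _ h)

/-- first coordinate -/
noncomputable def w1 (t e s1 s2 : ℝ) : ℝ := (mm s1 s2 - t) * s1 - e * (3 * t - mm s1 s2) * s2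

/-- second coordinate -/
noncomputable def w2 (t e s1 s2 : ℝ) : ℝ := (mm s1 s2 - t) * s2 + e * (3 * t - mm s1 s2) * s1

theorem mm_sq_le (s1 s2 : ℝ) : (mm s1 s2) ^ 2 ≤ s1 ^ 2 + s2 ^ 2 := by
  unfold mm
  rcases max_choice |s1| |s2| with h | h
  · rw [h, sq_abs]; nlinarith [sq_nonneg s2]
  · rw [h, sq_abs]; nlinarith [sq_nonneg s1]

theorem big {t e s1 s2 : ℝ} (ht : 0 < t) (he : e ^ 2 = 1) (hm : t ≤ mm s1 s2) :
    t ^ 2 ≤ mm (w1 t e s1 s2) (w2 t e s1 s2) := by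
  by_contra hcon
  rw [not_le] at hcon
  have ha : |w1 t e s1 s2| < t ^ 2 := lt_of_le_of_lt (le_max_left _ _) hcon
  have hb : |w2 t e s1 s2| < t ^ 2 := lt_of_le_of_lt (le_max_right _ _) hcon
  have ha2 : (w1 t e s1 s2) ^ 2 < (t ^ 2) ^ 2 := by
    rw [sq_lt_sq, abs_of_nonneg (by positivity : (0:ℝ) ≤ t ^ 2)]; exact ha
  have hb2 : (w2 t e s1 s2) ^ 2 < (t ^ 2) ^ 2 := by
    rw [sq_lt_sq, abs_of_nonneg (by positivity : (0:ℝ) ≤ t ^ 2)]; exact hb
  have key : (w1 t e s1 s2) ^ 2 + (w2 t e s1 s2) ^ 2 =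
      ((mm s1 s2 - t) ^ 2 + (3 * t - mm s1 s2) ^ 2) * (s1 ^ 2 + s2 ^ 2) := by
    unfold w1 w2
    have : ∀ A B : ℝ, (A * s1 - e * B * s2) ^ 2 + (A * s2 + e * B * s1) ^ 2 =
        (A ^ 2 + e ^ 2 * B ^ 2) * (s1 ^ 2 + s2 ^ 2) := by intro A B; ring
    rw [this, he, one_mul]
  have h1 : t ^ 2 ≤ s1 ^ 2 + s2 ^ 2 := by
    refine le_trans ?_ (mm_sq_le s1 s2)
    exact pow_le_pow_left₀ ht.le hm 2
  have h2 : 2 * t ^ 2 ≤ (mm s1 s2 - t) ^ 2 + (3 * t - mm s1 s2) ^ 2 := by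
    nlinarith [sq_nonneg (mm s1 s2 - 2 * t)]
  have h3 : 2 * t ^ 2 * t ^ 2 ≤
      ((mm s1 s2 - t) ^ 2 + (3 * t - mm s1 s2) ^ 2) * (s1 ^ 2 + s2 ^ 2) :=
    mul_le_mul h2 h1 (by positivity) (le_trans (by positivity) h2)
  nlinarith

theorem mm_lip {a b a' b' D : ℝ} (h1 : |a - a'| ≤ D) (h2 : |b - b'| ≤ D) :
    |mm a b - mm a' b'| ≤ D := by
  unfold mm
  refine (abs_max_sub_max_le_max _ _ _ _).trans (max_le ?_ ?_)
  · exact (abs_abs_sub_abs_le_abs_sub a a').trans h1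
  · exact (abs_abs_sub_abs_le_abs_sub b b').trans h2

theorem quot_le {a b a' b' D c : ℝ} (hc : 0 < c) (hM : c ≤ mm a b) (hM' : c ≤ mm a' b')
    (h1 : |a - a'| ≤ D) (h2 : |b - b'| ≤ D) :
    |a / mm a b - a' / mm a' b'| ≤ 2 * D / c := by
  have hp : 0 < mm a b := hc.trans_le hM
  have hp' : 0 < mm a' b' := hc.trans_le hM'
  have hD : 0 ≤ D := (abs_nonneg _).trans h1
  have e : a / mm a b - a' / mm a' b' =
      (a - a') / mm a b + (a' / mm a' b') * ((mm a' b' - mm a b) / mm a b) := by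
    field_simp
    ring
  have h3 : |a' / mm a' b'| ≤ 1 := by
    rw [abs_div, abs_of_pos hp', div_le_one hp']
    exact le_max_left _ _
  have h4 : |(a - a') / mm a b| ≤ D / c := by
    rw [abs_div, abs_of_pos hp]
    exact div_le_div₀ hD h1 hc hM
  have h5 : |(mm a' b' - mm a b) / mm a b| ≤ D / c := by
    rw [abs_div, abs_of_pos hp]
    refine div_le_div₀ hD ?_ hc hM
    rw [abs_sub_comm]
    exact mm_lip h1 h2
  rw [e]
  refine (abs_add_le _ _).trans ?_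
  rw [abs_mul]
  have h6 : |a' / mm a' b'| * |(mm a' b' - mm a b) / mm a b| ≤ 1 * (D / c) :=
    mul_le_mul h3 h5 (abs_nonneg _) zero_le_one
  have : 2 * D / c = D / c + 1 * (D / c) := by ring
  rw [this]
  exact add_le_add h4 h6

theorem mm_comm (a b : ℝ) : mm a b = mm b a := max_comm _ _

theorem prod_diff {A A' B B' D a b : ℝ} (hA : |A - A'| ≤ D) (hB : |B - B'| ≤ D)
    (ha : |A'| ≤ a) (hb : |B| ≤ b) : |A * B - A' * B'| ≤ (a + b) * D := by
  have hD : 0 ≤ D := (abs_nonneg _).trans hA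
  have e : A * B - A' * B' = (A - A') * B + A' * (B - B') := by ring
  rw [e]
  refine (abs_add_le _ _).trans ?_
  rw [abs_mul, abs_mul]
  have h1 : |A - A'| * |B| ≤ D * b := mul_le_mul hA hb (abs_nonneg _) hD
  have h2 : |A'| * |B - B'| ≤ a * D := mul_le_mul ha hB (abs_nonneg _) ((abs_nonneg _).trans ha)
  linarith

theorem mm_le {a b c : ℝ} (h1 : |a| ≤ c) (h2 : |b| ≤ c) : mm a b ≤ c := max_le h1 h2

theorem core {t e s1 s2 s1' s2' D : ℝ} (ht : 0 < t) (he : e ^ 2 = 1)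
    (h1 : |s1| ≤ 3 * t) (h2 : |s2| ≤ 3 * t) (h1' : |s1'| ≤ 3 * t) (h2' : |s2'| ≤ 3 * t)
    (hm : t ≤ mm s1 s2) (hm' : t ≤ mm s1' s2') (hd1 : |s1 - s1'| ≤ D) (hd2 : |s2 - s2'| ≤ D) :
    |w1 t e s1 s2 / mm (w1 t e s1 s2) (w2 t e s1 s2) -
      w1 t e s1' s2' / mm (w1 t e s1' s2') (w2 t e s1' s2')| ≤ 20 * D / t ∧
    |w2 t e s1 s2 / mm (w1 t e s1 s2) (w2 t e s1 s2) -
      w2 t e s1' s2' / mm (w1 t e s1' s2') (w2 t e s1' s2')| ≤ 20 * D / t := by
  have hD : 0 ≤ D := (abs_nonneg _).trans hd1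
  have hmm := mm_lip hd1 hd2
  have hle' := mm_le h1' h2'
  have ha : |(mm s1 s2 - t) - (mm s1' s2' - t)| ≤ D := by
    have : (mm s1 s2 - t) - (mm s1' s2' - t) = mm s1 s2 - mm s1' s2' := by ring
    rw [this]; exact hmm
  have hb : |(3 * t - mm s1 s2) - (3 * t - mm s1' s2')| ≤ D := by
    have : (3 * t - mm s1 s2) - (3 * t - mm s1' s2') = -(mm s1 s2 - mm s1' s2') := by ring
    rw [this, abs_neg]; exact hmm
  have ha2 : |mm s1' s2' - t| ≤ 2 * t := by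
    rw [abs_le]; constructor <;> linarith
  have hb2 : |3 * t - mm s1' s2'| ≤ 2 * t := by
    rw [abs_le]; constructor <;> linarith
  have p1 := prod_diff ha hd1 ha2 h1
  have p2 := prod_diff ha hd2 ha2 h2
  have q1 := prod_diff hb hd1 hb2 h1
  have q2 := prod_diff hb hd2 hb2 h2
  have hea : |e| = 1 := by
    rw [← sq_eq_sq₀ (abs_nonneg _) zero_le_one, sq_abs, he, one_pow]
  have k1 : |w1 t e s1 s2 - w1 t e s1' s2'| ≤ 10 * t * D := by
    have e1 : w1 t e s1 s2 - w1 t e s1' s2' =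
        ((mm s1 s2 - t) * s1 - (mm s1' s2' - t) * s1') -
          e * ((3 * t - mm s1 s2) * s2 - (3 * t - mm s1' s2') * s2') := by
      unfold w1; ring
    rw [e1]
    refine (abs_sub _ _).trans ?_
    rw [abs_mul, hea, one_mul]
    linarith
  have k2 : |w2 t e s1 s2 - w2 t e s1' s2'| ≤ 10 * t * D := by
    have e1 : w2 t e s1 s2 - w2 t e s1' s2' =
        ((mm s1 s2 - t) * s2 - (mm s1' s2' - t) * s2') +
          e * ((3 * t - mm s1 s2) * s1 - (3 * t - mm s1' s2') * s1') := by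
      unfold w2; ring
    rw [e1]
    refine (abs_add_le _ _).trans ?_
    rw [abs_mul, hea, one_mul]
    linarith
  have hb1 := big ht he hm
  have hb1' := big ht he hm'
  have e2 : 20 * D / t = 2 * (10 * t * D) / t ^ 2 := by
    field_simp
    ring
  constructor
  · rw [e2]
    exact quot_le (by positivity) hb1 hb1' k1 k2
  · rw [e2, mm_comm (w1 t e s1 s2), mm_comm (w1 t e s1' s2')]
    refine quot_le (by positivity) ?_ ?_ k2 k1
    · rw [mm_comm]; exact hb1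
    · rw [mm_comm]; exact hb1'

theorem eta_sq (i : ℕ) (F : Finset ℕ) : (eta i F) ^ 2 = 1 := by
  unfold eta
  split_ifs <;> norm_num

theorem sc_sub {i a a' : ℕ} (h : a / n i = a' / n i) :
    |sc i a - sc i a'| = 2 * (Nat.dist a a' : ℝ) := by
  have h1 := Nat.div_add_mod a (n i)
  have h2 := Nat.div_add_mod a' (n i)
  rw [h] at h1
  have h3 : ((a % n i : ℕ) : ℝ) - ((a' % n i : ℕ) : ℝ) = (a : ℝ) - (a' : ℝ) := by
    have e1 : (a : ℝ) = ((n i * (a' / n i) : ℕ) : ℝ) + ((a % n i : ℕ) : ℝ) := by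
      exact_mod_cast h1.symm
    have e2 : (a' : ℝ) = ((n i * (a' / n i) : ℕ) : ℝ) + ((a' % n i : ℕ) : ℝ) := by
      exact_mod_cast h2.symm
    linarith
  have h4 : sc i a - sc i a' = 2 * ((a : ℝ) - (a' : ℝ)) := by
    unfold sc
    rw [← h3]; ring
  rw [h4, abs_mul, abs_of_pos (by norm_num : (0 : ℝ) < 2)]
  congr 1
  rcases le_total a a' with hle | hle
  · rw [Nat.dist_eq_sub_of_le hle, Nat.cast_sub hle, abs_sub_comm, abs_of_nonneg]
    exact sub_nonneg.2 (by exact_mod_cast hle)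
  · rw [Nat.dist_eq_sub_of_le_right hle, Nat.cast_sub hle, abs_of_nonneg]
    exact sub_nonneg.2 (by exact_mod_cast hle)

theorem ok : Pool.Agent.H626R3.CT.TMoveIn := by
  intro ε hε
  refine ⟨ε / 120, by positivity, ?_⟩
  intro i y y' ha hb he hd
  have ht : (0 : ℝ) < t i := by exact_mod_cast t_pos i
  have hn := n_eq i
  have hd1 : |sc i y.x.a - sc i y'.x.a| ≤ 2 * (d1 y.x y'.x : ℝ) := by
    rw [sc_sub ha]
    have : (Nat.dist y.x.a y'.x.a : ℝ) ≤ (d1 y.x y'.x : ℝ) := by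
      exact_mod_cast Nat.le_add_right _ _
    linarith
  have hd2 : |sc i y.x.b - sc i y'.x.b| ≤ 2 * (d1 y.x y'.x : ℝ) := by
    rw [sc_sub hb]
    have : (Nat.dist y.x.b y'.x.b : ℝ) ≤ (d1 y.x y'.x : ℝ) := by
      exact_mod_cast Nat.le_add_left _ _
    linarith
  obtain ⟨c1, c2⟩ := core ht (eta_sq i y.F) (sc_le i y.x.a) (sc_le i y.x.b) (sc_le i y'.x.a)
    (sc_le i y'.x.b) (mm_ge i y.x) (mm_ge i y'.x) hd1 hd2
  have hce1 : ce i y.x.a = ce i y'.x.a := by unfold ce; rw [ha]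
  have hce2 : ce i y.x.b = ce i y'.x.b := by unfold ce; rw [hb]
  have hbound : (n i : ℝ) * (20 * (2 * (d1 y.x y'.x : ℝ)) / t i) ≤ ε * n i := by
    have e1 : (n i : ℝ) * (20 * (2 * (d1 y.x y'.x : ℝ)) / t i) = 120 * (d1 y.x y'.x : ℝ) := by
      rw [hn]; field_simp; ring
    rw [e1]
    have e2 : ε * (n i : ℝ) = 120 * (ε / 120 * n i) := by ring
    rw [e2]
    linarith
  have hn0 : (0 : ℝ) ≤ n i := Nat.cast_nonneg _
  have gen : ∀ c A A' M M' : ℝ, |A / M - A' / M'| ≤ 20 * (2 * (d1 y.x y'.x : ℝ)) / t i →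
      |(c + n i * A / M) - (c + n i * A' / M')| ≤ ε * n i := by
    intro c A A' M M' h
    have e1 : (c + n i * A / M) - (c + n i * A' / M') = n i * (A / M - A' / M') := by ring
    rw [e1, abs_mul, abs_of_nonneg hn0]
    exact (mul_le_mul_of_nonneg_left h hn0).trans hbound
  constructor
  · unfold P1
    rw [hce1, ← he]
    exact gen _ _ _ _ _ c1
  · unfold P2
    rw [hce2, ← he]
    exact gen _ _ _ _ _ c2

end Pool.Agent.H626R3.CT.T_TMoveIn
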