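import Pool.Agent.H626R3.CT.Stmts

/-! Project H626-CT (helper626), task TMoveRefl, by helper913. -/

set_option autoImplicit false

namespace Pool.Agent.H626R3.CT.T_TMoveRefl

open Pool.Agent.H626R3.CT
open scoped symmDiff

lemma n_pos (i : ℕ) : 0 < n i := by
  unfold n t; positivity

lemma n_dvd {i j : ℕ} (h : i ≤ j) : n i ∣ n j := by
  unfold n t
  apply mul_dvd_mul_left
  apply pow_dvd_pow
  have : (i + 1) ^ 2 ≤ (j + 1) ^ 2 := Nat.pow_le_pow_left (by omega) 2
  omega

/-- reflection at a higher level, residues and quotients at the lower level -/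
lemma refl_mod {i j : ℕ} (h : i ≤ j) (a : ℕ) :
    refl j a % n i = n i - 1 - a % n i ∧
      (refl j a / n i : ℕ) + a / n i + 1 = n j / n i * (2 * (a / n j) + 1) := by
  obtain ⟨m, hm⟩ := n_dvd h
  have hi := n_pos i
  have hj := n_pos j
  have h1 : n j / n i = m := by rw [hm]; exact Nat.mul_div_cancel_left m hi
  rw [h1]
  have hr : a % n j < n j := Nat.mod_lt _ hj
  have hs : a % n i < n i := Nat.mod_lt _ hi
  have ha : n j * (a / n j) + a % n j = a := Nat.div_add_mod a (n j)
  have ha' : n i * (a / n i) + a % n i = a := Nat.div_add_mod a (n i)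
  have hre : refl j a + a + 1 = n j * (2 * (a / n j) + 1) := by
    unfold refl
    have : n j * (2 * (a / n j) + 1) = 2 * (n j * (a / n j)) + n j := by ring
    omega
  set q := a / n i with hq
  set s := a % n i with hs'
  set A := a / n j with hA
  have hkey : refl j a + (n i * (q + 1)) = n i * (m * (2 * A + 1)) + (n i - 1 - s) := by
    have e1 : n i * (m * (2 * A + 1)) = n j * (2 * A + 1) := by rw [hm]; ring
    have e2 : n i * (q + 1) = n i * q + n i := by ring
    rw [e1, e2]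
    omega
  have hlt : n i - 1 - s < n i := by omega
  have hmod : (refl j a + n i * (q + 1)) % n i = n i - 1 - s := by
    rw [hkey, Nat.mul_add_mod, Nat.mod_eq_of_lt hlt]
  have hdiv : (refl j a + n i * (q + 1)) / n i = m * (2 * A + 1) := by
    rw [hkey, Nat.mul_add_div hi, Nat.div_eq_of_lt hlt, add_zero]
  rw [Nat.add_mul_mod_self_left] at hmod
  rw [Nat.add_mul_div_left _ _ hi] at hdiv
  exact ⟨hmod, by omega⟩

lemma sc_refl {i j : ℕ} (h : i ≤ j) (a : ℕ) : sc i (refl j a) = - sc i a := by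
  have hi := n_pos i
  have hs : a % n i < n i := Nat.mod_lt _ hi
  have h1 := (refl_mod h a).1
  have h2 : refl j a % n i + a % n i + 1 = n i := by omega
  have h3 : ((refl j a % n i : ℕ) : ℝ) + ((a % n i : ℕ) : ℝ) + 1 = (n i : ℝ) := by
    exact_mod_cast h2
  unfold sc
  linarith

lemma ce_refl {i j : ℕ} (h : i ≤ j) (a : ℕ) :
    ce i (refl j a) = 2 * (2 * ((n j * (a / n j) : ℕ) : ℝ) + ((n j : ℝ) - 1)) - ce i a := by
  have h1 := (refl_mod h a).2
  obtain ⟨m, hm⟩ := n_dvd h
  have hi := n_pos i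
  have h2 : n j / n i = m := by rw [hm]; exact Nat.mul_div_cancel_left m hi
  rw [h2] at h1
  have h3 : n i * (refl j a / n i) + n i * (a / n i) + n i =
      2 * (n j * (a / n j)) + n j := by
    have : n i * ((refl j a / n i : ℕ) + a / n i + 1) = n i * (m * (2 * (a / n j) + 1)) := by
      rw [h1]
    have e1 : n i * (m * (2 * (a / n j) + 1)) = 2 * (n j * (a / n j)) + n j := by
      rw [← mul_assoc, ← hm]; ring
    rw [e1] at this
    rw [← this]; ring
  have h4 : ((n i * (refl j a / n i) : ℕ) : ℝ) + ((n i * (a / n i) : ℕ) : ℝ) + (n i : ℝ) =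
      2 * ((n j * (a / n j) : ℕ) : ℝ) + (n j : ℝ) := by
    exact_mod_cast h3
  unfold ce
  linarith

lemma eta_symm {i j : ℕ} (h : i < j) (F : Finset ℕ) :
    eta i (F ∆ Finset.range (j + 1)) = eta i F := by
  unfold eta
  have h1 : (i ∈ F ∆ Finset.range (j + 1)) ↔ i ∉ F := by
    rw [Finset.mem_symmDiff, Finset.mem_range]
    constructor
    · rintro (⟨_, h⟩ | ⟨_, h⟩)
      · omega
      · exact h
    · intro hF
      exact Or.inr ⟨by omega, hF⟩
  have h2 : (i + 1 ∈ F ∆ Finset.range (j + 1)) ↔ i + 1 ∉ F := by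
    rw [Finset.mem_symmDiff, Finset.mem_range]
    constructor
    · rintro (⟨_, h⟩ | ⟨_, h⟩)
      · omega
      · exact h
    · intro hF
      exact Or.inr ⟨by omega, hF⟩
  have h3 : (i ∈ F ∆ Finset.range (j + 1) ↔ i + 1 ∈ F ∆ Finset.range (j + 1)) ↔
      (i ∈ F ↔ i + 1 ∈ F) := by
    rw [h1, h2]; tauto
  by_cases h4 : (i ∈ F ↔ i + 1 ∈ F)
  · rw [if_pos h4, if_pos (h3.2 h4)]
  · rw [if_neg h4, if_neg (fun h => h4 (h3.1 h))]

lemma mm_neg (a b : ℝ) : mm (-a) (-b) = mm a b := by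
  unfold mm; rw [abs_neg, abs_neg]

lemma v1_neg (i : ℕ) (e a b : ℝ) : v1 i e (-a) (-b) = - v1 i e a b := by
  unfold v1; rw [mm_neg]; ring

lemma v2_neg (i : ℕ) (e a b : ℝ) : v2 i e (-a) (-b) = - v2 i e a b := by
  unfold v2; rw [mm_neg]; ring

theorem ok : Pool.Agent.H626R3.CT.TMoveRefl := by
  intro i j y y' hij hA hF
  obtain ⟨_, _, ha, hb⟩ := hA
  have hE : eta i y'.F = eta i y.F := by rw [hF]; exact eta_symm hij y.F
  constructor
  · unfold P1
    rw [ha, hb, hE, sc_refl hij.le, sc_refl hij.le, ce_refl hij.le, v1_neg, v2_neg, mm_neg]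
    ring
  · unfold P2
    rw [ha, hb, hE, sc_refl hij.le, sc_refl hij.le, ce_refl hij.le, v1_neg, v2_neg, mm_neg]
    ring

end Pool.Agent.H626R3.CT.T_TMoveRefl
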