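import Mathlib
import Pool.Agent.H626R3.CT.Stmts

/-! Task `TNest` of MP_270856_an. -/

set_option autoImplicit false

namespace Pool.Agent.H626R3.CT.T_TNest

open Pool.Agent.H626R3.CT

theorem t_pos (j : ℕ) : 0 < t j := by
  unfold t
  positivity

theorem dvd_aux (j l : ℕ) (hjl : j < l) : ∃ c, t l = n j * c := by
  have h1 : n j = 3 ^ (2 * (j + 1) ^ 2) := by
    have h0 : 1 ≤ 2 * (j + 1) ^ 2 := by nlinarith
    have h3 : 3 ^ (2 * (j + 1) ^ 2) = 3 * 3 ^ (2 * (j + 1) ^ 2 - 1) := by
      rw [← pow_succ', Nat.sub_add_cancel h0]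
    rw [h3]
    rfl
  have h2 : n j ∣ t l := by
    rw [h1]
    unfold t
    apply pow_dvd_pow
    have : 2 * (j + 1) ^ 2 + 1 ≤ 2 * (l + 1) ^ 2 := by nlinarith
    omega
  obtain ⟨c, hc⟩ := h2
  exact ⟨c, hc⟩

theorem coord (j l a c : ℕ) (hc : t l = n j * c) (h1 : t j - 1 ≤ a % n j)
    (h2 : a % n j ≤ 2 * t j - 1) :
    (t l - 1 ≤ a % n l ∧ a % n l ≤ 2 * t l - 1) ↔
      (c ≤ a / n j % (3 * c) ∧ a / n j % (3 * c) < 2 * c) := by
  have hnl : n l = n j * (3 * c) := by
    have : n l = 3 * t l := rfl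
    rw [this, hc]; ring
  have hm : a % n l = a % n j + n j * (a / n j % (3 * c)) := by
    rw [hnl]
    exact Nat.mod_mul
  have hT := t_pos j
  have hnj : n j = 3 * t j := rfl
  rw [hm, hc]
  generalize a / n j % (3 * c) = A
  generalize a % n j = r at h1 h2
  have e1 : ∀ x : ℕ, n j * x = 3 * (t j * x) := by
    intro x; rw [hnj]; ring
  rw [e1, e1]
  constructor
  · rintro ⟨h3, h4⟩
    constructor
    · by_contra h
      push Not at h
      have h5 : t j * (A + 1) ≤ t j * c := Nat.mul_le_mul_left _ h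
      rw [mul_add, mul_one] at h5
      omega
    · by_contra h
      push Not at h
      have h5 : t j * (2 * c) ≤ t j * A := Nat.mul_le_mul_left _ h
      have h6 : t j * (2 * c) = 2 * (t j * c) := by ring
      by_cases hcz : t j * c = 0
      · have hcz' : c = 0 := by
          rcases Nat.mul_eq_zero.1 hcz with h | h
          · omega
          · exact h
        -- impossible: `t l = n j * c = 0`
        have := t_pos l
        rw [hc, hcz'] at this
        omega
      · omega
  · rintro ⟨h3, h4⟩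
    have h5 : t j * c ≤ t j * A := Nat.mul_le_mul_left _ h3
    have h6 : t j * (A + 1) ≤ t j * (2 * c) := Nat.mul_le_mul_left _ h4
    have h7 : t j * (2 * c) = 2 * (t j * c) := by ring
    rw [mul_add, mul_one] at h6
    constructor <;> omega

theorem ok : Pool.Agent.H626R3.CT.TNest := by
  intro j l A B hjl a b a' b' h h' ha ha' hb hb'
  obtain ⟨c, hc⟩ := dvd_aux j l hjl
  obtain ⟨⟨h1, h2⟩, ⟨h3, h4⟩⟩ := h
  obtain ⟨⟨h1', h2'⟩, ⟨h3', h4'⟩⟩ := h'
  unfold inreg
  rw [coord j l a c hc h1 h2, coord j l b c hc h3 h4, coord j l a' c hc h1' h2',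
    coord j l b' c hc h3' h4', ha, ha', hb, hb']

end Pool.Agent.H626R3.CT.T_TNest
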