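import Pool.Agent.H626R3.CT.Stmts

/-!
# TOnGrid (helper86): the projection is on the boundary of the block
-/

set_option autoImplicit false

namespace Pool.Agent.H626R3.CT.T_TOnGrid

open Pool.Agent.H626R3.CT

theorem t_pos (i : ℕ) : 0 < t i := by
  unfold t
  positivity

theorem mid_of_sc {i a : ℕ} (h : sc i a = 0) : mid i a := by
  have ht := t_pos i
  have h1 : (2 : ℝ) * ((a % n i : ℕ) : ℝ) + 1 = (n i : ℝ) := by
    unfold sc at h
    linarith
  have h2 : 2 * (a % n i) + 1 = n i := by exact_mod_cast h1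
  have h3 : n i = 3 * t i := rfl
  rw [h3] at h2
  unfold mid
  rw [h3]
  constructor <;> omega

theorem mm_ne {i : ℕ} {e s1 s2 : ℝ} (he : e ^ 2 = 1) (hs : ¬ (s1 = 0 ∧ s2 = 0)) :
    0 < mm (v1 i e s1 s2) (v2 i e s1 s2) := by
  have ht : (0 : ℝ) < t i := by exact_mod_cast t_pos i
  have h0 : 0 ≤ mm (v1 i e s1 s2) (v2 i e s1 s2) := le_max_of_le_left (abs_nonneg _)
  rcases h0.lt_or_eq with h1 | h1
  · exact h1
  exfalso
  have h2 : |v1 i e s1 s2| ≤ 0 := by rw [h1]; exact le_max_left _ _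
  have h3 : |v2 i e s1 s2| ≤ 0 := by rw [h1]; exact le_max_right _ _
  have h4 : v1 i e s1 s2 = 0 := abs_nonpos_iff.mp h2
  have h5 : v2 i e s1 s2 = 0 := abs_nonpos_iff.mp h3
  set m := mm s1 s2 with hm
  have h6 : (v1 i e s1 s2) ^ 2 + (v2 i e s1 s2) ^ 2
      = ((m - t i) ^ 2 + (3 * t i - m) ^ 2) * (s1 ^ 2 + s2 ^ 2) := by
    unfold v1 v2
    rw [← hm]
    linear_combination ((3 * (t i : ℝ) - m) ^ 2 * (s1 ^ 2 + s2 ^ 2)) * he
  rw [h4, h5] at h6
  have h7 : 0 < (m - t i) ^ 2 + (3 * t i - m) ^ 2 := by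
    nlinarith [sq_nonneg (m - 2 * t i), sq_nonneg (m - t i)]
  have h8 : s1 ^ 2 + s2 ^ 2 = 0 := by
    have h9 : ((m - t i) ^ 2 + (3 * t i - m) ^ 2) * (s1 ^ 2 + s2 ^ 2) = 0 := by
      rw [← h6]; ring
    rcases mul_eq_zero.mp h9 with h10 | h10
    · exact absurd h10 h7.ne'
    · exact h10
  apply hs
  constructor
  · nlinarith [sq_nonneg s1, sq_nonneg s2]
  · nlinarith [sq_nonneg s1, sq_nonneg s2]

theorem ok : Pool.Agent.H626R3.CT.TOnGrid := by
  intro i y
  have hn : (0 : ℝ) < n i := by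
    have := t_pos i
    have h : 0 < n i := by unfold n; omega
    exact_mod_cast h
  have he : (eta i y.F) ^ 2 = 1 := by
    unfold eta
    split_ifs <;> norm_num
  have hs : ¬ (sc i y.x.a = 0 ∧ sc i y.x.b = 0) := fun h =>
    y.x.out i ⟨mid_of_sc h.1, mid_of_sc h.2⟩
  have hm := mm_ne (i := i) he hs
  set a := v1 i (eta i y.F) (sc i y.x.a) (sc i y.x.b) with ha
  set b := v2 i (eta i y.F) (sc i y.x.a) (sc i y.x.b) with hb
  have h1 : P1 i y - ce i y.x.a = n i * a / mm a b := by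
    unfold P1
    ring
  have h2 : P2 i y - ce i y.x.b = n i * b / mm a b := by
    unfold P2
    ring
  rw [h1, h2, abs_div, abs_div, abs_mul, abs_mul, abs_of_pos hn, abs_of_pos hm]
  refine ⟨?_, ?_, ?_⟩
  · rcases le_total |a| |b| with h3 | h3
    · right
      have h4 : mm a b = |b| := max_eq_right h3
      rw [h4] at hm ⊢
      field_simp
    · left
      have h4 : mm a b = |a| := max_eq_left h3
      rw [h4] at hm ⊢
      field_simp
  · rw [div_le_iff₀ hm]
    exact mul_le_mul_of_nonneg_left (le_max_left _ _) hn.le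
  · rw [div_le_iff₀ hm]
    exact mul_le_mul_of_nonneg_left (le_max_right _ _) hn.le

end Pool.Agent.H626R3.CT.T_TOnGrid
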