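import Pool.Agent.H626R3.CT.Stmts

set_option autoImplicit false

open scoped Classical symmDiff

namespace Pool.Agent.H626R3.CT.T_TOnGrid285

open Pool.Agent.H626R3.CT

lemma t_pos (j : ℕ) : 0 < t j := by unfold t; positivity

lemma mid_of_sc {i a : ℕ} (h : sc i a = 0) : mid i a := by
  have ht := t_pos i
  have hn : n i = 3 * t i := rfl
  unfold sc at h
  rw [hn] at h
  push_cast at h
  have h1 : ((2 * (a % (3 * t i)) + 1 : ℕ) : ℝ) = ((3 * t i : ℕ) : ℝ) := by
    push_cast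
    linarith
  have h2 : 2 * (a % (3 * t i)) + 1 = 3 * t i := by exact_mod_cast h1
  unfold mid
  rw [hn]
  omega

lemma grid (N v w m : ℝ) (hN : 0 ≤ N) (hm : m = mm v w) (hpos : 0 < m) :
    (|N * v / m| = N ∨ |N * w / m| = N) ∧ |N * v / m| ≤ N ∧ |N * w / m| ≤ N := by
  have e : ∀ x : ℝ, |N * x / m| = N * (|x| / m) := by
    intro x
    rw [abs_div, abs_mul, abs_of_nonneg hN, abs_of_pos hpos, mul_div_assoc]
  have le1 : |v| ≤ m := by rw [hm]; exact le_max_left _ _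
  have le2 : |w| ≤ m := by rw [hm]; exact le_max_right _ _
  have b : ∀ x : ℝ, |x| ≤ m → N * (|x| / m) ≤ N := by
    intro x hx
    have : |x| / m ≤ 1 := (div_le_one hpos).2 hx
    calc N * (|x| / m) ≤ N * 1 := mul_le_mul_of_nonneg_left this hN
      _ = N := mul_one N
  refine ⟨?_, ?_, ?_⟩
  · rcases max_choice |v| |w| with h | h
    · left
      have : m = |v| := by rw [hm]; exact h
      rw [e, ← this, div_self hpos.ne', mul_one]
    · right
      have : m = |w| := by rw [hm]; exact h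
      rw [e, ← this, div_self hpos.ne', mul_one]
  · rw [e]; exact b v le1
  · rw [e]; exact b w le2

lemma vpos (i : ℕ) (e s1 s2 : ℝ) (he : e ^ 2 = 1) (hs : s1 ≠ 0 ∨ s2 ≠ 0) :
    0 < mm (v1 i e s1 s2) (v2 i e s1 s2) := by
  have ht : (0 : ℝ) < t i := by exact_mod_cast t_pos i
  by_contra hc
  have h0 : mm (v1 i e s1 s2) (v2 i e s1 s2) ≤ 0 := not_lt.1 hc
  have h1 : |v1 i e s1 s2| ≤ 0 := (le_max_left _ _).trans h0
  have h2 : |v2 i e s1 s2| ≤ 0 := (le_max_right _ _).trans h0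
  have z1 : v1 i e s1 s2 = 0 := abs_eq_zero.1 (le_antisymm h1 (abs_nonneg _))
  have z2 : v2 i e s1 s2 = 0 := abs_eq_zero.1 (le_antisymm h2 (abs_nonneg _))
  unfold v1 at z1
  unfold v2 at z2
  generalize mm s1 s2 = m at z1 z2
  have key : ((m - t i) ^ 2 + (3 * t i - m) ^ 2) * (s1 ^ 2 + s2 ^ 2) = 0 := by
    have : ((m - t i) * s1 - e * (3 * t i - m) * s2) ^ 2 +
        ((m - t i) * s2 + e * (3 * t i - m) * s1) ^ 2 =
        ((m - t i) ^ 2 + e ^ 2 * (3 * t i - m) ^ 2) * (s1 ^ 2 + s2 ^ 2) := by ring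
    rw [he, one_mul, z1, z2] at this
    rw [← this]
    ring
  have p1 : 0 < (m - t i) ^ 2 + (3 * t i - m) ^ 2 := by
    rcases eq_or_ne m (t i) with h | h
    · have : 3 * (t i : ℝ) - m ≠ 0 := by rw [h]; intro h'; linarith
      have h3 := pow_pos (abs_pos.2 this) 2
      rw [sq_abs] at h3
      nlinarith [sq_nonneg (m - t i)]
    · have : m - (t i : ℝ) ≠ 0 := sub_ne_zero.2 h
      have h3 := pow_pos (abs_pos.2 this) 2
      rw [sq_abs] at h3
      nlinarith [sq_nonneg (3 * (t i : ℝ) - m)]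
  have p2 : 0 < s1 ^ 2 + s2 ^ 2 := by
    rcases hs with h | h
    · have h3 := pow_pos (abs_pos.2 h) 2
      rw [sq_abs] at h3
      nlinarith [sq_nonneg s2]
    · have h3 := pow_pos (abs_pos.2 h) 2
      rw [sq_abs] at h3
      nlinarith [sq_nonneg s1]
  exact absurd key (mul_pos p1 p2).ne'

theorem ok : Pool.Agent.H626R3.CT.TOnGrid := by
  intro i y
  have hs : sc i y.x.a ≠ 0 ∨ sc i y.x.b ≠ 0 := by
    by_contra h
    push Not at h
    exact y.x.out i ⟨mid_of_sc h.1, mid_of_sc h.2⟩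
  have he : (eta i y.F) ^ 2 = 1 := by
    unfold eta; split_ifs <;> norm_num
  have hv := vpos i (eta i y.F) (sc i y.x.a) (sc i y.x.b) he hs
  have g := grid (n i : ℝ) (v1 i (eta i y.F) (sc i y.x.a) (sc i y.x.b))
    (v2 i (eta i y.F) (sc i y.x.a) (sc i y.x.b)) _ (Nat.cast_nonneg _) rfl hv
  have e1 : P1 i y - ce i y.x.a = n i * v1 i (eta i y.F) (sc i y.x.a) (sc i y.x.b) /
    mm (v1 i (eta i y.F) (sc i y.x.a) (sc i y.x.b))
      (v2 i (eta i y.F) (sc i y.x.a) (sc i y.x.b)) := by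
    unfold P1; ring
  have e2 : P2 i y - ce i y.x.b = n i * v2 i (eta i y.F) (sc i y.x.a) (sc i y.x.b) /
    mm (v1 i (eta i y.F) (sc i y.x.a) (sc i y.x.b))
      (v2 i (eta i y.F) (sc i y.x.a) (sc i y.x.b)) := by
    unfold P2; ring
  rw [e1, e2]
  exact g

end Pool.Agent.H626R3.CT.T_TOnGrid285
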