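import Mathlib
import Pool.Agent.H626R3.CT.Stmts

/-! Task `TOnGrid` of MP_270856_an. -/

set_option autoImplicit false

namespace Pool.Agent.H626R3.CT.T_TOnGrid901

open Pool.Agent.H626R3.CT

theorem t_pos (j : ℕ) : 0 < t j := by
  unfold t
  positivity

theorem sc_ne (i a : ℕ) (h : ¬ mid i a) : sc i a ≠ 0 := by
  have ht := t_pos i
  have hn : n i = 3 * t i := rfl
  have hlt : a % n i < n i := Nat.mod_lt _ (by omega)
  have hc : a % n i < t i ∨ 2 * t i ≤ a % n i := by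
    unfold mid at h
    omega
  have hnr : (n i : ℝ) = 3 * (t i : ℝ) := by rw [hn]; push_cast; ring
  have htr : (1 : ℝ) ≤ (t i : ℝ) := by exact_mod_cast ht
  unfold sc
  rw [hnr]
  rcases hc with h1 | h1
  · have h2 : ((a % n i : ℕ) : ℝ) + 1 ≤ (t i : ℝ) := by exact_mod_cast h1
    intro h3
    linarith
  · have h2 : 2 * (t i : ℝ) ≤ ((a % n i : ℕ) : ℝ) := by exact_mod_cast h1
    intro h3
    linarith

theorem eta_sq (i : ℕ) (F : Finset ℕ) : eta i F ^ 2 = 1 := by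
  unfold eta
  split_ifs <;> norm_num

theorem mm_pos (i : ℕ) (e s1 s2 : ℝ) (he : e ^ 2 = 1) (hs : s1 ≠ 0 ∨ s2 ≠ 0) :
    0 < mm (v1 i e s1 s2) (v2 i e s1 s2) := by
  have ht : (0 : ℝ) < (t i : ℝ) := by exact_mod_cast t_pos i
  have key : (v1 i e s1 s2) ^ 2 + (v2 i e s1 s2) ^ 2 =
      ((mm s1 s2 - t i) ^ 2 + (3 * t i - mm s1 s2) ^ 2) * (s1 ^ 2 + s2 ^ 2) := by
    unfold v1 v2
    generalize mm s1 s2 = m
    have : ((m - (t i : ℝ)) * s1 - e * (3 * t i - m) * s2) ^ 2 +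
        ((m - t i) * s2 + e * (3 * t i - m) * s1) ^ 2 =
        (m - t i) ^ 2 * (s1 ^ 2 + s2 ^ 2) + e ^ 2 * ((3 * t i - m) ^ 2 * (s1 ^ 2 + s2 ^ 2)) := by
      ring
    rw [this, he]
    ring
  have hs2 : 0 < s1 ^ 2 + s2 ^ 2 := by
    rcases hs with h | h
    · have := sq_pos_of_ne_zero h
      nlinarith [sq_nonneg s2]
    · have := sq_pos_of_ne_zero h
      nlinarith [sq_nonneg s1]
  have hm : 0 < (mm s1 s2 - t i) ^ 2 + (3 * t i - mm s1 s2) ^ 2 := by
    generalize mm s1 s2 = m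
    nlinarith [sq_nonneg (m - 2 * (t i : ℝ)), mul_pos ht ht]
  have hv : 0 < (v1 i e s1 s2) ^ 2 + (v2 i e s1 s2) ^ 2 := by
    rw [key]
    exact mul_pos hm hs2
  unfold mm
  by_contra hcon
  have h1 : |v1 i e s1 s2| ≤ 0 := (le_max_left _ _).trans (not_lt.1 hcon)
  have h2 : |v2 i e s1 s2| ≤ 0 := (le_max_right _ _).trans (not_lt.1 hcon)
  have h3 : v1 i e s1 s2 = 0 := abs_eq_zero.1 (le_antisymm h1 (abs_nonneg _))
  have h4 : v2 i e s1 s2 = 0 := abs_eq_zero.1 (le_antisymm h2 (abs_nonneg _))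
  rw [h3, h4] at hv
  norm_num at hv

theorem core (N c a b : ℝ) (hN : 0 ≤ N) (hm : 0 < mm a b) :
    |c + N * a / mm a b - c| = N * |a| / mm a b ∧ |c + N * b / mm a b - c| = N * |b| / mm a b := by
  constructor
  · rw [add_sub_cancel_left, abs_div, abs_mul, abs_of_nonneg hN, abs_of_pos hm]
  · rw [add_sub_cancel_left, abs_div, abs_mul, abs_of_nonneg hN, abs_of_pos hm]

theorem ok : Pool.Agent.H626R3.CT.TOnGrid := by
  intro i y
  have hs : sc i y.x.a ≠ 0 ∨ sc i y.x.b ≠ 0 := by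
    by_contra hcon
    push Not at hcon
    have h1 : mid i y.x.a := by
      by_contra h
      exact sc_ne i _ h hcon.1
    have h2 : mid i y.x.b := by
      by_contra h
      exact sc_ne i _ h hcon.2
    exact y.x.out i ⟨h1, h2⟩
  have hm := mm_pos i (eta i y.F) (sc i y.x.a) (sc i y.x.b) (eta_sq i y.F) hs
  unfold P1 P2
  generalize v1 i (eta i y.F) (sc i y.x.a) (sc i y.x.b) = a at hm ⊢
  generalize v2 i (eta i y.F) (sc i y.x.a) (sc i y.x.b) = b at hm ⊢
  have hN : (0 : ℝ) ≤ (n i : ℝ) := Nat.cast_nonneg _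
  have e1 := (core (n i) (ce i y.x.a) a b hN hm).1
  have e2 := (core (n i) (ce i y.x.b) a b hN hm).2
  rw [e1, e2]
  have ha : |a| ≤ mm a b := le_max_left _ _
  have hb : |b| ≤ mm a b := le_max_right _ _
  refine ⟨?_, ?_, ?_⟩
  · rcases le_total |a| |b| with h | h
    · right
      have : mm a b = |b| := max_eq_right h
      rw [this] at hm ⊢
      field_simp
    · left
      have : mm a b = |a| := max_eq_left h
      rw [this] at hm ⊢
      field_simp
  · rw [div_le_iff₀ hm]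
    exact mul_le_mul_of_nonneg_left ha hN
  · rw [div_le_iff₀ hm]
    exact mul_le_mul_of_nonneg_left hb hN

end Pool.Agent.H626R3.CT.T_TOnGrid901
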