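import Mathlib
import Pool.Agent.H626R3.CT.Stmts

set_option autoImplicit false

open scoped Classical symmDiff

namespace Pool.Agent.H626R3.CT.T_TPathY

open Pool.Agent.H626R3.CT

/-- closeness with an absolute error -/
def C0 (i : ℕ) (e : ℝ) (y y' : YY) : Prop :=
  |P1 i y - P1 i y'| ≤ e ∧ |P2 i y - P2 i y'| ≤ e ∧ Same i y.F y'.F

lemma C0_refl (i : ℕ) (y : YY) : C0 i 0 y y :=
  ⟨by simp, by simp, fun _ _ => Iff.rfl⟩

lemma C0_trans {i : ℕ} {e e' : ℝ} {y z w : YY} (h : C0 i e y z) (h' : C0 i e' z w) :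
    C0 i (e + e') y w := by
  refine ⟨?_, ?_, fun l hl => (h.2.2 l hl).trans (h'.2.2 l hl)⟩
  · have h1 := abs_le.1 h.1
    have h2 := abs_le.1 h'.1
    exact abs_le.2 ⟨by linarith [h1.1, h2.1], by linarith [h1.2, h2.2]⟩
  · have h1 := abs_le.1 h.2.1
    have h2 := abs_le.1 h'.2.1
    exact abs_le.2 ⟨by linarith [h1.1, h2.1], by linarith [h1.2, h2.2]⟩

lemma C0_mono {i : ℕ} {e e' : ℝ} {y z : YY} (h : C0 i e y z) (hee : e ≤ e') : C0 i e' y z :=
  ⟨h.1.trans hee, h.2.1.trans hee, h.2.2⟩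

lemma C0_nonneg {i : ℕ} {e : ℝ} {y z : YY} (h : C0 i e y z) : 0 ≤ e :=
  (abs_nonneg _).trans h.1

lemma npos (i : ℕ) : 0 < n i := by
  unfold n t
  positivity

lemma dist_cast (a b : ℕ) : ((Nat.dist a b : ℕ) : ℝ) = |(a : ℝ) - b| := by
  rcases le_total a b with h | h
  · have h' : (a : ℝ) ≤ b := by exact_mod_cast h
    rw [Nat.dist_eq_sub_of_le h, Nat.cast_sub h, abs_of_nonpos (by linarith)]
    ring
  · have h' : (b : ℝ) ≤ a := by exact_mod_cast h
    rw [Nat.dist_eq_sub_of_le_right h, Nat.cast_sub h, abs_of_nonneg (by linarith)]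

lemma two_mul_eq (i a : ℕ) : 2 * (a : ℝ) = ce i a + sc i a := by
  unfold ce sc
  have h : (((n i * (a / n i) : ℕ) : ℝ)) + ((a % n i : ℕ) : ℝ) = (a : ℝ) := by
    exact_mod_cast Nat.div_add_mod a (n i)
  linarith

lemma sc_abs (i a : ℕ) : |sc i a| ≤ n i := by
  unfold sc
  have h := Nat.mod_lt a (npos i)
  have h1 : ((a % n i : ℕ) : ℝ) + 1 ≤ (n i : ℝ) := by exact_mod_cast h
  have h0 : (0 : ℝ) ≤ ((a % n i : ℕ) : ℝ) := Nat.cast_nonneg _
  rw [abs_le]
  constructor <;> linarith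

lemma P1_near (hg : TOnGrid) (i : ℕ) (y : YY) : |P1 i y - 2 * (y.x.a : ℝ)| ≤ 2 * n i := by
  have h1 := abs_le.1 (hg i y).2.1
  have h2 := abs_le.1 (sc_abs i y.x.a)
  have h3 := two_mul_eq i y.x.a
  exact abs_le.2 ⟨by linarith [h1.1, h2.2], by linarith [h1.2, h2.1]⟩

lemma P2_near (hg : TOnGrid) (i : ℕ) (y : YY) : |P2 i y - 2 * (y.x.b : ℝ)| ≤ 2 * n i := by
  have h1 := abs_le.1 (hg i y).2.2
  have h2 := abs_le.1 (sc_abs i y.x.b)
  have h3 := two_mul_eq i y.x.b
  exact abs_le.2 ⟨by linarith [h1.1, h2.2], by linarith [h1.2, h2.1]⟩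

lemma d1_le (hg : TOnGrid) {i : ℕ} {e : ℝ} {y y' : YY} (h : C0 i e y y') (he : e ≤ n i) :
    d1 y.x y'.x ≤ 5 * n i := by
  have a1 := abs_le.1 (P1_near hg i y)
  have a2 := abs_le.1 (P1_near hg i y')
  have b1 := abs_le.1 (P2_near hg i y)
  have b2 := abs_le.1 (P2_near hg i y')
  have c1 := abs_le.1 h.1
  have c2 := abs_le.1 h.2.1
  have e1 : |(y.x.a : ℝ) - y'.x.a| ≤ 5 / 2 * n i :=
    abs_le.2 ⟨by linarith [a1.1, a1.2, a2.1, a2.2, c1.1, c1.2],
      by linarith [a1.1, a1.2, a2.1, a2.2, c1.1, c1.2]⟩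
  have e2 : |(y.x.b : ℝ) - y'.x.b| ≤ 5 / 2 * n i :=
    abs_le.2 ⟨by linarith [b1.1, b1.2, b2.1, b2.2, c2.1, c2.2],
      by linarith [b1.1, b1.2, b2.1, b2.2, c2.1, c2.2]⟩
  have h5 : ((d1 y.x y'.x : ℕ) : ℝ) ≤ ((5 * n i : ℕ) : ℝ) := by
    unfold d1
    push_cast
    rw [dist_cast, dist_cast]
    linarith
  exact_mod_cast h5

lemma toCl (hg : TOnGrid) {i : ℕ} {e ε : ℝ} {y y' : YY} (h : C0 i e y y') (he : e ≤ n i)
    (hε : e ≤ ε * n i) : Cl i ε y y' :=
  ⟨h.1.trans hε, h.2.1.trans hε, h.2.2, d1_le hg h he⟩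

lemma big_symm {j : ℕ} {F G : Finset ℕ} (h : G = F ∆ Finset.range (j + 1)) :
    F = G ∆ Finset.range (j + 1) := by
  rw [h, symmDiff_assoc, symmDiff_self]
  exact (symmDiff_bot F).symm

theorem ok : Pool.Agent.H626R3.CT.TPathY := by
  intro hg hs hin hbd han hre hA hH R ε hε
  obtain ⟨ε', hε', hε'1, hε'ε⟩ : ∃ ε' : ℝ, 0 < ε' ∧ ε' ≤ 1 ∧ ε' ≤ ε :=
    ⟨min ε 1, lt_min hε one_pos, min_le_right _ _, min_le_left _ _⟩
  have hR : (0 : ℝ) < (R : ℝ) + 1 := by positivity
  obtain ⟨i0, hi0⟩ := hs hin hbd han R (ε' / (R + 1)) (by positivity)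
  refine ⟨i0, fun i hi y y' hpd hex => ?_⟩
  have hni : (0 : ℝ) < (n i : ℝ) := by exact_mod_cast npos i
  have hpath : Path SY (pd SY y y') y y' := Nat.sInf_mem (s := {k | Path SY k y y'}) hex
  set q : ℝ := ε' / (R + 1) * n i with hq
  have hq0 : 0 ≤ q := by positivity
  have hbud : ∀ k : ℕ, k ≤ R → (k : ℝ) * q ≤ ε' * n i := by
    intro k hk
    have hk' : (k : ℝ) ≤ (R : ℝ) + 1 := by
      have : (k : ℝ) ≤ R := by exact_mod_cast hk
      linarith
    calc (k : ℝ) * q ≤ ((R : ℝ) + 1) * q := by gcongr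
      _ = ε' * n i := by rw [hq]; field_simp
  have hle : ε' * n i ≤ n i := by nlinarith
  have key : ∀ (k : ℕ) (y y' : YY), Path SY k y y' → k ≤ R →
      C0 i (k * q) y y' ∨ ∃ j z z', i < j ∧ Anti j z.x z'.x ∧
        z'.F = z.F ∆ Finset.range (j + 1) ∧ ∃ e1 e2 : ℝ, e1 + e2 ≤ k * q ∧
          C0 i e1 y z ∧ C0 i e2 z' y' := by
    intro k y y' hp
    induction hp with
    | nil x =>
      intro _
      left
      simpa using C0_refl i x
    | @cons k w x y z hp hstep ih =>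
      intro hk
      have hkR : k ≤ R := by omega
      have hwR : w < R := by omega
      have hbig : ((k : ℝ)) * q + q ≤ ((k + w + 1 : ℕ) : ℝ) * q := by
        push_cast
        nlinarith [mul_nonneg (Nat.cast_nonneg (α := ℝ) w) hq0]
      have hstp := hi0 i hi w hwR y z hstep
      rcases ih hkR with hA1 | ⟨j, u, u', hij, hanti, hF, e1, e2, hee, hc1, hc2⟩
      · rcases hstp with hsm | ⟨j, hij, hanti, hF⟩
        · left
          have h1 : C0 i q y z := ⟨hsm.1, hsm.2.1, hsm.2.2.1⟩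
          exact C0_mono (C0_trans hA1 h1) hbig
        · right
          exact ⟨j, y, z, hij, hanti, hF, k * q, 0, by linarith, hA1, C0_refl i z⟩
      · rcases hstp with hsm | ⟨j', hij', hanti', hF'⟩
        · right
          have h1 : C0 i q y z := ⟨hsm.1, hsm.2.1, hsm.2.2.1⟩
          exact ⟨j, u, u', hij, hanti, hF, e1, e2 + q, by linarith, hc1, C0_trans hc2 h1⟩
        · left
          have he1 := C0_nonneg hc1
          have he2 : e2 ≤ n i := by linarith [hbud k hkR]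
          have hd := d1_le hg hc2 he2
          obtain ⟨hjj, ha, hb⟩ := hH i j j' u'.x u.x y.x z.x hij hij' (hA.1 _ _ _ hanti) hanti'
            (by omega)
          subst hjj
          have r1 := hre i j y z hij hanti' hF'
          have r2 := hre i j u' u hij (hA.1 _ _ _ hanti) (big_symm hF)
          rw [ha, hb] at r2
          have hc3 : C0 i e2 u z := by
            refine ⟨?_, ?_, ?_⟩
            · have h1 := abs_le.1 hc2.1
              rw [r1.1, r2.1]
              exact abs_le.2 ⟨by linarith [h1.1, h1.2], by linarith [h1.1, h1.2]⟩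
            · have h1 := abs_le.1 hc2.2.1
              rw [r1.2, r2.2]
              exact abs_le.2 ⟨by linarith [h1.1, h1.2], by linarith [h1.1, h1.2]⟩
            · intro l hl
              have h1 := hc2.2.2 l hl
              rw [big_symm hF, hF']
              simp only [Finset.mem_symmDiff]
              tauto
          exact C0_mono (C0_trans hc1 hc3) (by linarith)
  have hbR := hbud _ hpd
  have hfin : ε' * n i ≤ ε * n i := by gcongr
  rcases key _ y y' hpath hpd with h1 | ⟨j, z, z', hij, hanti, hF, e1, e2, hee, hc1, hc2⟩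
  · left
    exact toCl hg h1 (by linarith) (by linarith)
  · right
    have he1 := C0_nonneg hc1
    have he2 := C0_nonneg hc2
    exact ⟨j, z, z', hij, toCl hg hc1 (by linarith) (by linarith), hanti, hF,
      toCl hg hc2 (by linarith) (by linarith)⟩

end Pool.Agent.H626R3.CT.T_TPathY
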