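import Pool.Agent.H626R3.CT.Stmts

set_option autoImplicit false

namespace Pool.Agent.H626R3.CT.T_TPot

open Pool.Agent.H626R3.CT

lemma t_pos (j : ℕ) : 0 < t j := by unfold t; positivity

lemma n_pos (j : ℕ) : 0 < n j := by unfold n; have := t_pos j; omega

lemma n_eq (j : ℕ) : n j = 3 ^ (2 * (j + 1) ^ 2) := by
  unfold n t
  rw [← pow_succ']
  congr 1

lemma n_dvd {j k : ℕ} (h : j ≤ k) : n j ∣ n k := by
  rw [n_eq, n_eq]
  exact pow_dvd_pow _ (by gcongr)

lemma t_mono {j k : ℕ} (h : j ≤ k) : t j ≤ t k := by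
  unfold t
  refine Nat.pow_le_pow_right (by norm_num) (Nat.sub_le_sub_right ?_ 1)
  gcongr

lemma n_dvd_t (k : ℕ) : n k ∣ t (k + 1) := by
  rw [n_eq]
  unfold t
  apply pow_dvd_pow
  have : (k + 1 + 1) ^ 2 = (k + 1) ^ 2 + 2 * (k + 1) + 1 := by ring
  omega

lemma min_dist (a b c : ℕ) : Nat.dist (min a c) (min b c) ≤ Nat.dist a b := by
  unfold Nat.dist
  omega

lemma div_le (a b m : ℕ) (hm : 0 < m) (h : a ≤ b) : b / m ≤ a / m + (b - a) := by
  calc b / m ≤ (a + (b - a) * m) / m := Nat.div_le_div_right (by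
        have : b - a ≤ (b - a) * m := Nat.le_mul_of_pos_right _ hm
        omega)
    _ = a / m + (b - a) := Nat.add_mul_div_right _ _ hm

lemma div_dist (a b m : ℕ) (hm : 0 < m) : Nat.dist (a / m) (b / m) ≤ Nat.dist a b := by
  rcases le_total a b with h | h
  · have h1 : a / m ≤ b / m := Nat.div_le_div_right h
    have h2 := div_le a b m hm h
    unfold Nat.dist
    omega
  · have h1 : b / m ≤ a / m := Nat.div_le_div_right h
    have h2 := div_le b a m hm h
    unfold Nat.dist
    omega

lemma psi_dist (k a b : ℕ) : Nat.dist (psi k a) (psi k b) ≤ Nat.dist a b :=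
  (min_dist _ _ _).trans (div_dist a b (n k) (n_pos k))

lemma psi_sat (k a : ℕ) (h : t (k + 1) - 1 ≤ a) : psi k a = t (k + 1) / n k - 1 := by
  obtain ⟨c, hc⟩ := n_dvd_t k
  have hn := n_pos k
  have ht := t_pos (k + 1)
  have h1 : t (k + 1) / n k = c := by rw [hc, Nat.mul_div_cancel_left _ hn]
  unfold psi
  rw [h1]
  refine min_eq_right ?_
  rw [Nat.le_div_iff_mul_le hn]
  cases c with
  | zero => simp
  | succ c =>
    rw [hc] at h
    have : n k * (c + 1) = c * n k + n k := by ring
    simp only [Nat.add_sub_cancel]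
    omega

lemma psi_refl (k j a : ℕ) (h : nearmid j a) : psi k (refl j a) = psi k a := by
  have hn := n_pos j
  have hmod := Nat.mod_lt a hn
  have hdm := Nat.div_add_mod a (n j)
  rcases le_or_gt j k with hjk | hjk
  · obtain ⟨c, hc⟩ := n_dvd hjk
    have h1 : refl j a / n j = a / n j := by
      unfold refl
      have e : (n j - 1 - a % n j) / n j = 0 := Nat.div_eq_of_lt (by omega)
      rw [Nat.mul_add_div hn, e, add_zero]
    have h2 : refl j a / n k = a / n k := by
      rw [hc, ← Nat.div_div_eq_div_mul (refl j a), ← Nat.div_div_eq_div_mul a, h1]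
    unfold psi
    rw [h2]
  · have h1 : t (k + 1) ≤ t j := t_mono hjk
    have h2 : n j = 3 * t j := rfl
    obtain ⟨h3, h4⟩ := h
    rw [psi_sat k a (by omega), psi_sat k (refl j a) (by unfold refl; omega)]

lemma step (k w : ℕ) (x y : XX) (h : SX w x y) :
    Nat.dist (psi k x.a) (psi k y.a) ≤ w + 1 ∧ Nat.dist (psi k x.b) (psi k y.b) ≤ w + 1 := by
  rcases h with h | ⟨j, h1, h2, h3, h4⟩
  · unfold d1 at h
    have h1 := psi_dist k x.a y.a
    have h2 := psi_dist k x.b y.b
    constructor <;> omega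
  · rw [h3, h4, psi_refl k j _ h1, psi_refl k j _ h2, Nat.dist_self, Nat.dist_self]
    simp

theorem ok : Pool.Agent.H626R3.CT.TPot := by
  intro k m x y h
  induction h with
  | nil => simp [Nat.dist_self]
  | cons h hs ih =>
    have h1 := step k _ _ _ hs
    have h2 := Nat.dist.triangle_inequality (psi k _) (psi k _) (psi k _) |>.trans (add_le_add ih.1 h1.1)
    have h3 := Nat.dist.triangle_inequality (psi k _) (psi k _) (psi k _) |>.trans (add_le_add ih.2 h1.2)
    constructor <;> omega

end Pool.Agent.H626R3.CT.T_TPot
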