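import Pool.Agent.H626R3.CT.Stmts

/-!
Task TRect of project H626-CT (proved by helper192 for helper626).
-/

set_option autoImplicit false

namespace Pool.Agent.H626R3.CT.T_TRect

open Finset

lemma tel (f : ℕ → ZMod 2) (q : ℕ) :
    ∑ j ∈ range q, (f j + f (j + 1)) = f 0 + f q := by
  induction q with
  | zero => simp [CharTwo.add_self_eq_zero]
  | succ q ih =>
    rw [sum_range_succ, ih]
    have : f q + f q = 0 := CharTwo.add_self_eq_zero _
    linear_combination this

theorem ok : Pool.Agent.H626R3.CT.TRect := by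
  intro L a b p q
  have h1 : ∀ i j : ℕ, sq L (a + i) (b + j) =
      (chi (L (a + i) (b + j)) (L (a + i + 1) (b + j)) +
        chi (L (a + i) (b + (j + 1))) (L (a + i + 1) (b + (j + 1)))) +
      (chi (L (a + i) (b + j)) (L (a + i) (b + j + 1)) +
        chi (L (a + (i + 1)) (b + j)) (L (a + (i + 1)) (b + j + 1))) := by
    intro i j
    simp only [sq, ← add_assoc]
    ring
  have h2 : ∑ i ∈ range p, ∑ j ∈ range q, sq L (a + i) (b + j) =
      (∑ i ∈ range p, ∑ j ∈ range q, (chi (L (a + i) (b + j)) (L (a + i + 1) (b + j)) +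
        chi (L (a + i) (b + (j + 1))) (L (a + i + 1) (b + (j + 1))))) +
      ∑ j ∈ range q, ∑ i ∈ range p, (chi (L (a + i) (b + j)) (L (a + i) (b + j + 1)) +
        chi (L (a + (i + 1)) (b + j)) (L (a + (i + 1)) (b + j + 1))) := by
    rw [sum_comm (s := range q) (t := range p), ← sum_add_distrib]
    refine sum_congr rfl (fun i _ => ?_)
    rw [← sum_add_distrib]
    exact sum_congr rfl (fun j _ => h1 i j)
  rw [h2, bd]
  congr 1
  · refine sum_congr rfl (fun i _ => ?_)
    exact tel (fun j => chi (L (a + i) (b + j)) (L (a + i + 1) (b + j))) q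
  · refine sum_congr rfl (fun j _ => ?_)
    exact tel (fun i => chi (L (a + i) (b + j)) (L (a + i) (b + j + 1))) p

end Pool.Agent.H626R3.CT.T_TRect
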