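import Pool.Agent.H626R3.CT.Stmts

set_option autoImplicit false

open scoped Classical

namespace Pool.Agent.H626R3.CT.T_TRing

open Pool.Agent.H626R3.CT

theorem t_pos (j : ℕ) : 0 < t j := by unfold t; positivity

theorem n_eq (j : ℕ) : n j = 3 ^ (2 * (j + 1) ^ 2) := by
  unfold n t
  rw [← pow_succ']
  have : 1 ≤ (j + 1) ^ 2 := Nat.one_le_pow _ _ (by omega)
  have e : 2 * (j + 1) ^ 2 - 1 + 1 = 2 * (j + 1) ^ 2 := by omega
  rw [e]

theorem n_dvd_t {l j : ℕ} (h : l < j) : n l ∣ t j := by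
  rw [n_eq]
  unfold t
  apply pow_dvd_pow
  have h1 : (l + 1) ^ 2 ≤ j ^ 2 := Nat.pow_le_pow_left h 2
  have h2 : (j + 1) ^ 2 = j ^ 2 + 2 * j + 1 := by ring
  omega

theorem inner {j l A r r' : ℕ} (h : j < l) (hr : r < n j) (hr' : r' < n j)
    (hm : mid l (n j * A + r)) : mid l (n j * A + r') := by
  obtain ⟨m, hm'⟩ := n_dvd_t h
  have hn : n l = n j * (3 * m) := by
    unfold n at hm' ⊢
    rw [hm']; ring
  have key : ∀ s, s < n j → (n j * A + s) % n l = n j * (A % (3 * m)) + s := by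
    intro s hs
    rw [hn, Nat.mod_mul, Nat.mul_add_mod, Nat.mod_eq_of_lt hs, Nat.mul_add_div (by omega),
      Nat.div_eq_of_lt hs, add_zero, add_comm]
  unfold mid at hm ⊢
  rw [key r hr] at hm
  rw [key r' hr']
  rw [hm'] at hm ⊢
  set c := A % (3 * m)
  have h1 : m ≤ c := by
    by_contra hc
    have : n j * (c + 1) ≤ n j * m := Nat.mul_le_mul_left _ (by omega)
    have e : n j * (c + 1) = n j * c + n j := by ring
    omega
  have h2 : c + 1 ≤ 2 * m := by
    by_contra hc
    have : n j * (2 * m) ≤ n j * c := Nat.mul_le_mul_left _ (by omega)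
    have e : n j * (2 * m) = 2 * (n j * m) := by ring
    omega
  have h3 : n j * m ≤ n j * c := Nat.mul_le_mul_left _ h1
  have h4 : n j * (c + 1) ≤ n j * (2 * m) := Nat.mul_le_mul_left _ h2
  have e1 : n j * (2 * m) = 2 * (n j * m) := by ring
  have e2 : n j * (c + 1) = n j * c + n j := by ring
  constructor <;> omega

theorem mod_pt (j A i : ℕ) (hi : i ≤ t j + 1) :
    (n j * A + (t j - 1) + i) % n j = t j - 1 + i ∧ (n j * A + (t j - 1) + i) / n j = A := by
  have ht := t_pos j
  have hlt : t j - 1 + i < n j := by unfold n; omega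
  constructor
  · rw [add_assoc, Nat.mul_add_mod, Nat.mod_eq_of_lt hlt]
  · rw [add_assoc, Nat.mul_add_div (by omega), Nat.div_eq_of_lt hlt, add_zero]

theorem edge0 {l j : ℕ} (A : ℕ) (h : l ≤ j) : ¬ mid l (n j * A + (t j - 1) + 0) := by
  have ht := t_pos j
  have htl := t_pos l
  rcases eq_or_lt_of_le h with rfl | h
  · unfold mid
    rw [(mod_pt l A 0 (by omega)).1]
    omega
  · obtain ⟨m, hm⟩ := n_dvd_t h
    have hm0 : m ≠ 0 := by
      rintro rfl
      simp at hm
      omega
    obtain ⟨m', rfl⟩ := Nat.exists_eq_succ_of_ne_zero hm0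
    have hnl : n l = 3 * t l := rfl
    have e : n j * A + (t j - 1) + 0 = n l * (3 * (m' + 1) * A + m') + (n l - 1) := by
      have hnj : n j = 3 * t j := rfl
      have e1 : n l * (3 * (m' + 1) * A + m') = n j * A + n l * m' := by
        rw [hnj, hm]
        simp only [Nat.succ_eq_add_one]
        ring
      have e2 : t j = n l * m' + n l := by
        rw [hm]
        simp only [Nat.succ_eq_add_one]
        ring
      omega
    unfold mid
    rw [e, Nat.mul_add_mod, Nat.mod_eq_of_lt (by omega)]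
    omega

theorem edge1 {l j : ℕ} (A : ℕ) (h : l ≤ j) : ¬ mid l (n j * A + (t j - 1) + (t j + 1)) := by
  have ht := t_pos j
  have htl := t_pos l
  rcases eq_or_lt_of_le h with rfl | h
  · unfold mid
    rw [(mod_pt l A (t l + 1) (by omega)).1]
    omega
  · obtain ⟨m, hm⟩ := n_dvd_t h
    have hnl : n l = 3 * t l := rfl
    have e : n j * A + (t j - 1) + (t j + 1) = n l * (3 * m * A + 2 * m) + 0 := by
      have hnj : n j = 3 * t j := rfl
      have e1 : n l * (3 * m * A + 2 * m) = n j * A + 2 * t j := by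
        rw [hnj, hm]
        ring
      omega
    unfold mid
    rw [e, Nat.mul_add_mod, Nat.mod_eq_of_lt (by omega)]
    omega

theorem out_ring {j A B i k : ℕ}
    (h0 : ∀ l, j < l → ¬ inreg l (n j * A + (t j - 1)) (n j * B + (t j - 1)))
    (hi : i ≤ t j + 1) (hk : k ≤ t j + 1)
    (hc : i = 0 ∨ i = t j + 1 ∨ k = 0 ∨ k = t j + 1) :
    ∀ l, ¬ (mid l (n j * A + (t j - 1) + i) ∧ mid l (n j * B + (t j - 1) + k)) := by
  intro l hl
  have ht := t_pos j
  have hn : n j = 3 * t j := rfl
  rcases Nat.lt_or_ge j l with h | h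
  · apply h0 l h
    have h1 : mid l (n j * A + (t j - 1)) := by
      have := hl.1
      rw [add_assoc] at this
      exact inner h (by omega) (by omega) this
    have h2 : mid l (n j * B + (t j - 1)) := by
      have := hl.2
      rw [add_assoc] at this
      exact inner h (by omega) (by omega) this
    unfold mid at h1 h2
    unfold inreg
    omega
  · rcases hc with rfl | rfl | rfl | rfl
    · exact edge0 A h hl.1
    · exact edge1 A h hl.1
    · exact edge0 B h hl.2
    · exact edge1 B h hl.2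

theorem refl_pt (j A i : ℕ) (hi : i ≤ t j + 1) :
    n j * A + (t j - 1) + (t j + 1 - i) = refl j (n j * A + (t j - 1) + i) := by
  have ht := t_pos j
  have hn : n j = 3 * t j := rfl
  unfold refl
  rw [(mod_pt j A i hi).1, (mod_pt j A i hi).2]
  omega

theorem nearmid_pt (j A i : ℕ) (hi : i ≤ t j + 1) : nearmid j (n j * A + (t j - 1) + i) := by
  have ht := t_pos j
  unfold nearmid
  rw [(mod_pt j A i hi).1]
  omega

theorem chi_comm (u v : ℕ) : chi u v = chi v u := by
  unfold chi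
  congr 1
  apply propext
  tauto

theorem chi4 (u u' v v' : ℕ) (hu : u = 1 ∨ u = 2 ∨ u = 3) (hu' : u' = 1 ∨ u' = 2 ∨ u' = 3)
    (hv : v = 1 ∨ v = 2 ∨ v = 3) (hv' : v' = 1 ∨ v' = 2 ∨ v' = 3)
    (h : ∀ x ∈ [u, u', v, v'], ∀ y ∈ [u, u', v, v'], ∀ z ∈ [u, u', v, v'],
      ¬ (x = 1 ∧ y = 2 ∧ z = 3)) :
    chi u u' + chi v v' = chi u v + chi u' v' := by
  have h12 : (1 : ZMod 2) + 1 = 0 := by decide
  rcases hu with rfl | rfl | rfl <;> rcases hu' with rfl | rfl | rfl <;>
    rcases hv with rfl | rfl | rfl <;> rcases hv' with rfl | rfl | rfl <;>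
    first
      | (simp [chi]; done)
      | (simp [chi]; exact h12)
      | (exfalso; exact h 1 (by simp) 2 (by simp) 3 (by simp) ⟨rfl, rfl, rfl⟩)

theorem tele (P Q : ℕ → ℕ) (p : ℕ)
    (h : ∀ i < p, chi (P i) (P (i + 1)) + chi (Q i) (Q (i + 1)) =
      chi (P i) (Q i) + chi (P (i + 1)) (Q (i + 1))) :
    ∑ i ∈ Finset.range p, (chi (P i) (P (i + 1)) + chi (Q i) (Q (i + 1))) =
      chi (P 0) (Q 0) + chi (P p) (Q p) := by
  induction p with
  | zero => simp [CharTwo.add_self_eq_zero]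
  | succ p ih =>
    rw [Finset.sum_range_succ, ih (fun i hi => h i (by omega)), h p (by omega)]
    have := CharTwo.add_self_eq_zero (chi (P p) (Q p))
    linear_combination this

theorem tele2 (M N : ℕ → ℕ) (p : ℕ)
    (h : ∀ i < p, chi (M i) (M (i + 1)) + chi (N (p - i)) (N (p - (i + 1))) =
      chi (M i) (N (p - i)) + chi (M (i + 1)) (N (p - (i + 1)))) :
    ∑ i ∈ Finset.range p, (chi (M i) (M (i + 1)) + chi (N i) (N (i + 1))) =
      chi (M 0) (N p) + chi (M p) (N 0) := by
  have h1 := tele M (fun i => N (p - i)) p h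
  simp only [Nat.sub_zero, Nat.sub_self] at h1
  rw [← h1, Finset.sum_add_distrib, Finset.sum_add_distrib]
  congr 1
  rw [← Finset.sum_range_reflect]
  apply Finset.sum_congr rfl
  intro i hi
  have hi' : i < p := Finset.mem_range.1 hi
  have e1 : p - 1 - i + 1 = p - i := by omega
  have e2 : p - 1 - i = p - (i + 1) := by omega
  rw [e1, e2, chi_comm]

theorem near_of (x y : XX) (h : d1 x y ≤ 1) : Near x y := Or.inl (by omega)

theorem d1_comm (x y : XX) : d1 x y = d1 y x := by
  unfold d1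
  rw [Nat.dist_comm x.a, Nat.dist_comm x.b]

theorem d1_self (x : XX) : d1 x x = 0 := by
  unfold d1
  rw [Nat.dist_self, Nat.dist_self]

theorem square (lab : XX → ℕ) (h123 : ∀ x, lab x = 1 ∨ lab x = 2 ∨ lab x = 3)
    (hn : ∀ x y z, Near x y → Near y z → Near x z → ¬ (lab x = 1 ∧ lab y = 2 ∧ lab z = 3))
    (j : ℕ) (X X' Y Y' : XX) (a1 : Anti j X Y) (a2 : Anti j X' Y') (a3 : Anti j Y X)
    (a4 : Anti j Y' X') (h1 : d1 X X' ≤ 1) (h2 : d1 Y Y' ≤ 1) :
    chi (lab X) (lab X') + chi (lab Y) (lab Y') = chi (lab X) (lab Y) + chi (lab X') (lab Y') := by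
  have near : ∀ u ∈ [X, X', Y, Y'], ∀ v ∈ [X, X', Y, Y'], Near u v := by
    have s1 : d1 X' X ≤ 1 := by rw [d1_comm]; exact h1
    have s2 : d1 Y' Y ≤ 1 := by rw [d1_comm]; exact h2
    have s0 : ∀ x, d1 x x ≤ 1 := fun x => by rw [d1_self]; omega
    intro u hu v hv
    simp only [List.mem_cons, List.not_mem_nil, or_false] at hu hv
    rcases hu with rfl | rfl | rfl | rfl <;> rcases hv with rfl | rfl | rfl | rfl <;>
      first
        | exact near_of _ _ (s0 _)
        | exact near_of _ _ h1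
        | exact near_of _ _ h2
        | exact near_of _ _ s1
        | exact near_of _ _ s2
        | exact Or.inr ⟨j, _, a1, s0 _⟩
        | exact Or.inr ⟨j, _, a2, s0 _⟩
        | exact Or.inr ⟨j, _, a3, s0 _⟩
        | exact Or.inr ⟨j, _, a4, s0 _⟩
        | exact Or.inr ⟨j, _, a1, h2⟩
        | exact Or.inr ⟨j, _, a2, s2⟩
        | exact Or.inr ⟨j, _, a3, h1⟩
        | exact Or.inr ⟨j, _, a4, s1⟩
  apply chi4 _ _ _ _ (h123 _) (h123 _) (h123 _) (h123 _)
  intro x hx y hy z hz
  have tr : ∀ w ∈ [lab X, lab X', lab Y, lab Y'], ∃ u ∈ [X, X', Y, Y'], lab u = w := by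
    intro w hw
    simp only [List.mem_cons, List.not_mem_nil, or_false] at hw
    rcases hw with rfl | rfl | rfl | rfl
    · exact ⟨X, by simp, rfl⟩
    · exact ⟨X', by simp, rfl⟩
    · exact ⟨Y, by simp, rfl⟩
    · exact ⟨Y', by simp, rfl⟩
  obtain ⟨x', hx', rfl⟩ := tr x hx
  obtain ⟨y', hy', rfl⟩ := tr y hy
  obtain ⟨z', hz', rfl⟩ := tr z hz
  exact hn x' y' z' (near _ hx' _ hy') (near _ hy' _ hz') (near _ hx' _ hz')

theorem ok : Pool.Agent.H626R3.CT.TRing := by
  intro lab h123 hnear j A B h0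
  have ht := t_pos j
  -- points of the ring
  have out := fun {i k : ℕ} (hi : i ≤ t j + 1) (hk : k ≤ t j + 1)
    (hc : i = 0 ∨ i = t j + 1 ∨ k = 0 ∨ k = t j + 1) => out_ring h0 hi hk hc
  have anti : ∀ i k (hi : i ≤ t j + 1) (hk : k ≤ t j + 1)
      (hc : i = 0 ∨ i = t j + 1 ∨ k = 0 ∨ k = t j + 1) i' k' (hi' : i' = t j + 1 - i)
      (hk' : k' = t j + 1 - k) (o1) (o2),
      Anti j ⟨n j * A + (t j - 1) + i, n j * B + (t j - 1) + k, o1⟩
        ⟨n j * A + (t j - 1) + i', n j * B + (t j - 1) + k', o2⟩ := by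
    intro i k hi hk hc i' k' hi' hk' o1 o2
    subst hi' hk'
    exact ⟨nearmid_pt j A i hi, nearmid_pt j B k hk, refl_pt j A i hi, refl_pt j B k hk⟩
  have hext : ∀ i k (hi : i ≤ t j + 1) (hk : k ≤ t j + 1)
      (hc : i = 0 ∨ i = t j + 1 ∨ k = 0 ∨ k = t j + 1),
      ext lab (n j * A + (t j - 1) + i) (n j * B + (t j - 1) + k) =
        lab ⟨n j * A + (t j - 1) + i, n j * B + (t j - 1) + k, out hi hk hc⟩ := by
    intro i k hi hk hc
    unfold ext
    rw [dif_pos (out hi hk hc)]
  -- squares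
  have sqr : ∀ i k i2 k2 (hi : i ≤ t j + 1) (hk : k ≤ t j + 1)
      (hi2 : i2 ≤ t j + 1) (hk2 : k2 ≤ t j + 1)
      (hc : i = 0 ∨ i = t j + 1 ∨ k = 0 ∨ k = t j + 1)
      (hc2 : i2 = 0 ∨ i2 = t j + 1 ∨ k2 = 0 ∨ k2 = t j + 1)
      (hd : Nat.dist i i2 + Nat.dist k k2 ≤ 1),
      chi (ext lab (n j * A + (t j - 1) + i) (n j * B + (t j - 1) + k))
          (ext lab (n j * A + (t j - 1) + i2) (n j * B + (t j - 1) + k2)) +
        chi (ext lab (n j * A + (t j - 1) + (t j + 1 - i)) (n j * B + (t j - 1) + (t j + 1 - k)))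
          (ext lab (n j * A + (t j - 1) + (t j + 1 - i2))
            (n j * B + (t j - 1) + (t j + 1 - k2))) =
      chi (ext lab (n j * A + (t j - 1) + i) (n j * B + (t j - 1) + k))
          (ext lab (n j * A + (t j - 1) + (t j + 1 - i)) (n j * B + (t j - 1) + (t j + 1 - k))) +
        chi (ext lab (n j * A + (t j - 1) + i2) (n j * B + (t j - 1) + k2))
          (ext lab (n j * A + (t j - 1) + (t j + 1 - i2))
            (n j * B + (t j - 1) + (t j + 1 - k2))) := by
    intro i k i2 k2 hi hk hi2 hk2 hc hc2 hd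
    rw [hext i k hi hk hc, hext i2 k2 hi2 hk2 hc2,
      hext (t j + 1 - i) (t j + 1 - k) (by omega) (by omega) (by omega),
      hext (t j + 1 - i2) (t j + 1 - k2) (by omega) (by omega) (by omega)]
    apply square lab h123 hnear j
    · exact anti i k hi hk hc _ _ rfl rfl _ _
    · exact anti i2 k2 hi2 hk2 hc2 _ _ rfl rfl _ _
    · exact anti _ _ (by omega) (by omega) (by omega) _ _ (by omega) (by omega) _ _
    · exact anti _ _ (by omega) (by omega) (by omega) _ _ (by omega) (by omega) _ _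
    · unfold d1 Nat.dist at *
      simp only
      omega
    · unfold d1 Nat.dist at *
      simp only
      omega
  unfold bd
  have H1 := tele2 (fun i => ext lab (n j * A + (t j - 1) + i) (n j * B + (t j - 1) + 0))
    (fun i => ext lab (n j * A + (t j - 1) + i) (n j * B + (t j - 1) + (t j + 1))) (t j + 1) (by
      intro i hi
      have := sqr i 0 (i + 1) 0 (by omega) (by omega) (by omega) (by omega) (by omega) (by omega)
        (by unfold Nat.dist; omega)
      simpa using this)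
  have H2 := tele2 (fun i => ext lab (n j * A + (t j - 1) + 0) (n j * B + (t j - 1) + i))
    (fun i => ext lab (n j * A + (t j - 1) + (t j + 1)) (n j * B + (t j - 1) + i)) (t j + 1) (by
      intro i hi
      have := sqr 0 i 0 (i + 1) (by omega) (by omega) (by omega) (by omega) (by omega) (by omega)
        (by unfold Nat.dist; omega)
      simpa using this)
  simp only [add_zero, ← add_assoc] at H1 H2 ⊢
  rw [H1, H2]
  rw [chi_comm (ext lab (n j * A + (t j - 1)) (n j * B + (t j - 1) + t j + 1))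
    (ext lab (n j * A + (t j - 1) + t j + 1) (n j * B + (t j - 1)))]
  generalize chi _ _ = u
  generalize chi _ _ = v
  have h1 := CharTwo.add_self_eq_zero u
  have h2 := CharTwo.add_self_eq_zero v
  linear_combination h1 + h2

end Pool.Agent.H626R3.CT.T_TRing
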