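import Pool.Agent.H626R3.CT.Stmts

set_option autoImplicit false

open scoped Classical symmDiff

namespace Pool.Agent.H626R3.CT.T_TRing285

open Pool.Agent.H626R3.CT

lemma t_pos (j : ℕ) : 0 < t j := by unfold t; positivity

lemma n_dvd_t {j k : ℕ} (h : j < k) : n j ∣ t k := by
  unfold n t
  rw [← pow_succ']
  apply pow_dvd_pow
  have h1 : (j + 1) + 1 ≤ k + 1 := by omega
  have h2 : ((j + 1) + 1) ^ 2 ≤ (k + 1) ^ 2 := Nat.pow_le_pow_left h1 2
  have h3 : ((j + 1) + 1) ^ 2 = (j + 1) ^ 2 + 2 * (j + 1) + 1 := by ring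
  have h4 : 0 < (j + 1) ^ 2 := by positivity
  omega

lemma ext_eq (lab : XX → ℕ) {a b : ℕ} (h : ∀ j, ¬ (mid j a ∧ mid j b)) :
    ext lab a b = lab ⟨a, b, h⟩ := by
  unfold ext; rw [dif_pos h]

lemma chi_comm (u v : ℕ) : chi u v = chi v u := by
  unfold chi
  exact if_congr (by tauto) rfl rfl

lemma two (x : ZMod 2) : x + x = 0 := by revert x; decide

lemma tele (f : ℕ → ZMod 2) (p : ℕ) : ∑ i ∈ Finset.range p, (f i + f (i + 1)) = f 0 + f p := by
  induction p with
  | zero => simp [two]
  | succ p ih =>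
    rw [Finset.sum_range_succ, ih]
    have := two (f p)
    calc f 0 + f p + (f p + f (p + 1)) = f 0 + (f p + f p) + f (p + 1) := by ring
      _ = f 0 + f (p + 1) := by rw [this, add_zero]

lemma four {p q r s : ℕ} (hp : p = 1 ∨ p = 2 ∨ p = 3) (hq : q = 1 ∨ q = 2 ∨ q = 3)
    (hr : r = 1 ∨ r = 2 ∨ r = 3) (hs : s = 1 ∨ s = 2 ∨ s = 3)
    (H : ¬ ((p = 1 ∨ q = 1 ∨ r = 1 ∨ s = 1) ∧ (p = 2 ∨ q = 2 ∨ r = 2 ∨ s = 2) ∧
      (p = 3 ∨ q = 3 ∨ r = 3 ∨ s = 3))) : chi p q + chi r s = chi p r + chi q s := by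
  have h11 : chi 1 1 = 0 := by simp [chi]
  have h12 : chi 1 2 = 1 := by simp [chi]
  have h13 : chi 1 3 = 0 := by simp [chi]
  have h21 : chi 2 1 = 1 := by simp [chi]
  have h22 : chi 2 2 = 0 := by simp [chi]
  have h23 : chi 2 3 = 0 := by simp [chi]
  have h31 : chi 3 1 = 0 := by simp [chi]
  have h32 : chi 3 2 = 0 := by simp [chi]
  have h33 : chi 3 3 = 0 := by simp [chi]
  rcases hp with rfl | rfl | rfl <;> rcases hq with rfl | rfl | rfl <;>
    rcases hr with rfl | rfl | rfl <;> rcases hs with rfl | rfl | rfl <;>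
    first
      | exact absurd (by decide) H
      | (simp only [h11, h12, h13, h21, h22, h23, h31, h32, h33]; done)
      | (simp only [h11, h12, h13, h21, h22, h23, h31, h32, h33]; decide)

lemma midq {j l m x : ℕ} (hm : t l = n j * m) (hn : 0 < n j) :
    mid l x ↔ m ≤ (x / n j) % (3 * m) ∧ (x / n j) % (3 * m) < 2 * m := by
  have e : x % n l = x % n j + n j * (x / n j % (3 * m)) := by
    have : n l = n j * (3 * m) := by
      change 3 * t l = _
      rw [hm]; ring
    rw [this, Nat.mod_mul]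
  have hr : x % n j < n j := Nat.mod_lt _ hn
  unfold mid
  rw [e, hm]
  generalize x / n j % (3 * m) = q
  generalize x % n j = r at hr
  constructor
  · rintro ⟨h1, h2⟩
    constructor
    · by_contra hc
      have h3 : q + 1 ≤ m := by omega
      have h4 : n j * (q + 1) ≤ n j * m := Nat.mul_le_mul_left _ h3
      rw [Nat.mul_add, Nat.mul_one] at h4
      omega
    · by_contra hc
      have h3 : 2 * m ≤ q := by omega
      have h4 : n j * (2 * m) ≤ n j * q := Nat.mul_le_mul_left _ h3
      have h5 : n j * (2 * m) = 2 * (n j * m) := by ring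
      omega
  · rintro ⟨h1, h2⟩
    constructor
    · have h4 : n j * m ≤ n j * q := Nat.mul_le_mul_left _ h1
      omega
    · have h3 : q + 1 ≤ 2 * m := by omega
      have h4 : n j * (q + 1) ≤ n j * (2 * m) := Nat.mul_le_mul_left _ h3
      have h5 : n j * (2 * m) = 2 * (n j * m) := by ring
      rw [Nat.mul_add, Nat.mul_one] at h4
      omega

/-- residue of a coordinate -/
lemma res {j A r : ℕ} (hr : r < n j) : (n j * A + r) % n j = r ∧ (n j * A + r) / n j = A := by
  constructor
  · rw [Nat.mul_add_mod, Nat.mod_eq_of_lt hr]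
  · rw [Nat.mul_add_div (by omega), Nat.div_eq_of_lt hr, add_zero]

lemma not_mid_low {l j A : ℕ} (h : l < j) :
    ¬ mid l (n j * A + (t j - 1)) ∧ ¬ mid l (n j * A + 2 * t j) := by
  obtain ⟨m, hm⟩ := n_dvd_t h
  have hl := t_pos l
  have hj := t_pos j
  have hnl : n l = 3 * t l := rfl
  have hnj : n j = 3 * t j := rfl
  have hm0 : 0 < m := by
    rcases Nat.eq_zero_or_pos m with h0 | h0
    · rw [h0] at hm; omega
    · exact h0
  constructor
  · intro hmid
    have e : (n j * A + (t j - 1)) % n l = n l - 1 := by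
      obtain ⟨m', rfl⟩ : ∃ m', m = m' + 1 := ⟨m - 1, by omega⟩
      have : n j * A + (t j - 1) = (n l - 1) + n l * (3 * (m' + 1) * A + m') := by
        have e1 : n j * A = n l * (3 * (m' + 1) * A) := by rw [hnj, hm]; ring
        have e2 : t j - 1 = (n l - 1) + n l * m' := by
          rw [hm, Nat.mul_add, Nat.mul_one]; omega
        rw [e1, e2, Nat.mul_add]; ring
      rw [this, Nat.add_mul_mod_self_left, Nat.mod_eq_of_lt (by omega)]
    have h2 := hmid.2
    rw [e] at h2
    omega
  · intro hmid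
    have e : (n j * A + 2 * t j) % n l = 0 := by
      have : n j * A + 2 * t j = n l * (3 * m * A + 2 * m) := by
        rw [hnj, hm]; ring
      rw [this, Nat.mul_mod_right]
    have h1 := hmid.1
    rw [e] at h1
    omega

theorem ok : Pool.Agent.H626R3.CT.TRing := by
  intro lab hlab hsp j A B hout
  have hj := t_pos j
  have hnj : n j = 3 * t j := rfl
  set a0 := n j * A + (t j - 1) with ha0
  set b0 := n j * B + (t j - 1) with hb0
  set p := t j + 1 with hp
  -- quotients and residues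
  have ra : ∀ C u, u ≤ p → (n j * C + (t j - 1) + u) % n j = t j - 1 + u ∧
      (n j * C + (t j - 1) + u) / n j = C := by
    intro C u hu
    rw [add_assoc]
    exact res (by omega)
  -- ring points are in the carpet
  have low : ∀ C l u, l < j → (u = 0 ∨ u = p) → ¬ mid l (n j * C + (t j - 1) + u) := by
    intro C l u hl hu
    rcases hu with rfl | rfl
    · exact (not_mid_low hl).1
    · have : n j * C + (t j - 1) + p = n j * C + 2 * t j := by omega
      rw [this]
      exact (not_mid_low hl).2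
  have same : ∀ C u, (u = 0 ∨ u = p) → ¬ mid j (n j * C + (t j - 1) + u) := by
    intro C u hu h
    have h1 := h.1
    have h2 := h.2
    rw [(ra C u (by omega)).1] at h1 h2
    omega
  have high : ∀ C l u, j < l → u ≤ p → mid l (n j * C + (t j - 1) + u) →
      mid l (n j * C + (t j - 1)) := by
    intro C l u hl hu h
    obtain ⟨m, hm⟩ := n_dvd_t hl
    rw [midq hm (by omega)] at h ⊢
    have h0 := (ra C 0 (by omega)).2
    rw [add_zero] at h0
    rw [(ra C u hu).2] at h
    rw [h0]
    exact h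
  have carp : ∀ u v, u ≤ p → v ≤ p → (u = 0 ∨ u = p ∨ v = 0 ∨ v = p) →
      ∀ l, ¬ (mid l (a0 + u) ∧ mid l (b0 + v)) := by
    intro u v hu hv huv l hl
    rcases lt_trichotomy l j with h | h | h
    · rcases huv with h1 | h1 | h1 | h1
      · exact low A l u h (Or.inl h1) hl.1
      · exact low A l u h (Or.inr h1) hl.1
      · exact low B l v h (Or.inl h1) hl.2
      · exact low B l v h (Or.inr h1) hl.2
    · subst h
      rcases huv with h1 | h1 | h1 | h1
      · exact same A u (Or.inl h1) hl.1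
      · exact same A u (Or.inr h1) hl.1
      · exact same B v (Or.inl h1) hl.2
      · exact same B v (Or.inr h1) hl.2
    · have h1 : mid l a0 := high A l u h hu hl.1
      have h2 : mid l b0 := high B l v h hv hl.2
      apply hout l h
      have hl' := t_pos l
      unfold mid at h1 h2
      unfold inreg
      omega
  -- labels
  set M : ℕ → ℕ → ℕ := fun u v => ext lab (a0 + u) (b0 + v) with hM
  have anti : ∀ u v (h1 : ∀ l, ¬ (mid l (a0 + u) ∧ mid l (b0 + v)))
      (h2 : ∀ l, ¬ (mid l (a0 + (p - u)) ∧ mid l (b0 + (p - v)))), u ≤ p → v ≤ p →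
      Anti j ⟨a0 + u, b0 + v, h1⟩ ⟨a0 + (p - u), b0 + (p - v), h2⟩ := by
    intro u v h1 h2 hu hv
    have ea := ra A u hu
    have eb := ra B v hv
    refine ⟨?_, ?_, ?_, ?_⟩
    · change t j - 1 ≤ (a0 + u) % n j ∧ (a0 + u) % n j ≤ 2 * t j
      rw [ea.1]; omega
    · change t j - 1 ≤ (b0 + v) % n j ∧ (b0 + v) % n j ≤ 2 * t j
      rw [eb.1]; omega
    · change a0 + (p - u) = n j * ((a0 + u) / n j) + (n j - 1 - (a0 + u) % n j)
      rw [ea.1, ea.2]; omega
    · change b0 + (p - v) = n j * ((b0 + v) / n j) + (n j - 1 - (b0 + v) % n j)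
      rw [eb.1, eb.2]; omega
  have key : ∀ u v u' v', u ≤ p → v ≤ p → u' ≤ p → v' ≤ p →
      (u = 0 ∨ u = p ∨ v = 0 ∨ v = p) → (u' = 0 ∨ u' = p ∨ v' = 0 ∨ v' = p) →
      ((u' = u + 1 ∧ v' = v) ∨ (u' = u ∧ v' = v + 1)) →
      chi (M u v) (M u' v') + chi (M (p - u) (p - v)) (M (p - u') (p - v')) =
        chi (M u v) (M (p - u) (p - v)) + chi (M u' v') (M (p - u') (p - v')) := by
    intro u v u' v' hu hv hu' hv' h h' hadj
    have c1 := carp u v hu hv h
    have c2 := carp u' v' hu' hv' h'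
    have c3 := carp (p - u) (p - v) (by omega) (by omega) (by omega)
    have c4 := carp (p - u') (p - v') (by omega) (by omega) (by omega)
    have e1 : M u v = lab ⟨_, _, c1⟩ := ext_eq lab c1
    have e2 : M u' v' = lab ⟨_, _, c2⟩ := ext_eq lab c2
    have e3 : M (p - u) (p - v) = lab ⟨_, _, c3⟩ := ext_eq lab c3
    have e4 : M (p - u') (p - v') = lab ⟨_, _, c4⟩ := ext_eq lab c4
    have a13 := anti u v c1 c3 hu hv
    have a24 := anti u' v' c2 c4 hu' hv'
    have c1' : ∀ l, ¬ (mid l (a0 + (p - (p - u))) ∧ mid l (b0 + (p - (p - v)))) := by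
      rw [Nat.sub_sub_self hu, Nat.sub_sub_self hv]; exact c1
    have c2' : ∀ l, ¬ (mid l (a0 + (p - (p - u'))) ∧ mid l (b0 + (p - (p - v')))) := by
      rw [Nat.sub_sub_self hu', Nat.sub_sub_self hv']; exact c2
    have a31 := anti (p - u) (p - v) c3 c1' (by omega) (by omega)
    have a42 := anti (p - u') (p - v') c4 c2' (by omega) (by omega)
    rw [e1, e2, e3, e4]
    set x : XX := ⟨a0 + u, b0 + v, c1⟩ with hx
    set y : XX := ⟨a0 + u', b0 + v', c2⟩ with hy
    set x' : XX := ⟨a0 + (p - u), b0 + (p - v), c3⟩ with hx'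
    set y' : XX := ⟨a0 + (p - u'), b0 + (p - v'), c4⟩ with hy'
    have ex : (⟨a0 + (p - (p - u)), b0 + (p - (p - v)), c1'⟩ : XX) = x := by
      simp only [hx, Nat.sub_sub_self hu, Nat.sub_sub_self hv]
    have ey : (⟨a0 + (p - (p - u')), b0 + (p - (p - v')), c2'⟩ : XX) = y := by
      simp only [hy, Nat.sub_sub_self hu', Nat.sub_sub_self hv']
    rw [ex] at a31
    rw [ey] at a42
    have dxy : d1 x y ≤ 1 := by
      simp only [d1, hx, hy, Nat.dist]; omega
    have dyx : d1 y x ≤ 1 := by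
      simp only [d1, hx, hy, Nat.dist]; omega
    have dxy' : d1 x' y' ≤ 1 := by
      simp only [d1, hx', hy', Nat.dist]; omega
    have dyx' : d1 y' x' ≤ 1 := by
      simp only [d1, hx', hy', Nat.dist]; omega
    have d0 : ∀ z : XX, d1 z z ≤ 1 := by
      intro z; simp [d1, Nat.dist_self]
    have N : ∀ z w : XX, (z = x ∨ z = y ∨ z = x' ∨ z = y') → (w = x ∨ w = y ∨ w = x' ∨ w = y') →
        Near z w := by
      intro z w hz hw
      rcases hz with rfl | rfl | rfl | rfl <;> rcases hw with rfl | rfl | rfl | rfl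
      · exact Or.inl ((d0 _).trans (by norm_num))
      · exact Or.inl (dxy.trans (by norm_num))
      · exact Or.inr ⟨j, _, a13, d0 _⟩
      · exact Or.inr ⟨j, _, a13, dxy'⟩
      · exact Or.inl (dyx.trans (by norm_num))
      · exact Or.inl ((d0 _).trans (by norm_num))
      · exact Or.inr ⟨j, _, a24, dyx'⟩
      · exact Or.inr ⟨j, _, a24, d0 _⟩
      · exact Or.inr ⟨j, _, a31, d0 _⟩
      · exact Or.inr ⟨j, _, a31, dxy⟩
      · exact Or.inl ((d0 _).trans (by norm_num))
      · exact Or.inl (dxy'.trans (by norm_num))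
      · exact Or.inr ⟨j, _, a42, dyx⟩
      · exact Or.inr ⟨j, _, a42, d0 _⟩
      · exact Or.inl (dyx'.trans (by norm_num))
      · exact Or.inl ((d0 _).trans (by norm_num))
    refine four (hlab _) (hlab _) (hlab _) (hlab _) ?_
    rintro ⟨h1, h2, h3⟩
    have pick : ∀ c, (lab x = c ∨ lab y = c ∨ lab x' = c ∨ lab y' = c) →
        ∃ z, (z = x ∨ z = y ∨ z = x' ∨ z = y') ∧ lab z = c := by
      intro c hc
      rcases hc with h | h | h | h
      · exact ⟨x, Or.inl rfl, h⟩
      · exact ⟨y, Or.inr (Or.inl rfl), h⟩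
      · exact ⟨x', Or.inr (Or.inr (Or.inl rfl)), h⟩
      · exact ⟨y', Or.inr (Or.inr (Or.inr rfl)), h⟩
    obtain ⟨z1, hz1, l1⟩ := pick 1 h1
    obtain ⟨z2, hz2, l2⟩ := pick 2 h2
    obtain ⟨z3, hz3, l3⟩ := pick 3 h3
    exact hsp z1 z2 z3 (N _ _ hz1 hz2) (N _ _ hz2 hz3) (N _ _ hz1 hz3) ⟨l1, l2, l3⟩
  have hbd : bd (ext lab) a0 b0 p p =
      (∑ i ∈ Finset.range p, (chi (M i 0) (M (i + 1) 0) + chi (M i p) (M (i + 1) p))) +
      ∑ i ∈ Finset.range p, (chi (M 0 i) (M 0 (i + 1)) + chi (M p i) (M p (i + 1))) := rfl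
  rw [hbd]
  have r1 : ∑ i ∈ Finset.range p, (chi (M i 0) (M (i + 1) 0) + chi (M i p) (M (i + 1) p)) =
      chi (M 0 0) (M p p) + chi (M p 0) (M 0 p) := by
    rw [Finset.sum_add_distrib, ← Finset.sum_range_reflect (fun i => chi (M i p) (M (i + 1) p)),
      ← Finset.sum_add_distrib]
    have : ∀ i ∈ Finset.range p, (chi (M i 0) (M (i + 1) 0) +
        chi (M (p - 1 - i) p) (M (p - 1 - i + 1) p)) =
        (fun i => chi (M i 0) (M (p - i) (p - 0))) i +
          (fun i => chi (M i 0) (M (p - i) (p - 0))) (i + 1) := by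
      intro i hi
      have hi' := Finset.mem_range.1 hi
      have k := key i 0 (i + 1) 0 (by omega) (by omega) (by omega) (by omega) (by omega)
        (by omega) (by omega)
      rw [chi_comm (M (p - 1 - i) p), show p - 1 - i + 1 = p - i by omega,
        show p - 1 - i = p - (i + 1) by omega]
      exact k
    rw [Finset.sum_congr rfl this, tele]
    simp only [Nat.sub_zero, Nat.sub_self]
  have r2 : ∑ i ∈ Finset.range p, (chi (M 0 i) (M 0 (i + 1)) + chi (M p i) (M p (i + 1))) =
      chi (M p 0) (M 0 p) + chi (M p p) (M 0 0) := by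
    rw [Finset.sum_add_distrib, ← Finset.sum_range_reflect (fun i => chi (M 0 i) (M 0 (i + 1))),
      ← Finset.sum_add_distrib]
    have : ∀ i ∈ Finset.range p, (chi (M 0 (p - 1 - i)) (M 0 (p - 1 - i + 1)) +
        chi (M p i) (M p (i + 1))) =
        (fun i => chi (M p i) (M (p - p) (p - i))) i +
          (fun i => chi (M p i) (M (p - p) (p - i))) (i + 1) := by
      intro i hi
      have hi' := Finset.mem_range.1 hi
      have k := key p i p (i + 1) (by omega) (by omega) (by omega) (by omega) (by omega)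
        (by omega) (by omega)
      rw [add_comm, chi_comm (M 0 (p - 1 - i)), show p - 1 - i + 1 = p - i by omega,
        show p - 1 - i = p - (i + 1) by omega]
      rw [Nat.sub_self] at k
      simp only [Nat.sub_self]
      exact k
    rw [Finset.sum_congr rfl this, tele]
    simp only [Nat.sub_zero, Nat.sub_self]
  rw [r1, r2, chi_comm (M p p) (M 0 0)]
  have := two (chi (M 0 0) (M p p) + chi (M p 0) (M 0 p))
  rw [← this]
  ring

end Pool.Agent.H626R3.CT.T_TRing285
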