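import Pool.Agent.H626R3.CT.Stmts

/-!
# Schur's test
-/

set_option autoImplicit false

open scoped Classical symmDiff

namespace Pool.Agent.H626R3.CT.T_TSchur

lemma inner_dl {Y : Type} (g : L2 Y) (y : Y) : inner ℂ (dl y) g = g y := by
  unfold dl
  rw [lp.inner_single_left]
  simp

lemma single_eq {Y : Type} (y : Y) (c : ℂ) :
    lp.single (E := fun _ : Y => ℂ) 2 y c = c • dl y := by
  unfold dl
  rw [← lp.single_smul, smul_eq_mul, mul_one]

theorem ok : Pool.Agent.H626R3.CT.TSchur := by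
  intro Y T C hC hrow hcol
  refine ContinuousLinearMap.opNorm_le_bound T hC fun f => ?_
  have hp : (0 : ℝ) < (2 : ENNReal).toReal := by norm_num
  have h1 : HasSum (fun y => (f y) • dl y) f := by
    have := lp.hasSum_single (E := fun _ : Y => ℂ) (p := 2) (by norm_num) f
    simpa only [single_eq] using this
  have h2 : HasSum (fun y => (f y) • T (dl y)) (T f) := by
    have := h1.mapL T
    simpa only [map_smul] using this
  refine le_of_tendsto (h2.norm) (Filter.Eventually.of_forall fun s => ?_)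
  have hCf : 0 ≤ C * ‖f‖ := mul_nonneg hC (norm_nonneg _)
  refine lp.norm_le_of_forall_sum_le hp hCf fun s' => ?_
  have h3 : ∀ y', (∑ y ∈ s, (f y) • T (dl y) : L2 Y) y' = ∑ y ∈ s, f y * ent T y' y := by
    intro y'
    rw [← inner_dl, inner_sum]
    refine Finset.sum_congr rfl fun y _ => ?_
    rw [inner_smul_right]
    rfl
  have h4 : ∑ y ∈ s, ‖f y‖ ^ 2 ≤ ‖f‖ ^ 2 := by
    have := lp.sum_rpow_le_norm_rpow hp f s
    simpa using this
  have h5 : ∀ y', ‖(∑ y ∈ s, (f y) • T (dl y) : L2 Y) y'‖ ^ 2 ≤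
      C * ∑ y ∈ s, ‖ent T y' y‖ * ‖f y‖ ^ 2 := by
    intro y'
    rw [h3]
    have h6 : ‖∑ y ∈ s, f y * ent T y' y‖ ≤ ∑ y ∈ s, ‖ent T y' y‖ * ‖f y‖ := by
      refine (norm_sum_le _ _).trans (Finset.sum_le_sum fun y _ => ?_)
      rw [norm_mul, mul_comm]
    have h7 : (∑ y ∈ s, ‖ent T y' y‖ * ‖f y‖) ^ 2 ≤
        (∑ y ∈ s, ‖ent T y' y‖) * ∑ y ∈ s, ‖ent T y' y‖ * ‖f y‖ ^ 2 := by
      apply Finset.sum_sq_le_sum_mul_sum_of_sq_eq_mul
      · intro i _; positivity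
      · intro i _; positivity
      · intro i _; ring
    calc ‖∑ y ∈ s, f y * ent T y' y‖ ^ 2 ≤ (∑ y ∈ s, ‖ent T y' y‖ * ‖f y‖) ^ 2 :=
          pow_le_pow_left₀ (norm_nonneg _) h6 2
      _ ≤ _ := h7
      _ ≤ C * ∑ y ∈ s, ‖ent T y' y‖ * ‖f y‖ ^ 2 := by
          apply mul_le_mul_of_nonneg_right (hcol y' s)
          exact Finset.sum_nonneg fun i _ => by positivity
  have h8 : ∑ y' ∈ s', ‖(∑ y ∈ s, (f y) • T (dl y) : L2 Y) y'‖ ^ 2 ≤ (C * ‖f‖) ^ 2 := by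
    calc ∑ y' ∈ s', ‖(∑ y ∈ s, (f y) • T (dl y) : L2 Y) y'‖ ^ 2
        ≤ ∑ y' ∈ s', C * ∑ y ∈ s, ‖ent T y' y‖ * ‖f y‖ ^ 2 := Finset.sum_le_sum fun y' _ => h5 y'
      _ = C * ∑ y ∈ s, (∑ y' ∈ s', ‖ent T y' y‖) * ‖f y‖ ^ 2 := by
          rw [← Finset.mul_sum, Finset.sum_comm]
          congr 1
          refine Finset.sum_congr rfl fun y _ => ?_
          rw [Finset.sum_mul]
      _ ≤ C * ∑ y ∈ s, C * ‖f y‖ ^ 2 := by
          apply mul_le_mul_of_nonneg_left _ hC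
          exact Finset.sum_le_sum fun y _ => mul_le_mul_of_nonneg_right (hrow y s') (by positivity)
      _ = C ^ 2 * ∑ y ∈ s, ‖f y‖ ^ 2 := by rw [← Finset.mul_sum]; ring
      _ ≤ C ^ 2 * ‖f‖ ^ 2 := mul_le_mul_of_nonneg_left h4 (by positivity)
      _ = (C * ‖f‖) ^ 2 := by ring
  simpa using h8

end Pool.Agent.H626R3.CT.T_TSchur
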