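import Pool.Agent.H626R3.CT.Stmts

/-!
# One step (helper504 for helper626)
-/

set_option autoImplicit false

open scoped Classical symmDiff

namespace Pool.Agent.H626R3.CT.T_TStep

open Pool.Agent.H626R3.CT

theorem n_eq (j : ℕ) : n j = 3 ^ (2 * (j + 1) ^ 2) := by
  unfold n t
  have h : 0 < 2 * (j + 1) ^ 2 := by positivity
  rw [← pow_succ', Nat.sub_add_cancel h]

theorem n_pos (j : ℕ) : 0 < n j := by
  rw [n_eq]
  positivity

theorem n_dvd {j i : ℕ} (h : j ≤ i) : n j ∣ n i := by
  rw [n_eq, n_eq]
  exact pow_dvd_pow 3 (by gcongr)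

theorem n_mul {j i : ℕ} (h : j < i) : n j * i ≤ n i := by
  rw [n_eq, n_eq]
  calc 3 ^ (2 * (j + 1) ^ 2) * i ≤ 3 ^ (2 * (j + 1) ^ 2) * 3 ^ i := by
        gcongr
        exact (Nat.lt_pow_self (by norm_num)).le
    _ = 3 ^ (2 * (j + 1) ^ 2 + i) := (pow_add _ _ _).symm
    _ ≤ 3 ^ (2 * (i + 1) ^ 2) := by
        apply Nat.pow_le_pow_right (by norm_num)
        have : (j + 1) ^ 2 ≤ i ^ 2 := Nat.pow_le_pow_left h 2
        nlinarith

theorem le_n (i : ℕ) : i ≤ n i := by
  rw [n_eq]
  calc i ≤ 3 ^ i := (Nat.lt_pow_self (by norm_num)).le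
    _ ≤ 3 ^ (2 * (i + 1) ^ 2) := by
        apply Nat.pow_le_pow_right (by norm_num)
        nlinarith

theorem refl_div (j a : ℕ) : refl j a / n j = a / n j := by
  unfold refl
  have h := n_pos j
  rw [Nat.mul_add_div (n_pos j), Nat.div_eq_of_lt (a := n j - 1 - a % n j) (by omega), add_zero]

theorem refl_dist (j a : ℕ) : Nat.dist a (refl j a) ≤ n j := by
  unfold refl Nat.dist
  have h1 := Nat.div_add_mod a (n j)
  have h2 := Nat.mod_lt a (n_pos j)
  omega

theorem refl_div_of_lt {j i : ℕ} (h : j < i) (a : ℕ) : refl j a / n i = a / n i := by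
  obtain ⟨m, hm⟩ := n_dvd h.le
  rw [hm, ← Nat.div_div_eq_div_mul, ← Nat.div_div_eq_div_mul, refl_div]

theorem cross {i R a a' : ℕ} (h : a / n i ≠ a' / n i) (hd : Nat.dist a a' ≤ R) :
    (n i : ℝ) - 2 * R ≤ |sc i a| := by
  have h1 := Nat.div_add_mod a (n i)
  have h1' := Nat.div_add_mod a' (n i)
  have h2 := Nat.mod_lt a (n_pos i)
  have h2' := Nat.mod_lt a' (n_pos i)
  unfold Nat.dist at hd
  have hkey : n i ≤ a % n i + R ∨ a % n i + 1 ≤ R := by
    rcases Nat.lt_or_gt_of_ne h with h3 | h3
    · left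
      have h4 : n i * (a / n i + 1) ≤ n i * (a' / n i) := Nat.mul_le_mul_left _ h3
      rw [Nat.mul_add, mul_one] at h4
      omega
    · right
      have h4 : n i * (a' / n i + 1) ≤ n i * (a / n i) := Nat.mul_le_mul_left _ h3
      rw [Nat.mul_add, mul_one] at h4
      omega
  unfold sc
  rcases hkey with h3 | h3
  · have h4 : (n i : ℝ) ≤ ((a % n i : ℕ) : ℝ) + R := by exact_mod_cast h3
    refine le_trans ?_ (le_abs_self _)
    linarith
  · have h4 : ((a % n i : ℕ) : ℝ) + 1 ≤ R := by exact_mod_cast h3
    refine le_trans ?_ (neg_le_abs _)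
    linarith

theorem same_range {i j : ℕ} (h : j ≤ i) (F : Finset ℕ) :
    Same i F (F ∆ Finset.range (j + 1)) := by
  intro l hl
  rw [Finset.mem_symmDiff, Finset.mem_range]
  constructor
  · intro h1
    exact Or.inl ⟨h1, by omega⟩
  · rintro (h1 | h1)
    · exact h1.1
    · omega

theorem eta_congr {i : ℕ} {F G : Finset ℕ} (h1 : i ∈ F ↔ i ∈ G) (h2 : i + 1 ∈ F ↔ i + 1 ∈ G) :
    eta i F = eta i G := by
  unfold eta
  by_cases h3 : i ∈ F ↔ i + 1 ∈ F
  · rw [if_pos h3, if_pos (by rw [← h1, ← h2]; exact h3)]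
  · rw [if_neg h3, if_neg (by rw [← h1, ← h2]; exact h3)]

theorem ok : Pool.Agent.H626R3.CT.TStep := by
  intro hIn hBd hAnti R ε hε
  obtain ⟨δ1, hδ1, h1⟩ := hIn ε hε
  obtain ⟨δ2, hδ2, i2, h2⟩ := hBd (ε / 4) (by positivity)
  obtain ⟨i3, h3⟩ := hAnti ε hε
  obtain ⟨K1, hK1⟩ := exists_nat_ge ((R + 2) / δ1)
  obtain ⟨K2, hK2⟩ := exists_nat_ge ((2 * R) / δ2)
  obtain ⟨K3, hK3⟩ := exists_nat_ge ((2 * R) / (ε / 4))
  refine ⟨i2 + i3 + R + 1 + K1 + K2 + K3, ?_⟩
  intro i hi w hw y y' hS
  have hni : (i : ℝ) ≤ n i := by exact_mod_cast le_n i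
  have hnpos : (0 : ℝ) < n i := by exact_mod_cast n_pos i
  have c1 : (R : ℝ) + 2 ≤ δ1 * i := by
    rw [div_le_iff₀ hδ1] at hK1
    have : (K1 : ℝ) ≤ i := by exact_mod_cast (by omega : K1 ≤ i)
    nlinarith
  have c2 : 2 * (R : ℝ) ≤ δ2 * n i := by
    rw [div_le_iff₀ hδ2] at hK2
    have : (K2 : ℝ) ≤ n i := le_trans (by exact_mod_cast (by omega : K2 ≤ i)) hni
    nlinarith
  have c3 : 2 * (R : ℝ) ≤ ε / 4 * n i := by
    rw [div_le_iff₀ (by positivity)] at hK3
    have : (K3 : ℝ) ≤ n i := le_trans (by exact_mod_cast (by omega : K3 ≤ i)) hni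
    nlinarith
  have hi1 : 1 ≤ i := by omega
  rcases hS with ⟨hF, hd⟩ | ⟨j, hA, hF⟩ | ⟨hx, l, hl, hF⟩
  · -- translation
    left
    have hdR : d1 y.x y'.x ≤ R := by omega
    have hsame : Same i y.F y'.F := by
      rw [hF]
      intro l _
      exact Iff.rfl
    have hd5 : d1 y.x y'.x ≤ 5 * n i := by
      have := le_n i
      omega
    by_cases hblock : y.x.a / n i = y'.x.a / n i ∧ y.x.b / n i = y'.x.b / n i
    · have h4 := h1 i y y' hblock.1 hblock.2 (by rw [hF]) (by
        have h5 : (d1 y.x y'.x : ℝ) ≤ R := by exact_mod_cast hdR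
        have h6 : δ1 * i ≤ δ1 * n i := mul_le_mul_of_nonneg_left hni hδ1.le
        linarith)
      exact ⟨h4.1, h4.2, hsame, hd5⟩
    · have hda : Nat.dist y.x.a y'.x.a ≤ R := by
        unfold d1 at hdR
        omega
      have hdb : Nat.dist y.x.b y'.x.b ≤ R := by
        unfold d1 at hdR
        omega
      have hda' : Nat.dist y'.x.a y.x.a ≤ R := by rw [Nat.dist_comm]; exact hda
      have hdb' : Nat.dist y'.x.b y.x.b ≤ R := by rw [Nat.dist_comm]; exact hdb
      have hy : (n i : ℝ) - 2 * R ≤ mm (sc i y.x.a) (sc i y.x.b) := by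
        unfold mm
        by_cases ha : y.x.a / n i = y'.x.a / n i
        · have hb : y.x.b / n i ≠ y'.x.b / n i := fun hb => hblock ⟨ha, hb⟩
          exact (cross hb hdb).trans (le_max_right _ _)
        · exact (cross ha hda).trans (le_max_left _ _)
      have hy' : (n i : ℝ) - 2 * R ≤ mm (sc i y'.x.a) (sc i y'.x.b) := by
        unfold mm
        by_cases ha : y.x.a / n i = y'.x.a / n i
        · have hb : y'.x.b / n i ≠ y.x.b / n i := fun hb => hblock ⟨ha, hb.symm⟩
          exact (cross hb hdb').trans (le_max_right _ _)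
        · exact (cross (Ne.symm ha) hda').trans (le_max_left _ _)
      have e1 := h2 i (by omega) y (by nlinarith)
      have e2 := h2 i (by omega) y' (by nlinarith)
      have habs : ∀ a b : ℕ, Nat.dist a b ≤ R → |(a : ℝ) - b| ≤ R := by
        intro a b hab
        unfold Nat.dist at hab
        rw [abs_le]
        constructor
        · have : b ≤ a + R := by omega
          have : (b : ℝ) ≤ a + R := by exact_mod_cast this
          linarith
        · have : a ≤ b + R := by omega
          have : (a : ℝ) ≤ b + R := by exact_mod_cast this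
          linarith
      have a1 := habs _ _ hda
      have a2 := habs _ _ hdb
      have g1 := e1.1
      have g2 := e1.2
      have g3 := e2.1
      have g4 := e2.2
      rw [abs_le] at a1 a2 g1 g2 g3 g4
      refine ⟨?_, ?_, hsame, hd5⟩
      · rw [abs_le]
        constructor <;> linarith
      · rw [abs_le]
        constructor <;> linarith
  · -- antipodal points
    have hdj : d1 y.x y'.x ≤ 2 * n j := by
      unfold d1
      rw [hA.2.2.1, hA.2.2.2]
      have e1 := refl_dist j y.x.a
      have e2 := refl_dist j y.x.b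
      omega
    rcases lt_trichotomy i j with hij | hij | hij
    · right
      exact ⟨j, hij, hA, hF⟩
    · left
      subst hij
      have h4 := h3 i (by omega) y y' hA hF
      refine ⟨h4.1, h4.2, ?_, by omega⟩
      rw [hF]
      exact same_range le_rfl _
    · left
      have hnn : n j * i ≤ n i := n_mul hij
      have hnn' : (n j : ℝ) * i ≤ n i := by exact_mod_cast hnn
      have hj0 : (0 : ℝ) ≤ n j := Nat.cast_nonneg _
      have h4 := h1 i y y' (by rw [hA.2.2.1, refl_div_of_lt hij])
        (by rw [hA.2.2.2, refl_div_of_lt hij])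
        (by
          rw [hF]
          refine eta_congr ?_ ?_
          · rw [Finset.mem_symmDiff, Finset.mem_range]
            constructor
            · intro h1
              exact Or.inl ⟨h1, by omega⟩
            · rintro (h1 | h1)
              · exact h1.1
              · omega
          · rw [Finset.mem_symmDiff, Finset.mem_range]
            constructor
            · intro h1
              exact Or.inl ⟨h1, by omega⟩
            · rintro (h1 | h1)
              · exact h1.1
              · omega)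
        (by
          have h5 : (d1 y.x y'.x : ℝ) ≤ 2 * n j := by exact_mod_cast hdj
          have hR0 : (0 : ℝ) ≤ R := Nat.cast_nonneg _
          have h6 : (2 : ℝ) * n j ≤ δ1 * i * n j := by nlinarith
          have h7 : δ1 * (n j * i) ≤ δ1 * n i := mul_le_mul_of_nonneg_left hnn' hδ1.le
          nlinarith)
      refine ⟨h4.1, h4.2, ?_, ?_⟩
      · rw [hF]
        exact same_range hij.le _
      · have h8 : n j ≤ n i := Nat.le_of_dvd (n_pos i) (n_dvd hij.le)
        omega
  · -- flip
    left
    have heta : eta i y.F = eta i y'.F := by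
      rw [hF]
      refine eta_congr ?_ ?_
      · rw [Finset.mem_symmDiff, Finset.mem_singleton]
        constructor
        · intro h1
          exact Or.inl ⟨h1, by omega⟩
        · rintro (h1 | h1)
          · exact h1.1
          · omega
      · rw [Finset.mem_symmDiff, Finset.mem_singleton]
        constructor
        · intro h1
          exact Or.inl ⟨h1, by omega⟩
        · rintro (h1 | h1)
          · exact h1.1
          · omega
    have hP1 : P1 i y = P1 i y' := by
      unfold P1
      rw [hx, heta]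
    have hP2 : P2 i y = P2 i y' := by
      unfold P2
      rw [hx, heta]
    refine ⟨?_, ?_, ?_, ?_⟩
    · rw [hP1, sub_self, abs_zero]
      positivity
    · rw [hP2, sub_self, abs_zero]
      positivity
    · rw [hF]
      intro l' hl'
      rw [Finset.mem_symmDiff, Finset.mem_singleton]
      constructor
      · intro h1
        exact Or.inl ⟨h1, by omega⟩
      · rintro (h1 | h1)
        · exact h1.1
        · omega
    · rw [hx]
      unfold d1 Nat.dist
      omega

end Pool.Agent.H626R3.CT.T_TStep
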