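import Pool.Agent.H626R3.CT.Stmts

/-!
# `TSum`: assembly of the parity argument (helper662)
-/

set_option autoImplicit false

open scoped Classical

namespace Pool.Agent.H626R3.CT.T_TSum

open Pool.Agent.H626R3.CT

theorem t_pos (j : ℕ) : 1 ≤ t j := Nat.one_le_iff_ne_zero.2 (pow_ne_zero _ (by norm_num))

theorem n_eq (j : ℕ) : n j = 3 * t j := rfl

theorem t_mono {j l : ℕ} (h : j ≤ l) : t j ≤ t l := by
  unfold t
  apply Nat.pow_le_pow_right (by norm_num)
  have : (j + 1) ^ 2 ≤ (l + 1) ^ 2 := Nat.pow_le_pow_left (by omega) 2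
  omega

theorem n_dvd {j k : ℕ} (h : j < k) : n j ∣ t k := by
  have e : n j = 3 ^ (2 * (j + 1) ^ 2) := by
    rw [n_eq]
    unfold t
    have h1 : 1 ≤ (j + 1) ^ 2 := Nat.one_le_pow _ _ (by omega)
    have h2 : 2 * (j + 1) ^ 2 = (2 * (j + 1) ^ 2 - 1) + 1 := by omega
    conv_rhs => rw [h2, pow_succ]
    rw [mul_comm]
  rw [e]
  unfold t
  apply pow_dvd_pow
  have h1 : (j + 1) ^ 2 ≤ k ^ 2 := Nat.pow_le_pow_left (by omega) 2
  have h2 : (k + 1) ^ 2 = k ^ 2 + 2 * k + 1 := by ring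
  omega

/-- one coordinate of a region -/
theorem coord (m a A : ℕ) : ((t m - 1 ≤ a % n m ∧ a % n m ≤ 2 * t m - 1) ∧ a / n m = A) ↔
    ∃ i, i < t m + 1 ∧ n m * A + (t m - 1) + i = a := by
  have ht := t_pos m
  have hn : 0 < n m := by rw [n_eq]; omega
  constructor
  · rintro ⟨⟨h1, h2⟩, rfl⟩
    refine ⟨a % n m - (t m - 1), by omega, ?_⟩
    have h3 := Nat.div_add_mod a (n m)
    omega
  · rintro ⟨i, hi, rfl⟩
    have hr : t m - 1 + i < n m := by rw [n_eq]; omega
    rw [add_assoc, Nat.mul_add_mod, Nat.mod_eq_of_lt hr, Nat.mul_add_div hn,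
      Nat.div_eq_of_lt hr]
    omega

theorem region (m a b A B : ℕ) : (inreg m a b ∧ a / n m = A ∧ b / n m = B) ↔
    (∃ i, i < t m + 1 ∧ n m * A + (t m - 1) + i = a) ∧
      ∃ i, i < t m + 1 ∧ n m * B + (t m - 1) + i = b := by
  rw [← coord, ← coord]
  unfold inreg
  tauto

/-- regions of level at least `k` do not meet the square -/
theorem not_inreg {k l a b : ℕ} (h : k ≤ l) (ha : a < t k - 1) : ¬ inreg l a b := by
  rintro ⟨⟨h1, _⟩, _⟩
  have h2 := t_mono h
  have h3 := t_pos l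
  have h4 : a % n l = a := Nat.mod_eq_of_lt (by rw [n_eq]; omega)
  rw [h4] at h1
  omega

/-- a block of level `m < k` that meets `[0, t k)` is inside -/
theorem block_le {m k a : ℕ} (h : m < k) (ha : a < t k) : n m * (a / n m) + n m ≤ t k := by
  have hn : 0 < n m := by rw [n_eq]; have := t_pos m; omega
  obtain ⟨c, hc⟩ := n_dvd h
  have h1 : a / n m < c := by
    rw [Nat.div_lt_iff_lt_mul hn, mul_comm, ← hc]
    exact ha
  calc n m * (a / n m) + n m = n m * (a / n m + 1) := by ring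
    _ ≤ n m * c := Nat.mul_le_mul_left _ h1
    _ = t k := hc.symm

theorem chi_cycle (u v w x : ℕ) (hu : u = 1 ∨ u = 2 ∨ u = 3) (hv : v = 1 ∨ v = 2 ∨ v = 3)
    (hw : w = 1 ∨ w = 2 ∨ w = 3) (hx : x = 1 ∨ x = 2 ∨ x = 3)
    (h : ∀ p q r, (p = u ∨ p = v ∨ p = w ∨ p = x) → (q = u ∨ q = v ∨ q = w ∨ q = x) →
      (r = u ∨ r = v ∨ r = w ∨ r = x) → ¬ (p = 1 ∧ q = 2 ∧ r = 3)) :
    chi u v + chi v w + chi x w + chi u x = 0 := by
  have key := h 1 2 3
  rcases hu with rfl | rfl | rfl <;> rcases hv with rfl | rfl | rfl <;>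
    rcases hw with rfl | rfl | rfl <;> rcases hx with rfl | rfl | rfl <;>
    first
      | (exfalso; revert key; decide)
      | (unfold chi; decide)

theorem ext_eq (lab : XX → ℕ) (a b : ℕ) (h : ∀ j, ¬ (mid j a ∧ mid j b)) :
    ext lab a b = lab ⟨a, b, h⟩ := dif_pos h

theorem sq_zero (hF : TFull) (lab : XX → ℕ) (hlab : ∀ x, lab x = 1 ∨ lab x = 2 ∨ lab x = 3)
    (hnear : ∀ x y z, Near x y → Near y z → Near x z → ¬ (lab x = 1 ∧ lab y = 2 ∧ lab z = 3))
    (k a b : ℕ) (ha : a + 1 < t k) (hb : b + 1 < t k) (hno : ∀ j < k, ¬ inreg j a b) :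
    sq (ext lab) a b = 0 := by
  have hc := hF k a b ha hb hno
  have h00 := hc a b (Or.inl rfl) (Or.inl rfl)
  have h10 := hc (a + 1) b (Or.inr rfl) (Or.inl rfl)
  have h11 := hc (a + 1) (b + 1) (Or.inr rfl) (Or.inr rfl)
  have h01 := hc a (b + 1) (Or.inl rfl) (Or.inr rfl)
  unfold sq
  rw [ext_eq lab a b h00, ext_eq lab (a + 1) b h10, ext_eq lab (a + 1) (b + 1) h11,
    ext_eq lab a (b + 1) h01]
  have hpt : ∀ p, (p = lab ⟨a, b, h00⟩ ∨ p = lab ⟨a + 1, b, h10⟩ ∨ p = lab ⟨a + 1, b + 1, h11⟩ ∨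
      p = lab ⟨a, b + 1, h01⟩) →
      ∃ X : XX, (X.a = a ∨ X.a = a + 1) ∧ (X.b = b ∨ X.b = b + 1) ∧ lab X = p := by
    rintro p (rfl | rfl | rfl | rfl)
    · exact ⟨_, Or.inl rfl, Or.inl rfl, rfl⟩
    · exact ⟨_, Or.inr rfl, Or.inl rfl, rfl⟩
    · exact ⟨_, Or.inr rfl, Or.inr rfl, rfl⟩
    · exact ⟨_, Or.inl rfl, Or.inr rfl, rfl⟩
  have hd : ∀ X Y : XX, (X.a = a ∨ X.a = a + 1) → (X.b = b ∨ X.b = b + 1) →
      (Y.a = a ∨ Y.a = a + 1) → (Y.b = b ∨ Y.b = b + 1) → Near X Y := by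
    intro X Y h1 h2 h3 h4
    left
    unfold d1 Nat.dist
    omega
  apply chi_cycle _ _ _ _ (hlab _) (hlab _) (hlab _) (hlab _)
  rintro p q r hp hq hr ⟨rfl, rfl, rfl⟩
  obtain ⟨X, x1, x2, x3⟩ := hpt _ hp
  obtain ⟨Y, y1, y2, y3⟩ := hpt _ hq
  obtain ⟨Z, z1, z2, z3⟩ := hpt _ hr
  exact hnear X Y Z (hd X Y x1 x2 y1 y2) (hd Y Z y1 y2 z1 z2) (hd X Z x1 x2 z1 z2) ⟨x3, y3, z3⟩

/-- the squares in the region of level `m` and in no region of higher level `< k` -/
noncomputable def Q (k m : ℕ) : Finset (ℕ × ℕ) :=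
  (Finset.range (t k - 1) ×ˢ Finset.range (t k - 1)).filter fun x =>
    inreg m x.1 x.2 ∧ ∀ l, m < l → l < k → ¬ inreg l x.1 x.2

/-- the squares in no region of level `l`, `m ≤ l < k` -/
noncomputable def PP (k m : ℕ) : Finset (ℕ × ℕ) :=
  (Finset.range (t k - 1) ×ˢ Finset.range (t k - 1)).filter fun x =>
    ∀ l, m ≤ l → l < k → ¬ inreg l x.1 x.2

theorem sum_Q (hR : TRect) (hN : TNest) (hG : TRing) (lab : XX → ℕ)
    (hlab : ∀ x, lab x = 1 ∨ lab x = 2 ∨ lab x = 3)
    (hnear : ∀ x y z, Near x y → Near y z → Near x z → ¬ (lab x = 1 ∧ lab y = 2 ∧ lab z = 3))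
    (k m : ℕ) (hm : m < k) : ∑ x ∈ Q k m, sq (ext lab) x.1 x.2 = 0 := by
  rw [← Finset.sum_fiberwise_of_maps_to (s := Q k m)
    (t := (Q k m).image fun x => (x.1 / n m, x.2 / n m)) (g := fun x => (x.1 / n m, x.2 / n m))
    (fun x hx => Finset.mem_image_of_mem _ hx)]
  apply Finset.sum_eq_zero
  rintro ⟨A, B⟩ hAB
  obtain ⟨⟨a0, b0⟩, hx0, hx1⟩ := Finset.mem_image.1 hAB
  simp only [Prod.mk.injEq] at hx1
  obtain ⟨hA, hB⟩ := hx1
  have hx0' := hx0
  unfold Q at hx0'
  rw [Finset.mem_filter, Finset.mem_product, Finset.mem_range, Finset.mem_range] at hx0'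
  obtain ⟨⟨ha0, hb0⟩, hin0, hno0⟩ := hx0'
  simp only at ha0 hb0 hin0 hno0
  have ht := t_pos m
  have htk := t_pos k
  -- the whole region is in the square
  have hAle : n m * A + n m ≤ t k := by rw [← hA]; exact block_le hm (by omega)
  have hBle : n m * B + n m ≤ t k := by rw [← hB]; exact block_le hm (by omega)
  have hn := n_eq m
  have hset : (Q k m).filter (fun x => (x.1 / n m, x.2 / n m) = (A, B)) =
      (Finset.range (t m + 1) ×ˢ Finset.range (t m + 1)).image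
        (fun p => (n m * A + (t m - 1) + p.1, n m * B + (t m - 1) + p.2)) := by
    ext ⟨a, b⟩
    rw [Finset.mem_filter, Finset.mem_image]
    constructor
    · rintro ⟨h1, h2⟩
      simp only [Prod.mk.injEq] at h2
      unfold Q at h1
      rw [Finset.mem_filter] at h1
      obtain ⟨⟨i, hi, hi2⟩, ⟨j, hj, hj2⟩⟩ := (region m a b A B).1 ⟨h1.2.1, h2.1, h2.2⟩
      exact ⟨(i, j), by simp [hi, hj], by simp only [hi2, hj2]⟩
    · rintro ⟨⟨i, j⟩, hij, heq⟩
      rw [Finset.mem_product, Finset.mem_range, Finset.mem_range] at hij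
      simp only [Prod.mk.injEq] at hij heq
      obtain ⟨hi, hj⟩ := hij
      obtain ⟨h1, h2, h3⟩ := (region m a b A B).2 ⟨⟨i, hi, heq.1⟩, ⟨j, hj, heq.2⟩⟩
      refine ⟨?_, by simp only [h2, h3]⟩
      unfold Q
      rw [Finset.mem_filter, Finset.mem_product, Finset.mem_range, Finset.mem_range]
      refine ⟨⟨by simp only; omega, by simp only; omega⟩, h1, ?_⟩
      intro l hl hlk hin
      exact hno0 l hl hlk ((hN m l A B hl a b a0 b0 h1 hin0 h2 hA h3 hB).1 hin)
  rw [hset, Finset.sum_image, Finset.sum_product]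
  · simp only
    rw [hR]
    apply hG lab hlab hnear
    intro l hl hin
    obtain ⟨h1, h2, h3⟩ := (region m (n m * A + (t m - 1)) (n m * B + (t m - 1)) A B).2
      ⟨⟨0, by omega, rfl⟩, ⟨0, by omega, rfl⟩⟩
    have hin' := (hN m l A B hl _ _ a0 b0 h1 hin0 h2 hA h3 hB).1 hin
    by_cases hlk : l < k
    · exact hno0 l hl hlk hin'
    · exact not_inreg (not_lt.1 hlk) ha0 hin'
  · rintro ⟨i, j⟩ _ ⟨i', j'⟩ _ heq
    simp only [Prod.mk.injEq] at heq ⊢
    omega

theorem ok : TSum := by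
  intro hR hF hN hG k lab hlab hnear
  have htk := t_pos k
  -- the sum over all squares
  have h0 : bd (ext lab) 0 0 (t k - 1) (t k - 1) =
      ∑ x ∈ Finset.range (t k - 1) ×ˢ Finset.range (t k - 1), sq (ext lab) x.1 x.2 := by
    rw [← hR, Finset.sum_product]
    simp only [zero_add]
  have hstep : ∀ m, m ≤ k → ∑ x ∈ PP k m, sq (ext lab) x.1 x.2 = 0 := by
    intro m
    induction m with
    | zero =>
      intro _
      apply Finset.sum_eq_zero
      rintro ⟨a, b⟩ hx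
      unfold PP at hx
      rw [Finset.mem_filter, Finset.mem_product, Finset.mem_range, Finset.mem_range] at hx
      obtain ⟨⟨ha, hb⟩, hno⟩ := hx
      simp only at ha hb hno
      exact sq_zero hF lab hlab hnear k a b (by omega) (by omega)
        fun j hj => hno j (Nat.zero_le _) hj
    | succ m ih =>
      intro hm
      have hsplit : PP k (m + 1) = PP k m ∪ Q k m := by
        ext x
        unfold PP Q
        rw [Finset.mem_union, Finset.mem_filter, Finset.mem_filter, Finset.mem_filter]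
        constructor
        · rintro ⟨h1, h2⟩
          by_cases h3 : inreg m x.1 x.2
          · exact Or.inr ⟨h1, h3, fun l hl hlk => h2 l (by omega) hlk⟩
          · refine Or.inl ⟨h1, fun l hl hlk => ?_⟩
            rcases Nat.eq_or_lt_of_le hl with rfl | hl'
            · exact h3
            · exact h2 l (by omega) hlk
        · rintro (⟨h1, h2⟩ | ⟨h1, h2, h3⟩)
          · exact ⟨h1, fun l hl hlk => h2 l (by omega) hlk⟩
          · exact ⟨h1, fun l hl hlk => h3 l (by omega) hlk⟩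
      have hdisj : Disjoint (PP k m) (Q k m) := by
        rw [Finset.disjoint_left]
        intro x hx hx'
        unfold PP at hx
        unfold Q at hx'
        rw [Finset.mem_filter] at hx hx'
        exact hx.2 m le_rfl (by omega) hx'.2.1
      rw [hsplit, Finset.sum_union hdisj, ih (by omega),
        sum_Q hR hN hG lab hlab hnear k m (by omega), add_zero]
  have hfull : PP k k = Finset.range (t k - 1) ×ˢ Finset.range (t k - 1) := by
    unfold PP
    apply Finset.filter_true_of_mem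
    intro x _ l hl hlk
    omega
  rw [h0, ← hfull]
  exact hstep k le_rfl

end Pool.Agent.H626R3.CT.T_TSum
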