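import Pool.Agent.H626R3.CT.Stmts

set_option autoImplicit false

open scoped Classical

namespace Pool.Agent.H626R3.CT.T_TUlf

open Pool.Agent.H626R3.CT

theorem cum {V : Type} (S : ℕ → V → V → Prop)
    (hS : ∀ w, ∃ N : ℕ, ∀ x, {y | S w x y}.Finite ∧ {y | S w x y}.ncard ≤ N) (k : ℕ) :
    ∃ N : ℕ, ∀ x : V, ∃ s : Finset V, (∀ j ≤ k, ∀ y, Path S j x y → y ∈ s) ∧ s.card ≤ N := by
  choose M hM using hS
  induction k with
  | zero =>
    refine ⟨1, fun x => ⟨{x}, fun j hj y hy => ?_, by simp⟩⟩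
    cases hy with
    | nil => simp
    | cons h1 h2 => omega
  | succ k ih =>
    obtain ⟨N, hN⟩ := ih
    refine ⟨N + N * ∑ w ∈ Finset.range (k + 1), M w, fun x => ?_⟩
    obtain ⟨s, hs, hc⟩ := hN x
    refine ⟨s ∪ s.biUnion (fun y' => (Finset.range (k + 1)).biUnion
      (fun w => (hM w y').1.toFinset)), fun j hj y hy => ?_, ?_⟩
    · cases hy with
      | nil => exact Finset.mem_union_left _ (hs 0 (Nat.zero_le _) _ (Path.nil _))
      | @cons k' w _ y' _ h1 h2 =>
        refine Finset.mem_union_right _ (Finset.mem_biUnion.2 ⟨y', hs k' (by omega) y' h1, ?_⟩)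
        refine Finset.mem_biUnion.2 ⟨w, Finset.mem_range.2 (by omega), ?_⟩
        rw [Set.Finite.mem_toFinset]
        exact h2
    · refine (Finset.card_union_le _ _).trans (Nat.add_le_add hc ?_)
      refine (Finset.card_biUnion_le_card_mul _ _ (∑ w ∈ Finset.range (k + 1), M w)
        (fun y' _ => ?_)).trans (Nat.mul_le_mul_right _ hc)
      refine Finset.card_biUnion_le.trans (Finset.sum_le_sum fun w _ => ?_)
      rw [← Set.ncard_eq_toFinset_card _ (hM w y').1]
      exact (hM w y').2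

theorem ok : TUlf := by
  intro V S _ hd hp hS r
  obtain ⟨N, hN⟩ := cum S hS ⌊r⌋₊
  refine ⟨N, fun x => ?_⟩
  obtain ⟨s, hs, hc⟩ := hN x
  have hsub : Metric.closedBall x r ⊆ (s : Set V) := by
    intro y hy
    rw [Metric.mem_closedBall, dist_comm, hd] at hy
    have h1 : Path S (pd S x y) x y := Nat.sInf_mem (hp x y)
    exact hs _ (Nat.le_floor hy) y h1
  refine ⟨s.finite_toSet.subset hsub, (Set.ncard_le_ncard hsub s.finite_toSet).trans ?_⟩
  rw [Set.ncard_coe_finset]
  exact hc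

end Pool.Agent.H626R3.CT.T_TUlf
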