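import Pool.Agent.H626R3.CT.Stmts

set_option autoImplicit false

open scoped Classical symmDiff

namespace Pool.Agent.H626R3.CT.T_TUni

/-- a combination with the coefficients `cf` -/
noncomputable def xi {V : Type} [AddCommGroup V] [Module ℂ V] (w : ℕ → ℂ) (L : ℕ)
    (f : Finset ℕ → V) : V :=
  ∑ S ∈ (Finset.range L).powerset, cf w L S • f S

theorem cf_succ (w : ℕ → ℂ) (L : ℕ) (S : Finset ℕ) (h : L ∉ S) :
    cf w (L + 1) S = cf w L S * ((1 + w L) / 2) := by
  unfold cf
  rw [Finset.prod_range_succ, if_neg h]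

theorem cf_succ_insert (w : ℕ → ℂ) (L : ℕ) (S : Finset ℕ) :
    cf w (L + 1) (insert L S) = cf w L S * ((1 - w L) / 2) := by
  unfold cf
  rw [Finset.prod_range_succ, if_pos (Finset.mem_insert_self _ _)]
  congr 1
  refine Finset.prod_congr rfl fun l hl => ?_
  have : l ≠ L := (Finset.mem_range.1 hl).ne
  simp [Finset.mem_insert, this]

theorem xi_succ {V : Type} [AddCommGroup V] [Module ℂ V] (w : ℕ → ℂ) (L : ℕ)
    (f : Finset ℕ → V) (hw : w L = 1) : xi w (L + 1) f = xi w L f := by
  unfold xi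
  rw [Finset.range_add_one, Finset.sum_powerset_insert Finset.notMem_range_self]
  have h1 : ∀ S ∈ (Finset.range L).powerset, cf w (L + 1) S • f S = cf w L S • f S := by
    intro S hS
    have : L ∉ S := fun h => by
      have := Finset.mem_powerset.1 hS h
      simp at this
    rw [cf_succ w L S this, hw]
    norm_num
  have h2 : ∀ S ∈ (Finset.range L).powerset,
      cf w (L + 1) (insert L S) • f (insert L S) = 0 := by
    intro S _
    rw [cf_succ_insert w L S, hw]
    norm_num
  rw [Finset.sum_congr rfl h1, Finset.sum_eq_zero h2, add_zero]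

theorem xi_le {V : Type} [AddCommGroup V] [Module ℂ V] (w : ℕ → ℂ) (M L : ℕ)
    (f : Finset ℕ → V) (hw : ∀ l, M ≤ l → w l = 1) (hML : M ≤ L) : xi w L f = xi w M f := by
  induction L, hML using Nat.le_induction with
  | base => rfl
  | succ L hL ih => rw [xi_succ w L f (hw L hL), ih]

theorem xi_eq {V : Type} [AddCommGroup V] [Module ℂ V] (w : ℕ → ℂ) (M L : ℕ)
    (f : Finset ℕ → V) (hM : ∀ l, M ≤ l → w l = 1) (hL : ∀ l, L ≤ l → w l = 1) :
    xi w L f = xi w M f := by
  rw [← xi_le w M (max M L) f hM (le_max_left _ _), ← xi_le w L (max M L) f hL (le_max_right _ _)]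

theorem cf_one (L : ℕ) (D : Finset ℕ) (hD : D ⊆ Finset.range L) :
    cf (fun _ => 1) L D = if D = ∅ then 1 else 0 := by
  unfold cf
  by_cases h : D = ∅
  · rw [if_pos h]
    refine Finset.prod_eq_one fun l _ => ?_
    rw [if_neg (by simp [h])]
    norm_num
  · rw [if_neg h]
    obtain ⟨l, hl⟩ := Finset.nonempty_iff_ne_empty.2 h
    refine Finset.prod_eq_zero (hD hl) ?_
    rw [if_pos hl]
    norm_num

theorem key (hc : TConv) (w : ℕ → ℂ) (hw : ∀ l, ‖w l‖ = 1) (L : ℕ) (D : Finset ℕ)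
    (hD : D ⊆ Finset.range L) :
    ∑ S ∈ (Finset.range L).powerset, (starRingEnd ℂ) (cf w L S) * cf w L (S ∆ D) =
      if D = ∅ then 1 else 0 := by
  rw [hc w w L D hD]
  have : (fun l => (starRingEnd ℂ) (w l) * w l) = fun _ => 1 := by
    funext l
    rw [Complex.conj_mul', hw l]
    norm_num
  rw [this, cf_one L D hD]

theorem inner_dl {X : Type} (x y : X) : (inner ℂ (dl x) (dl y) : ℂ) = if x = y then 1 else 0 := by
  unfold dl
  rw [lp.inner_single_left]
  simp [lp.single_apply, Pi.single_apply]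

theorem symm_dl {Y : Type} (b : HilbertBasis Y ℂ (L2 Y)) (y : Y) : b.repr.symm (dl y) = b y := by
  unfold dl
  exact b.repr_symm_single y

theorem symm_sub {L : ℕ} {S T : Finset ℕ} (hS : S ⊆ Finset.range L) (hT : T ⊆ Finset.range L) :
    S ∆ T ⊆ Finset.range L := by
  intro l hl
  rcases Finset.mem_symmDiff.1 hl with h | h
  · exact hS h.1
  · exact hT h.1

/-- the entries of the combination -/
theorem inner_dl_xi {X : Type} (w : ℕ → ℂ) (L : ℕ) (x' x : X) (F' F : Finset ℕ)
    (hF : F' ∆ F ⊆ Finset.range L) :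
    (inner ℂ (dl (x', F')) (xi w L (fun S => dl (x, F ∆ S))) : ℂ) =
      if x' = x then cf w L (F' ∆ F) else 0 := by
  unfold xi
  rw [inner_sum]
  simp only [inner_smul_right, inner_dl, Prod.mk.injEq]
  by_cases hx : x' = x
  · rw [if_pos hx]
    rw [Finset.sum_eq_single (F' ∆ F)]
    · rw [if_pos, mul_one]
      refine ⟨hx, ?_⟩
      rw [symmDiff_comm F' F, symmDiff_symmDiff_cancel_left]
    · intro S _ hS
      rw [if_neg, mul_zero]
      rintro ⟨_, h⟩
      apply hS
      rw [h, symmDiff_comm, symmDiff_symmDiff_cancel_left]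
    · intro h
      exact absurd (Finset.mem_powerset.2 hF) h
  · rw [if_neg hx]
    refine Finset.sum_eq_zero fun S _ => ?_
    rw [if_neg (fun h => hx h.1), mul_zero]

theorem orth {X : Type} (hc : TConv) (w : ℕ → ℂ) (hw : ∀ l, ‖w l‖ = 1) (L : ℕ) (x : X)
    (F' F : Finset ℕ) (hF : F' ∆ F ⊆ Finset.range L) :
    (inner ℂ (xi w L (fun S => dl (x, F' ∆ S))) (xi w L (fun S => dl (x, F ∆ S))) : ℂ) =
      if F' = F then 1 else 0 := by
  have h1 : (inner ℂ (xi w L (fun S => dl (x, F' ∆ S))) (xi w L (fun S => dl (x, F ∆ S))) : ℂ) =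
      ∑ S ∈ (Finset.range L).powerset, (starRingEnd ℂ) (cf w L S) * cf w L (S ∆ (F' ∆ F)) := by
    conv_lhs => rw [xi, sum_inner]
    refine Finset.sum_congr rfl fun S hS => ?_
    rw [inner_smul_left, inner_dl_xi w L x x (F' ∆ S) F, if_pos rfl]
    · congr 2
      rw [symmDiff_comm F' S, symmDiff_assoc]
    · rw [symmDiff_comm F' S, symmDiff_assoc]
      exact symm_sub (Finset.mem_powerset.1 hS) hF
  rw [h1, key hc w hw L _ hF]
  have : F' ∆ F = ∅ ↔ F' = F := symmDiff_eq_bot
  simp only [this]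

/-- the vectors of the basis are combinations of the new ones -/
theorem total {X : Type} (hc : TConv) (w : ℕ → ℂ) (hw : ∀ l, ‖w l‖ = 1) (L : ℕ) (x : X)
    (F : Finset ℕ) :
    ∑ S ∈ (Finset.range L).powerset, (starRingEnd ℂ) (cf w L S) •
      xi w L (fun T => dl (x, (F ∆ S) ∆ T)) = dl (x, F) := by
  have h1 : ∀ S ∈ (Finset.range L).powerset,
      xi w L (fun T => dl (x, (F ∆ S) ∆ T)) =
        ∑ D ∈ (Finset.range L).powerset, cf w L (S ∆ D) • dl (x, F ∆ D) := by
    intro S hS
    unfold xi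
    refine Finset.sum_bij' (fun T _ => S ∆ T) (fun D _ => S ∆ D) ?_ ?_ ?_ ?_ ?_
    · intro T hT
      exact Finset.mem_powerset.2 (symm_sub (Finset.mem_powerset.1 hS) (Finset.mem_powerset.1 hT))
    · intro T hT
      exact Finset.mem_powerset.2 (symm_sub (Finset.mem_powerset.1 hS) (Finset.mem_powerset.1 hT))
    · intro T _
      exact symmDiff_symmDiff_cancel_left _ _
    · intro T _
      exact symmDiff_symmDiff_cancel_left _ _
    · intro T _
      change cf w L T • dl (x, (F ∆ S) ∆ T) = _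
      rw [symmDiff_symmDiff_cancel_left, symmDiff_assoc]
  rw [Finset.sum_congr rfl (fun S hS => by rw [h1 S hS])]
  simp only [Finset.smul_sum, smul_smul]
  rw [Finset.sum_comm]
  simp only [← Finset.sum_smul]
  rw [Finset.sum_congr rfl (fun D hD => by rw [key hc w hw L D (Finset.mem_powerset.1 hD)])]
  rw [Finset.sum_eq_single ∅]
  · rw [if_pos rfl, one_smul]
    have : F ∆ (∅ : Finset ℕ) = F := symmDiff_bot F
    rw [this]
  · intro D _ hD
    rw [if_neg hD, zero_smul]
  · intro h
    exact absurd (Finset.empty_mem_powerset _) h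

theorem ok : Pool.Agent.H626R3.CT.TUni := by
  intro hc X u hu hfin
  choose L0 hL0 using hfin
  let ξ : X × Finset ℕ → L2 (X × Finset ℕ) := fun y =>
    xi (fun l => u l y.1) (L0 y.1) (fun S => dl (y.1, y.2 ∆ S))
  have hξ : ∀ (x : X) (F : Finset ℕ) (L : ℕ), (∀ l, L ≤ l → u l x = 1) →
      ξ (x, F) = xi (fun l => u l x) L (fun S => dl (x, F ∆ S)) := fun x F L hL =>
    xi_eq (fun l => u l x) L (L0 x) _ hL (hL0 x)
  have horth : Orthonormal ℂ ξ := by
    rw [orthonormal_iff_ite]
    rintro ⟨x', F'⟩ ⟨x, F⟩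
    by_cases hx : x' = x
    · subst hx
      obtain ⟨N, hN⟩ : ∃ N : ℕ, F' ∆ F ⊆ Finset.range N :=
        ⟨(F' ∆ F).sup id + 1, fun l hl => Finset.mem_range.2
          (Nat.lt_succ_of_le (Finset.le_sup (f := id) hl))⟩
      have hL : ∀ l, max (L0 x') N ≤ l → u l x' = 1 := fun l hl =>
        hL0 x' l ((le_max_left _ _).trans hl)
      rw [hξ x' F' _ hL, hξ x' F _ hL, orth hc _ (fun l => hu l x') _ x' F' F
        (hN.trans (Finset.range_subset_range.2 (le_max_right _ _)))]
      simp only [Prod.mk.injEq, true_and]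
    · rw [if_neg (fun h => hx (Prod.mk.inj h).1)]
      change (inner ℂ (xi (fun l => u l x') (L0 x') (fun S => dl (x', F' ∆ S)))
        (xi (fun l => u l x) (L0 x) (fun S => dl (x, F ∆ S))) : ℂ) = 0
      unfold xi
      rw [sum_inner]
      refine Finset.sum_eq_zero fun S _ => ?_
      rw [inner_smul_left, inner_sum]
      rw [Finset.sum_eq_zero, mul_zero]
      intro T _
      rw [inner_smul_right, inner_dl, if_neg (fun h => hx (Prod.mk.inj h).1), mul_zero]
  have hdl : ∀ y : X × Finset ℕ, dl y ∈ Submodule.span ℂ (Set.range ξ) := by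
    rintro ⟨x, F⟩
    rw [← total hc (fun l => u l x) (fun l => hu l x) (L0 x) x F]
    refine Submodule.sum_mem _ fun S _ => Submodule.smul_mem _ _ ?_
    exact Submodule.subset_span ⟨(x, F ∆ S), rfl⟩
  have hsp : ⊤ ≤ (Submodule.span ℂ (Set.range ξ)).topologicalClosure := by
    let b0 : HilbertBasis (X × Finset ℕ) ℂ (L2 (X × Finset ℕ)) :=
      HilbertBasis.ofRepr (LinearIsometryEquiv.refl ℂ _)
    rw [← b0.dense_span]
    refine Submodule.topologicalClosure_mono (Submodule.span_le.2 ?_)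
    rintro _ ⟨y, rfl⟩
    have : b0 y = dl y := by
      rw [← symm_dl b0 y]
      rfl
    rw [this]
    exact hdl y
  let b : HilbertBasis (X × Finset ℕ) ℂ (L2 (X × Finset ℕ)) := HilbertBasis.mk horth hsp
  let e : L2 (X × Finset ℕ) ≃ₗᵢ[ℂ] L2 (X × Finset ℕ) := b.repr.symm
  have he : ∀ y, e (dl y) = ξ y := by
    intro y
    change b.repr.symm (dl y) = ξ y
    rw [symm_dl b y]
    change (⇑(HilbertBasis.mk horth hsp)) y = ξ y
    rw [HilbertBasis.coe_mk]
  refine ⟨(Unitary.linearIsometryEquiv.symm e : Op (X × Finset ℕ)), ?_, ?_, ?_⟩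
  · exact Unitary.coe_star_mul_self _
  · exact Unitary.coe_mul_star_self _
  · intro x' x F' F L hL hF
    unfold ent
    have h2 : ((Unitary.linearIsometryEquiv.symm e : Op (X × Finset ℕ))) (dl (x, F)) =
        ξ (x, F) := by
      rw [← he (x, F)]
      rfl
    rw [h2, hξ x F L hL]
    exact inner_dl_xi _ L x' x F' F hF

end Pool.Agent.H626R3.CT.T_TUni
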