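import Pool.Agent.H626R3.CT.Stmts

set_option autoImplicit false

open scoped Classical symmDiff

namespace Pool.Agent.H626R3.CT.T_TUni38

open Pool.Agent.H626R3.CT

theorem inner_dl {Y : Type} (y : Y) (f : L2 Y) : inner ℂ (dl y) f = f y := by
  unfold dl
  rw [lp.inner_single_left]
  simp

theorem dl_apply {Y : Type} (y y' : Y) : (dl y : L2 Y) y' = if y' = y then 1 else 0 := by
  unfold dl
  rw [lp.single_apply]
  by_cases h : y' = y
  · subst h; simp
  · simp [h]

theorem cf_one (L : ℕ) (D : Finset ℕ) (hD : D ⊆ Finset.range L) :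
    cf (fun _ => 1) L D = if D = ∅ then 1 else 0 := by
  unfold cf
  by_cases h : D = ∅
  · subst h; simp
  · rw [if_neg h]
    obtain ⟨l, hl⟩ := Finset.nonempty_iff_ne_empty.mpr h
    apply Finset.prod_eq_zero (hD hl)
    simp [hl]

theorem cf_change (w : ℕ → ℂ) (L L' : ℕ) (hL : ∀ l, L ≤ l → w l = 1) (hL' : ∀ l, L' ≤ l → w l = 1)
    (S : Finset ℕ) (hS : S ⊆ Finset.range L) :
    cf w L S = if S ⊆ Finset.range L' then cf w L' S else 0 := by
  by_cases h : S ⊆ Finset.range L'
  · rw [if_pos h]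
    have key : ∀ M N : ℕ, M ≤ N → (∀ l, M ≤ l → w l = 1) → S ⊆ Finset.range M →
        cf w M S = cf w N S := by
      intro M N hMN hM hSM
      unfold cf
      apply Finset.prod_subset
      · intro l hl
        rw [Finset.mem_range] at hl ⊢
        omega
      · intro l _ hl
        rw [Finset.mem_range, not_lt] at hl
        have : l ∉ S := fun hlS => by
          have := hSM hlS
          rw [Finset.mem_range] at this
          omega
        rw [if_neg this, hM l hl]
        norm_num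
    rw [key L (max L L') (le_max_left _ _) hL hS, key L' (max L L') (le_max_right _ _) hL' h]
  · rw [if_neg h]
    obtain ⟨l, hl1, hl2⟩ := Finset.not_subset.mp h
    rw [Finset.mem_range, not_lt] at hl2
    unfold cf
    apply Finset.prod_eq_zero (hS hl1)
    rw [if_pos hl1, hL' l hl2]
    norm_num

theorem symm_sub {S D : Finset ℕ} {L : ℕ} (hS : S ⊆ Finset.range L) :
    S ∆ D ⊆ Finset.range L ↔ D ⊆ Finset.range L := by
  constructor
  · intro h l hl
    by_cases hlS : l ∈ S
    · exact hS hlS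
    · exact h (Finset.mem_symmDiff.mpr (Or.inr ⟨hl, hlS⟩))
  · intro h l hl
    rcases Finset.mem_symmDiff.mp hl with ⟨h1, _⟩ | ⟨h1, _⟩
    · exact hS h1
    · exact h h1

theorem keyK (hconv : TConv) (w : ℕ → ℂ) (hw : ∀ l, ‖w l‖ = 1) (L : ℕ) (D : Finset ℕ) :
    ∑ S ∈ (Finset.range L).powerset, (starRingEnd ℂ) (cf w L S) *
      (if S ∆ D ⊆ Finset.range L then cf w L (S ∆ D) else 0) = if D = ∅ then 1 else 0 := by
  by_cases hD : D ⊆ Finset.range L
  · have h1 := hconv w w L D hD
    have h2 : (fun l => (starRingEnd ℂ) (w l) * w l) = fun _ => (1 : ℂ) := by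
      funext l
      rw [RCLike.conj_mul, hw l]
      simp
    rw [h2, cf_one L D hD] at h1
    rw [← h1]
    apply Finset.sum_congr rfl
    intro S hS
    rw [Finset.mem_powerset] at hS
    rw [if_pos ((symm_sub hS).mpr hD)]
  · have h0 : D ≠ ∅ := by rintro rfl; exact hD (Finset.empty_subset _)
    rw [if_neg h0]
    apply Finset.sum_eq_zero
    intro S hS
    rw [Finset.mem_powerset] at hS
    rw [if_neg (fun h => hD ((symm_sub hS).mp h)), mul_zero]

/-- the image of the basis vector -/
noncomputable def xi {X : Type} (u : ℕ → X → ℂ) (L₀ : X → ℕ) (y : X × Finset ℕ) : L2 (X × Finset ℕ) :=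
  ∑ S ∈ (Finset.range (L₀ y.1)).powerset, cf (fun l => u l y.1) (L₀ y.1) S • dl (y.1, y.2 ∆ S)

theorem xi_apply {X : Type} (u : ℕ → X → ℂ) (L₀ : X → ℕ) (y y' : X × Finset ℕ) :
    (xi u L₀ y : L2 (X × Finset ℕ)) y' = if y'.1 = y.1 ∧ y'.2 ∆ y.2 ⊆ Finset.range (L₀ y.1) then
      cf (fun l => u l y.1) (L₀ y.1) (y'.2 ∆ y.2) else 0 := by
  unfold xi
  rw [lp.coeFn_sum, Finset.sum_apply]
  have h1 : ∀ S ∈ (Finset.range (L₀ y.1)).powerset,
      ((cf (fun l => u l y.1) (L₀ y.1) S • dl (y.1, y.2 ∆ S) : L2 (X × Finset ℕ)) y') =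
      if S = y'.2 ∆ y.2 then (if y'.1 = y.1 then cf (fun l => u l y.1) (L₀ y.1) S else 0) else 0 := by
    intro S _
    rw [lp.coeFn_smul, Pi.smul_apply, dl_apply]
    by_cases hS : S = y'.2 ∆ y.2
    · by_cases hx : y'.1 = y.1
      · have : y' = (y.1, y.2 ∆ S) := by
          refine Prod.ext hx ?_
          show y'.2 = y.2 ∆ S
          rw [hS, symmDiff_comm y'.2 y.2, symmDiff_symmDiff_cancel_left]
        rw [if_pos this, if_pos hS, if_pos hx]
        simp
      · have : ¬ y' = (y.1, y.2 ∆ S) := by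
          intro h
          have h7 := congrArg Prod.fst h
          exact hx h7
        rw [if_neg this, if_pos hS, if_neg hx]
        simp
    · have : ¬ y' = (y.1, y.2 ∆ S) := by
        intro h
        apply hS
        have h2 : y'.2 = y.2 ∆ S := congrArg Prod.snd h
        rw [h2, symmDiff_comm (y.2 ∆ S) y.2, symmDiff_symmDiff_cancel_left]
      rw [if_neg this, if_neg hS]
      simp
  rw [Finset.sum_congr rfl h1, Finset.sum_ite_eq']
  by_cases hx : y'.1 = y.1
  · by_cases hs : y'.2 ∆ y.2 ⊆ Finset.range (L₀ y.1)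
    · rw [if_pos (Finset.mem_powerset.mpr hs), if_pos hx, if_pos ⟨hx, hs⟩]
    · rw [if_neg (fun h => hs (Finset.mem_powerset.mp h)), if_neg (fun h => hs h.2)]
  · simp [hx]

theorem ok : TUni := by
  intro hconv X u hu hL
  choose L₀ hL₀ using hL
  have horth : Orthonormal ℂ (xi u L₀) := by
    rw [orthonormal_iff_ite]
    intro y y'
    have h1 : inner ℂ (xi u L₀ y) (xi u L₀ y') =
        ∑ S ∈ (Finset.range (L₀ y.1)).powerset,
          (starRingEnd ℂ) (cf (fun l => u l y.1) (L₀ y.1) S) *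
            (xi u L₀ y' : L2 (X × Finset ℕ)) (y.1, y.2 ∆ S) := by
      conv_lhs => rw [xi]
      rw [sum_inner]
      apply Finset.sum_congr rfl
      intro S _
      rw [inner_smul_left, inner_dl]
    rw [h1]
    by_cases hx : y.1 = y'.1
    · have h2 := keyK hconv (fun l => u l y.1) (fun l => hu l y.1) (L₀ y.1) (y.2 ∆ y'.2)
      have h3 : (y.2 ∆ y'.2 = ∅) ↔ y = y' := by
        rw [← Finset.bot_eq_empty, symmDiff_eq_bot]
        constructor
        · intro h; exact Prod.ext hx h
        · intro h; rw [h]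
      simp only [h3] at h2
      rw [← h2]
      apply Finset.sum_congr rfl
      intro S _
      rw [xi_apply]
      congr 1
      have h4 : (y.2 ∆ S) ∆ y'.2 = S ∆ (y.2 ∆ y'.2) := by
        rw [symmDiff_comm y.2 S, symmDiff_assoc]
      simp only [h4, ← hx, true_and]
    · have hne : y ≠ y' := fun h => hx (by rw [h])
      rw [if_neg hne]
      apply Finset.sum_eq_zero
      intro S _
      rw [xi_apply, if_neg (fun h => hx h.1), mul_zero]
  have hspan : ∀ y, dl y ∈ Submodule.span ℂ (Set.range (xi u L₀)) := by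
    intro y
    have h1 : dl y = ∑ T ∈ (Finset.range (L₀ y.1)).powerset,
        (starRingEnd ℂ) (cf (fun l => u l y.1) (L₀ y.1) T) • xi u L₀ (y.1, y.2 ∆ T) := by
      apply lp.ext
      funext y'
      rw [dl_apply, lp.coeFn_sum, Finset.sum_apply]
      have h2 : ∀ T, (((starRingEnd ℂ) (cf (fun l => u l y.1) (L₀ y.1) T) •
          xi u L₀ (y.1, y.2 ∆ T) : L2 (X × Finset ℕ)) y') =
          (starRingEnd ℂ) (cf (fun l => u l y.1) (L₀ y.1) T) *
            (if y'.1 = y.1 ∧ y'.2 ∆ (y.2 ∆ T) ⊆ Finset.range (L₀ y.1) then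
              cf (fun l => u l y.1) (L₀ y.1) (y'.2 ∆ (y.2 ∆ T)) else 0) := by
        intro T
        rw [lp.coeFn_smul, Pi.smul_apply, smul_eq_mul, xi_apply]
      simp only [h2]
      by_cases hx : y'.1 = y.1
      · have h3 := keyK hconv (fun l => u l y.1) (fun l => hu l y.1) (L₀ y.1) (y'.2 ∆ y.2)
        have h4 : (y'.2 ∆ y.2 = ∅) ↔ y' = y := by
          rw [← Finset.bot_eq_empty, symmDiff_eq_bot]
          constructor
          · intro h; exact Prod.ext hx h
          · intro h; rw [h]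
        simp only [h4] at h3
        refine Eq.trans ?_ (h3.symm.trans (Finset.sum_congr rfl ?_))
        · split_ifs <;> rfl
        intro T _
        congr 1
        have h5 : y'.2 ∆ (y.2 ∆ T) = T ∆ (y'.2 ∆ y.2) := by
          rw [← symmDiff_assoc, symmDiff_comm T]
        simp only [h5, hx, true_and]
      · have hne : y' ≠ y := fun h => hx (by rw [h])
        rw [if_neg hne]
        symm
        apply Finset.sum_eq_zero
        intro T _
        rw [if_neg (fun h => hx h.1), mul_zero]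
    rw [h1]
    apply Submodule.sum_mem
    intro T _
    apply Submodule.smul_mem
    exact Submodule.subset_span ⟨_, rfl⟩
  have hbot : (Submodule.span ℂ (Set.range (xi u L₀)))ᗮ = ⊥ := by
    rw [Submodule.eq_bot_iff]
    intro f hf
    apply lp.ext
    funext y
    have h1 := (Submodule.mem_orthogonal _ _).mp hf (dl y) (hspan y)
    rw [inner_dl] at h1
    rw [h1]
    rfl
  obtain ⟨H, hH⟩ : ∃ H : HilbertBasis (X × Finset ℕ) ℂ (L2 (X × Finset ℕ)), ⇑H = xi u L₀ :=
    ⟨HilbertBasis.mkOfOrthogonalEqBot horth hbot, HilbertBasis.coe_mkOfOrthogonalEqBot _ _⟩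
  obtain ⟨U, hU⟩ : ∃ U : unitary (Op (X × Finset ℕ)), ∀ f, (U : Op (X × Finset ℕ)) f = H.repr.symm f :=
    ⟨Unitary.linearIsometryEquiv.symm H.repr.symm, fun f => rfl⟩
  refine ⟨U, Unitary.coe_star_mul_self U, Unitary.coe_mul_star_self U, ?_⟩
  intro x' x F' F L hLx hF
  have h1 : ent (U : Op (X × Finset ℕ)) (x', F') (x, F) =
      (xi u L₀ (x, F) : L2 (X × Finset ℕ)) (x', F') := by
    unfold ent
    have h9 : H.repr.symm (dl (x, F)) = H (x, F) := by
      exact @HilbertBasis.repr_symm_single _ _ _ _ _ _ (fun a b => Classical.propDecidable _) H (x, F)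
    rw [hU, inner_dl, h9, hH]
  rw [h1, xi_apply]
  by_cases hx : x' = x
  · rw [if_pos hx, cf_change (fun l => u l x) L (L₀ x) hLx (hL₀ x) (F' ∆ F) hF]
    simp only [hx, true_and]
  · rw [if_neg hx, if_neg (fun h => hx h.1)]

end Pool.Agent.H626R3.CT.T_TUni38
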