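import Pool.Agent.H626R3.CT.Stmts

set_option autoImplicit false

open scoped Classical symmDiff

namespace Pool.Agent.H626R3.CT.T_TUpper

open Pool.Agent.H626R3.CT

theorem path_trans {V : Type} {S : ℕ → V → V → Prop} {l : ℕ} {y z : V} (h2 : Path S l y z) :
    ∀ (k : ℕ) (x : V), Path S k x y → Path S (k + l) x z := by
  induction h2 with
  | nil x => intro k x' h; exact h
  | cons p s ih =>
    intro k x' h
    have h3 := Path.cons (ih k x' h) s
    rename_i k' w' a b c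
    have e : k + (k' + w' + 1) = k + k' + w' + 1 := by ring
    rw [e]
    exact h3

theorem pd_le {V : Type} {S : ℕ → V → V → Prop} {k : ℕ} {x y : V} (h : Path S k x y) :
    pd S x y ≤ k := Nat.sInf_le h

theorem n_pos (i : ℕ) : 0 < n i := by unfold n t; positivity

theorem dist_cast (a b : ℕ) : ((Nat.dist a b : ℕ) : ℝ) = |(a : ℝ) - b| := by
  rcases le_total a b with h | h
  · rw [Nat.dist_eq_sub_of_le h, Nat.cast_sub h, abs_of_nonpos]
    · ring
    · have : (a : ℝ) ≤ b := by exact_mod_cast h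
      linarith
  · rw [Nat.dist_eq_sub_of_le_right h, Nat.cast_sub h, abs_of_nonneg]
    have : (b : ℝ) ≤ a := by exact_mod_cast h
    linarith

/-- the doubled centre for the reflection -/
noncomputable def cen (j C : ℕ) : ℝ := 2 * (2 * ((n j * C : ℕ) : ℝ) + ((n j : ℝ) - 1))

theorem coord (i a b : ℕ) (h : |ce i a - ce i b| ≤ 7 * n i) : |(a : ℝ) - b| ≤ 9 / 2 * n i := by
  unfold ce at h
  have ha : (a : ℝ) = ((n i * (a / n i) : ℕ) : ℝ) + ((a % n i : ℕ) : ℝ) := by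
    exact_mod_cast (Nat.div_add_mod a (n i)).symm
  have hb : (b : ℝ) = ((n i * (b / n i) : ℕ) : ℝ) + ((b % n i : ℕ) : ℝ) := by
    exact_mod_cast (Nat.div_add_mod b (n i)).symm
  have ra : ((a % n i : ℕ) : ℝ) ≤ n i := by exact_mod_cast (Nat.mod_lt a (n_pos i)).le
  have rb : ((b % n i : ℕ) : ℝ) ≤ n i := by exact_mod_cast (Nat.mod_lt b (n_pos i)).le
  have ra0 : (0 : ℝ) ≤ ((a % n i : ℕ) : ℝ) := Nat.cast_nonneg _
  have rb0 : (0 : ℝ) ≤ ((b % n i : ℕ) : ℝ) := Nat.cast_nonneg _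
  have h2 := abs_le.1 h
  rw [abs_le]
  constructor <;> linarith [h2.1, h2.2]

theorem near_d1 (hG : TOnGrid) (i : ℕ) (u v : YY) (h1 : |P1 i u - P1 i v| ≤ 5 * n i)
    (h2 : |P2 i u - P2 i v| ≤ 5 * n i) : d1 u.x v.x ≤ 9 * n i := by
  obtain ⟨-, hu1, hu2⟩ := hG i u
  obtain ⟨-, hv1, hv2⟩ := hG i v
  have ka : |ce i u.x.a - ce i v.x.a| ≤ 7 * n i := by
    have a1 := abs_le.1 hu1
    have a2 := abs_le.1 hv1
    have a3 := abs_le.1 h1
    rw [abs_le]
    constructor <;> linarith [a1.1, a1.2, a2.1, a2.2, a3.1, a3.2]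
  have kb : |ce i u.x.b - ce i v.x.b| ≤ 7 * n i := by
    have a1 := abs_le.1 hu2
    have a2 := abs_le.1 hv2
    have a3 := abs_le.1 h2
    rw [abs_le]
    constructor <;> linarith [a1.1, a1.2, a2.1, a2.2, a3.1, a3.2]
  have c1 := coord i _ _ ka
  have c2 := coord i _ _ kb
  have : ((d1 u.x v.x : ℕ) : ℝ) ≤ ((9 * n i : ℕ) : ℝ) := by
    unfold d1
    push_cast
    rw [dist_cast, dist_cast]
    linarith
  exact_mod_cast this

theorem d1_tri (x y z : XX) : d1 x z ≤ d1 x y + d1 y z := by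
  unfold d1 Nat.dist
  omega

theorem same_trans {i : ℕ} {F G H : Finset ℕ} (h1 : Same i F G) (h2 : Same i G H) : Same i F H :=
  fun l hl => (h1 l hl).trans (h2 l hl)

theorem same_symm {i : ℕ} {F G : Finset ℕ} (h1 : Same i F G) : Same i G F :=
  fun l hl => (h1 l hl).symm

theorem same_diff {i : ℕ} {F G D : Finset ℕ} (h1 : Same i F G) : Same i (F ∆ D) (G ∆ D) := by
  intro l hl
  have h := h1 l hl
  simp only [Finset.mem_symmDiff, h]

theorem refl_div (j a : ℕ) : refl j a / n j = a / n j := by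
  unfold refl
  have h := n_pos j
  have h2 : n j - 1 - a % n j < n j := by omega
  rw [Nat.mul_add_div h, Nat.div_eq_of_lt h2, add_zero]

/-- the invariant along a chain -/
def Inv (i : ℕ) (kd : YY → Fin 3) (fA fB : YY → ℤ) (y0 y : YY) : Prop :=
  (kd y = kd y0 ∧ fA y = fA y0 ∧ fB y = fB y0 ∧ Same i y0.F y.F) ∨
  ∃ (j : ℕ) (z z' : YY), i < j ∧ Anti j z.x z'.x ∧ z'.F = z.F ∆ Finset.range (j + 1) ∧
    Same i y0.F z.F ∧ Same i z'.F y.F ∧ |P1 i z - P1 i y0| ≤ 3 * n i ∧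
    |P2 i z - P2 i y0| ≤ 3 * n i ∧
    ∀ q1 q2, Feat i q1 q2 (kd y0) (fA y0) (fB y0) →
      Feat i (cen j (z.x.a / n j) - q1) (cen j (z.x.b / n j) - q2) (kd y) (fA y) (fB y)

variable (hG : TOnGrid) (hR : TMoveRefl) (hA : TAnti) (hH : THole) (i : ℕ)
    (kd : YY → Fin 3) (fA fB : YY → ℤ)
    (hf : ∀ y, Feat i (P1 i y) (P2 i y) (kd y) (fA y) (fB y))
    (hF2 : ∀ p1 p2 q1 q2 kind kind' A B A' B', Feat i p1 p2 kind A B → Feat i q1 q2 kind' A' B' →
      |p1 - q1| ≤ n i / 8 → |p2 - q2| ≤ n i / 8 → (kind = 0 ↔ kind' = 0) →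
      kind = kind' ∧ A = A' ∧ B = B')
    (hF3 : ∀ p1 p2 q1 q2 kind A B, Feat i p1 p2 kind A B → Feat i q1 q2 kind A B →
      |p1 - q1| ≤ 2 * n i ∧ |p2 - q2| ≤ 2 * n i)
    (hF4 : ∀ (j : ℕ) (C D : ℕ), i < j → ∀ p1 p2 kind A B, Feat i p1 p2 kind A B →
      ∃ A' B' : ℤ, (∀ q1 q2, Feat i q1 q2 kind A B →
        Feat i (2 * (2 * (n j * C : ℕ) + ((n j : ℝ) - 1)) - q1)
          (2 * (2 * (n j * D : ℕ) + ((n j : ℝ) - 1)) - q2) kind A' B'))

include hR hf hF2 hF4 in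
theorem cross_feat (y y' w w' : YY) (j : ℕ) (hj : i < j) (hc : kd y = 0 ↔ kd y' = 0)
    (h1 : Cl i (1 / 16) y w) (h2 : Anti j w.x w'.x) (h3 : w'.F = w.F ∆ Finset.range (j + 1))
    (h4 : Cl i (1 / 16) w' y') :
    ∀ q1 q2, Feat i q1 q2 (kd y) (fA y) (fB y) →
      Feat i (cen j (w.x.a / n j) - q1) (cen j (w.x.b / n j) - q2) (kd y') (fA y') (fB y') := by
  obtain ⟨A', B', hAB⟩ := hF4 j (w.x.a / n j) (w.x.b / n j) hj _ _ _ _ _ (hf y)
  obtain ⟨r1, r2⟩ := hR i j w w' hj h2 h3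
  obtain ⟨a1, a2, -, -⟩ := h1
  obtain ⟨b1, b2, -, -⟩ := h4
  have hP := hAB _ _ (hf y)
  have a1' := abs_le.1 a1
  have a2' := abs_le.1 a2
  have b1' := abs_le.1 b1
  have b2' := abs_le.1 b2
  have key := hF2 _ _ _ _ _ _ _ _ _ _ hP (hf y') (by
      rw [r1] at b1'
      rw [abs_le]
      constructor <;> linarith [a1'.1, a1'.2, b1'.1, b1'.2]) (by
      rw [r2] at b2'
      rw [abs_le]
      constructor <;> linarith [a2'.1, a2'.2, b2'.1, b2'.2]) hc
  obtain ⟨k1, k2, k3⟩ := key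
  intro q1 q2 hq
  have := hAB q1 q2 hq
  rw [k1, k2, k3] at this
  exact this

include hG hR hA hH hf hF2 hF3 hF4 in
theorem step_inv (y0 y y' : YY) (hc : kd y = 0 ↔ kd y' = 0) (hc0 : kd y0 = 0 ↔ kd y' = 0)
    (hs : Cl i (1 / 16) y y' ∨ ∃ j z z', i < j ∧ Cl i (1 / 16) y z ∧ Anti j z.x z'.x ∧
      z'.F = z.F ∆ Finset.range (j + 1) ∧ Cl i (1 / 16) z' y')
    (hinv : Inv i kd fA fB y0 y) : Inv i kd fA fB y0 y' := by
  have hn : (0 : ℝ) < n i := by exact_mod_cast n_pos i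
  rcases hs with h | ⟨j, w, w', hj, h1, h2, h3, h4⟩
  · obtain ⟨c1, c2, c3, -⟩ := h
    obtain ⟨k1, k2, k3⟩ := hF2 _ _ _ _ _ _ _ _ _ _ (hf y) (hf y') (c1.trans (by linarith))
      (c2.trans (by linarith)) hc
    rcases hinv with ⟨e1, e2, e3, e4⟩ | ⟨j, z, z', g1, g2, g3, g4, g5, g6, g7, g8⟩
    · exact Or.inl ⟨by rw [← k1, e1], by rw [← k2, e2], by rw [← k3, e3], same_trans e4 c3⟩
    · refine Or.inr ⟨j, z, z', g1, g2, g3, g4, same_trans g5 c3, g6, g7, fun q1 q2 hq => ?_⟩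
      have := g8 q1 q2 hq
      rw [k1, k2, k3] at this
      exact this
  · have hcf := cross_feat hR i kd fA fB hf hF2 hF4 y y' w w' j hj hc h1 h2 h3 h4
    rcases hinv with ⟨e1, e2, e3, e4⟩ | ⟨j0, z, z', g1, g2, g3, g4, g5, g6, g7, g8⟩
    · refine Or.inr ⟨j, w, w', hj, h2, h3, same_trans e4 h1.2.2.1, h4.2.2.1, ?_, ?_, ?_⟩
      · have a1 := abs_le.1 h1.1
        have a2 := hf y
        rw [e1, e2, e3] at a2
        have a3 := abs_le.1 (hF3 _ _ _ _ _ _ _ a2 (hf y0)).1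
        rw [abs_le]
        constructor <;> linarith [a1.1, a1.2, a3.1, a3.2]
      · have a1 := abs_le.1 h1.2.1
        have a2 := hf y
        rw [e1, e2, e3] at a2
        have a3 := abs_le.1 (hF3 _ _ _ _ _ _ _ a2 (hf y0)).2
        rw [abs_le]
        constructor <;> linarith [a1.1, a1.2, a3.1, a3.2]
      · rw [← e1, ← e2, ← e3]
        exact hcf
    · -- two crossings: the same hole
      obtain ⟨r1, r2⟩ := hR i j0 z z' g1 g2 g3
      have f1 := hF3 _ _ _ _ _ _ _ (g8 _ _ (hf y0)) (hf y)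
      have f11 := abs_le.1 f1.1
      have f12 := abs_le.1 f1.2
      have g6' := abs_le.1 g6
      have g7' := abs_le.1 g7
      have d0 : d1 z'.x y.x ≤ 9 * n i := by
        apply near_d1 hG
        · rw [r1, abs_le]
          unfold cen at f11
          constructor <;> linarith [f11.1, f11.2, g6'.1, g6'.2]
        · rw [r2, abs_le]
          unfold cen at f12
          constructor <;> linarith [f12.1, f12.2, g7'.1, g7'.2]
      have d2 : d1 z'.x w.x ≤ 20 * n i := by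
        have := d1_tri z'.x y.x w.x
        have h5 := h1.2.2.2
        omega
      obtain ⟨hjj, q1, q2⟩ := hH i j0 j z'.x z.x w.x w'.x g1 hj (hA.1 _ _ _ g2) h2 d2
      subst hjj
      have e1 : z'.x.a / n j0 = z.x.a / n j0 := by rw [g2.2.2.1, refl_div]
      have e2 : z'.x.b / n j0 = z.x.b / n j0 := by rw [g2.2.2.2, refl_div]
      have hq := hcf _ _ (g8 _ _ (hf y0))
      rw [← q1, ← q2, e1, e2, sub_sub_cancel, sub_sub_cancel] at hq
      obtain ⟨k1, k2, k3⟩ := hF2 _ _ _ _ _ _ _ _ _ _ (hf y0) hq (by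
        rw [sub_self, abs_zero]; positivity) (by rw [sub_self, abs_zero]; positivity) hc0
      refine Or.inl ⟨k1.symm, k2.symm, k3.symm, ?_⟩
      have s1 : Same i z'.F w.F := same_trans g5 h1.2.2.1
      have s2 : Same i (z'.F ∆ Finset.range (j0 + 1)) (w.F ∆ Finset.range (j0 + 1)) := same_diff s1
      rw [← h3, g3, symmDiff_symmDiff_cancel_right] at s2
      exact same_trans g4 (same_trans s2 h4.2.2.1)

include hG hR hf hF3 in
theorem inv_bound (hB : TBdd) (y0 y : YY) (h : Inv i kd fA fB y0 y) :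
    ∃ k, k ≤ 2 * (9 * n i + 1 + (i + 1) * (i + 1)) + 1 ∧ Path SY k y0 y := by
  have hn : (0 : ℝ) < n i := by exact_mod_cast n_pos i
  rcases h with ⟨e1, e2, e3, e4⟩ | ⟨j, z, z', g1, g2, g3, g4, g5, g6, g7, g8⟩
  · have a2 := hf y
    rw [e1, e2, e3] at a2
    have a3 := hF3 _ _ _ _ _ _ _ (hf y0) a2
    have d0 : d1 y0.x y.x ≤ 9 * n i :=
      near_d1 hG i y0 y (a3.1.trans (by linarith)) (a3.2.trans (by linarith))
    obtain ⟨k, hk, hp⟩ := hB i y0 y e4
    exact ⟨k, by omega, hp⟩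
  · obtain ⟨r1, r2⟩ := hR i j z z' g1 g2 g3
    have f1 := hF3 _ _ _ _ _ _ _ (g8 _ _ (hf y0)) (hf y)
    have f11 := abs_le.1 f1.1
    have f12 := abs_le.1 f1.2
    have g6' := abs_le.1 g6
    have g7' := abs_le.1 g7
    have d0 : d1 z'.x y.x ≤ 9 * n i := by
      apply near_d1 hG
      · rw [r1, abs_le]
        unfold cen at f11
        constructor <;> linarith [f11.1, f11.2, g6'.1, g6'.2]
      · rw [r2, abs_le]
        unfold cen at f12
        constructor <;> linarith [f12.1, f12.2, g7'.1, g7'.2]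
    have d3 : d1 y0.x z.x ≤ 9 * n i := by
      apply near_d1 hG
      · rw [abs_sub_comm]; exact g6.trans (by linarith)
      · rw [abs_sub_comm]; exact g7.trans (by linarith)
    obtain ⟨k1, hk1, hp1⟩ := hB i y0 z g4
    obtain ⟨k2, hk2, hp2⟩ := hB i z' y g5
    have hst : SY 0 z z' := Or.inr (Or.inl ⟨j, g2, g3⟩)
    have hp := path_trans hp2 _ _ (Path.cons hp1 hst)
    exact ⟨_, by omega, hp⟩

theorem ok : TUpper := by
  intro hG hPath hStep hIn hBd hAn hR hA hGr hH hB hFe _ hd R hRpos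
  obtain ⟨i0, hi0⟩ := hPath hG hStep hIn hBd hAn hR hA hH ⌊R⌋₊ (1 / 16) (by norm_num)
  set i := i0 with hi
  obtain ⟨hF1, hF2, hF3, hF4⟩ := hFe hG i
  choose kd fA fB hf using hF1
  let st : YY → YY → Prop := fun u v => (kd u = 0 ↔ kd v = 0) ∧ dist u v ≤ R
  have hsym : ∀ u v, st u v → st v u := fun u v h => ⟨h.1.symm, by rw [dist_comm]; exact h.2⟩
  have hrs : ∀ u v, Relation.ReflTransGen st u v → Relation.ReflTransGen st v u := by
    intro u v h
    induction h with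
    | refl => exact Relation.ReflTransGen.refl
    | tail _ h2 ih => exact Relation.ReflTransGen.head (hsym _ _ h2) ih
  have hcol : ∀ u v, Relation.ReflTransGen st u v → (kd u = 0 ↔ kd v = 0) := by
    intro u v h
    induction h with
    | refl => exact Iff.rfl
    | tail _ h2 ih => exact ih.trans h2.1
  have hinv : ∀ u v, Relation.ReflTransGen st u v → Inv i kd fA fB u v := by
    intro u v h
    induction h with
    | refl => exact Or.inl ⟨rfl, rfl, rfl, fun l _ => Iff.rfl⟩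
    | @tail b c h1 h2 ih =>
      refine step_inv hG hR hA hH i kd fA fB hf hF2 hF3 hF4 u b c h2.1
        ((hcol u b h1).trans h2.1) ?_ ih
      have h3 : pd SY b c ≤ ⌊R⌋₊ := by
        apply Nat.le_floor
        rw [← hd]
        exact h2.2
      exact hi0 i le_rfl b c h3 (hGr hA |>.2.2.2.1 b c)
  have hcls : ∀ u v, Relation.ReflTransGen st u v →
      {z | Relation.ReflTransGen st u z} = {z | Relation.ReflTransGen st v z} := by
    intro u v h
    ext z
    have h' : Relation.ReflTransGen st v u := hrs u v h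
    exact ⟨fun h1 => h'.trans h1, fun h1 => h.trans h1⟩
  refine ⟨fun c => {A | ∃ y, ((kd y = 0) ↔ c = 0) ∧ A = {z | Relation.ReflTransGen st y z}},
    ⟨((2 * (9 * n i + 1 + (i + 1) * (i + 1)) + 1 : ℕ) : ℝ), ?_⟩, ?_, ?_⟩
  · rintro c A ⟨y, -, rfl⟩ a ha b hb
    have hab : Relation.ReflTransGen st a b :=
      (hrs _ _ ha).trans hb
    obtain ⟨k, hk, hp⟩ := inv_bound hG hR i kd fA fB hf hF3 hB a b (hinv a b hab)
    rw [hd]
    exact_mod_cast (pd_le hp).trans hk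
  · intro z
    by_cases h : kd z = 0
    · exact ⟨0, _, ⟨z, by simp [h], rfl⟩, Relation.ReflTransGen.refl⟩
    · exact ⟨1, _, ⟨z, by simp [h], rfl⟩, Relation.ReflTransGen.refl⟩
  · rintro c A ⟨y, hy, rfl⟩ B ⟨y', hy', rfl⟩ hne a ha b hb
    by_contra hcon
    rw [not_lt] at hcon
    apply hne
    have h1 : st a b := ⟨(hcol y a ha).symm.trans (hy.trans (hy'.symm.trans (hcol y' b hb))), hcon⟩
    rw [hcls y a ha, hcls y' b hb]
    exact hcls a b (Relation.ReflTransGen.single h1)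

end Pool.Agent.H626R3.CT.T_TUpper
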