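import Pool.Agent.H626R3.CT.Stmts

set_option autoImplicit false

namespace Pool.Agent.H626R3.CT.T_TWave

open Pool.Agent.H626R3.CT

lemma t_pos (l : ℕ) : 0 < t l := by unfold t; positivity

lemma n_pos (l : ℕ) : 0 < n l := by have := t_pos l; unfold n; omega

lemma n_dvd {l j : ℕ} (h : l ≤ j) : ∃ m : ℕ, n j = n l * m ∧ Odd m := by
  refine ⟨3 ^ ((2 * (j + 1) ^ 2 - 1) - (2 * (l + 1) ^ 2 - 1)), ?_, ?_⟩
  · unfold n t
    have h1 : (2 * (l + 1) ^ 2 - 1) ≤ (2 * (j + 1) ^ 2 - 1) := by
      have : (l + 1) ^ 2 ≤ (j + 1) ^ 2 := Nat.pow_le_pow_left (by omega) 2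
      omega
    rw [mul_assoc, ← pow_add, Nat.add_sub_cancel' h1]
  · exact Odd.pow (by decide)

/-- the clamp -/
lemma clamp_lip (x y : ℝ) : |max (-1) (min 1 x) - max (-1) (min 1 y)| ≤ |x - y| := by
  have h1 := abs_max_sub_max_le_abs (min 1 x) (min 1 y) (-1 : ℝ)
  have h2 := abs_min_sub_min_le_max 1 x 1 y
  rw [sub_self, abs_zero] at h2
  rw [max_comm (-1 : ℝ), max_comm (-1 : ℝ)]
  refine h1.trans (h2.trans ?_)
  simp

lemma th_eq_one {l r : ℕ} (h : r < t l) : th l r = 1 := by
  have ht : (0 : ℝ) < t l := by exact_mod_cast t_pos l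
  have h1 : (r : ℝ) + 1 ≤ t l := by exact_mod_cast h
  have h2 : (1 : ℝ) ≤ ((3 : ℝ) * (t l : ℝ) - 1 - 2 * (r : ℝ)) / (t l : ℝ) := by
    rw [le_div_iff₀ ht]; linarith
  unfold th
  rw [min_eq_left h2]
  norm_num

lemma th_eq_neg {l r : ℕ} (h : 2 * t l ≤ r) : th l r = -1 := by
  have ht : (0 : ℝ) < t l := by exact_mod_cast t_pos l
  have h1 : 2 * (t l : ℝ) ≤ r := by exact_mod_cast h
  have h2 : ((3 : ℝ) * (t l : ℝ) - 1 - 2 * (r : ℝ)) / (t l : ℝ) ≤ -1 := by
    rw [div_le_iff₀ ht]; linarith
  unfold th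
  rw [min_eq_right (by linarith), max_eq_left h2]

lemma th_odd {l v : ℕ} (h : v < n l) : th l (n l - 1 - v) = - th l v := by
  have ht : (0 : ℝ) < t l := by exact_mod_cast t_pos l
  have h1 : ((n l - 1 - v : ℕ) : ℝ) = 3 * (t l : ℝ) - 1 - v := by
    have h2 : n l - 1 - v + (v + 1) = 3 * t l := by unfold n at h ⊢; omega
    have h3 : ((n l - 1 - v : ℕ) : ℝ) + (v + 1) = 3 * (t l : ℝ) := by exact_mod_cast h2
    linarith
  unfold th
  rw [h1]
  have h4 : ((3 : ℝ) * (t l : ℝ) - 1 - 2 * (3 * (t l : ℝ) - 1 - v)) / (t l : ℝ) =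
      -(((3 : ℝ) * (t l : ℝ) - 1 - 2 * (v : ℝ)) / (t l : ℝ)) := by
    rw [← neg_div]
    congr 1
    ring
  rw [h4]
  set z := ((3 : ℝ) * (t l : ℝ) - 1 - 2 * (v : ℝ)) / (t l : ℝ)
  rcases le_total z (-1) with hz | hz
  · rw [min_eq_left (by linarith), max_eq_right (by norm_num), min_eq_right (by linarith),
      max_eq_left hz]
    norm_num
  · rcases le_total z 1 with hz' | hz'
    · rw [min_eq_right (by linarith), max_eq_right (by linarith), min_eq_right hz',
        max_eq_right hz]
    · rw [min_eq_right (by linarith), max_eq_left (by linarith), min_eq_left hz',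
        max_eq_right (by norm_num)]

lemma step (l a : ℕ) : |pw l (a + 1) - pw l a| ≤ 2 / t l := by
  have ht : (0 : ℝ) < t l := by exact_mod_cast t_pos l
  have hn := n_pos l
  have hlt := Nat.mod_lt a hn
  by_cases h : a % n l + 1 < n l
  · have h1 : (a + 1) % n l = a % n l + 1 := by
      rw [Nat.add_mod, Nat.mod_eq_of_lt (by omega : 1 < n l), Nat.mod_eq_of_lt h]
    have h2 : (a + 1) / n l = a / n l := by
      have e1 := Nat.div_add_mod a (n l)
      have e2 := Nat.div_add_mod (a + 1) (n l)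
      rw [h1] at e2
      have : n l * ((a + 1) / n l) = n l * (a / n l) := by omega
      exact Nat.eq_of_mul_eq_mul_left hn this
    unfold pw
    rw [h1, h2, ← mul_sub, abs_mul, abs_pow, abs_neg, abs_one, one_pow, one_mul]
    unfold th
    refine (clamp_lip _ _).trans ?_
    rw [← sub_div, abs_div, abs_of_pos ht]
    apply div_le_div_of_nonneg_right _ ht.le
    push_cast
    have : (3 * (t l : ℝ) - 1 - 2 * ((a % n l : ℕ) + 1)) - (3 * (t l : ℝ) - 1 - 2 * ((a % n l : ℕ) : ℝ)) = -2 := by
      ring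
    rw [this]
    norm_num
  · have h0 : a % n l + 1 = n l := by omega
    have h1 : (a + 1) % n l = 0 := by
      rw [Nat.add_mod]
      rcases Nat.lt_or_ge 1 (n l) with h1 | h1
      · rw [Nat.mod_eq_of_lt h1, h0, Nat.mod_self]
      · have : n l = 1 := by omega
        rw [this, Nat.mod_one]
    have h2 : (a + 1) / n l = a / n l + 1 := by
      have e1 := Nat.div_add_mod a (n l)
      have e2 := Nat.div_add_mod (a + 1) (n l)
      rw [h1] at e2
      have : n l * ((a + 1) / n l) = n l * (a / n l + 1) := by rw [mul_add, mul_one]; omega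
      exact Nat.eq_of_mul_eq_mul_left hn this
    unfold pw
    have htl := t_pos l
    rw [h1, h2, th_eq_one htl, th_eq_neg (r := a % n l) (by unfold n at h0 ⊢; omega), pow_succ]
    have : (-1 : ℝ) ^ (a / n l) * -1 * 1 - (-1) ^ (a / n l) * -1 = 0 := by ring
    rw [this, abs_zero]
    positivity

lemma lip_add (l a d : ℕ) : |pw l (a + d) - pw l a| ≤ 2 * (d : ℝ) / t l := by
  induction d with
  | zero => simp
  | succ d ih =>
    have h1 := step l (a + d)
    have h2 : pw l (a + (d + 1)) - pw l a = (pw l (a + d + 1) - pw l (a + d)) +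
        (pw l (a + d) - pw l a) := by
      rw [← add_assoc]; ring
    rw [h2]
    refine (abs_add_le _ _).trans ((add_le_add h1 ih).trans ?_)
    rw [← add_div]
    push_cast
    apply le_of_eq
    congr 1
    ring

theorem ok : Pool.Agent.H626R3.CT.TWave := by
  refine ⟨?_, ?_, ?_, ?_⟩
  · intro l a b
    rcases le_total a b with h | h
    · obtain ⟨d, rfl⟩ := Nat.exists_eq_add_of_le h
      rw [abs_sub_comm, Nat.dist_eq_sub_of_le h, Nat.add_sub_cancel_left]
      exact lip_add l a d
    · obtain ⟨d, rfl⟩ := Nat.exists_eq_add_of_le h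
      rw [Nat.dist_comm, Nat.dist_eq_sub_of_le h, Nat.add_sub_cancel_left]
      exact lip_add l b d
  · intro l j a hlj
    obtain ⟨m, hm, hodd⟩ := n_dvd hlj
    have hn := n_pos l
    have hnj := n_pos j
    set q := a / n j with hq
    set r := a % n j with hr
    have hrlt : r < n j := Nat.mod_lt _ hnj
    have ha : a = n j * q + r := (Nat.div_add_mod a (n j)).symm
    set u := r / n l with hu
    set v := r % n l with hv
    have hvlt : v < n l := Nat.mod_lt _ hn
    have hr2 : r = n l * u + v := (Nat.div_add_mod r (n l)).symm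
    have hum : u < m := by
      by_contra hc
      push Not at hc
      have : n l * m ≤ n l * u := Nat.mul_le_mul_left _ hc
      omega
    have ea : a = n l * (m * q + u) + v := by rw [ha, hr2, hm]; ring
    have er : refl j a = n l * (m * q + (m - 1 - u)) + (n l - 1 - v) := by
      unfold refl
      rw [← hq, ← hr]
      have h1 : n l * m = n l * (m - 1 - u) + n l * u + n l := by
        have : m = (m - 1 - u) + u + 1 := by omega
        calc n l * m = n l * ((m - 1 - u) + u + 1) := by rw [← this]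
          _ = _ := by ring
      have h2 : n j * q = n l * (m * q) := by rw [hm]; ring
      have h3 : n l * (m * q + (m - 1 - u)) = n l * (m * q) + n l * (m - 1 - u) := by ring
      rw [h3, h2]
      rw [hm] at hrlt ⊢
      omega
    have da : a / n l = m * q + u := by
      rw [ea, Nat.mul_add_div hn, Nat.div_eq_of_lt hvlt, add_zero]
    have ma : a % n l = v := by
      rw [ea, Nat.mul_add_mod, Nat.mod_eq_of_lt hvlt]
    have hw : n l - 1 - v < n l := by omega
    have dr : refl j a / n l = m * q + (m - 1 - u) := by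
      rw [er, Nat.mul_add_div hn, Nat.div_eq_of_lt hw, add_zero]
    have mr : refl j a % n l = n l - 1 - v := by
      rw [er, Nat.mul_add_mod, Nat.mod_eq_of_lt hw]
    unfold pw
    rw [da, ma, dr, mr, th_odd hvlt]
    have hpar : (-1 : ℝ) ^ (m * q + (m - 1 - u)) = (-1) ^ (m * q + u) := by
      rw [pow_add, pow_add]
      congr 1
      obtain ⟨e, he⟩ := hodd
      have h1 : m - 1 - u + u = 2 * e := by omega
      have h2 : (-1 : ℝ) ^ (m - 1 - u) * (-1) ^ u = 1 := by
        rw [← pow_add, h1, pow_mul]; norm_num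
      rcases neg_one_pow_eq_or ℝ u with h | h
      · rw [h] at h2 ⊢; linarith
      · rw [h] at h2 ⊢; linarith
    rw [hpar]
    ring
  · intro l a ha
    have hn := n_pos l
    have h1 : a < n l := by unfold n; omega
    unfold pw
    rw [Nat.div_eq_of_lt h1, Nat.mod_eq_of_lt h1, th_eq_one ha]
    norm_num
  · intro l a ha
    unfold pw
    rw [abs_mul, abs_pow, abs_neg, abs_one, one_pow, one_mul]
    unfold mid at ha
    by_cases h : a % n l < t l
    · rw [th_eq_one h]; norm_num
    · rw [th_eq_neg (by omega)]; norm_num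

end Pool.Agent.H626R3.CT.T_TWave
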